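import Pool.Agent.H54.C32.Defs
import Pool.Agent.H54.C32.Spec
import Pool.Agent.H54.C32.Rows
import Pool.Agent.H54.C32.Finals

open Finset Matrix Pool.Agent.H170R2

namespace Pool.Agent.H54.C32

/-! ### Laplacians -/

/-- The weighted Laplacian of a weight function. -/
def lapM {v : ℕ} (W : Fin v → Fin v → ℕ) : Matrix (Fin v) (Fin v) ℝ :=
  diagonal (fun i => ∑ j, (W i j : ℝ)) - Matrix.of fun i j => (W i j : ℝ)

section comp
variable {v : ℕ} {W : Fin v → Fin v → ℕ}

lemma lap_mulVec (W : Fin v → Fin v → ℕ) (f : Fin v → ℝ) (i : Fin v) :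
    (lapM W *ᵥ f) i = (∑ j, (W i j : ℝ)) * f i - ∑ j, (W i j : ℝ) * f j := by
  have h : lapM W *ᵥ f = diagonal (fun i => ∑ j, (W i j : ℝ)) *ᵥ f -
      (Matrix.of fun i j => (W i j : ℝ)) *ᵥ f := by
    rw [lapM, sub_mulVec]
  rw [h, Pi.sub_apply, mulVec_diagonal]
  rfl

lemma quad_form (hsymm : ∀ i j, W i j = W j i) (f : Fin v → ℝ) :
    f ⬝ᵥ (lapM W *ᵥ f) = (∑ i, ∑ j, (W i j : ℝ) * (f i - f j) ^ 2) / 2 := by
  have e1 : f ⬝ᵥ (lapM W *ᵥ f) = ∑ i, ∑ j, ((W i j : ℝ) * f i ^ 2 - (W i j : ℝ) * f i * f j) := by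
    simp only [dotProduct]
    refine sum_congr rfl fun i _ => ?_
    rw [lap_mulVec, sum_sub_distrib, ← sum_mul, mul_sub, mul_sum]
    congr 1
    · ring
    · exact sum_congr rfl fun j _ => by ring
  have e2 : ∑ i, ∑ j, (W i j : ℝ) * (f i - f j) ^ 2 =
      ∑ i, ∑ j, ((W i j : ℝ) * f i ^ 2 - (W i j : ℝ) * f i * f j) +
      ∑ i, ∑ j, ((W j i : ℝ) * f j ^ 2 - (W j i : ℝ) * f j * f i) := by
    rw [← sum_add_distrib]
    refine sum_congr rfl fun i _ => ?_
    rw [← sum_add_distrib]
    refine sum_congr rfl fun j _ => ?_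
    rw [hsymm j i]; ring
  have e3 : ∑ i, ∑ j, ((W j i : ℝ) * f j ^ 2 - (W j i : ℝ) * f j * f i) =
      ∑ i, ∑ j, ((W i j : ℝ) * f i ^ 2 - (W i j : ℝ) * f i * f j) := by
    rw [sum_comm]
  rw [e1, e2, e3]; ring

lemma lap_one (W : Fin v → Fin v → ℕ) : lapM W *ᵥ (fun _ => (1 : ℝ)) = 0 := by
  ext i
  rw [lap_mulVec]
  simp

end comp

lemma eig_facts {v : ℕ} (hv : 0 < v) {W : Fin v → Fin v → ℕ} (hsymm : ∀ i j, W i j = W j i)
    (hconn : ∀ f : Fin v → ℝ, (∀ i j, 0 < W i j → f i = f j) → ∀ i j, f i = f j)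
    {x : Fin v → ℝ} {U : Matrix (Fin v) (Fin v) ℝ} (h0 : U * Uᵀ = 1) (h1 : Uᵀ * U = 1)
    (hL : lapM W = U * diagonal x * Uᵀ) : ∃ i0, x i0 = 0 ∧ ∀ i, i ≠ i0 → 0 < x i := by
  have hquad : ∀ i, x i = (∑ a, ∑ b, (W a b : ℝ) * (U a i - U b i) ^ 2) / 2 := by
    intro i
    have h2 := quad_form hsymm (fun a => U a i)
    rw [Spec.col_eig h1 hL i, dotProduct_smul, Spec.col_orth h1, if_pos rfl, smul_eq_mul,
      mul_one] at h2
    exact h2
  have hnn : ∀ i, 0 ≤ x i := by
    intro i
    rw [hquad i]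
    positivity
  have hconst : ∀ i, x i = 0 → ∀ a b, U a i = U b i := by
    intro i hi
    rw [hquad i] at hi
    have h2 : ∑ a, ∑ b, (W a b : ℝ) * (U a i - U b i) ^ 2 = 0 := by linarith
    rw [sum_eq_zero_iff_of_nonneg (fun a _ => sum_nonneg fun b _ => by positivity)] at h2
    apply hconn
    intro a b hab
    have h3 := h2 a (mem_univ a)
    rw [sum_eq_zero_iff_of_nonneg (fun b _ => by positivity)] at h3
    have h4 := h3 b (mem_univ b)
    have h5 : (0 : ℝ) < W a b := by exact_mod_cast hab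
    have h6 : (U a i - U b i) ^ 2 = 0 := by
      rcases mul_eq_zero.1 h4 with h | h
      · linarith
      · exact h
    have h7 := pow_eq_zero_iff (two_ne_zero) |>.1 h6
    linarith
  have hdet : (lapM W).det = 0 := by
    apply Matrix.exists_mulVec_eq_zero_iff.1
    refine ⟨fun _ => 1, ?_, lap_one W⟩
    intro h
    have := congrFun h ⟨0, hv⟩
    simp at this
  rw [Spec.det_conj h0 hL, prod_eq_zero_iff] at hdet
  obtain ⟨i0, _, hi0⟩ := hdet
  refine ⟨i0, hi0, fun i hi => lt_of_le_of_ne (hnn i) fun h => ?_⟩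
  have c1 := hconst i h.symm
  have c2 := hconst i0 hi0
  have o1 := Spec.col_orth h1 i i0
  have o2 := Spec.col_orth h1 i i
  have o3 := Spec.col_orth h1 i0 i0
  rw [if_neg hi] at o1
  rw [if_pos rfl] at o2 o3
  simp only [dotProduct] at o1 o2 o3
  rw [sum_congr rfl fun a _ => by rw [c1 a ⟨0, hv⟩, c2 a ⟨0, hv⟩], sum_const] at o1
  rw [sum_congr rfl fun a _ => by rw [c1 a ⟨0, hv⟩], sum_const] at o2
  rw [sum_congr rfl fun a _ => by rw [c2 a ⟨0, hv⟩], sum_const] at o3
  simp only [card_univ, Fintype.card_fin, nsmul_eq_mul] at o1 o2 o3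
  have hv' : (v : ℝ) ≠ 0 := by exact_mod_cast hv.ne'
  rcases mul_eq_zero.1 o1 with h | h
  · exact hv' h
  · rcases mul_eq_zero.1 h with h | h
    · rw [h] at o2; norm_num at o2
    · rw [h] at o3; norm_num at o3

/-! ### from designs to weights -/

section glue
variable {v b k : ℕ}

/-- The off-diagonal concurrences. -/
def wt (d : Design v b k) (i j : Fin v) : ℕ := if i = j then 0 else d.conc i j

lemma conc_symm (d : Design v b k) (i j : Fin v) : d.conc i j = d.conc j i := by
  unfold Design.conc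
  exact sum_congr rfl fun B _ => mul_comm _ _

lemma wt_symm (d : Design v b k) (i j : Fin v) : wt d i j = wt d j i := by
  unfold wt
  by_cases h : i = j
  · simp [h]
  · rw [if_neg h, if_neg (Ne.symm h), conc_symm]

lemma wt_diag (d : Design v b k) (i : Fin v) : wt d i i = 0 := by simp [wt]

lemma sum_conc (d : Design v b k) (i : Fin v) : ∑ j, d.conc i j = k * d.rep i := by
  unfold Design.conc Design.rep
  rw [sum_comm, mul_sum]
  refine sum_congr rfl fun B _ => ?_
  rw [← mul_sum, d.size B]; ring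

lemma sum_wt (d : Design v b k) (i : Fin v) :
    ∑ j, wt d i j + d.conc i i = k * d.rep i := by
  rw [← sum_conc]
  have e : ∀ j, d.conc i j = wt d i j + if j = i then d.conc i i else 0 := by
    intro j
    unfold wt
    by_cases h : i = j
    · subst h; simp
    · rw [if_neg h, if_neg (Ne.symm h), add_zero]
  rw [sum_congr rfl fun j _ => e j, sum_add_distrib]
  simp

lemma info_eq (hk : 0 < k) (d : Design v b k) : (k : ℝ) • d.info = lapM (wt d) := by
  have hk' : (k : ℝ) ≠ 0 := by exact_mod_cast hk.ne'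
  ext i j
  have hNN : (d.incid * d.incidᵀ) i j = (d.conc i j : ℝ) := by
    rw [Matrix.mul_apply]
    simp [Design.incid, Design.conc]
  have h1 : ((k : ℝ) • d.info) i j =
      (if i = j then k * (d.rep i : ℝ) else 0) - (d.conc i j : ℝ) := by
    rw [Matrix.smul_apply, Design.info, Matrix.sub_apply, Matrix.smul_apply, hNN, diagonal_apply,
      smul_eq_mul, smul_eq_mul, mul_sub, ← mul_assoc, mul_inv_cancel₀ hk', one_mul]
    split_ifs <;> ring
  rw [h1, lapM, Matrix.sub_apply, diagonal_apply, of_apply]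
  by_cases h : i = j
  · subst h
    rw [if_pos rfl, if_pos rfl, wt_diag]
    have h2 : ((∑ j, wt d i j : ℕ) : ℝ) + (d.conc i i : ℝ) = k * (d.rep i : ℝ) := by
      exact_mod_cast sum_wt d i
    push_cast at h2 ⊢
    linarith
  · rw [if_neg h, if_neg h, wt, if_neg h]

lemma info_eq' (hk : 0 < k) (d : Design v b k) : d.info = (k : ℝ)⁻¹ • lapM (wt d) := by
  have hk' : (k : ℝ) ≠ 0 := by exact_mod_cast hk.ne'
  rw [← info_eq hk, smul_smul, inv_mul_cancel₀ hk', one_smul]

lemma info_symm (d : Design v b k) : (d.info)ᵀ = d.info := by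
  unfold Design.info
  rw [transpose_sub, transpose_smul, transpose_mul, transpose_transpose, diagonal_transpose]

lemma info_herm (d : Design v b k) : d.info.IsHermitian := by
  rw [Matrix.IsHermitian, conjTranspose_eq_transpose_of_trivial, info_symm]

lemma conn_wt (d : Design v b k) (hc : d.concGraph.Connected) (f : Fin v → ℝ)
    (hf : ∀ i j, 0 < wt d i j → f i = f j) (i j : Fin v) : f i = f j := by
  obtain ⟨p⟩ := hc.preconnected i j
  induction p with
  | nil => rfl
  | cons hadj _ ih =>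
    rename_i u w _ _
    rw [← ih]
    apply hf
    rw [Design.concGraph, SimpleGraph.fromRel_adj] at hadj
    unfold wt
    rw [if_neg hadj.1]
    rcases hadj.2 with h | h
    · exact h
    · rw [conc_symm]; exact h

lemma theta_eq {d : Design v b k} {e : Fin v → ℝ}
    (hroots : d.info.charpoly.roots = univ.val.map e) {i0 : Fin v} (h : e i0 = 0) :
    d.theta = (univ.erase i0).val.map e := by
  rw [Design.theta, hroots, Finset.erase_val]
  conv_lhs => rw [← Multiset.cons_erase (show i0 ∈ (univ : Finset (Fin v)).val from mem_univ i0)]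
  rw [Multiset.map_cons, h, Multiset.erase_cons_head]

/-- The nontrivial eigenvalues of a connected design are positive. -/
lemma theta_pos (hv : 0 < v) (hk : 0 < k) (d : Design v b k) (hc : d.concGraph.Connected) :
    ∀ x ∈ d.theta, 0 < x := by
  obtain ⟨e, U, h0, h1, hC, hr⟩ := Spec.spec_package d.info (info_herm d)
  have hk' : (0 : ℝ) < k := by exact_mod_cast hk
  have hL : lapM (wt d) = U * diagonal (fun i => (k : ℝ) * e i) * Uᵀ := by
    rw [← info_eq hk]
    conv_lhs => rw [hC]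
    have : diagonal (fun i => (k : ℝ) * e i) = (k : ℝ) • diagonal e := by
      ext i j
      by_cases h : i = j
      · subst h; simp
      · simp [h]
    rw [this, Matrix.mul_smul, Matrix.smul_mul]
  obtain ⟨i0, hi0, hpos⟩ := eig_facts hv (wt_symm d) (conn_wt d hc) h0 h1 hL
  have hi0' : e i0 = 0 := by
    rcases mul_eq_zero.1 hi0 with h | h
    · exact absurd h hk'.ne'
    · exact h
  intro x hx
  rw [theta_eq hr hi0', Multiset.mem_map] at hx
  obtain ⟨i, hi, rfl⟩ := hx
  have := hpos i (Finset.mem_erase.1 (Finset.mem_def.2 hi)).1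
  exact (mul_pos_iff_of_pos_left hk').1 this

lemma exists_ginv (d : Design v b k) : ∃ G, d.info * G * d.info = d.info := by
  obtain ⟨e, U, h0, h1, hC, _⟩ := Spec.spec_package d.info (info_herm d)
  refine ⟨U * diagonal (fun i => (e i)⁻¹) * Uᵀ, ?_⟩
  have key : U * diagonal e * Uᵀ * (U * diagonal (fun i => (e i)⁻¹) * Uᵀ) *
      (U * diagonal e * Uᵀ) = U * diagonal e * (Uᵀ * U) * diagonal (fun i => (e i)⁻¹) *
      (Uᵀ * U) * diagonal e * Uᵀ := by simp only [mul_assoc]
  rw [hC, key, h1, mul_one, mul_one, mul_assoc U, diagonal_mul_diagonal, mul_assoc U,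
    diagonal_mul_diagonal]
  congr 3
  ext i
  by_cases h : e i = 0
  · rw [h]; simp
  · field_simp

lemma pairVar_eq (hk : 0 < k) (d : Design v b k) {G : Matrix (Fin v) (Fin v) ℝ}
    (hG : d.info * G * d.info = d.info) {i j : Fin v} {y : Fin v → ℝ}
    (hy : lapM (wt d) *ᵥ y = Pi.single i 1 - Pi.single j 1) :
    pairVar G i j = k * (y i - y j) := by
  have hk' : (k : ℝ) ≠ 0 := by exact_mod_cast hk.ne'
  have h1 : d.info *ᵥ ((k : ℝ) • y) = Pi.single i 1 - Pi.single j 1 := by
    rw [info_eq' hk, smul_mulVec, Matrix.mulVec_smul, smul_smul, hy, inv_mul_cancel₀ hk', one_smul]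
  unfold pairVar
  rw [← h1]
  have h2 : (d.info *ᵥ ((k : ℝ) • y)) ⬝ᵥ (G *ᵥ (d.info *ᵥ ((k : ℝ) • y))) =
      ((k : ℝ) • y) ⬝ᵥ (d.info *ᵥ ((k : ℝ) • y)) := by
    set z : Fin v → ℝ := (k : ℝ) • y with hz
    have h3 : ∀ w : Fin v → ℝ, (d.info *ᵥ z) ⬝ᵥ w = z ⬝ᵥ (d.info *ᵥ w) := by
      intro w
      rw [Matrix.dotProduct_mulVec, ← Matrix.mulVec_transpose, info_symm]
    rw [h3, Matrix.mulVec_mulVec, Matrix.mulVec_mulVec, hG]
  rw [h2, h1, dotProduct_sub, dotProduct_single_one, dotProduct_single_one]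
  simp only [Pi.smul_apply, smul_eq_mul]
  ring

end glue

/-! ### the class with `32` treatments in `16` blocks of size `4` -/

section cls

lemma rep_two (d : Design 32 16 4) (he : d.Equireplicate) (i : Fin 32) : d.rep i = 2 := by
  have h1 : ∑ i, d.rep i = 64 := by
    unfold Design.rep
    rw [sum_comm, sum_congr rfl fun B _ => d.size B]
    simp
  rw [sum_congr rfl fun j _ => he j i] at h1
  simp at h1
  omega

/-- The block concurrences. -/
def blk (d : Design 32 16 4) (j l : Fin 16) : ℕ :=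
  if j = l then ∑ i, d.mult i j * (d.mult i j - 1) else ∑ i, d.mult i j * d.mult i l

lemma blk_symm (d : Design 32 16 4) (j l : Fin 16) : blk d j l = blk d l j := by
  unfold blk
  by_cases h : j = l
  · subst h; rfl
  · rw [if_neg h, if_neg (Ne.symm h)]
    exact sum_congr rfl fun i _ => mul_comm _ _

lemma blk_even (d : Design 32 16 4) (j : Fin 16) : Even (blk d j j) := by
  unfold blk
  rw [if_pos rfl]
  apply Finset.even_sum
  intro i _
  exact Nat.even_mul_pred_self _

lemma blk_diag (d : Design 32 16 4) (j : Fin 16) :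
    blk d j j + 4 = ∑ i, d.mult i j * d.mult i j := by
  unfold blk
  rw [if_pos rfl]
  have key : ∑ i, d.mult i j * (d.mult i j - 1) + ∑ i, d.mult i j =
      ∑ i, d.mult i j * d.mult i j := by
    rw [← sum_add_distrib]
    refine sum_congr rfl fun i _ => ?_
    rcases Nat.eq_zero_or_pos (d.mult i j) with h | h
    · rw [h]
    · obtain ⟨m, hm⟩ : ∃ m, d.mult i j = m + 1 := ⟨d.mult i j - 1, by omega⟩
      rw [hm]
      show (m + 1) * m + (m + 1) = _
      ring
  rw [d.size j] at key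
  exact key

lemma blk_sum (d : Design 32 16 4) (he : d.Equireplicate) (j : Fin 16) :
    ∑ l, blk d j l = 4 := by
  have h1 : ∑ l, ∑ i, d.mult i j * d.mult i l = 8 := by
    rw [sum_comm]
    have : ∀ i, ∑ l, d.mult i j * d.mult i l = 2 * d.mult i j := by
      intro i
      rw [← mul_sum]
      have := rep_two d he i
      unfold Design.rep at this
      rw [this]; ring
    rw [sum_congr rfl fun i _ => this i, ← mul_sum, d.size j]
    norm_num
  have h2 : ∀ l, ∑ i, d.mult i j * d.mult i l = blk d j l + if l = j then 4 else 0 := by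
    intro l
    by_cases h : l = j
    · subst h
      rw [if_pos rfl, blk_diag]
    · rw [if_neg h, blk, if_neg (Ne.symm h), add_zero]
  rw [sum_congr rfl fun l _ => h2 l, sum_add_distrib] at h1
  simp at h1
  omega

/-- Real matrix of a table of natural numbers. -/
noncomputable def toR (a : Fin 16 → Fin 16 → ℕ) : Matrix (Fin 16) (Fin 16) ℝ :=
  Matrix.of fun i j => (a i j : ℝ)

lemma toR_herm {a : Fin 16 → Fin 16 → ℕ} (ha : ∀ i j, a i j = a j i) : (toR a).IsHermitian := by
  rw [Matrix.IsHermitian, conjTranspose_eq_transpose_of_trivial]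
  ext i j
  simp only [toR, transpose_apply, of_apply, ha j i]

lemma gram_blk (d : Design 32 16 4) :
    d.incidᵀ * d.incid = (4 : ℝ) • (1 : Matrix (Fin 16) (Fin 16) ℝ) + (1 : ℝ) • toR (blk d) := by
  ext j l
  rw [Matrix.mul_apply, one_smul, Matrix.add_apply, Matrix.smul_apply, smul_eq_mul]
  simp only [Design.incid, transpose_apply, of_apply, toR]
  by_cases h : j = l
  · subst h
    rw [Matrix.one_apply_eq, mul_one]
    have := blk_diag d j
    have h2 : ((blk d j j + 4 : ℕ) : ℝ) = ((∑ i, d.mult i j * d.mult i j : ℕ) : ℝ) := by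
      exact_mod_cast this
    push_cast at h2
    linarith
  · rw [Matrix.one_apply_ne h, mul_zero, zero_add, blk, if_neg h]
    push_cast
    rfl

lemma info_gram (d : Design 32 16 4) (he : d.Equireplicate) :
    d.info = (2 : ℝ) • (1 : Matrix (Fin 32) (Fin 32) ℝ) + (-(1 / 4) : ℝ) • (d.incid * d.incidᵀ) := by
  unfold Design.info
  have : diagonal (fun i => (d.rep i : ℝ)) = (2 : ℝ) • (1 : Matrix (Fin 32) (Fin 32) ℝ) := by
    ext i j
    rw [Matrix.smul_apply, diagonal_apply, Matrix.one_apply, rep_two d he i]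
    split_ifs <;> simp
  rw [this, neg_smul, ← sub_eq_add_neg]
  norm_num

lemma gram_herm {m n : Type*} [Fintype m] [Fintype n] (N : Matrix m n ℝ) :
    (N * Nᵀ).IsHermitian := by
  rw [Matrix.IsHermitian, conjTranspose_eq_transpose_of_trivial, transpose_mul,
    transpose_transpose]

lemma info_roots (d : Design 32 16 4) (he : d.Equireplicate) :
    d.info.charpoly.roots = Multiset.replicate 16 2 +
      (toR (blk d)).charpoly.roots.map fun x => 1 - x / 4 := by
  rw [info_gram d he, Spec.roots_affine (gram_herm _), Spec.roots_gram _ (by simp), gram_blk,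
    Spec.roots_affine (toR_herm (blk_symm d)), Multiset.map_add, Multiset.map_replicate,
    Multiset.map_map]
  simp only [Fintype.card_fin]
  congr 1
  · norm_num
  · apply Multiset.map_congr rfl
    intro x _
    simp only [Function.comp]
    ring

/-- `4` is an eigenvalue. -/
lemma four_mem {a : Fin 16 → Fin 16 → ℕ} (ha : ∀ i j, a i j = a j i) (hs : ∀ i, ∑ j, a i j = 4) :
    (4 : ℝ) ∈ (toR a).charpoly.roots := by
  obtain ⟨e, U, h0, h1, hC, hr⟩ := Spec.spec_package (toR a) (toR_herm ha)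
  have h4 := Spec.shift_diag h0 hC 4 (-1)
  have hdet : ((4 : ℝ) • (1 : Matrix (Fin 16) (Fin 16) ℝ) + (-1 : ℝ) • toR a).det = 0 := by
    apply Matrix.exists_mulVec_eq_zero_iff.1
    refine ⟨fun _ => 1, ?_, ?_⟩
    · intro h
      have := congrFun h 0
      simp at this
    · ext i
      rw [Matrix.add_mulVec, Matrix.smul_mulVec, Matrix.smul_mulVec, Matrix.one_mulVec]
      simp only [Pi.add_apply, Pi.smul_apply, smul_eq_mul, mulVec, dotProduct, toR, of_apply,
        mul_one, Pi.zero_apply]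
      have : (∑ j, (a i j : ℝ)) = ((∑ j, a i j : ℕ) : ℝ) := by push_cast; rfl
      rw [this, hs i]
      norm_num
  rw [Spec.det_conj h0 h4, prod_eq_zero_iff] at hdet
  obtain ⟨i, _, hi⟩ := hdet
  rw [hr, Multiset.mem_map]
  exact ⟨i, mem_univ i, by linarith⟩

/-- The nontrivial part of the spectrum of the block matrix. -/
noncomputable def nt (a : Fin 16 → Fin 16 → ℕ) : Multiset ℝ := (toR a).charpoly.roots.erase 4

lemma theta_nt (d : Design 32 16 4) (he : d.Equireplicate) :
    d.theta = Multiset.replicate 16 2 + (nt (blk d)).map fun x => 1 - x / 4 := by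
  have h4 := four_mem (blk_symm d) (blk_sum d he)
  unfold Design.theta nt
  rw [info_roots d he]
  conv_lhs => rw [← Multiset.cons_erase h4]
  rw [Multiset.map_cons, show (1 : ℝ) - 4 / 4 = 0 by norm_num, Multiset.add_cons,
    Multiset.erase_cons_head]

lemma aValue_nt (d : Design 32 16 4) (he : d.Equireplicate) :
    d.aValue = 8 + 4 * ((nt (blk d)).map fun x => (4 - x)⁻¹).sum := by
  unfold Design.aValue
  rw [theta_nt d he, Multiset.map_add, Multiset.sum_add, Multiset.map_replicate,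
    Multiset.sum_replicate, Multiset.map_map, ← Multiset.sum_map_mul_left]
  congr 1
  · norm_num
  · congr 1
    apply Multiset.map_congr rfl
    intro x _
    simp only [Function.comp]
    rw [show (1 : ℝ) - x / 4 = (4 - x) * 4⁻¹ by ring, mul_inv, inv_inv]
    ring

lemma nt_lt (d : Design 32 16 4) (he : d.Equireplicate) (hc : d.concGraph.Connected) :
    ∀ x ∈ nt (blk d), x < 4 := by
  intro x hx
  have := theta_pos (by norm_num) (by norm_num) d hc (1 - x / 4) (by
    rw [theta_nt d he, Multiset.mem_add]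
    exact Or.inr (Multiset.mem_map_of_mem _ hx))
  linarith

lemma roots_ge (d : Design 32 16 4) : ∀ x ∈ (toR (blk d)).charpoly.roots, -4 ≤ x := by
  obtain ⟨e, U, h0, h1, hC, hr⟩ := Spec.spec_package (toR (blk d)) (toR_herm (blk_symm d))
  intro x hx
  rw [hr, Multiset.mem_map] at hx
  obtain ⟨i, _, rfl⟩ := hx
  have h2 := Spec.shift_diag h0 hC 4 1
  rw [← gram_blk] at h2
  have := Spec.gram_nonneg h1 h2 i
  linarith


/-! ### moments -/

lemma toR_mul (a b : Fin 16 → Fin 16 → ℕ) :
    toR a * toR b = toR fun i j => ∑ k, a i k * b k j := by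
  ext i j
  rw [Matrix.mul_apply]
  simp only [toR, of_apply]
  push_cast
  rfl

lemma toR_trace (a : Fin 16 → Fin 16 → ℕ) : (toR a).trace = ((∑ i, a i i : ℕ) : ℝ) := by
  simp [toR, trace]

lemma pow_sum {a : Fin 16 → Fin 16 → ℕ} (ha : ∀ i j, a i j = a j i) (m : ℕ) :
    ((toR a).charpoly.roots.map fun x => x ^ m).sum = (toR a ^ m).trace := by
  obtain ⟨e, U, h0, h1, hC, hr⟩ := Spec.spec_package (toR a) (toR_herm ha)
  rw [Spec.trace_pow_conj h0 h1 hC, hr, Multiset.map_map]
  rfl

/-- Polynomials of degree at most five. -/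
def poly (c0 c1 c2 c3 c4 c5 x : ℝ) : ℝ :=
  c0 * x ^ 0 + c1 * x ^ 1 + c2 * x ^ 2 + c3 * x ^ 3 + c4 * x ^ 4 + c5 * x ^ 5

lemma poly_sum {a : Fin 16 → Fin 16 → ℕ} (ha : ∀ i j, a i j = a j i)
    (h4 : (4 : ℝ) ∈ (toR a).charpoly.roots) (c0 c1 c2 c3 c4 c5 : ℝ) :
    ((nt a).map fun x => poly c0 c1 c2 c3 c4 c5 x).sum =
      c0 * 16 + c1 * (toR a ^ 1).trace + c2 * (toR a ^ 2).trace + c3 * (toR a ^ 3).trace +
        c4 * (toR a ^ 4).trace + c5 * (toR a ^ 5).trace - poly c0 c1 c2 c3 c4 c5 4 := by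
  have h1 : ((toR a).charpoly.roots.map fun x => poly c0 c1 c2 c3 c4 c5 x).sum =
      poly c0 c1 c2 c3 c4 c5 4 + ((nt a).map fun x => poly c0 c1 c2 c3 c4 c5 x).sum := by
    conv_lhs => rw [← Multiset.cons_erase h4]
    rw [Multiset.map_cons, Multiset.sum_cons]
    rfl
  have h2 : ((toR a).charpoly.roots.map fun x => poly c0 c1 c2 c3 c4 c5 x).sum =
      c0 * (toR a ^ 0).trace + c1 * (toR a ^ 1).trace + c2 * (toR a ^ 2).trace +
        c3 * (toR a ^ 3).trace + c4 * (toR a ^ 4).trace + c5 * (toR a ^ 5).trace := by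
    unfold poly
    rw [Multiset.sum_map_add, Multiset.sum_map_add, Multiset.sum_map_add, Multiset.sum_map_add,
      Multiset.sum_map_add, Multiset.sum_map_mul_left, Multiset.sum_map_mul_left,
      Multiset.sum_map_mul_left, Multiset.sum_map_mul_left, Multiset.sum_map_mul_left,
      Multiset.sum_map_mul_left, pow_sum ha, pow_sum ha, pow_sum ha, pow_sum ha, pow_sum ha,
      pow_sum ha]
  have h3 : (toR a ^ 0).trace = 16 := by
    rw [pow_zero, Matrix.trace_one]; simp
  rw [h3] at h2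
  linarith

lemma poly_le {s : Multiset ℝ} (hs : ∀ x ∈ s, -4 ≤ x ∧ x < 4) {c0 c1 c2 c3 c4 c5 : ℝ}
    (hp : ∀ x : ℝ, -4 ≤ x → x < 4 → poly c0 c1 c2 c3 c4 c5 x ≤ (4 - x)⁻¹) :
    (s.map fun x => poly c0 c1 c2 c3 c4 c5 x).sum ≤ (s.map fun x => (4 - x)⁻¹).sum :=
  Multiset.sum_map_le_sum_map _ _ fun x hx => hp x (hs x hx).1 (hs x hx).2

/-- The fourth-degree minorant. -/
lemma minor4 (x : ℝ) (h1 : -4 ≤ x) (h2 : x < 4) :
    poly (4544 / 18432) (1152 / 18432) (340 / 18432) (84 / 18432) (9 / 18432) 0 x ≤ (4 - x)⁻¹ := by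
  have h : 0 < 4 - x := by linarith
  have e : (4 - x)⁻¹ - poly (4544 / 18432) (1152 / 18432) (340 / 18432) (84 / 18432) (9 / 18432) 0 x =
      (x + 4) * ((x + 2) * (3 * x - 4)) ^ 2 / (18432 * (4 - x)) := by
    unfold poly
    field_simp
    ring
  have : 0 ≤ (x + 4) * ((x + 2) * (3 * x - 4)) ^ 2 / (18432 * (4 - x)) := by
    apply div_nonneg
    · apply mul_nonneg (by linarith) (sq_nonneg _)
    · positivity
  linarith

/-- The fifth-degree minorant. -/
lemma minor5 (x : ℝ) (h2 : x < 4) :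
    poly (1764 / 7056) (441 / 7056) (108 / 7056) (30 / 7056) (8 / 7056) (1 / 7056) x ≤
      (4 - x)⁻¹ := by
  have h : 0 < 4 - x := by linarith
  have e : (4 - x)⁻¹ - poly (1764 / 7056) (441 / 7056) (108 / 7056) (30 / 7056) (8 / 7056)
      (1 / 7056) x = ((x + 3) * x * (x - 1)) ^ 2 / (7056 * (4 - x)) := by
    unfold poly
    field_simp
    ring
  have : 0 ≤ ((x + 3) * x * (x - 1)) ^ 2 / (7056 * (4 - x)) := by
    apply div_nonneg (sq_nonneg _)
    positivity
  linarith

/-- First case: the moment inequality. -/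
lemma case_moment {a : Fin 16 → Fin 16 → ℕ} (ha : ∀ i j, a i j = a j i)
    (h4 : (4 : ℝ) ∈ (toR a).charpoly.roots) (hs : ∀ x ∈ nt a, -4 ≤ x ∧ x < 4)
    (hpsi : 0 ≤ ∑ i, Rows.psi a i) : 25 / 6 ≤ ((nt a).map fun x => (4 - x)⁻¹).sum := by
  refine le_trans ?_ (poly_le hs minor4)
  rw [poly_sum ha h4]
  have t1 : (toR a ^ 1).trace = ((∑ i, a i i : ℕ) : ℝ) := by rw [pow_one, toR_trace]
  have e2 : toR a ^ 2 = toR (Chk.bb a) := by
    rw [pow_two, toR_mul]; rfl
  have t2 : (toR a ^ 2).trace = ((∑ i, Chk.bb a i i : ℕ) : ℝ) := by rw [e2, toR_trace]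
  have t3 : (toR a ^ 3).trace = ((∑ i, Rows.t3 a i : ℕ) : ℝ) := by
    rw [pow_succ, e2, toR_mul, toR_trace]
    have e : ∀ i, ∑ k, Chk.bb a i k * a k i = Rows.t3 a i := by
      intro i
      unfold Rows.t3
      refine sum_congr rfl fun k _ => ?_
      rw [ha k i, mul_comm]
    rw [sum_congr rfl fun i _ => e i]
  have t4 : (toR a ^ 4).trace = ((∑ i, Rows.t4 a i : ℕ) : ℝ) := by
    rw [show 4 = 2 + 2 from rfl, pow_add, e2, toR_mul, toR_trace]
    have e : ∀ i, ∑ k, Chk.bb a i k * Chk.bb a k i = Rows.t4 a i := by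
      intro i
      unfold Rows.t4
      refine sum_congr rfl fun k _ => ?_
      rw [Rows.bb_symm ha k i, pow_two]
    rw [sum_congr rfl fun i _ => e i]
  have hpsi' : (0 : ℝ) ≤ 1152 * ((∑ i, a i i : ℕ) : ℝ) +
      340 * (((∑ i, Chk.bb a i i : ℕ) : ℝ) - 64) + 84 * ((∑ i, Rows.t3 a i : ℕ) : ℝ) +
      9 * (((∑ i, Rows.t4 a i : ℕ) : ℝ) - 512) := by
    have e : ∑ i, Rows.psi a i = 1152 * ((∑ i, a i i : ℕ) : ℤ) +
      340 * (((∑ i, Chk.bb a i i : ℕ) : ℤ) - 64) + 84 * ((∑ i, Rows.t3 a i : ℕ) : ℤ) +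
      9 * (((∑ i, Rows.t4 a i : ℕ) : ℤ) - 512) := by
      unfold Rows.psi
      rw [sum_add_distrib, sum_add_distrib, sum_add_distrib, ← mul_sum, ← mul_sum, ← mul_sum,
        ← mul_sum, sum_sub_distrib, sum_sub_distrib, Nat.cast_sum, Nat.cast_sum, Nat.cast_sum,
        Nat.cast_sum, sum_const, sum_const, card_univ, Fintype.card_fin]
      rfl
    rw [e] at hpsi
    exact_mod_cast hpsi
  rw [t1, t2, t3, t4]
  have key : ∀ S1 S2 S3 S4 S5 : ℝ,
      0 ≤ 1152 * S1 + 340 * (S2 - 64) + 84 * S3 + 9 * (S4 - 512) →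
      25 / 6 ≤ 4544 / 18432 * 16 + 1152 / 18432 * S1 + 340 / 18432 * S2 + 84 / 18432 * S3 +
        9 / 18432 * S4 + 0 * S5 -
        poly (4544 / 18432) (1152 / 18432) (340 / 18432) (84 / 18432) (9 / 18432) 0 4 := by
    intro S1 S2 S3 S4 S5 h
    unfold poly
    norm_num
    linarith
  exact key _ _ _ _ _ hpsi'

/-- Relabelling does not change the spectrum. -/
lemma roots_relabel {a g : Fin 16 → Fin 16 → ℕ} (σ : Equiv.Perm (Fin 16))
    (h : ∀ i j, a (σ i) (σ j) = g i j) :
    (toR a).charpoly.roots = (toR g).charpoly.roots := by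
  have e : toR g = Matrix.reindex σ.symm σ.symm (toR a) := by
    ext i j
    simp only [toR, Matrix.reindex_apply, Matrix.submatrix_apply, of_apply, Equiv.symm_symm, h i j]
  rw [e, Matrix.charpoly_reindex]

lemma case_second {g : Fin 16 → Fin 16 → ℕ} (hg : g = Finals.gm Finals.F2)
    (h4 : (4 : ℝ) ∈ (toR g).charpoly.roots) (hs : ∀ x ∈ nt g, -4 ≤ x ∧ x < 4) :
    25 / 6 ≤ ((nt g).map fun x => (4 - x)⁻¹).sum := by
  subst hg
  refine le_trans ?_ (poly_le hs fun x _ h => minor5 x h)
  rw [poly_sum Finals.sym2 h4]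
  have e2 : toR (Finals.gm Finals.F2) ^ 2 = toR (Finals.tbl Finals.MB2) := by
    rw [pow_two, toR_mul]
    exact congrArg toR (funext fun i => funext fun j => Finals.hB2 i j)
  have e3 : toR (Finals.gm Finals.F2) ^ 3 = toR (Finals.tbl Finals.MC2) := by
    rw [pow_succ, e2, toR_mul]
    exact congrArg toR (funext fun i => funext fun j => Finals.hC2 i j)
  have t1 : (toR (Finals.gm Finals.F2) ^ 1).trace = 0 := by
    rw [pow_one, toR_trace, Finals.T2_1]; simp
  have t2 : (toR (Finals.gm Finals.F2) ^ 2).trace = 64 := by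
    rw [pow_two, toR_mul, toR_trace, Finals.T2_2]; norm_num
  have t3 : (toR (Finals.gm Finals.F2) ^ 3).trace = 0 := by
    rw [pow_succ', e2, toR_mul, toR_trace, Finals.T2_3]; norm_num
  have t4 : (toR (Finals.gm Finals.F2) ^ 4).trace = 504 := by
    rw [show 4 = 2 + 2 from rfl, pow_add, e2, toR_mul, toR_trace, Finals.T2_4]; norm_num
  have t5 : (toR (Finals.gm Finals.F2) ^ 5).trace = 520 := by
    rw [show 5 = 2 + 3 from rfl, pow_add, e2, e3, toR_mul, toR_trace, Finals.T2_5]; norm_num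
  rw [t1, t2, t3, t4, t5]
  unfold poly
  norm_num

/-- The nontrivial eigenvalues of the first graph are roots of an explicit polynomial. -/
lemma first_roots {x : ℝ} (hx : x ∈ (toR (Finals.gm Finals.F1)).charpoly.roots) (hx4 : x ≠ 4) :
    x ^ 5 + 2 * x ^ 4 - 5 * x ^ 3 - 6 * x ^ 2 + 8 * x = 0 := by
  obtain ⟨e, U, h0, h1, hC, hr⟩ :=
    Spec.spec_package (toR (Finals.gm Finals.F1)) (toR_herm Finals.sym1)
  rw [hr, Multiset.mem_map] at hx
  obtain ⟨i, _, rfl⟩ := hx
  set A := toR (Finals.gm Finals.F1) with hA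
  set u : Fin 16 → ℝ := fun a => U a i with hu
  have hAu : A *ᵥ u = e i • u := Spec.col_eig h1 hC i
  have eB : A * A = toR (Finals.tbl Finals.MB1) := by
    rw [toR_mul]
    exact congrArg toR (funext fun i => funext fun j => Finals.hB1 i j)
  have eC : toR (Finals.tbl Finals.MB1) * A = toR (Finals.tbl Finals.MC1) := by
    rw [toR_mul]
    exact congrArg toR (funext fun i => funext fun j => Finals.hC1 i j)
  set B := toR (Finals.tbl Finals.MB1) with hB
  set C := toR (Finals.tbl Finals.MC1) with hCC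
  have hBu : B *ᵥ u = (e i) ^ 2 • u := by
    rw [← eB, ← Matrix.mulVec_mulVec, hAu, Matrix.mulVec_smul, hAu, smul_smul, pow_two]
  have hCu : C *ᵥ u = (e i) ^ 3 • u := by
    rw [← eC, ← Matrix.mulVec_mulVec, hAu, Matrix.mulVec_smul, hBu, smul_smul]
    congr 1; ring
  have hJ : (C + (2 : ℝ) • B) * B + (8 : ℝ) • A =
      (72 : ℝ) • (Matrix.of fun _ _ => (1 : ℝ)) + (5 : ℝ) • C + (6 : ℝ) • B := by
    ext p q
    have h := Finals.hH1 p q
    have h' : ((∑ k, (Finals.tbl Finals.MC1 p k + 2 * Finals.tbl Finals.MB1 p k) *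
        Finals.tbl Finals.MB1 k q + 8 * Finals.gm Finals.F1 p q : ℕ) : ℝ) =
        ((72 + 5 * Finals.tbl Finals.MC1 p q + 6 * Finals.tbl Finals.MB1 p q : ℕ) : ℝ) := by
      exact_mod_cast h
    push_cast at h'
    rw [Matrix.add_apply, Matrix.mul_apply]
    simp only [Matrix.add_apply, Matrix.smul_apply, smul_eq_mul, hA, hB, hCC, toR, of_apply,
      mul_one]
    linarith
  -- the all-ones vector
  have hone : ∀ p, ∑ q, A p q = 4 := by
    intro p
    have := Finals.row1 p
    have h' : ((∑ q, Finals.gm Finals.F1 p q : ℕ) : ℝ) = ((4 : ℕ) : ℝ) := by exact_mod_cast this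
    push_cast at h'
    exact h'
  have hsum : ∑ q, u q = 0 := by
    have s1 : ∑ p, (A *ᵥ u) p = 4 * ∑ q, u q := by
      simp only [mulVec, dotProduct]
      rw [sum_comm, mul_sum]
      refine sum_congr rfl fun q _ => ?_
      rw [← sum_mul]
      congr 1
      rw [← hone q]
      refine sum_congr rfl fun p _ => ?_
      simp only [hA, toR, of_apply, Finals.sym1 p q]
    rw [hAu] at s1
    simp only [Pi.smul_apply, smul_eq_mul, ← mul_sum] at s1
    have : (e i - 4) * ∑ q, u q = 0 := by linarith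
    rcases mul_eq_zero.1 this with h | h
    · exact absurd (by linarith) hx4
    · exact h
  have hJu : (Matrix.of fun _ _ => (1 : ℝ)) *ᵥ u = (0 : Fin 16 → ℝ) := by
    ext p
    simp only [mulVec, dotProduct, of_apply, one_mul, Pi.zero_apply]
    exact hsum
  have hkey := congrArg (fun M : Matrix (Fin 16) (Fin 16) ℝ => M *ᵥ u) hJ
  simp only [Matrix.add_mulVec, Matrix.smul_mulVec, ← Matrix.mulVec_mulVec, hBu, hCu, hAu, hJu,
    Matrix.mulVec_smul, smul_zero, zero_add, smul_smul] at hkey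
  have hne : ∃ p, u p ≠ 0 := by
    by_contra hcon
    push Not at hcon
    have := Spec.col_orth h1 i i
    rw [if_pos rfl] at this
    simp only [dotProduct] at this
    rw [sum_eq_zero (fun p _ => by
      have := hcon p
      simp only [hu] at this
      rw [this]; ring)] at this
    norm_num at this
  obtain ⟨p, hp⟩ := hne
  have hk := congrFun hkey p
  simp only [Pi.add_apply, Pi.smul_apply, smul_eq_mul] at hk
  have : (e i ^ 5 + 2 * e i ^ 4 - 5 * e i ^ 3 - 6 * e i ^ 2 + 8 * e i) * u p = 0 := by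
    linear_combination hk
  rcases mul_eq_zero.1 this with h | h
  · exact h
  · exact absurd h hp

/-- The exact value for the first graph. -/
lemma first_value {g : Fin 16 → Fin 16 → ℕ} (hg : g = Finals.gm Finals.F1)
    (h4 : (4 : ℝ) ∈ (toR g).charpoly.roots) (hs : ∀ x ∈ nt g, x < 4) :
    ((nt g).map fun x => (4 - x)⁻¹).sum = 25 / 6 := by
  subst hg
  have h1 : ((nt (Finals.gm Finals.F1)).map fun x => (4 - x)⁻¹).sum =
      ((nt (Finals.gm Finals.F1)).map fun x => poly (288 / 1152) (70 / 1152) (19 / 1152) (6 / 1152)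
        (1 / 1152) 0 x).sum := by
    congr 1
    apply Multiset.map_congr rfl
    intro x hx
    have hlt := hs x hx
    have hx' : x ∈ (toR (Finals.gm Finals.F1)).charpoly.roots := Multiset.mem_of_mem_erase hx
    have hr := first_roots hx' hlt.ne
    have h : (4 - x) ≠ 0 := by linarith
    have e : (4 - x)⁻¹ - poly (288 / 1152) (70 / 1152) (19 / 1152) (6 / 1152) (1 / 1152) 0 x =
        (x ^ 5 + 2 * x ^ 4 - 5 * x ^ 3 - 6 * x ^ 2 + 8 * x) / (1152 * (4 - x)) := by
      unfold poly
      field_simp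
      ring
    rw [hr, zero_div] at e
    linarith
  have e2 : toR (Finals.gm Finals.F1) ^ 2 = toR (Finals.tbl Finals.MB1) := by
    rw [pow_two, toR_mul]
    exact congrArg toR (funext fun i => funext fun j => Finals.hB1 i j)
  have t1 : (toR (Finals.gm Finals.F1) ^ 1).trace = 0 := by
    rw [pow_one, toR_trace, Finals.T1_1]; simp
  have t2 : (toR (Finals.gm Finals.F1) ^ 2).trace = 64 := by
    rw [pow_two, toR_mul, toR_trace, Finals.T1_2]; norm_num
  have t3 : (toR (Finals.gm Finals.F1) ^ 3).trace = 0 := by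
    rw [pow_succ', e2, toR_mul, toR_trace, Finals.T1_3]; norm_num
  have t4 : (toR (Finals.gm Finals.F1) ^ 4).trace = 488 := by
    rw [show 4 = 2 + 2 from rfl, pow_add, e2, toR_mul, toR_trace, Finals.T1_4]; norm_num
  rw [h1, poly_sum Finals.sym1 h4, t1, t2, t3, t4]
  unfold poly
  norm_num

/-- The lower bound in the class. -/
lemma lower_bound (d : Design 32 16 4) (hc : d.concGraph.Connected) (he : d.Equireplicate) :
    74 / 3 ≤ d.aValue := by
  rw [aValue_nt d he]
  have h4 := four_mem (blk_symm d) (blk_sum d he)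
  have hs : ∀ x ∈ nt (blk d), -4 ≤ x ∧ x < 4 := fun x hx =>
    ⟨roots_ge d x (Multiset.mem_of_mem_erase hx), nt_lt d he hc x hx⟩
  have key : 25 / 6 ≤ ((nt (blk d)).map fun x => (4 - x)⁻¹).sum := by
    rcases Rows.dichotomy (blk_symm d) (blk_sum d he) (blk_even d) with h | h
    · exact case_moment (blk_symm d) h4 hs h
    · obtain ⟨σ, F, hF, hσ⟩ := Chk.classify h
      have hσ' : ∀ i j, blk d (σ i) (σ j) = Finals.gm F i j := hσ
      have r1 := roots_relabel σ hσ'
      rcases Finals.finals_iso F hF with ⟨π, hπ⟩ | ⟨π, hπ⟩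
      · have r2 := roots_relabel (a := Finals.gm Finals.F1) (g := Finals.gm F) π
          (fun i j => (hπ i j).symm)
        have r3 : nt (blk d) = nt (Finals.gm Finals.F1) := by
          unfold nt; rw [r1, ← r2]
        rw [r1, ← r2] at h4
        rw [r3] at hs ⊢
        exact le_of_eq (first_value rfl h4 fun x hx => (hs x hx).2).symm
      · have r2 := roots_relabel (a := Finals.gm Finals.F2) (g := Finals.gm F) π
          (fun i j => (hπ i j).symm)
        have r3 : nt (blk d) = nt (Finals.gm Finals.F2) := by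
          unfold nt; rw [r1, ← r2]
        rw [r1, ← r2] at h4
        rw [r3] at hs ⊢
        exact case_second rfl h4 hs
  linarith

end cls

/-! ### the design -/

def eL1 : List (Fin 16) := [0, 0, 0, 0, 1, 1, 1, 2, 2, 2, 3, 3, 3, 4, 4, 4, 5, 5, 6, 6, 6, 7, 7, 7, 8, 8, 9, 9, 10, 10, 11, 12]

def eL2 : List (Fin 16) := [1, 2, 3, 4, 5, 6, 7, 5, 8, 9, 10, 11, 12, 13, 14, 15, 10, 13, 8, 11, 14, 9, 11, 15, 12, 15, 12, 14, 14, 15, 13, 13]

/-- The first block containing the treatment. -/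
def e1 (i : Fin 32) : Fin 16 := eL1.getD i 0

/-- The second block containing the treatment. -/
def e2 (i : Fin 32) : Fin 16 := eL2.getD i 0

/-- The design: the treatments are the `32` edges of a `4`-regular graph on `16` vertices, the blocks
are its vertices. -/
def dd : Design 32 16 4 where
  mult i B := (if e1 i = B then 1 else 0) + (if e2 i = B then 1 else 0)
  size := by decide +kernel

/-- Concurrences of the design. -/
def cn (i j : Fin 32) : ℕ := ((if e1 i = e1 j then 1 else 0) + (if e2 i = e1 j then 1 else 0)) +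
  ((if e1 i = e2 j then 1 else 0) + (if e2 i = e2 j then 1 else 0))

lemma conc_dd (i j : Fin 32) : dd.conc i j = cn i j := by
  unfold Design.conc cn
  have h : ∀ B, dd.mult i B * dd.mult j B =
      (if e1 j = B then dd.mult i B else 0) + (if e2 j = B then dd.mult i B else 0) := by
    intro B
    show _ * ((if e1 j = B then 1 else 0) + (if e2 j = B then 1 else 0)) = _
    split_ifs <;> ring
  rw [sum_congr rfl fun B _ => h B, sum_add_distrib, sum_ite_eq, sum_ite_eq,
    if_pos (mem_univ _), if_pos (mem_univ _)]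
  rfl

lemma rep_dd (i : Fin 32) : dd.rep i = 2 := by
  unfold Design.rep
  show ∑ B, ((if e1 i = B then 1 else 0) + (if e2 i = B then 1 else 0)) = 2
  rw [sum_add_distrib, sum_ite_eq, sum_ite_eq, if_pos (mem_univ _), if_pos (mem_univ _)]

lemma equi_dd : dd.Equireplicate := fun i j => by rw [rep_dd, rep_dd]

lemma blk_dd : blk dd = Finals.gm Finals.F1 := by
  have h : ∀ j l, blk dd j l = Finals.gm Finals.F1 j l := by decide +kernel
  exact funext fun j => funext fun l => h j l

def parL : List (Fin 32) := [0, 0, 0, 0, 0, 0, 0, 1, 1, 1, 2, 2, 2, 3, 3, 3, 4, 4, 5, 5, 5, 6, 6, 6, 8, 8, 9, 9, 10, 10, 11, 12]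

def par (i : Fin 32) : Fin 32 := parL.getD i 0

lemma par_ok : ∀ i : Fin 32, i ≠ 0 → par i < i ∧ 0 < cn (par i) i := by decide +kernel

lemma conn_dd : dd.concGraph.Connected := by
  have h : ∀ n : ℕ, ∀ i : Fin 32, i.val = n → dd.concGraph.Reachable 0 i := by
    intro n
    induction n using Nat.strong_induction_on with
    | _ n ih =>
      intro i hi
      by_cases h0 : i = 0
      · subst h0; exact SimpleGraph.Reachable.refl _
      · obtain ⟨h1, h2⟩ := par_ok i h0
        have h3 := ih (par i).val (by rw [← hi]; exact h1) (par i) rfl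
        refine h3.trans (SimpleGraph.Adj.reachable ?_)
        rw [Design.concGraph, SimpleGraph.fromRel_adj]
        refine ⟨h1.ne, Or.inl ?_⟩
        rw [conc_dd]; exact h2
  have h0 : ∀ i, dd.concGraph.Reachable 0 i := fun i => h i.val i rfl
  exact SimpleGraph.Connected.mk fun i j => (h0 i).symm.trans (h0 j)

lemma value_dd : dd.aValue = 74 / 3 := by
  have h4 := four_mem (blk_symm dd) (blk_sum dd equi_dd)
  have hlt := nt_lt dd equi_dd conn_dd
  rw [aValue_nt dd equi_dd, first_value blk_dd h4 hlt]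
  norm_num

lemma optimal_dd : dd.IsAOptimal :=
  ⟨conn_dd, equi_dd, fun d' h1 h2 => by rw [value_dd]; exact lower_bound d' h1 h2⟩

lemma lam_dd : dd.lam = 0 := rfl

lemma cn_le : ∀ i j : Fin 32, i ≠ j → cn i j = 0 ∨ cn i j = 1 := by decide +kernel

lemma e_ne : ∀ i : Fin 32, e1 i ≠ e2 i := by decide +kernel

lemma rg_dd : dd.IsRegularGraph := by
  refine ⟨fun i B => ?_, equi_dd, fun i j hij => ?_⟩
  · show (if e1 i = B then 1 else 0) + (if e2 i = B then 1 else 0) ≤ 1
    have := e_ne i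
    by_cases h1 : e1 i = B
    · rw [if_pos h1, if_neg fun h2 => this (h1.trans h2.symm)]
    · rw [if_neg h1]; split_ifs <;> omega
  · rw [conc_dd, lam_dd]
    exact cn_le i j hij

lemma adj_dd {i j : Fin 32} : dd.graph.Adj i j ↔ i ≠ j ∧ (cn i j = 1 ∨ cn j i = 1) := by
  rw [Design.graph, SimpleGraph.fromRel_adj, conc_dd, conc_dd, lam_dd]

lemma near_dd : dd.graph.edist 0 12 ≤ 2 := by
  have a1 : dd.graph.Adj 0 2 := adj_dd.2 (by decide +kernel)
  have a2 : dd.graph.Adj 2 12 := adj_dd.2 (by decide +kernel)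
  exact (SimpleGraph.edist_le (SimpleGraph.Walk.cons a1 (SimpleGraph.Walk.cons a2 SimpleGraph.Walk.nil)))

lemma far_dec : ∀ x : Fin 32, ¬ ((cn 2 x = 1 ∨ cn x 2 = 1) ∧ (cn x 17 = 1 ∨ cn 17 x = 1)) := by
  decide +kernel

lemma far_dd : 2 < dd.graph.edist 2 17 := by
  by_contra hcon
  push Not at hcon
  have hne : dd.graph.edist 2 17 ≠ ⊤ := ne_top_of_le_ne_top (by decide) hcon
  obtain ⟨p, hp⟩ := SimpleGraph.exists_walk_of_edist_ne_top hne
  rw [← hp] at hcon
  have hlen : p.length ≤ 2 := by exact_mod_cast hcon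
  cases p with
  | cons h1 q =>
    cases q with
    | nil =>
      rw [adj_dd] at h1
      exact absurd h1.2 (by decide +kernel)
    | cons h2 r =>
      cases r with
      | nil =>
        rw [adj_dd] at h1 h2
        exact far_dec _ ⟨h1.2, h2.2⟩
      | cons h3 r =>
        simp only [SimpleGraph.Walk.length_cons] at hlen
        omega

/-! ### the pairwise variances -/

def yL1 : List ℤ := [306, 117, 65, 116, 130, 128, 128, 85, 65, 65, 14, 13, -176, 62, 73, 73, 68, 65, 65, 65, 74, 65, 65, 74, 2, 56, 2, 56, 57, 57, 45, 0]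

def yL2 : List ℤ := [2, 2, 6, 2, 0, 1, 1, 0, 1, 1, 2, 2, 2, 0, 1, 1, 0, -4, 1, 1, 1, 1, 1, 1, 1, 1, 1, 1, 1, 1, 0, 0]

def y1 (i : Fin 32) : ℤ := yL1.getD i 0

def y2 (i : Fin 32) : ℤ := yL2.getD i 0

lemma wt_dd (i j : Fin 32) : wt dd i j = if i = j then 0 else cn i j := by
  unfold wt; rw [conc_dd]

lemma y1_ok : ∀ a : Fin 32, 6 * y1 a - ∑ b, ((if a = b then 0 else cn a b : ℕ) : ℤ) * y1 b =
    1152 * ((if a = 0 then 1 else 0) - (if a = 12 then 1 else 0)) := by decide +kernel

lemma y2_ok : ∀ a : Fin 32, 6 * y2 a - ∑ b, ((if a = b then 0 else cn a b : ℕ) : ℤ) * y2 b =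
    24 * ((if a = 2 then 1 else 0) - (if a = 17 then 1 else 0)) := by decide +kernel

lemma wt_sum : ∀ a : Fin 32, ∑ b, wt dd a b = 6 := by
  have h : ∀ a : Fin 32, ∑ b, (if a = b then 0 else cn a b) = 6 := by decide +kernel
  intro a
  rw [← h a]
  exact sum_congr rfl fun b _ => wt_dd a b

lemma variance {G : Matrix (Fin 32) (Fin 32) ℝ} (hG : dd.info * G * dd.info = dd.info)
    {i j : Fin 32} (y : Fin 32 → ℤ) (c : ℤ) (hc : c ≠ 0)
    (h : ∀ a : Fin 32, 6 * y a - ∑ b, ((if a = b then 0 else cn a b : ℕ) : ℤ) * y b =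
      c * ((if a = i then 1 else 0) - (if a = j then 1 else 0))) :
    pairVar G i j = 4 * ((y i : ℝ) / c - (y j : ℝ) / c) := by
  have hc' : (c : ℝ) ≠ 0 := by exact_mod_cast hc
  have key := pairVar_eq (by norm_num) dd hG (i := i) (j := j) (y := fun a => (y a : ℝ) / c) (by
    ext a
    rw [lap_mulVec]
    have h1 : (((6 * y a - ∑ b, ((if a = b then 0 else cn a b : ℕ) : ℤ) * y b : ℤ)) : ℝ) =
        ((c * ((if a = i then 1 else 0) - (if a = j then 1 else 0)) : ℤ) : ℝ) := by rw [h a]
    have h2 : (∑ b, (wt dd a b : ℝ)) = 6 := by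
      have := wt_sum a
      have h' : ((∑ b, wt dd a b : ℕ) : ℝ) = ((6 : ℕ) : ℝ) := by rw [this]
      push_cast at h'
      exact h'
    have h3 : ∑ b, (wt dd a b : ℝ) * ((y b : ℝ) / c) =
        (∑ b, ((if a = b then 0 else cn a b : ℕ) : ℝ) * (y b : ℝ)) / c := by
      rw [sum_div]
      refine sum_congr rfl fun b _ => ?_
      rw [wt_dd]; ring
    rw [h2, h3]
    have h4 : ((∑ b, ((if a = b then 0 else cn a b : ℕ) : ℤ) * y b : ℤ) : ℝ) =
        ∑ b, ((if a = b then 0 else cn a b : ℕ) : ℝ) * (y b : ℝ) := by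
      rw [Int.cast_sum]
      refine sum_congr rfl fun b _ => ?_
      rw [Int.cast_mul, Int.cast_natCast]
    rw [Int.cast_sub, h4] at h1
    have h5 : ((c * ((if a = i then 1 else 0) - (if a = j then 1 else 0)) : ℤ) : ℝ) =
        c * ((if a = i then 1 else 0) - (if a = j then 1 else 0)) := by
      split_ifs <;> push_cast <;> ring
    rw [h5] at h1
    push_cast at h1
    simp only [Pi.sub_apply, Pi.single_apply]
    have h6 : 6 * ((y a : ℝ) / c) - (∑ b, ((if a = b then 0 else cn a b : ℕ) : ℝ) * (y b : ℝ)) / c =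
        (6 * (y a : ℝ) - ∑ b, ((if a = b then 0 else cn a b : ℕ) : ℝ) * (y b : ℝ)) / c := by ring
    rw [h6]
    push_cast
    rw [h1]
    field_simp)
  rw [key]
  norm_num

/-- Question 2 has a negative answer for the criterion A: there is a regular-graph design that is
A-optimal among the connected equireplicate designs of its class D(v,b,k), with two pairs of distinct
treatments such that the pair at the smaller distance in the graph of the design has the strictly
larger pairwise variance (for every generalised inverse of the information matrix). -/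
theorem a_result : ∃ (v b k : ℕ) (d : Design v b k), d.IsAOptimal ∧ d.IsRegularGraph ∧
    (∃ G : Matrix (Fin v) (Fin v) ℝ, d.info * G * d.info = d.info) ∧
    ∃ i j m n : Fin v, i ≠ j ∧ m ≠ n ∧ d.graph.edist i j < d.graph.edist m n ∧
      ∀ G : Matrix (Fin v) (Fin v) ℝ, d.info * G * d.info = d.info →
        pairVar G m n < pairVar G i j := by
  refine ⟨32, 16, 4, dd, optimal_dd, rg_dd, exists_ginv _, 0, 12, 2, 17, by decide, by decide,
    lt_of_le_of_lt near_dd far_dd, fun G hG => ?_⟩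
  have a1 := variance hG y1 1152 (by norm_num) y1_ok
  have a2 := variance hG y2 24 (by norm_num) y2_ok
  rw [show y1 0 = 306 from rfl, show y1 12 = -176 from rfl] at a1
  rw [show y2 2 = 6 from rfl, show y2 17 = -4 from rfl] at a2
  rw [a1, a2]
  norm_num

end Pool.Agent.H54.C32
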