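import Pool.Agent.H54.C32.Base

/-! The product of the nontrivial eigenvalues. -/

open Finset Matrix Pool.Agent.H170R2

namespace Pool.Agent.H54.C32

lemma log3_le : Real.log 3 ≤ (19 * Real.log 2 + 7153 / 524288) / 12 := by
  have h1 : 12 * Real.log 3 = 19 * Real.log 2 + Real.log (531441 / 524288) := by
    have e1 : (12 : ℝ) * Real.log 3 = Real.log (3 ^ 12) := by rw [Real.log_pow]; norm_num
    have e2 : (19 : ℝ) * Real.log 2 = Real.log (2 ^ 19) := by rw [Real.log_pow]; norm_num
    rw [e1, e2, ← Real.log_mul (by norm_num) (by norm_num)]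
    norm_num
  have h2 := Real.log_le_sub_one_of_pos (show (0 : ℝ) < 531441 / 524288 by norm_num)
  linarith

lemma log3_ge : (19 * Real.log 2 + 7153 / 531441) / 12 ≤ Real.log 3 := by
  have h1 : 12 * Real.log 3 = 19 * Real.log 2 + Real.log (531441 / 524288) := by
    have e1 : (12 : ℝ) * Real.log 3 = Real.log (3 ^ 12) := by rw [Real.log_pow]; norm_num
    have e2 : (19 : ℝ) * Real.log 2 = Real.log (2 ^ 19) := by rw [Real.log_pow]; norm_num
    rw [e1, e2, ← Real.log_mul (by norm_num) (by norm_num)]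
    norm_num
  have h2 := Real.one_sub_inv_le_log_of_pos (show (0 : ℝ) < 531441 / 524288 by norm_num)
  norm_num at h2
  linarith

lemma log7_le : Real.log (7 / 4) ≤ 22691 / 40500 := by
  have h1 : 2 * Real.log 7 = 4 * Real.log 2 + Real.log 3 + Real.log (49 / 48) := by
    have e1 : (2 : ℝ) * Real.log 7 = Real.log (7 ^ 2) := by rw [Real.log_pow]; norm_num
    have e2 : (4 : ℝ) * Real.log 2 = Real.log (2 ^ 4) := by rw [Real.log_pow]; norm_num
    rw [e1, e2, ← Real.log_mul (by norm_num) (by norm_num),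
      ← Real.log_mul (by norm_num) (by norm_num)]
    norm_num
  have h2 := Real.log_le_sub_one_of_pos (show (0 : ℝ) < 49 / 48 by norm_num)
  have h3 : Real.log (7 / 4) = Real.log 7 - 2 * Real.log 2 := by
    have e2 : (2 : ℝ) * Real.log 2 = Real.log (2 ^ 2) := by rw [Real.log_pow]; norm_num
    rw [e2, ← Real.log_div (by norm_num) (by norm_num)]
    norm_num
  have h4 := log3_le
  have h5 := Real.log_two_lt_d9
  have h6 := Real.log_two_gt_d9
  rw [h3]
  linarith

lemma hd5 (k c1 c2 c3 c4 c5 y : ℝ) :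
    HasDerivAt (fun y : ℝ => k + c1 * y + c2 * y ^ 2 + c3 * y ^ 3 + c4 * y ^ 4 + c5 * y ^ 5)
      (c1 + 2 * c2 * y + 3 * c3 * y ^ 2 + 4 * c4 * y ^ 3 + 5 * c5 * y ^ 4) y := by
  have h := ((((((hasDerivAt_const y k).add ((hasDerivAt_id y).const_mul c1)).add
    ((hasDerivAt_pow 2 y).const_mul c2)).add ((hasDerivAt_pow 3 y).const_mul c3)).add
    ((hasDerivAt_pow 4 y).const_mul c4)).add ((hasDerivAt_pow 5 y).const_mul c5))
  refine h.congr_deriv ?_
  push_cast
  ring

section steps

variable {p p' : ℝ → ℝ}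

lemma step_cont (hp : ∀ y, HasDerivAt p (p' y) y) {a b : ℝ} (ha : 0 < a) :
    ContinuousOn (fun y => p y - Real.log y) (Set.Icc a b) := by
  intro y hy
  have h0 : y ≠ 0 := (lt_of_lt_of_le ha hy.1).ne'
  exact ((hp y).sub (Real.hasDerivAt_log h0)).continuousAt.continuousWithinAt

lemma step_anti (hp : ∀ y, HasDerivAt p (p' y) y) {a b : ℝ} (ha : 0 < a) (hab : a ≤ b)
    (hs : ∀ y, a < y → y < b → p' y * y ≤ 1) : p b - Real.log b ≤ p a - Real.log a := by
  have h : AntitoneOn (fun y => p y - Real.log y) (Set.Icc a b) := by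
    apply antitoneOn_of_deriv_nonpos (convex_Icc a b) (step_cont hp ha)
    · intro y hy
      rw [interior_Icc] at hy
      have h0 : y ≠ 0 := (lt_trans ha hy.1).ne'
      exact ((hp y).sub (Real.hasDerivAt_log h0)).differentiableAt.differentiableWithinAt
    · intro y hy
      rw [interior_Icc] at hy
      have h0 : 0 < y := lt_trans ha hy.1
      have h1 := ((hp y).sub (Real.hasDerivAt_log h0.ne')).deriv
      have h2 : deriv (fun y => p y - Real.log y) y = p' y - y⁻¹ := h1
      rw [h2]
      have h3 := hs y hy.1 hy.2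
      have h4 : p' y ≤ 1 / y := by rw [le_div_iff₀ h0]; exact h3
      rw [one_div] at h4
      linarith
  exact h ⟨le_refl a, hab⟩ ⟨hab, le_refl b⟩ hab

lemma step_mono (hp : ∀ y, HasDerivAt p (p' y) y) {a b : ℝ} (ha : 0 < a) (hab : a ≤ b)
    (hs : ∀ y, a < y → y < b → 1 ≤ p' y * y) : p a - Real.log a ≤ p b - Real.log b := by
  have h : MonotoneOn (fun y => p y - Real.log y) (Set.Icc a b) := by
    apply monotoneOn_of_deriv_nonneg (convex_Icc a b) (step_cont hp ha)
    · intro y hy
      rw [interior_Icc] at hy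
      have h0 : y ≠ 0 := (lt_trans ha hy.1).ne'
      exact ((hp y).sub (Real.hasDerivAt_log h0)).differentiableAt.differentiableWithinAt
    · intro y hy
      rw [interior_Icc] at hy
      have h0 : 0 < y := lt_trans ha hy.1
      have h1 := ((hp y).sub (Real.hasDerivAt_log h0.ne')).deriv
      have h2 : deriv (fun y => p y - Real.log y) y = p' y - y⁻¹ := h1
      rw [h2]
      have h3 := hs y hy.1 hy.2
      have h4 : 1 / y ≤ p' y := by rw [div_le_iff₀ h0]; exact h3
      rw [one_div] at h4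
      linarith
  exact h ⟨le_refl a, hab⟩ ⟨hab, le_refl b⟩ hab

end steps

/-- The fourth-degree majorant of the logarithm. -/
lemma major4 (y : ℝ) (h0 : 0 < y) (h2 : y ≤ 2) : Real.log y ≤
    (-101661 / 50000) + 289 / 78 * y + (-95 / 39) * y ^ 2 + 211 / 234 * y ^ 3 +
      (-7 / 52) * y ^ 4 + 0 * y ^ 5 := by
  have hp := fun y => hd5 (-101661 / 50000) (289 / 78) (-95 / 39) (211 / 234) (-7 / 52) 0 y
  have hid : ∀ y : ℝ, (289 / 78 + 2 * (-95 / 39) * y + 3 * (211 / 234) * y ^ 2 +
      4 * (-7 / 52) * y ^ 3 + 5 * 0 * y ^ 4) * y =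
      1 - 7 / 13 * (((y - 2 / 3) * (y - 1)) * ((y - 3 / 2) * (y - 13 / 7))) := by
    intro y; ring
  have l1 := log3_le
  have l2 := log3_ge
  have l3 := Real.log_two_lt_d9
  have l4 := Real.log_two_gt_d9
  have e23 : Real.log (2 / 3) = Real.log 2 - Real.log 3 := Real.log_div (by norm_num) (by norm_num)
  have e32 : Real.log (3 / 2) = Real.log 3 - Real.log 2 := Real.log_div (by norm_num) (by norm_num)
  rcases le_total y (2 / 3) with c | c
  · have h := step_anti hp h0 c (fun z _ z2 => by
      rw [hid z]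
      have f1 : 0 ≤ (z - 2 / 3) * (z - 1) := mul_nonneg_of_nonpos_of_nonpos (by linarith) (by linarith)
      have f2 : 0 ≤ (z - 3 / 2) * (z - 13 / 7) := mul_nonneg_of_nonpos_of_nonpos (by linarith) (by linarith)
      have f3 := mul_nonneg f1 f2
      linarith)
    rw [e23] at h
    norm_num at h ⊢
    linarith
  rcases le_total y 1 with c' | c'
  · have h := step_mono hp (by norm_num : (0 : ℝ) < 2 / 3) c (fun z z1 z2 => by
      rw [hid z]
      have f1 : (z - 2 / 3) * (z - 1) ≤ 0 := mul_nonpos_of_nonneg_of_nonpos (by linarith) (by linarith)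
      have f2 : 0 ≤ (z - 3 / 2) * (z - 13 / 7) := mul_nonneg_of_nonpos_of_nonpos (by linarith) (by linarith)
      have f3 := mul_nonpos_of_nonpos_of_nonneg f1 f2
      linarith)
    rw [e23] at h
    norm_num at h ⊢
    linarith
  rcases le_total y (3 / 2) with c2 | c2
  · have h := step_anti hp h0 c2 (fun z z1 z2 => by
      rw [hid z]
      have f1 : 0 ≤ (z - 2 / 3) * (z - 1) := mul_nonneg (by linarith) (by linarith)
      have f2 : 0 ≤ (z - 3 / 2) * (z - 13 / 7) := mul_nonneg_of_nonpos_of_nonpos (by linarith) (by linarith)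
      have f3 := mul_nonneg f1 f2
      linarith)
    rw [e32] at h
    norm_num at h ⊢
    linarith
  rcases le_total y (13 / 7) with c3 | c3
  · have h := step_mono hp (by norm_num : (0 : ℝ) < 3 / 2) c2 (fun z z1 z2 => by
      rw [hid z]
      have f1 : 0 ≤ (z - 2 / 3) * (z - 1) := mul_nonneg (by linarith) (by linarith)
      have f2 : (z - 3 / 2) * (z - 13 / 7) ≤ 0 := mul_nonpos_of_nonneg_of_nonpos (by linarith) (by linarith)
      have f3 := mul_nonpos_of_nonneg_of_nonpos f1 f2
      linarith)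
    rw [e32] at h
    norm_num at h ⊢
    linarith
  · have h := step_anti hp h0 h2 (fun z z1 z2 => by
      rw [hid z]
      have f1 : 0 ≤ (z - 2 / 3) * (z - 1) := mul_nonneg (by linarith) (by linarith)
      have f2 : 0 ≤ (z - 3 / 2) * (z - 13 / 7) := mul_nonneg (by linarith) (by linarith)
      have f3 := mul_nonneg f1 f2
      linarith)
    norm_num at h ⊢
    linarith

/-- The fifth-degree majorant of the logarithm. -/
lemma major5 (y : ℝ) (h0 : 0 < y) : Real.log y ≤
    (-4481 / 2000) + 199 / 42 * y + (-1105 / 252) * y ^ 2 + 1495 / 567 * y ^ 3 +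
      (-164 / 189) * y ^ 4 + 16 / 135 * y ^ 5 := by
  have hp := fun y => hd5 (-4481 / 2000) (199 / 42) (-1105 / 252) (1495 / 567) (-164 / 189)
    (16 / 135) y
  have hid : ∀ y : ℝ, (199 / 42 + 2 * (-1105 / 252) * y + 3 * (1495 / 567) * y ^ 2 +
      4 * (-164 / 189) * y ^ 3 + 5 * (16 / 135) * y ^ 4) * y =
      1 + 16 / 27 * ((((y - 3 / 4) * (y - 6 / 7)) * ((y - 1) * (y - 3 / 2))) * (y - 7 / 4)) := by
    intro y; ring
  have l1 := log3_le
  have l2 := log3_ge
  have l3 := Real.log_two_lt_d9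
  have l4 := Real.log_two_gt_d9
  have e34 : Real.log (3 / 4) = Real.log 3 - 2 * Real.log 2 := by
    have e2 : (2 : ℝ) * Real.log 2 = Real.log (2 ^ 2) := by rw [Real.log_pow]; norm_num
    rw [e2, ← Real.log_div (by norm_num) (by norm_num)]
    norm_num
  have l7 := log7_le
  rcases le_total y (3 / 4) with c | c
  · have h := step_anti hp h0 c (fun z z1 z2 => by
      rw [hid z]
      have f1 : 0 ≤ (z - 3 / 4) * (z - 6 / 7) := mul_nonneg_of_nonpos_of_nonpos (by linarith) (by linarith)
      have f2 : 0 ≤ (z - 1) * (z - 3 / 2) := mul_nonneg_of_nonpos_of_nonpos (by linarith) (by linarith)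
      have f3 := mul_nonpos_of_nonneg_of_nonpos (mul_nonneg f1 f2) (show z - 7 / 4 ≤ 0 by linarith)
      linarith)
    rw [e34] at h
    norm_num at h ⊢
    linarith
  rcases le_total y (6 / 7) with c' | c'
  · have h := step_mono hp (by norm_num : (0 : ℝ) < 3 / 4) c (fun z z1 z2 => by
      rw [hid z]
      have f1 : (z - 3 / 4) * (z - 6 / 7) ≤ 0 := mul_nonpos_of_nonneg_of_nonpos (by linarith) (by linarith)
      have f2 : 0 ≤ (z - 1) * (z - 3 / 2) := mul_nonneg_of_nonpos_of_nonpos (by linarith) (by linarith)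
      have f3 := mul_nonneg_of_nonpos_of_nonpos (mul_nonpos_of_nonpos_of_nonneg f1 f2)
        (show z - 7 / 4 ≤ 0 by linarith)
      linarith)
    rw [e34] at h
    norm_num at h ⊢
    linarith
  rcases le_total y 1 with c2 | c2
  · have h := step_anti hp h0 c2 (fun z z1 z2 => by
      rw [hid z]
      have f1 : 0 ≤ (z - 3 / 4) * (z - 6 / 7) := mul_nonneg (by linarith) (by linarith)
      have f2 : 0 ≤ (z - 1) * (z - 3 / 2) := mul_nonneg_of_nonpos_of_nonpos (by linarith) (by linarith)
      have f3 := mul_nonpos_of_nonneg_of_nonpos (mul_nonneg f1 f2) (show z - 7 / 4 ≤ 0 by linarith)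
      linarith)
    rw [Real.log_one] at h
    norm_num at h ⊢
    linarith
  rcases le_total y (3 / 2) with c3 | c3
  · have h := step_mono hp (by norm_num : (0 : ℝ) < 1) c2 (fun z z1 z2 => by
      rw [hid z]
      have f1 : 0 ≤ (z - 3 / 4) * (z - 6 / 7) := mul_nonneg (by linarith) (by linarith)
      have f2 : (z - 1) * (z - 3 / 2) ≤ 0 := mul_nonpos_of_nonneg_of_nonpos (by linarith) (by linarith)
      have f3 := mul_nonneg_of_nonpos_of_nonpos (mul_nonpos_of_nonneg_of_nonpos f1 f2)
        (show z - 7 / 4 ≤ 0 by linarith)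
      linarith)
    rw [Real.log_one] at h
    norm_num at h ⊢
    linarith
  rcases le_total y (7 / 4) with c4 | c4
  · have h := step_anti hp h0 c4 (fun z z1 z2 => by
      rw [hid z]
      have f1 : 0 ≤ (z - 3 / 4) * (z - 6 / 7) := mul_nonneg (by linarith) (by linarith)
      have f2 : 0 ≤ (z - 1) * (z - 3 / 2) := mul_nonneg (by linarith) (by linarith)
      have f3 := mul_nonpos_of_nonneg_of_nonpos (mul_nonneg f1 f2) (show z - 7 / 4 ≤ 0 by linarith)
      linarith)
    norm_num at h ⊢
    linarith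
  · have h := step_mono hp (by norm_num : (0 : ℝ) < 7 / 4) c4 (fun z z1 z2 => by
      rw [hid z]
      have f1 : 0 ≤ (z - 3 / 4) * (z - 6 / 7) := mul_nonneg (by linarith) (by linarith)
      have f2 : 0 ≤ (z - 1) * (z - 3 / 2) := mul_nonneg (by linarith) (by linarith)
      have f3 := mul_nonneg (mul_nonneg f1 f2) (show 0 ≤ z - 7 / 4 by linarith)
      linarith)
    norm_num at h ⊢
    linarith

end Pool.Agent.H54.C32
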