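import Pool.Agent.H54.C32.DMain

/-! The sum of the logarithms of the nontrivial eigenvalues. -/

open Finset Matrix Pool.Agent.H170R2

namespace Pool.Agent.H54.C32

/-- The logarithm of the product of the nontrivial eigenvalues coming from the block matrix. -/
noncomputable def lg (s : Multiset ℝ) : ℝ := (s.map fun x => Real.log (1 - x / 4)).sum

lemma lg_le {s : Multiset ℝ} (hs : ∀ x ∈ s, -4 ≤ x ∧ x < 4) {c0 c1 c2 c3 c4 c5 : ℝ}
    (hp : ∀ x : ℝ, -4 ≤ x → x < 4 → Real.log (1 - x / 4) ≤ poly c0 c1 c2 c3 c4 c5 x) :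
    lg s ≤ (s.map fun x => poly c0 c1 c2 c3 c4 c5 x).sum :=
  Multiset.sum_map_le_sum_map _ _ fun x hx => hp x (hs x hx).1 (hs x hx).2

lemma maj4 (x : ℝ) (h1 : -4 ≤ x) (h2 : x < 4) : Real.log (1 - x / 4) ≤
    poly (18163 / 5850000) (-1 / 4) (-7 / 208) (-85 / 14976) (-7 / 13312) 0 x := by
  have h := major4 (1 - x / 4) (by linarith) (by linarith)
  refine h.trans (le_of_eq ?_)
  unfold poly
  ring

lemma maj5 (x : ℝ) (h2 : x < 4) : Real.log (1 - x / 4) ≤
    poly (173 / 1134000) (-1 / 4) (-125 / 4032) (-199 / 36288) (-13 / 12096) (-1 / 8640) x := by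
  have h := major5 (1 - x / 4) (by linarith)
  refine h.trans (le_of_eq ?_)
  unfold poly
  ring

lemma arithD (T1 T2 T3 T4 T5 L2 L3 : ℝ) (h1 : 0 ≤ T1) (h2 : 64 ≤ T2) (h3 : 0 ≤ T3)
    (h : 0 ≤ 1152 * T1 + 340 * (T2 - 64) + 84 * T3 + 9 * (T4 - 512))
    (l2 : L2 < 0.6931471808) (l3 : (19 * L2 + 7153 / 531441) / 12 ≤ L3) :
    18163 / 5850000 * 16 + (-1 / 4) * T1 + (-7 / 208) * T2 + (-85 / 14976) * T3 +
        (-7 / 13312) * T4 + 0 * T5 -
        poly (18163 / 5850000) (-1 / 4) (-7 / 208) (-85 / 14976) (-7 / 13312) 0 4 ≤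
      6 * L3 - 10 * L2 := by
  unfold poly
  norm_num
  linarith

/-- First case: the moment inequality. -/
lemma case_momentD {a : Fin 16 → Fin 16 → ℕ} (ha : ∀ i j, a i j = a j i)
    (hr : ∀ i, ∑ j, a i j = 4)
    (h4 : (4 : ℝ) ∈ (toR a).charpoly.roots) (hs : ∀ x ∈ nt a, -4 ≤ x ∧ x < 4)
    (hpsi : 0 ≤ ∑ i, Rows.psi a i) : lg (nt a) ≤ 6 * Real.log 3 - 10 * Real.log 2 := by
  refine le_trans (lg_le hs maj4) ?_
  rw [poly_sum ha h4]
  have t1 : (toR a ^ 1).trace = ((∑ i, a i i : ℕ) : ℝ) := by rw [pow_one, toR_trace]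
  have e2 : toR a ^ 2 = toR (Chk.bb a) := by
    rw [pow_two, toR_mul]; rfl
  have t2 : (toR a ^ 2).trace = ((∑ i, Chk.bb a i i : ℕ) : ℝ) := by rw [e2, toR_trace]
  have t3 : (toR a ^ 3).trace = ((∑ i, Rows.t3 a i : ℕ) : ℝ) := by
    rw [pow_succ, e2, toR_mul, toR_trace]
    have e : ∀ i, ∑ k, Chk.bb a i k * a k i = Rows.t3 a i := by
      intro i
      unfold Rows.t3
      refine sum_congr rfl fun k _ => ?_
      rw [ha k i, mul_comm]
    rw [sum_congr rfl fun i _ => e i]
  have t4 : (toR a ^ 4).trace = ((∑ i, Rows.t4 a i : ℕ) : ℝ) := by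
    rw [show 4 = 2 + 2 from rfl, pow_add, e2, toR_mul, toR_trace]
    have e : ∀ i, ∑ k, Chk.bb a i k * Chk.bb a k i = Rows.t4 a i := by
      intro i
      unfold Rows.t4
      refine sum_congr rfl fun k _ => ?_
      rw [Rows.bb_symm ha k i, pow_two]
    rw [sum_congr rfl fun i _ => e i]
  have hpsi' : (0 : ℝ) ≤ 1152 * ((∑ i, a i i : ℕ) : ℝ) +
      340 * (((∑ i, Chk.bb a i i : ℕ) : ℝ) - 64) + 84 * ((∑ i, Rows.t3 a i : ℕ) : ℝ) +
      9 * (((∑ i, Rows.t4 a i : ℕ) : ℝ) - 512) := by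
    have e : ∑ i, Rows.psi a i = 1152 * ((∑ i, a i i : ℕ) : ℤ) +
      340 * (((∑ i, Chk.bb a i i : ℕ) : ℤ) - 64) + 84 * ((∑ i, Rows.t3 a i : ℕ) : ℤ) +
      9 * (((∑ i, Rows.t4 a i : ℕ) : ℤ) - 512) := by
      unfold Rows.psi
      rw [sum_add_distrib, sum_add_distrib, sum_add_distrib, ← mul_sum, ← mul_sum, ← mul_sum,
        ← mul_sum, sum_sub_distrib, sum_sub_distrib, Nat.cast_sum, Nat.cast_sum, Nat.cast_sum,
        Nat.cast_sum, sum_const, sum_const, card_univ, Fintype.card_fin]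
      rfl
    rw [e] at hpsi
    exact_mod_cast hpsi
  have hb : 64 ≤ ∑ i, Chk.bb a i i := by
    have h1 : ∀ i ∈ (univ : Finset (Fin 16)), 4 ≤ Chk.bb a i i := by
      intro i _
      rw [← hr i]
      unfold Chk.bb
      apply sum_le_sum
      intro k _
      rw [ha k i]
      exact Nat.le_mul_self _
    have h2 := sum_le_sum h1
    rw [sum_const, card_univ, Fintype.card_fin] at h2
    exact h2
  have hb' : (64 : ℝ) ≤ ((∑ i, Chk.bb a i i : ℕ) : ℝ) := by exact_mod_cast hb
  rw [t1, t2, t3, t4]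
  exact arithD _ _ _ _ _ _ _ (Nat.cast_nonneg _) hb' (Nat.cast_nonneg _) hpsi'
    Real.log_two_lt_d9 log3_ge

lemma case_secondD {g : Fin 16 → Fin 16 → ℕ} (hg : g = Finals.gm Finals.F2)
    (h4 : (4 : ℝ) ∈ (toR g).charpoly.roots) (hs : ∀ x ∈ nt g, -4 ≤ x ∧ x < 4) :
    lg (nt g) ≤ 6 * Real.log 3 - 10 * Real.log 2 := by
  subst hg
  refine le_trans (lg_le hs fun x _ h => maj5 x h) ?_
  rw [poly_sum Finals.sym2 h4]
  have e2 : toR (Finals.gm Finals.F2) ^ 2 = toR (Finals.tbl Finals.MB2) := by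
    rw [pow_two, toR_mul]
    exact congrArg toR (funext fun i => funext fun j => Finals.hB2 i j)
  have e3 : toR (Finals.gm Finals.F2) ^ 3 = toR (Finals.tbl Finals.MC2) := by
    rw [pow_succ, e2, toR_mul]
    exact congrArg toR (funext fun i => funext fun j => Finals.hC2 i j)
  have t1 : (toR (Finals.gm Finals.F2) ^ 1).trace = 0 := by
    rw [pow_one, toR_trace, Finals.T2_1]; simp
  have t2 : (toR (Finals.gm Finals.F2) ^ 2).trace = 64 := by
    rw [pow_two, toR_mul, toR_trace, Finals.T2_2]; norm_num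
  have t3 : (toR (Finals.gm Finals.F2) ^ 3).trace = 0 := by
    rw [pow_succ', e2, toR_mul, toR_trace, Finals.T2_3]; norm_num
  have t4 : (toR (Finals.gm Finals.F2) ^ 4).trace = 504 := by
    rw [show 4 = 2 + 2 from rfl, pow_add, e2, toR_mul, toR_trace, Finals.T2_4]; norm_num
  have t5 : (toR (Finals.gm Finals.F2) ^ 5).trace = 520 := by
    rw [show 5 = 2 + 3 from rfl, pow_add, e2, e3, toR_mul, toR_trace, Finals.T2_5]; norm_num
  rw [t1, t2, t3, t4, t5]
  have l2 := log3_ge
  have l3 := Real.log_two_lt_d9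
  unfold poly
  norm_num
  linarith

/-- The exact value for the first graph. -/
lemma first_valueD {g : Fin 16 → Fin 16 → ℕ} (hg : g = Finals.gm Finals.F1)
    (h4 : (4 : ℝ) ∈ (toR g).charpoly.roots) (hs : ∀ x ∈ nt g, x < 4) :
    lg (nt g) = 6 * Real.log 3 - 10 * Real.log 2 := by
  subst hg
  set s : ℝ := Real.sqrt 17 with hsdef
  have hs2 : s ^ 2 = 17 := Real.sq_sqrt (by norm_num)
  have hs0 : 0 < s := Real.sqrt_pos.2 (by norm_num)
  have hs5 : s < 5 := by
    rw [hsdef, Real.sqrt_lt' (by norm_num)]; norm_num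
  set m : ℝ := Real.log ((9 - s) / 8) / (8 * s) with hm
  have hneg : Real.log ((9 + s) / 8) = - Real.log ((9 - s) / 8) := by
    have h1 : (9 + s) / 8 = ((9 - s) / 8)⁻¹ := by
      have : (9 - s) ≠ 0 := by linarith
      field_simp
      nlinarith
    rw [h1, Real.log_inv]
  have p34 : Real.log (3 / 4) = Real.log 3 - 2 * Real.log 2 := by
    have e2 : (2 : ℝ) * Real.log 2 = Real.log (2 ^ 2) := by rw [Real.log_pow]; norm_num
    rw [e2, ← Real.log_div (by norm_num) (by norm_num)]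
    norm_num
  have p32 : Real.log (3 / 2) = Real.log 3 - Real.log 2 :=
    Real.log_div (by norm_num) (by norm_num)
  have hpt : ∀ x ∈ nt (Finals.gm Finals.F1), Real.log (1 - x / 4) =
      Real.log (3 / 4) * poly 0 (8 / 6) (2 / 6) (-3 / 6) (-1 / 6) 0 x +
      Real.log (3 / 2) * poly 0 (-4 / 12) (5 / 12) 0 (-1 / 12) 0 x +
      m * poly 0 (-18) 7 10 1 0 x := by
    intro x hx
    have hlt := hs x hx
    have hx' : x ∈ (toR (Finals.gm Finals.F1)).charpoly.roots := Multiset.mem_of_mem_erase hx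
    have hr := first_roots hx' hlt.ne
    have hf : x * (x - 1) * (x + 2) * (x ^ 2 + x - 4) = 0 := by linear_combination hr
    rcases mul_eq_zero.1 hf with h | h
    · rcases mul_eq_zero.1 h with h | h
      · rcases mul_eq_zero.1 h with h | h
        · rw [h]; unfold poly; norm_num
        · have hx1 : x = 1 := by linarith
          rw [hx1]; unfold poly; norm_num
      · have hx1 : x = -2 := by linarith
        rw [hx1]; unfold poly; norm_num
    · have h8 : 8 * s * m = Real.log ((9 - s) / 8) := by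
        rw [hm]; field_simp
      have hfac : (x - (s - 1) / 2) * (x + (s + 1) / 2) = 0 := by
        linear_combination h - hs2 / 4
      have e1 : poly 0 (8 / 6) (2 / 6) (-3 / 6) (-1 / 6) 0 x = 0 := by
        unfold poly
        linear_combination (-(x * (x + 2)) / 6) * h
      have e2 : poly 0 (-4 / 12) (5 / 12) 0 (-1 / 12) 0 x = 0 := by
        unfold poly
        linear_combination (-(x * (x - 1)) / 12) * h
      have e3 : poly 0 (-18) 7 10 1 0 x = 8 + 16 * x := by
        unfold poly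
        linear_combination (x ^ 2 + 9 * x + 2) * h
      rw [e1, e2, e3]
      rcases mul_eq_zero.1 hfac with h' | h'
      · have hx1 : x = (s - 1) / 2 := by linarith
        have hy : 1 - x / 4 = (9 - s) / 8 := by rw [hx1]; ring
        rw [hy, ← h8, hx1]; ring
      · have hx1 : x = -(s + 1) / 2 := by linarith
        have hy : 1 - x / 4 = (9 + s) / 8 := by rw [hx1]; ring
        rw [hy, hneg, ← h8, hx1]; ring
  have e2 : toR (Finals.gm Finals.F1) ^ 2 = toR (Finals.tbl Finals.MB1) := by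
    rw [pow_two, toR_mul]
    exact congrArg toR (funext fun i => funext fun j => Finals.hB1 i j)
  have t1 : (toR (Finals.gm Finals.F1) ^ 1).trace = 0 := by
    rw [pow_one, toR_trace, Finals.T1_1]; simp
  have t2 : (toR (Finals.gm Finals.F1) ^ 2).trace = 64 := by
    rw [pow_two, toR_mul, toR_trace, Finals.T1_2]; norm_num
  have t3 : (toR (Finals.gm Finals.F1) ^ 3).trace = 0 := by
    rw [pow_succ', e2, toR_mul, toR_trace, Finals.T1_3]; norm_num
  have t4 : (toR (Finals.gm Finals.F1) ^ 4).trace = 488 := by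
    rw [show 4 = 2 + 2 from rfl, pow_add, e2, toR_mul, toR_trace, Finals.T1_4]; norm_num
  unfold lg
  rw [Multiset.map_congr rfl hpt, Multiset.sum_map_add, Multiset.sum_map_add,
    Multiset.sum_map_mul_left, Multiset.sum_map_mul_left, Multiset.sum_map_mul_left,
    poly_sum Finals.sym1 h4, poly_sum Finals.sym1 h4, poly_sum Finals.sym1 h4, t1, t2, t3, t4,
    p34, p32]
  unfold poly
  ring

/-- The upper bound in the class. -/
lemma upper_bound (d : Design 32 16 4) (hc : d.concGraph.Connected) (he : d.Equireplicate) :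
    lg (nt (blk d)) ≤ 6 * Real.log 3 - 10 * Real.log 2 := by
  have h4 := four_mem (blk_symm d) (blk_sum d he)
  have hs : ∀ x ∈ nt (blk d), -4 ≤ x ∧ x < 4 := fun x hx =>
    ⟨roots_ge d x (Multiset.mem_of_mem_erase hx), nt_lt d he hc x hx⟩
  rcases Rows.dichotomy (blk_symm d) (blk_sum d he) (blk_even d) with h | h
  · exact case_momentD (blk_symm d) (blk_sum d he) h4 hs h
  · obtain ⟨σ, F, hF, hσ⟩ := Chk.classify h
    have hσ' : ∀ i j, blk d (σ i) (σ j) = Finals.gm F i j := hσ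
    have r1 := roots_relabel σ hσ'
    rcases Finals.finals_iso F hF with ⟨π, hπ⟩ | ⟨π, hπ⟩
    · have r2 := roots_relabel (a := Finals.gm Finals.F1) (g := Finals.gm F) π
        (fun i j => (hπ i j).symm)
      have r3 : nt (blk d) = nt (Finals.gm Finals.F1) := by
        unfold nt; rw [r1, ← r2]
      rw [r1, ← r2] at h4
      rw [r3] at hs ⊢
      exact le_of_eq (first_valueD rfl h4 fun x hx => (hs x hx).2)
    · have r2 := roots_relabel (a := Finals.gm Finals.F2) (g := Finals.gm F) π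
        (fun i j => (hπ i j).symm)
      have r3 : nt (blk d) = nt (Finals.gm Finals.F2) := by
        unfold nt; rw [r1, ← r2]
      rw [r1, ← r2] at h4
      rw [r3] at hs ⊢
      exact case_secondD rfl h4 hs

end Pool.Agent.H54.C32
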