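import Mathlib

/-! Block designs, their information matrices and pairwise variances. -/

open Finset Matrix

namespace Pool.Agent.H54.C32

/-- A design in the class D(v,b,k): `v` treatments and `b` blocks, each block a multiset of `k`
treatments; `mult i B` is the multiplicity of the treatment `i` in the block `B`. -/
structure Design (v b k : ℕ) where
  mult : Fin v → Fin b → ℕ
  size : ∀ B, ∑ i, mult i B = k

namespace Design
variable {v b k : ℕ}

/-- Replication of a treatment. -/
def rep (d : Design v b k) (i : Fin v) : ℕ := ∑ B, d.mult i B

/-- Concurrence of two treatments. -/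
def conc (d : Design v b k) (i j : Fin v) : ℕ := ∑ B, d.mult i B * d.mult j B

/-- The incidence matrix `N`. -/
noncomputable def incid (d : Design v b k) : Matrix (Fin v) (Fin b) ℝ :=
  Matrix.of fun i B => (d.mult i B : ℝ)

/-- The information matrix `C = R - k⁻¹ N Nᵀ`. -/
noncomputable def info (d : Design v b k) : Matrix (Fin v) (Fin v) ℝ :=
  Matrix.diagonal (fun i => (d.rep i : ℝ)) - (k : ℝ)⁻¹ • (d.incid * d.incidᵀ)

/-- The concurrence graph (as a simple graph: which pairs have positive concurrence). -/
def concGraph (d : Design v b k) : SimpleGraph (Fin v) :=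
  SimpleGraph.fromRel fun i j => 0 < d.conc i j

/-- The nontrivial eigenvalues of the information matrix, with multiplicity. -/
noncomputable def theta (d : Design v b k) : Multiset ℝ := d.info.charpoly.roots.erase 0

/-- The design is equireplicate. -/
def Equireplicate (d : Design v b k) : Prop := ∀ i j, d.rep i = d.rep j

/-- The design is binary. -/
def Binary (d : Design v b k) : Prop := ∀ i B, d.mult i B ≤ 1

/-- The number `λ = ⌊r(k-1)/(v-1)⌋` with `r = ⌊bk/v⌋`. -/
def lam (_d : Design v b k) : ℕ := (b * k / v) * (k - 1) / (v - 1)

/-- Regular-graph designs: binary, equireplicate, with all concurrences in `{λ, λ + 1}`. -/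
def IsRegularGraph (d : Design v b k) : Prop :=
  d.Binary ∧ d.Equireplicate ∧ ∀ i j, i ≠ j → d.conc i j = d.lam ∨ d.conc i j = d.lam + 1

/-- The graph of a regular-graph design: two treatments are adjacent when their concurrence is
`λ + 1`. -/
def graph (d : Design v b k) : SimpleGraph (Fin v) :=
  SimpleGraph.fromRel fun i j => d.conc i j = d.lam + 1

/-- The quantity minimised by A-optimal designs: the sum of the inverses of the nontrivial
eigenvalues of the information matrix. -/
noncomputable def aValue (d : Design v b k) : ℝ := (d.theta.map fun x => x⁻¹).sum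

/-- The design is (connected, equireplicate and) A-optimal among the connected equireplicate designs
of the class D(v,b,k). -/
def IsAOptimal (d : Design v b k) : Prop :=
  d.concGraph.Connected ∧ d.Equireplicate ∧
    ∀ d' : Design v b k, d'.concGraph.Connected → d'.Equireplicate → d.aValue ≤ d'.aValue

end Design

/-- The pairwise variance computed with the generalised inverse `G` of the information matrix. -/
noncomputable def pairVar {v : ℕ} (G : Matrix (Fin v) (Fin v) ℝ) (i j : Fin v) : ℝ :=
  (Pi.single i 1 - Pi.single j 1) ⬝ᵥ (G *ᵥ (Pi.single i 1 - Pi.single j 1))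

end Pool.Agent.H54.C32
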