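import Pool.Agent.H54.C32.Classify

/-!
A checker for search trees over the `4`-regular triangle-free graphs on `16` vertices whose second
eigenvalue is small, together with its soundness proof.
-/

open Finset

namespace Pool.Agent.H54.C32.EChk

open Pool.Agent.H170R2.Chk

/-- Search trees. -/
inductive T2
  | br (i j : ℕ) (t1 t0 : T2)
  | tri (i j k : ℕ)
  | hi (i : ℕ)
  | lo (i : ℕ)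
  | vec (P M : List ℕ)
  | sym (g : List ℕ)
  | fin

/-- Sums. -/
def sm (f : ℕ → ℕ) : ℕ → ℕ
  | 0 => 0
  | n + 1 => Nat.add (sm f n) (f n)

/-- Conjunctions. -/
def al (f : ℕ → Bool) : ℕ → Bool
  | 0 => true
  | n + 1 => al f n && f n

/-- Disjunctions. -/
def ex (f : ℕ → Bool) : ℕ → Bool
  | 0 => false
  | n + 1 => ex f n || f n

def permOK (g : List ℕ) : Bool :=
  al (fun i => Nat.ble (ap g i) 15 && ex (fun k => Nat.beq (ap g k) i) 16) 16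

def cmp2 (E N : ℕ) : List (ℕ × ℕ) → Bool
  | [] => false
  | (p, q) :: l => bif tb N p then (tb E q || cmp2 E N l) else (tb E q && cmp2 E N l)

def unk (E N : ℕ) (P M : List ℕ) : Bool :=
  al (fun i => al (fun j => tb E (Nat.add (Nat.mul 16 i) j) || (tb N (Nat.add (Nat.mul 16 i) j) ||
    (Nat.beq (Nat.mul (ap P i) (ap M j)) 0 && Nat.beq (Nat.mul (ap M i) (ap P j)) 0))) 16) 16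

def qp (E : ℕ) (P M : List ℕ) : ℕ :=
  sm (fun i => sm (fun j => bif tb E (Nat.add (Nat.mul 16 i) j) then
    Nat.add (Nat.mul (ap P i) (ap P j)) (Nat.mul (ap M i) (ap M j)) else 0) 16) 16

def qn (E : ℕ) (P M : List ℕ) : ℕ :=
  sm (fun i => sm (fun j => bif tb E (Nat.add (Nat.mul 16 i) j) then
    Nat.add (Nat.mul (ap P i) (ap M j)) (Nat.mul (ap M i) (ap P j)) else 0) 16) 16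

def nn (P M : List ℕ) : ℕ :=
  sm (fun i => Nat.add (Nat.mul (ap P i) (ap P i)) (Nat.mul (ap M i) (ap M i))) 16

def vecOK (E N : ℕ) (P M : List ℕ) : Bool :=
  unk E N P M && (ex (fun i => !(Nat.beq (Nat.add (ap P i) (ap M 0)) (Nat.add (ap P 0) (ap M i)))) 16 &&
  Nat.ble (Nat.add (Nat.add (Nat.mul 400 (nn P M)) (Nat.mul 39 (Nat.add
      (Nat.mul (sm (ap P) 16) (sm (ap P) 16)) (Nat.mul (sm (ap M) 16) (sm (ap M) 16)))))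
      (Nat.mul 256 (qn E P M)))
    (Nat.add (Nat.mul 256 (qp E P M)) (Nat.mul 78 (Nat.mul (sm (ap P) 16) (sm (ap M) 16)))))

/-- The code of the surviving graph. -/
def F0 : ℕ := 19110283865777216035852207447211767240212121152986374496097867140704935936030

def chk2 : T2 → ℕ → ℕ → Bool
  | .br i j t1 t0, E, N => (Nat.blt i j && Nat.ble j 15) &&
      (chk2 t1 (Nat.lor (Nat.lor E (Nat.shiftLeft 1 (Nat.add (Nat.mul 16 i) j)))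
        (Nat.shiftLeft 1 (Nat.add (Nat.mul 16 j) i))) N &&
      chk2 t0 E (Nat.lor (Nat.lor N (Nat.shiftLeft 1 (Nat.add (Nat.mul 16 i) j)))
        (Nat.shiftLeft 1 (Nat.add (Nat.mul 16 j) i))))
  | .tri i j k, E, _ => (Nat.ble i 15 && (Nat.ble j 15 && Nat.ble k 15)) &&
      (tb E (Nat.add (Nat.mul 16 i) j) && (tb E (Nat.add (Nat.mul 16 j) k) &&
        tb E (Nat.add (Nat.mul 16 i) k)))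
  | .hi i, E, _ => Nat.ble i 15 && Nat.ble 5 (pc 5 (rw E i))
  | .lo i, _, N => Nat.ble i 15 && Nat.ble 13 (pc 13 (rw N i))
  | .vec P M, E, N => vecOK E N P M
  | .sym g, E, N => permOK g && cmp2 E N (symL g pairs)
  | .fin, E, N => Nat.beq E F0 && Nat.beq (Nat.lor E N) (2 ^ 256 - 1)


open T2

def u0 : T2 :=
  br 7 12 (br 9 12 (tri 9 12 7) (br 7 13 (vec [1,2,1,0,0,2,0,1,0,0,0,0,0,1] [0,0,0,1,0,0,0,0,0,0,1]) (br 7 14 (br 7 15 (hi 7) (br 9 14 (tri 9 14 7) (br 12 14 (tri 12 14 7) (br 8 11 (vec [2,1,3,1,0,3,0,0,1,0,0,2,0,1] [0,0,0,0,0,0,1,0,0,0,1]) (br 8 12 (br 8 13 (vec [1,1,2,0,0,3,0,0,2,0,0,1,0,2] [0,0,0,0,0,0,0,1,0,0,1]) (br 8 14 (br 9 11 (vec [2,1,2,2,0,2,0,1,0,2,1,2] []) (br 11 14 (br 11 15 (br 14 15 (hi 14) (br 9 13 (vec [2,1,2,0,2,2,0,0,0,3,1,0,0,3]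 [0,0,0,0,0,0,1,0,1,0,0,1,0,0,1]) (br 9 15 (br 12 13 (br 12 15 (hi 12) (br 13 15 fin (lo 13))) (lo 13)) (lo 9)))) (lo 11)) (lo 11))) (lo 8))) (br 8 13 (vec [2,1,3,0,1,3,0,0,1,0,0,1,0,2] [0,0,0,0,0,0,1,0,0,0,1]) (lo 8))))))) (br 7 15 (vec [1,0,0,1,1,0,0,0,0,0,1] [0,0,0,0,0,0,0,1,0,0,0,0,0,0,0,1]) (lo 7))))) (br 7 13 (vec [1,2,1,0,0,2,0,2,0,1,0,0,0,1] [0,0,0,1,0,0,0,0,0,0,1]) (br 7 14 (br 7 15 (vec [1,0,0,1,1,0,0,0,0,0,1] [0,0,0,0,0,0,0,1,0,0,0,0,0,0,0,1]) (lo 7)) (lo 7)))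

def u1 : T2 :=
  br 6 14 (vec [0,0,1,0,0,1] [0,0,0,0,1,0,1,0,0,0,1,0,0,0,1]) (br 6 15 (br 8 15 (tri 8 15 6) (br 10 15 (tri 10 15 6) (br 7 8 (vec [1,3,2,0,0,2,2,2,2] [0,0,0,1,1]) (br 7 9 (br 7 10 (br 9 10 (hi 10) (br 7 11 (vec [1,2,1,1,0,2,0,2,0,1,0,2] [0,0,0,0,1]) (br 7 12 (vec [0,0,1,0,0,1] [0,0,0,1,0,0,0,1,0,0,1,0,1]) (br 7 13 (vec [1,2,1,0,1,2,0,2,0,1,0,0,0,2] [0,0,0,1]) (br 7 14 (vec [0,0,0,0,1,0,0,1,0,0,1,0,0,0,1] [0,0,1,0,0,1]) (br 7 15 (vec [1,1,0,1,1,0,1,1,0,0,2] []) (lo 7))))))) (br 9 10 (br 7 11 (vec [1,2,1,0,0,2,0,2,0,1,0,1] [0,0,0,0,1,0,0,0,0,0,1]) u0) (lo 10))) (br 7 10 (vec [3,3,0,2,2,1,2,2,0,0,3] []) (br 9 10 (br 7 11 (vec [0,1,0,0,0,1,0,1,0,0,0,1] [0,0,0,0,1,0,0,0,0,0,1]) (br 7 12 (br 7 13 (vec [1,2,2,0,0,3,0,2,0,0,0,0,0,2] [0,0,0,1,0,0,0,0,0,0,2])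 (br 7 14 (br 7 15 (vec [2,0,2,1,1,2,0,0,0,0,1] [0,0,0,0,0,0,1,3,0,0,0,0,1,0,1,2]) (lo 7)) (lo 7))) (br 7 13 (vec [0,1,0,0,0,1,0,1,0,0,0,0,0,1] [0,0,0,1,0,0,0,0,0,0,1]) (lo 7)))) (lo 10))))))) (lo 6))

def u2 : T2 :=
  br 7 9 (br 7 10 (br 9 10 (tri 9 10 7) (br 7 11 (vec [2,2,1,2,0,2,0,2,0,1,1,2] []) (br 7 12 (vec [0,0,0,1,0,0,0,1,0,0,1,0,1] [0,0,1,0,0,1]) (br 7 13 (vec [2,2,1,0,2,2,0,2,0,1,1,0,0,2] []) (br 7 14 (vec [0,0,1,0,0,1] [0,0,0,0,1,0,0,1,0,0,1,0,0,0,1]) (br 7 15 (sym [0,1,2,3,4,5,7,6,9,8,10,11,12,13,14,15]) (lo 7))))))) (br 7 11 (vec [1,2,1,1,0,2,0,2,0,1,0,2] []) (br 7 12 (br 9 12 (tri 9 12 7) (br 7 13 (vec [2,3,2,0,1,3,0,2,0,1,0,0,0,2] [0,0,0,1]) (br 7 14 (vec [0,1,0,0,0,0,1,1,0,0,0,0,1,0,1] []) (br 7 15 (vec [0,2,1,0,0,2,0,1] [0,0,0,1,2,0,0,0,0,0,2,0,0,0,1])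 (lo 7))))) (br 7 13 (vec [1,2,1,0,1,2,0,2,0,1,0,0,0,2] []) (br 7 14 (br 7 15 (vec [4,1,5,2,0,3] [0,0,0,0,0,0,1,3,0,0,0,0,0,0,3,3]) (lo 7)) (lo 7)))))) (br 7 10 (br 7 11 (vec [3,3,2,2,2,3,0,2,0,0,2,2,0,1] [0,0,0,0,0,0,1]) (br 7 12 (vec [0,0,0,1,0,0,0,1,0,0,1,0,1] [0,0,1,0,0,1]) (br 7 13 (vec [3,3,2,2,2,3,0,2,0,0,2,1,0,2] [0,0,0,0,0,0,1]) (br 7 14 (vec [0,0,1,0,0,1] [0,0,0,0,1,0,0,1,0,0,1,0,0,0,1]) (lo 7))))) (br 7 11 (vec [2,3,2,1,0,3,0,2,0,0,0,2] []) (br 7 12 (br 7 13 (br 12 13 (tri 12 13 7) (br 7 14 (vec [0,1,0,0,0,0,1,1,0,0,0,0,1,0,1] [0,0,1]) (br 7 15 (vec [7,4,7,0,4,6] [0,0,0,0,0,0,2,3,0,0,0,0,5,0,1,3]) (lo 7)))) (br 7 14 (vec [0,0,0,0,0,0,1,1,0,0,0,0,1,0,1] [0,0,1,0,0,1]) (lo 7))) (br 7 13 (vec [2,3,2,0,1,3,0,2,0,0,0,0,0,2] []) (lo 7)))))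

def u3 : T2 :=
  br 6 10 (br 6 11 (vec [2,2,1,1,1,2,2,0,0,0,1,2] []) (br 6 12 (vec [0,0,0,1,0,0,1,0,0,0,1,0,1] [0,0,1,0,0,1]) (br 6 13 (vec [2,2,1,1,1,2,2,0,0,0,1,0,0,2] []) (br 6 14 (vec [0,0,0,0,1,0,1,0,0,0,1,0,0,0,1] [0,0,1,0,0,1]) (lo 6))))) (br 6 11 (vec [2,3,2,1,0,3,2,0,0,0,0,2] []) (br 6 12 (br 6 13 (br 12 13 (tri 12 13 6) (br 6 14 (vec [1,2,1,0,1,2,2,0,0,0,0,0,0,2,1] []) (br 6 15 (vec [0,3,2,0,0,3,2] [1,0,0,3,3,0,0,0,0,0,3,0,1,0,2]) (lo 6)))) (br 6 14 (br 6 15 (br 12 14 (tri 12 14 6) (br 12 15 (tri 12 15 6) (br 14 15 (tri 14 15 6) (br 7 8 (sym [0,1,2,3,4,5,7,6,8,9,10,11,12,13,14,15]) (br 7 9 (sym [0,1,2,3,4,5,7,6,8,9,10,11,12,13,14,15]) (br 7 10 (sym [0,1,2,3,4,5,7,6,8,9,10,11,12,13,14,15]) (br 7 11 (sym [0,1,2,3,4,5,7,6,8,9,10,11,12,13,14,15])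 (br 7 12 (vec [2,0,4,0,1,3] [0,1,0,0,0,0,4,2,0,0,0,0,3,0,2,2]) (br 7 13 (vec [3,1,3,1,1,2] [0,0,0,0,0,0,2,0,0,0,0,0,1,0,1,2]) (lo 7)))))))))) (lo 6)) (lo 6))) (br 6 13 (vec [2,3,2,0,1,3,2,0,0,0,0,0,0,2] []) (lo 6))))

def u4 : T2 :=
  br 5 13 (br 5 14 (hi 5) (br 5 15 (hi 5) (br 11 13 (tri 11 13 5) (br 6 8 (br 6 9 (vec [1,2,3,0,0,2,2,0,2,2] [0,0,0,1,1]) (br 6 10 (br 8 10 (tri 8 10 6) (br 6 11 (vec [1,3,2,1,0,3,3,1,2,0,0,2] [0,0,0,0,1]) (br 6 12 (vec [0,0,1,0,0,1] [0,0,0,1,0,0,1,0,0,0,1,0,1]) (br 6 13 (vec [1,3,2,0,1,3,3,1,2,0,0,0,0,2] [0,0,0,1]) u1)))) (br 6 11 (vec [1,2,1,1,0,2,2,0,1,0,0,2] []) (br 6 12 (br 8 12 (tri 8 12 6) (br 6 13 (vec [1,2,1,0,1,2,2,0,1,0,0,0,0,2] []) (br 6 14 (br 6 15 (hi 6) (br 8 14 (tri 8 14 6) (br 12 14 (tri 12 14 6) (br 7 8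 (vec [1,3,2,0,0,2,2,2,2] [0,0,0,1,1]) u2)))) (br 6 15 (vec [1,4,3,0,0,5,2] [0,0,0,1,3,0,0,0,0,0,3,0,0,0,3]) (lo 6))))) (br 6 13 (vec [1,2,1,0,1,2,2,0,1,0,0,0,0,2] []) (br 6 14 (br 6 15 (vec [1,4,3,0,0,5,2] [0,0,0,3,1,0,0,0,0,0,3,0,3]) (lo 6)) (lo 6))))))) (br 6 9 (sym [0,1,2,3,4,5,6,7,9,8,10,11,12,13,14,15]) u3))))) (br 5 14 (sym [0,1,2,3,4,5,6,7,8,9,10,11,12,14,13,15]) (br 5 15 (vec [0,2,2,0,0,3] [0,0,0,2,3,0,0,0,0,0,2,0,1,2,2]) (lo 5)))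

def u5 : T2 :=
  br 4 11 (vec [1,0,0,3,2,0,0,0,0,0,2,2,1] [0,1,1]) (br 4 12 (sym [0,1,2,3,4,5,6,7,8,9,10,12,11,13,14,15]) (br 4 13 (br 10 13 (tri 10 13 4) (br 4 14 (br 4 15 (hi 4) (br 10 14 (tri 10 14 4) (br 13 14 (tri 13 14 4) (br 5 10 (br 5 11 (vec [2,1,1,2,1,2,0,0,0,0,2,1] []) (br 5 12 (sym [0,1,2,3,4,5,6,7,8,9,10,12,11,13,14,15]) (br 5 13 (vec [2,1,1,1,2,2,0,0,0,0,2,0,0,1] []) (br 5 14 (sym [0,1,2,3,4,5,6,7,8,9,10,11,12,14,13,15]) (br 5 15 (vec [3,2,2,1,1,3,0,0,0,0,2] []) (lo 5)))))) (br 5 11 (br 5 12 (vec [2,1,1,3,0,3,0,0,0,0,0,2,2] []) u4) (br 5 12 (sym [0,1,2,3,4,5,6,7,8,9,10,12,11,13,14,15]) (br 5 13 (br 5 14 (vec [2,1,1,0,3,3,0,0,0,0,0,0,0,2,2] []) (br 5 15 (vec [0,2,2,0,0,3] [0,0,0,3,2,0,0,0,0,0,2,2,2,0,1]) (lo 5))) (br 5 14 (sym [0,1,2,3,4,5,6,7,8,9,10,11,12,14,13,15])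 (lo 5))))))))) (br 4 15 (sym [0,1,2,3,4,5,6,7,8,9,10,11,12,13,15,14]) (lo 4)))) (br 4 14 (sym [0,1,2,3,4,5,6,7,8,9,10,11,12,14,13,15]) (lo 4))))

def u6 : T2 :=
  br 7 11 (br 9 11 (tri 9 11 7) (br 7 12 (vec [1,0,1,0,1,1] [0,0,0,1,0,0,1,2,0,0,0,2,1]) (br 7 13 (vec [1,4,4,0,0,4,1,4,1,3,0,0,0,2] [0,0,0,1,1]) (br 7 14 (vec [0,1,0,0,0,0,1,1,0,0,0,1,0,0,1] []) (br 7 15 (sym [1,0,5,6,7,2,3,4,10,13,8,11,14,9,12,15]) (lo 7)))))) (br 7 12 (br 9 12 (tri 9 12 7) (br 7 13 (vec [2,3,2,0,1,3,0,2,0,1,0,0,0,2] [0,0,0,1]) (br 7 14 (br 7 15 (hi 7) (sym [0,1,2,4,3,5,6,7,8,9,13,14,15,10,11,12])) (br 7 15 (br 9 15 (tri 9 15 7) (br 12 15 (tri 12 15 7) (br 8 10 (vec [1,1,2,1,0,2,1,0,2,0,2] []) (br 8 12 (br 8 13 (vec [1,1,2,0,1,2,1,0,2,0,0,0,0,2] []) (br 8 15 (br 9 10 (br 9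 11 (vec [1,1,2,1,0,2,0,1,0,2,2,1] [0,0,0,0,1]) (br 11 13 (vec [1,1,2,1,0,2,0,1,0,2,2] []) (lo 11))) (br 10 14 (br 10 15 (br 11 15 (hi 15) (br 9 11 (br 11 13 (br 9 13 (tri 9 13 11) (br 9 14 (br 12 13 (br 12 14 (hi 12) (sym [3,11,12,0,10,13,6,9,8,7,4,1,2,5,14,15])) (lo 13)) (lo 9))) (lo 11)) (lo 11))) (lo 10)) (lo 10))) (lo 8))) (br 8 13 (vec [1,1,2,0,1,2,1,0,2,0,0,0,0,2] []) (lo 8)))))) (lo 7))))) (br 7 13 (vec [1,2,1,0,1,2,0,2,0,1,0,0,0,2] []) (br 7 14 (br 7 15 (vec [0,0,0,0,1,0,1,2,0,0,0,0,0,0,2,1] [1,0,1,1,0,1]) (lo 7)) (lo 7))))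

def u7 : T2 :=
  br 6 11 (br 8 11 (tri 8 11 6) (br 6 12 (vec [1,1,2,0,1,2] [0,0,0,2,0,0,2,0,0,0,0,2,2]) (br 6 13 (vec [1,2,1,0,1,2,2,0,1,0,0,0,0,2] []) (br 6 14 (br 6 15 (hi 6) (br 8 14 (tri 8 14 6) (br 11 14 (tri 11 14 6) (br 7 8 (vec [0,4,3,0,0,2,3,3,4,1] [0,0,0,2,2]) (br 7 9 (br 7 10 (vec [1,2,1,1,0,2,0,2,0,1,2] []) u6) (br 7 10 (vec [2,3,1,1,0,3,1,2,0,0,2] []) (br 7 11 (br 7 12 (vec [0,1,0,2,0,0,1,3,0,0,0,3,2] [0,0,2,0,2,1]) (br 7 13 (vec [3,4,3,0,2,4,0,2,0,0,0,0,0,3] [0,0,0,1]) (br 7 14 (vec [0,0,0,0,0,0,1,1,0,0,0,1,0,0,1] [0,0,1,0,0,1]) (lo 7)))) (br 7 12 (br 7 13 (vec [2,3,2,0,1,3,0,2,0,0,0,0,0,2] []) (br 7 14 (br 7 15 (vec [0,0,1,0,0,1] [0,0,0,0,1,0,0,1,0,0,0,0,0,0,1,1]) (lo 7)) (lo 7))) (br 7 13 (vec [2,3,1,0,1,3,1,2,0,0,0,0,0,2] []) (lo 7))))))))))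 (br 6 15 (sym [0,1,2,3,4,5,6,7,8,9,10,11,12,13,15,14]) (lo 6)))))) (br 6 12 (sym [0,1,2,3,4,5,6,7,8,9,10,12,11,13,14,15]) (br 6 13 (vec [1,2,1,0,1,2,2,0,1,0,0,0,0,2] []) (br 6 14 (br 6 15 (vec [1,1,2,1,0,2] [0,0,0,0,2,0,2,0,0,0,0,0,0,0,2,2]) (lo 6)) (lo 6))))

def u8 : T2 :=
  br 5 10 (br 5 11 (vec [2,1,1,4,0,3,0,0,0,0,3,3,1] []) (br 5 12 (sym [0,1,2,3,4,5,6,7,8,9,10,12,11,13,14,15]) (br 5 13 (br 5 14 (hi 5) (br 5 15 (hi 5) (br 10 13 (tri 10 13 5) (br 6 8 (br 6 9 (vec [0,3,4,0,0,2,4,1,3,3] [0,0,0,2,2]) (br 6 10 (vec [1,2,1,1,0,2,2,0,1,0,2] []) u7)) (br 6 9 (sym [0,1,2,3,4,5,6,7,9,8,10,11,12,13,14,15]) (br 6 10 (vec [2,3,2,1,0,3,2,0,0,0,2] []) (br 6 11 (br 6 12 (vec [1,1,2,0,1,2] [0,0,0,2,0,0,2,0,0,0,0,2,2]) (br 6 13 (vec [2,3,2,0,1,3,2,0,0,0,0,0,0,2]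 []) (br 6 14 (br 6 15 (vec [0,0,1,0,0,1] [0,0,0,0,1,0,1,0,0,0,0,0,0,0,1,1]) (lo 6)) (lo 6)))) (br 6 12 (sym [0,1,2,3,4,5,6,7,8,9,10,12,11,13,14,15]) (br 6 13 (vec [2,3,2,0,1,3,2,0,0,0,0,0,0,2] []) (lo 6)))))))))) (br 5 14 (sym [0,1,2,3,4,5,6,7,8,9,10,11,12,14,13,15]) (br 5 15 (sym [0,1,2,3,4,5,6,7,8,9,10,11,12,15,14,13]) (lo 5)))))) (br 5 11 (sym [0,1,2,3,4,5,6,7,8,9,11,10,12,13,14,15]) (br 5 12 (sym [0,1,2,3,4,5,6,7,8,9,12,11,10,13,14,15]) (br 5 13 (br 5 14 (vec [2,1,1,0,4,3,0,0,0,0,0,0,0,3,3,1] []) (br 5 15 (sym [0,1,2,3,4,5,6,7,8,9,10,11,12,13,15,14]) (lo 5))) (br 5 14 (sym [0,1,2,3,4,5,6,7,8,9,10,11,12,14,13,15]) (lo 5)))))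

def u9 : T2 :=
  br 3 11 (br 10 11 (tri 10 11 3) (br 3 12 (br 3 13 (hi 3) (br 3 14 (hi 3) (br 3 15 (hi 3) (br 10 12 (tri 10 12 3) (br 11 12 (tri 11 12 3) (br 4 5 (sym [0,1,2,4,3,5,6,7,8,9,10,11,12,13,14,15]) (br 4 6 (sym [0,1,2,4,3,5,6,7,8,9,10,11,12,13,14,15]) (br 4 7 (sym [0,1,2,4,3,5,6,7,8,9,10,11,12,13,14,15]) (br 4 8 (sym [0,1,2,4,3,5,6,7,8,9,10,11,12,13,14,15]) (br 4 9 (sym [0,1,2,4,3,5,6,7,8,9,10,11,12,13,14,15]) (br 4 10 u5 (br 4 11 (sym [0,1,2,3,4,5,6,7,8,9,11,10,12,13,14,15]) (br 4 12 (sym [0,1,2,3,4,5,6,7,8,9,12,11,10,13,14,15]) (br 4 13 (br 4 14 (br 4 15 (br 13 14 (tri 13 14 4) (br 13 15 (tri 13 15 4) (br 14 15 (tri 14 15 4) u8))) (lo 4)) (lo 4)) (lo 4))))))))))))))) (br 3 13 (sym [0,1,2,3,4,5,6,7,8,9,10,11,13,12,14,15]) (br 3 14 (sym [0,1,2,3,4,5,6,7,8,9,10,11,14,13,12,15])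 (br 3 15 (sym [0,1,2,3,4,5,6,7,8,9,10,11,15,13,14,12]) (lo 3)))))) (br 3 12 (sym [0,1,2,3,4,5,6,7,8,9,10,12,11,13,14,15]) (br 3 13 (sym [0,1,2,3,4,5,6,7,8,9,10,13,12,11,14,15]) (br 3 14 (sym [0,1,2,3,4,5,6,7,8,9,10,14,12,13,11,15]) (lo 3))))

def u10 : T2 :=
  br 2 9 (br 2 10 (hi 2) (br 2 11 (hi 2) (br 2 12 (hi 2) (br 2 13 (hi 2) (br 2 14 (hi 2) (br 2 15 (hi 2) (br 5 9 (tri 5 9 2) (br 8 9 (tri 8 9 2) (br 3 5 (vec [1,1,1,1,0,1] []) (br 3 6 (vec [5,5,3,3,1,3,3,1] []) (br 3 7 (sym [0,1,2,3,4,5,7,6,8,9,10,11,12,13,14,15]) (br 3 8 (vec [5,3,5,3,1,3,0,0,3,1] []) (br 3 9 (sym [0,1,2,3,4,5,6,7,9,8,10,11,12,13,14,15]) (br 3 10 u9 (br 3 11 (sym [0,1,2,3,4,5,6,7,8,9,11,10,12,13,14,15]) (br 3 12 (sym [0,1,2,3,4,5,6,7,8,9,12,11,10,13,14,15]) (br 3 13 (sym [0,1,2,3,4,5,6,7,8,9,13,11,12,10,14,15])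 (lo 3)))))))))))))))))) (br 2 10 (sym [0,1,2,3,4,5,6,7,8,10,9,11,12,13,14,15]) (br 2 11 (sym [0,1,2,3,4,5,6,7,8,11,10,9,12,13,14,15]) (br 2 12 (sym [0,1,2,3,4,5,6,7,8,12,10,11,9,13,14,15]) (br 2 13 (sym [0,1,2,3,4,5,6,7,8,13,10,11,12,9,14,15]) (br 2 14 (sym [0,1,2,3,4,5,6,7,8,14,10,11,12,13,9,15]) (br 2 15 (sym [0,1,2,3,4,5,6,7,8,15,10,11,12,13,14,9]) (lo 2)))))))

def u11 : T2 :=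
  br 3 12 (br 11 12 (tri 11 12 3) (br 3 13 (br 3 14 (hi 3) (br 3 15 (hi 3) (br 11 13 (tri 11 13 3) (br 12 13 (tri 12 13 3) (br 4 5 (sym [0,1,4,3,2,5,6,7,8,9,10,11,12,13,14,15]) (br 4 6 (sym [0,1,4,3,2,5,6,7,8,9,10,11,12,13,14,15]) (br 4 7 (sym [0,1,4,3,2,5,6,7,8,9,10,11,12,13,14,15]) (br 4 8 (sym [0,1,2,4,3,5,6,7,8,9,10,11,12,13,14,15]) (br 4 9 (sym [0,1,2,4,3,5,6,7,8,9,10,11,12,13,14,15]) (br 4 10 (sym [0,1,2,4,3,5,6,7,8,9,10,11,12,13,14,15]) (br 4 11 (br 4 12 (vec [1,0,0,3,2,0,0,0,0,0,0,2,2,1] [0,1,1]) (br 4 13 (sym [0,1,2,3,4,5,6,7,8,9,10,11,13,12,14,15]) (br 4 14 (br 4 15 (sym [0,1,3,2,4,5,6,7,11,12,13,8,9,10,14,15]) (lo 4)) (lo 4)))) (br 4 12 (sym [0,1,2,3,4,5,6,7,8,9,10,12,11,13,14,15]) (br 4 13 (sym [0,1,2,3,4,5,6,7,8,9,10,13,12,11,14,15]) (lo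 4)))))))))))))) (br 3 14 (sym [0,1,2,3,4,5,6,7,8,9,10,11,12,14,13,15]) (br 3 15 (sym [0,1,2,3,4,5,6,7,8,9,10,11,12,15,14,13]) (lo 3))))) (br 3 13 (sym [0,1,2,3,4,5,6,7,8,9,10,11,13,12,14,15]) (br 3 14 (sym [0,1,2,3,4,5,6,7,8,9,10,11,14,13,12,15]) (lo 3)))

def u12 : T2 :=
  br 3 6 (sym [0,1,3,2,4,5,6,7,8,9,10,11,12,13,14,15]) (br 3 7 (sym [0,1,3,2,4,5,6,7,8,9,10,11,12,13,14,15]) (br 3 8 (br 3 9 (vec [1,0,1,1,0,0,0,0,1,1] []) (br 3 10 (sym [0,1,2,3,4,5,6,7,8,10,9,11,12,13,14,15]) (br 3 11 (br 8 11 (tri 8 11 3) (br 3 12 (br 3 13 (hi 3) (br 3 14 (hi 3) (br 3 15 (hi 3) (sym [0,2,1,3,4,8,9,10,5,6,7,11,12,13,14,15])))) (br 3 13 (sym [0,1,2,3,4,5,6,7,8,9,10,11,13,12,14,15]) (br 3 14 (sym [0,1,2,3,4,5,6,7,8,9,10,11,14,13,12,15]) (br 3 15 (sym [0,1,2,3,4,5,6,7,8,9,10,11,15,13,14,12])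 (lo 3)))))) (br 3 12 (sym [0,1,2,3,4,5,6,7,8,9,10,12,11,13,14,15]) (br 3 13 (sym [0,1,2,3,4,5,6,7,8,9,10,13,12,11,14,15]) (br 3 14 (sym [0,1,2,3,4,5,6,7,8,9,10,14,12,13,11,15]) (lo 3))))))) (br 3 9 (sym [0,1,2,3,4,5,6,7,9,8,10,11,12,13,14,15]) (br 3 10 (sym [0,1,2,3,4,5,6,7,10,9,8,11,12,13,14,15]) (br 3 11 u11 (br 3 12 (sym [0,1,2,3,4,5,6,7,8,9,10,12,11,13,14,15]) (br 3 13 (sym [0,1,2,3,4,5,6,7,8,9,10,13,12,11,14,15]) (lo 3))))))))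

def u13 : T2 :=
  br 2 8 (br 2 9 (br 8 9 (tri 8 9 2) (br 2 10 (br 2 11 (hi 2) (br 2 12 (hi 2) (br 2 13 (hi 2) (br 2 14 (hi 2) (br 2 15 (hi 2) (br 8 10 (tri 8 10 2) (br 9 10 (tri 9 10 2) (br 3 5 (sym [0,1,3,2,4,5,6,7,8,9,10,11,12,13,14,15]) u12)))))))) (br 2 11 (sym [0,1,2,3,4,5,6,7,8,9,11,10,12,13,14,15]) (br 2 12 (sym [0,1,2,3,4,5,6,7,8,9,12,11,10,13,14,15]) (br 2 13 (sym [0,1,2,3,4,5,6,7,8,9,13,11,12,10,14,15]) (br 2 14 (sym [0,1,2,3,4,5,6,7,8,9,14,11,12,13,10,15]) (br 2 15 (sym [0,1,2,3,4,5,6,7,8,9,15,11,12,13,14,10]) (lo 2)))))))) (br 2 10 (sym [0,1,2,3,4,5,6,7,8,10,9,11,12,13,14,15]) (br 2 11 (sym [0,1,2,3,4,5,6,7,8,11,10,9,12,13,14,15]) (br 2 12 (sym [0,1,2,3,4,5,6,7,8,12,10,11,9,13,14,15]) (br 2 13 (sym [0,1,2,3,4,5,6,7,8,13,10,11,12,9,14,15])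 (br 2 14 (sym [0,1,2,3,4,5,6,7,8,14,10,11,12,13,9,15]) (lo 2))))))) (br 2 9 (sym [0,1,2,3,4,5,6,7,9,8,10,11,12,13,14,15]) (br 2 10 (sym [0,1,2,3,4,5,6,7,10,9,8,11,12,13,14,15]) (br 2 11 (sym [0,1,2,3,4,5,6,7,11,9,10,8,12,13,14,15]) (br 2 12 (sym [0,1,2,3,4,5,6,7,12,9,10,11,8,13,14,15]) (br 2 13 (sym [0,1,2,3,4,5,6,7,13,9,10,11,12,8,14,15]) (lo 2))))))

def u14 : T2 :=
  br 1 7 (br 1 8 (hi 1) (br 1 9 (hi 1) (br 1 10 (hi 1) (br 1 11 (hi 1) (br 1 12 (hi 1) (br 1 13 (hi 1) (br 1 14 (hi 1) (br 1 15 (hi 1) (br 5 7 (tri 5 7 1) (br 6 7 (tri 6 7 1) (br 2 5 (br 2 6 (vec [1,1,1,0,0,1,1] []) (br 2 7 (sym [0,1,2,3,4,5,7,6,8,9,10,11,12,13,14,15]) (br 2 8 (br 5 8 (tri 5 8 2) u10) (br 2 9 (sym [0,1,2,3,4,5,6,7,9,8,10,11,12,13,14,15]) (br 2 10 (sym [0,1,2,3,4,5,6,7,10,9,8,11,12,13,14,15])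 (br 2 11 (sym [0,1,2,3,4,5,6,7,11,9,10,8,12,13,14,15]) (br 2 12 (sym [0,1,2,3,4,5,6,7,12,9,10,11,8,13,14,15]) (br 2 13 (sym [0,1,2,3,4,5,6,7,13,9,10,11,12,8,14,15]) (br 2 14 (sym [0,1,2,3,4,5,6,7,14,9,10,11,12,13,8,15]) (lo 2)))))))))) (br 2 6 (sym [0,1,2,3,4,6,5,7,8,9,10,11,12,13,14,15]) (br 2 7 (sym [0,1,2,3,4,7,6,5,8,9,10,11,12,13,14,15]) u13))))))))))))) (br 1 8 (sym [0,1,2,3,4,5,6,8,7,9,10,11,12,13,14,15]) (br 1 9 (sym [0,1,2,3,4,5,6,9,8,7,10,11,12,13,14,15]) (br 1 10 (sym [0,1,2,3,4,5,6,10,8,9,7,11,12,13,14,15]) (br 1 11 (sym [0,1,2,3,4,5,6,11,8,9,10,7,12,13,14,15]) (br 1 12 (sym [0,1,2,3,4,5,6,12,8,9,10,11,7,13,14,15]) (br 1 13 (sym [0,1,2,3,4,5,6,13,8,9,10,11,12,7,14,15]) (br 1 14 (sym [0,1,2,3,4,5,6,14,8,9,10,11,12,13,7,15]) (br 1 15 (sym [0,1,2,3,4,5,6,15,8,9,10,11,12,13,14,7])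 (lo 1)))))))))

def u15 : T2 :=
  br 1 5 (br 1 6 (br 5 6 (tri 5 6 1) u14) (br 1 7 (sym [0,1,2,3,4,5,7,6,8,9,10,11,12,13,14,15]) (br 1 8 (sym [0,1,2,3,4,5,8,7,6,9,10,11,12,13,14,15]) (br 1 9 (sym [0,1,2,3,4,5,9,7,8,6,10,11,12,13,14,15]) (br 1 10 (sym [0,1,2,3,4,5,10,7,8,9,6,11,12,13,14,15]) (br 1 11 (sym [0,1,2,3,4,5,11,7,8,9,10,6,12,13,14,15]) (br 1 12 (sym [0,1,2,3,4,5,12,7,8,9,10,11,6,13,14,15]) (br 1 13 (sym [0,1,2,3,4,5,13,7,8,9,10,11,12,6,14,15]) (br 1 14 (sym [0,1,2,3,4,5,14,7,8,9,10,11,12,13,6,15]) (lo 1)))))))))) (br 1 6 (sym [0,1,2,3,4,6,5,7,8,9,10,11,12,13,14,15]) (br 1 7 (sym [0,1,2,3,4,7,6,5,8,9,10,11,12,13,14,15]) (br 1 8 (sym [0,1,2,3,4,8,6,7,5,9,10,11,12,13,14,15]) (br 1 9 (sym [0,1,2,3,4,9,6,7,8,5,10,11,12,13,14,15]) (br 1 10 (sym [0,1,2,3,4,10,6,7,8,9,5,11,12,13,14,15])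 (br 1 11 (sym [0,1,2,3,4,11,6,7,8,9,10,5,12,13,14,15]) (br 1 12 (sym [0,1,2,3,4,12,6,7,8,9,10,11,5,13,14,15]) (br 1 13 (sym [0,1,2,3,4,13,6,7,8,9,10,11,12,5,14,15]) (lo 1)))))))))

def u16 : T2 :=
  br 1 3 (tri 1 3 0) (br 2 3 (tri 2 3 0) (br 0 4 (br 0 5 (hi 0) (br 0 6 (hi 0) (br 0 7 (hi 0) (br 0 8 (hi 0) (br 0 9 (hi 0) (br 0 10 (hi 0) (br 0 11 (hi 0) (br 0 12 (hi 0) (br 0 13 (hi 0) (br 0 14 (hi 0) (br 0 15 (hi 0) (br 1 4 (tri 1 4 0) (br 2 4 (tri 2 4 0) (br 3 4 (tri 3 4 0) u15)))))))))))))) (br 0 5 (sym [0,1,2,3,5,4,6,7,8,9,10,11,12,13,14,15]) (br 0 6 (sym [0,1,2,3,6,5,4,7,8,9,10,11,12,13,14,15]) (br 0 7 (sym [0,1,2,3,7,5,6,4,8,9,10,11,12,13,14,15]) (br 0 8 (sym [0,1,2,3,8,5,6,7,4,9,10,11,12,13,14,15]) (br 0 9 (sym [0,1,2,3,9,5,6,7,8,4,10,11,12,13,14,15])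 (br 0 10 (sym [0,1,2,3,10,5,6,7,8,9,4,11,12,13,14,15]) (br 0 11 (sym [0,1,2,3,11,5,6,7,8,9,10,4,12,13,14,15]) (br 0 12 (sym [0,1,2,3,12,5,6,7,8,9,10,11,4,13,14,15]) (br 0 13 (sym [0,1,2,3,13,5,6,7,8,9,10,11,12,4,14,15]) (br 0 14 (sym [0,1,2,3,14,5,6,7,8,9,10,11,12,13,4,15]) (br 0 15 (sym [0,1,2,3,15,5,6,7,8,9,10,11,12,13,14,4]) (lo 0))))))))))))))

def u17 : T2 :=
  br 0 2 (br 1 2 (tri 1 2 0) (br 0 3 u16 (br 0 4 (sym [0,1,2,4,3,5,6,7,8,9,10,11,12,13,14,15]) (br 0 5 (sym [0,1,2,5,4,3,6,7,8,9,10,11,12,13,14,15]) (br 0 6 (sym [0,1,2,6,4,5,3,7,8,9,10,11,12,13,14,15]) (br 0 7 (sym [0,1,2,7,4,5,6,3,8,9,10,11,12,13,14,15]) (br 0 8 (sym [0,1,2,8,4,5,6,7,3,9,10,11,12,13,14,15]) (br 0 9 (sym [0,1,2,9,4,5,6,7,8,3,10,11,12,13,14,15]) (br 0 10 (sym [0,1,2,10,4,5,6,7,8,9,3,11,12,13,14,15])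 (br 0 11 (sym [0,1,2,11,4,5,6,7,8,9,10,3,12,13,14,15]) (br 0 12 (sym [0,1,2,12,4,5,6,7,8,9,10,11,3,13,14,15]) (br 0 13 (sym [0,1,2,13,4,5,6,7,8,9,10,11,12,3,14,15]) (br 0 14 (sym [0,1,2,14,4,5,6,7,8,9,10,11,12,13,3,15]) (lo 0)))))))))))))) (br 0 3 (sym [0,1,3,2,4,5,6,7,8,9,10,11,12,13,14,15]) (br 0 4 (sym [0,1,4,3,2,5,6,7,8,9,10,11,12,13,14,15]) (br 0 5 (sym [0,1,5,3,4,2,6,7,8,9,10,11,12,13,14,15]) (br 0 6 (sym [0,1,6,3,4,5,2,7,8,9,10,11,12,13,14,15]) (br 0 7 (sym [0,1,7,3,4,5,6,2,8,9,10,11,12,13,14,15]) (br 0 8 (sym [0,1,8,3,4,5,6,7,2,9,10,11,12,13,14,15]) (br 0 9 (sym [0,1,9,3,4,5,6,7,8,2,10,11,12,13,14,15]) (br 0 10 (sym [0,1,10,3,4,5,6,7,8,9,2,11,12,13,14,15]) (br 0 11 (sym [0,1,11,3,4,5,6,7,8,9,10,2,12,13,14,15]) (br 0 12 (sym [0,1,12,3,4,5,6,7,8,9,10,11,2,13,14,15])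 (br 0 13 (sym [0,1,13,3,4,5,6,7,8,9,10,11,12,2,14,15]) (lo 0))))))))))))


def root : T2 :=
  br 0 1 u17 (br 0 2 (sym [0,2,1,3,4,5,6,7,8,9,10,11,12,13,14,15]) (br 0 3 (sym [0,3,2,1,4,5,6,7,8,9,10,11,12,13,14,15]) (br 0 4 (sym [0,4,2,3,1,5,6,7,8,9,10,11,12,13,14,15]) (br 0 5 (sym [0,5,2,3,4,1,6,7,8,9,10,11,12,13,14,15]) (br 0 6 (sym [0,6,2,3,4,5,1,7,8,9,10,11,12,13,14,15]) (br 0 7 (sym [0,7,2,3,4,5,6,1,8,9,10,11,12,13,14,15]) (br 0 8 (sym [0,8,2,3,4,5,6,7,1,9,10,11,12,13,14,15]) (br 0 9 (sym [0,9,2,3,4,5,6,7,8,1,10,11,12,13,14,15]) (br 0 10 (sym [0,10,2,3,4,5,6,7,8,9,1,11,12,13,14,15]) (br 0 11 (sym [0,11,2,3,4,5,6,7,8,9,10,1,12,13,14,15]) (br 0 12 (sym [0,12,2,3,4,5,6,7,8,9,10,11,1,13,14,15]) (lo 0))))))))))))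

theorem chk_root : chk2 root 0 57896486333794311352466587372716853682903935386526539088661048023915243372545 = true := by
  decide +kernel

end Pool.Agent.H54.C32.EChk
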