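import Pool.Agent.H54.C32.ESpec

/-! No matrix of the class has all nontrivial eigenvalues below `tau`. -/

open Finset Matrix Pool.Agent.H170R2 Pool.Agent.H170R2.Chk

namespace Pool.Agent.H54.C32

open EChk

/-- Simple triangle-free regular graphs with a small quadratic form. -/
structure Hyp2 (a : Fin 16 → Fin 16 → ℕ) : Prop where
  symm : ∀ i j, a i j = a j i
  zo : ∀ i j, a i j = 0 ∨ a i j = 1
  diag : ∀ i, a i i = 0
  deg : ∀ i, ∑ j, a i j = 4
  tri : ∀ i j k, a i j * a j k * a i k = 0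
  quad : ∀ y : Fin 16 → ℝ, ∑ i, y i = 0 → y ≠ 0 →
    ∑ i, ∑ j, (a i j : ℝ) * (y i * y j) < tau * ∑ i, y i ^ 2

variable {a : Fin 16 → Fin 16 → ℕ}

lemma hyp2_rel (h : Hyp2 a) (σ : Equiv.Perm (Fin 16)) : Hyp2 (rel a σ) where
  symm i j := h.symm _ _
  zo i j := h.zo _ _
  diag i := h.diag _
  deg i := by
    rw [← h.deg (σ i)]
    exact Equiv.sum_comp σ fun j => a (σ i) j
  tri i j k := h.tri _ _ _
  quad y hy hne := by
    have h1 : ∑ i, y (σ.symm i) = 0 := by rw [Equiv.sum_comp σ.symm y]; exact hy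
    have h2 : (fun i => y (σ.symm i)) ≠ 0 := by
      intro hcon
      apply hne
      funext i
      have := congrFun hcon (σ i)
      simpa using this
    have h3 := h.quad (fun i => y (σ.symm i)) h1 h2
    rw [Equiv.sum_comp σ.symm fun i => y i ^ 2] at h3
    refine lt_of_le_of_lt (le_of_eq ?_) h3
    rw [← Equiv.sum_comp σ fun i => ∑ j, (a i j : ℝ) * (y (σ.symm i) * y (σ.symm j))]
    refine sum_congr rfl fun i _ => ?_
    rw [← Equiv.sum_comp σ fun j => (a (σ i) j : ℝ) * (y (σ.symm (σ i)) * y (σ.symm j))]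
    refine sum_congr rfl fun j _ => ?_
    simp only [Equiv.symm_apply_apply]
    rfl

lemma quad_int (h : Hyp2 a) (z : Fin 16 → ℤ) (hz : ∃ i j, z i ≠ z j) :
    256 * ∑ i, ∑ j, (a i j : ℤ) * (z i * z j) < 400 * ∑ i, z i ^ 2 + 39 * (∑ i, z i) ^ 2 := by
  set c : ℝ := (∑ i, (z i : ℝ)) / 16 with hc
  have hS : ∑ i, (z i : ℝ) = 16 * c := by rw [hc]; ring
  have hy : ∑ i, ((z i : ℝ) - c) = 0 := by
    rw [sum_sub_distrib, hS]; simp
  have hne : (fun i => (z i : ℝ) - c) ≠ 0 := by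
    intro hcon
    obtain ⟨i, j, hij⟩ := hz
    have h1 := congrFun hcon i
    have h2 := congrFun hcon j
    simp only [Pi.zero_apply] at h1 h2
    apply hij
    have : (z i : ℝ) = (z j : ℝ) := by linarith
    exact_mod_cast this
  have hq := h.quad _ hy hne
  have hdeg : ∀ i, ∑ j, (a i j : ℝ) = 4 := by
    intro i
    have : ((∑ j, a i j : ℕ) : ℝ) = ((4 : ℕ) : ℝ) := by rw [h.deg i]
    push_cast at this
    exact this
  have e1 : ∑ i, ∑ j, (a i j : ℝ) * (((z i : ℝ) - c) * ((z j : ℝ) - c)) =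
      ∑ i, ∑ j, (a i j : ℝ) * ((z i : ℝ) * (z j : ℝ)) - 64 * c ^ 2 := by
    have t1 : ∀ i, ∑ j, (a i j : ℝ) * (((z i : ℝ) - c) * ((z j : ℝ) - c)) =
        ∑ j, (a i j : ℝ) * ((z i : ℝ) * (z j : ℝ)) - c * ∑ j, (a i j : ℝ) * (z j : ℝ) -
          4 * c * (z i : ℝ) + 4 * c ^ 2 := by
      intro i
      have t2 : ∑ j, (a i j : ℝ) * (((z i : ℝ) - c) * ((z j : ℝ) - c)) =
          ∑ j, (a i j : ℝ) * ((z i : ℝ) * (z j : ℝ)) - c * ∑ j, (a i j : ℝ) * (z j : ℝ) -
            c * (z i : ℝ) * ∑ j, (a i j : ℝ) + c ^ 2 * ∑ j, (a i j : ℝ) := by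
        simp only [mul_sum, ← sum_add_distrib, ← sum_sub_distrib]
        exact sum_congr rfl fun j _ => by ring
      rw [t2, hdeg i]; ring
    rw [sum_congr rfl fun i _ => t1 i, sum_add_distrib, sum_sub_distrib, sum_sub_distrib,
      ← mul_sum, ← mul_sum, hS]
    have t3 : ∑ i, ∑ j, (a i j : ℝ) * (z j : ℝ) = 4 * (16 * c) := by
      rw [sum_comm, ← hS, mul_sum]
      refine sum_congr rfl fun j _ => ?_
      rw [← sum_mul]
      congr 1
      rw [← hdeg j]
      exact sum_congr rfl fun i _ => by rw [h.symm i j]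
    rw [t3]
    simp only [sum_const, card_univ, Fintype.card_fin, nsmul_eq_mul]
    push_cast
    ring
  have e2 : ∑ i, ((z i : ℝ) - c) ^ 2 = ∑ i, (z i : ℝ) ^ 2 - 16 * c ^ 2 := by
    have t1 : ∑ i, ((z i : ℝ) - c) ^ 2 = ∑ i, (z i : ℝ) ^ 2 - 2 * c * ∑ i, (z i : ℝ) +
        ∑ _i : Fin 16, c ^ 2 := by
      rw [mul_sum, ← sum_sub_distrib, ← sum_add_distrib]
      exact sum_congr rfl fun i _ => by ring
    rw [t1, hS]
    simp only [sum_const, card_univ, Fintype.card_fin, nsmul_eq_mul]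
    push_cast
    ring
  have hnn : 0 ≤ ∑ i, ((z i : ℝ) - c) ^ 2 := sum_nonneg fun i _ => sq_nonneg _
  rw [e1] at hq
  have hb : tau * ∑ i, ((z i : ℝ) - c) ^ 2 ≤ 25 / 16 * ∑ i, ((z i : ℝ) - c) ^ 2 :=
    mul_le_mul_of_nonneg_right tau_lt.le hnn
  rw [e2] at hq hb
  have hfin : 256 * ∑ i, ∑ j, (a i j : ℝ) * ((z i : ℝ) * (z j : ℝ)) <
      400 * ∑ i, (z i : ℝ) ^ 2 + 39 * (∑ i, (z i : ℝ)) ^ 2 := by
    rw [hS]
    linarith
  exact_mod_cast hfin

lemma perm_of_ok {g : List ℕ} (hg : permOK g = true) :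
    ∃ τ : Equiv.Perm (Fin 16), ∀ i : Fin 16, ((τ i : Fin 16) : ℕ) = ap g i := by
  unfold permOK at hg
  rw [al_iff] at hg
  have hb : ∀ i < 16, ap g i < 16 := by
    intro i hi
    have := hg i hi
    rw [Bool.and_eq_true, ble_iff] at this
    omega
  have hsurj : ∀ j < 16, ∃ i < 16, ap g i = j := by
    intro j hj
    have := hg j hj
    rw [Bool.and_eq_true, ex_iff] at this
    obtain ⟨_, i, hi, h⟩ := this
    rw [beq_iff] at h
    exact ⟨i, hi, h⟩
  let f : Fin 16 → Fin 16 := fun i => ⟨ap g i, hb i i.2⟩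
  have hf : Function.Surjective f := by
    intro j
    obtain ⟨i, hi, h⟩ := hsurj j j.2
    exact ⟨⟨i, hi⟩, Fin.ext h⟩
  have hbij : Function.Bijective f := ⟨Finite.injective_iff_surjective.2 hf, hf⟩
  exact ⟨Equiv.ofBijective f hbij, fun i => rfl⟩

lemma good2_of_hyp (h : Hyp2 a)
    (hmax : ∀ τ : Equiv.Perm (Fin 16), enc (toA (rel a τ)) pairs ≤ enc (toA a) pairs) :
    Good2 (toA a) where
  symm i j := by
    unfold toA
    by_cases hij : i < 16 ∧ j < 16
    · rw [dif_pos hij, dif_pos ⟨hij.2, hij.1⟩, h.symm]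
    · rw [dif_neg hij, dif_neg fun h' => hij ⟨h'.2, h'.1⟩]
  deg i hi := by
    have h1 := h.deg ⟨i, hi⟩
    rw [Finset.sum_range, ← h1]
    refine sum_congr rfl fun j _ => ?_
    have := toA_fin (a := a) ⟨i, hi⟩ j
    change toA a i j = _ at this
    rw [this]
    rcases h.zo ⟨i, hi⟩ j with h2 | h2 <;> rw [h2] <;> simp
  tri i j k h1 h2 h3 := by
    have hlt : ∀ i j : ℕ, toA a i j = true → i < 16 ∧ j < 16 := by
      intro i j hh
      by_contra hcon
      unfold toA at hh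
      rw [dif_neg hcon] at hh
      exact absurd hh (by decide)
    have hi := (hlt _ _ h1).1
    have hj := (hlt _ _ h1).2
    have hk := (hlt _ _ h2).2
    have e := h.tri ⟨i, hi⟩ ⟨j, hj⟩ ⟨k, hk⟩
    unfold toA at h1 h2 h3
    rw [dif_pos ⟨hi, hj⟩, decide_eq_true_eq] at h1
    rw [dif_pos ⟨hj, hk⟩, decide_eq_true_eq] at h2
    rw [dif_pos ⟨hi, hk⟩, decide_eq_true_eq] at h3
    rw [h1, h2, h3] at e
    omega
  quad z hz := by
    have hz' : ∃ i j : Fin 16, z i ≠ z j := by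
      obtain ⟨i, hi, hne⟩ := hz
      exact ⟨⟨i, hi⟩, 0, hne⟩
    have h1 := quad_int h (fun i : Fin 16 => z i) hz'
    rw [Finset.sum_range, Finset.sum_range, Finset.sum_range]
    refine lt_of_le_of_lt (le_of_eq ?_) h1
    congr 1
    refine sum_congr rfl fun i _ => ?_
    rw [Finset.sum_range]
    refine sum_congr rfl fun j _ => ?_
    rw [toA_fin]
    rcases h.zo i j with h2 | h2 <;> rw [h2] <;> simp
  lex g hg hwin := by
    obtain ⟨τ, hτ⟩ := perm_of_ok hg
    have hb : ∀ i < 16, ap g i < 16 := by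
      intro i hi
      have := hτ ⟨i, hi⟩
      rw [← this]
      exact (τ ⟨i, hi⟩).2
    have hs : ∀ i j, toA a i j = toA a j i := by
      intro i j
      unfold toA
      by_cases hij : i < 16 ∧ j < 16
      · rw [dif_pos hij, dif_pos ⟨hij.2, hij.1⟩, h.symm]
      · rw [dif_neg hij, dif_neg fun h' => hij ⟨h'.2, h'.1⟩]
    have h1 := win_enc hs hb pairs pairs_ok hwin
    have h2 := hmax τ
    have h3 : enc (toA (rel a τ)) pairs = enc (fun i j => toA a (ap g i) (ap g j)) pairs := by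
      have gen : ∀ l : List (ℕ × ℕ), (∀ x ∈ l, x.1 < 16 ∧ x.2 < 16 ∧ x.1 < x.2) →
          enc (toA (rel a τ)) l = enc (fun i j => toA a (ap g i) (ap g j)) l := by
        intro l
        induction l with
        | nil => intro _; rfl
        | cons x l ih =>
          intro hx
          unfold enc
          rw [ih fun y hy => hx y (List.mem_cons_of_mem _ hy)]
          have hx' := hx x List.mem_cons_self
          congr 1
          have e : toA (rel a τ) x.1 x.2 = toA a (ap g x.1) (ap g x.2) := by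
            unfold toA
            rw [dif_pos ⟨hx'.1, hx'.2.1⟩, dif_pos ⟨hb _ hx'.1, hb _ hx'.2.1⟩]
            have e1 : τ ⟨x.1, hx'.1⟩ = ⟨ap g x.1, hb _ hx'.1⟩ := Fin.ext (hτ ⟨x.1, hx'.1⟩)
            have e2 : τ ⟨x.2, hx'.2.1⟩ = ⟨ap g x.2, hb _ hx'.2.1⟩ := Fin.ext (hτ ⟨x.2, hx'.2.1⟩)
            unfold rel
            rw [e1, e2]
          rw [e]
      exact gen pairs pairs_ok
    rw [h3] at h2
    omega

def wv (i : Fin 16) : ℤ := ([0, -1, -1, 1, 1, 0, 0, 0, 0, 0, 0, 0, 0, 0, 0, 0] : List ℤ).getD i 0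

def uv (i : Fin 16) : ℤ := ([0, -1, -1, 1, 1, -4, -2, -2, -2, -2, 4, 2, 2, 2, 2, 0] : List ℤ).getD i 0

/-- The surviving graph. -/
def g0 (i j : Fin 16) : ℕ := if F0.testBit (16 * i + j) = true then 1 else 0

lemma g0_w : ∀ i, 2 * ∑ j, (g0 i j : ℤ) * wv j + wv i = uv i := by decide +kernel

lemma g0_u : ∀ i, 2 * ∑ j, (g0 i j : ℤ) * uv j + uv i = 17 * wv i := by decide +kernel

lemma wv_sum : ∑ i, wv i = 0 := by decide +kernel

lemma uv_sum : ∑ i, uv i = 0 := by decide +kernel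

lemma g0_false (h : Hyp2 g0) : False := by
  set s : ℝ := Real.sqrt 17 with hs
  have hs2 : s ^ 2 = 17 := Real.sq_sqrt (by norm_num)
  have hs0 : 0 < s := Real.sqrt_pos.2 (by norm_num)
  set y : Fin 16 → ℝ := fun i => (uv i : ℝ) + s * (wv i : ℝ) with hy
  have hsum : ∑ i, y i = 0 := by
    simp only [hy, sum_add_distrib, ← mul_sum]
    have h1 : (∑ i, (uv i : ℝ)) = 0 := by exact_mod_cast uv_sum
    have h2 : (∑ i, (wv i : ℝ)) = 0 := by exact_mod_cast wv_sum
    rw [h1, h2]; ring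
  have hne : y ≠ 0 := by
    intro hcon
    have h1 := congrFun hcon 3
    simp only [hy, Pi.zero_apply] at h1
    rw [show uv 3 = 1 from rfl, show wv 3 = 1 from rfl] at h1
    push_cast at h1
    linarith
  have hA : ∀ i, ∑ j, (g0 i j : ℝ) * y j = tau * y i := by
    intro i
    have h1 : 2 * ∑ j, (g0 i j : ℝ) * (wv j : ℝ) + (wv i : ℝ) = (uv i : ℝ) := by
      exact_mod_cast g0_w i
    have h2 : 2 * ∑ j, (g0 i j : ℝ) * (uv j : ℝ) + (uv i : ℝ) = 17 * (wv i : ℝ) := by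
      exact_mod_cast g0_u i
    have h3 : ∑ j, (g0 i j : ℝ) * y j = ∑ j, (g0 i j : ℝ) * (uv j : ℝ) +
        s * ∑ j, (g0 i j : ℝ) * (wv j : ℝ) := by
      rw [mul_sum, ← sum_add_distrib]
      exact sum_congr rfl fun j _ => by simp only [hy]; ring
    rw [h3]
    have ht : tau = (s - 1) / 2 := rfl
    rw [ht]
    simp only [hy]
    have e1 : ∑ j, (g0 i j : ℝ) * (uv j : ℝ) = (17 * (wv i : ℝ) - (uv i : ℝ)) / 2 := by linarith
    have e2 : ∑ j, (g0 i j : ℝ) * (wv j : ℝ) = ((uv i : ℝ) - (wv i : ℝ)) / 2 := by linarith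
    rw [e1, e2]
    linear_combination (-(wv i : ℝ) / 2) * hs2
  have hq := h.quad y hsum hne
  have e : ∑ i, ∑ j, (g0 i j : ℝ) * (y i * y j) = tau * ∑ i, y i ^ 2 := by
    rw [mul_sum]
    refine sum_congr rfl fun i _ => ?_
    have : ∑ j, (g0 i j : ℝ) * (y i * y j) = y i * ∑ j, (g0 i j : ℝ) * y j := by
      rw [mul_sum]; exact sum_congr rfl fun j _ => by ring
    rw [this, hA i]; ring
  rw [e] at hq
  exact lt_irrefl _ hq

theorem hyp2_false (h : Hyp2 a) : False := by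
  obtain ⟨σ, hσ⟩ : ∃ σ : Equiv.Perm (Fin 16),
      ∀ τ : Equiv.Perm (Fin 16), enc (toA (rel a τ)) pairs ≤ enc (toA (rel a σ)) pairs := by
    obtain ⟨σ, _, h2⟩ := exists_max_image (univ : Finset (Equiv.Perm (Fin 16)))
      (fun τ => enc (toA (rel a τ)) pairs) ⟨1, mem_univ _⟩
    exact ⟨σ, fun τ => h2 τ (mem_univ _)⟩
  have hr := hyp2_rel h σ
  have hgood := good2_of_hyp hr (fun τ => by
    have e : rel (rel a σ) τ = rel a (τ.trans σ) := rfl
    rw [e]
    exact hσ _)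
  have hcons : Cons (toA (rel a σ)) 0
      57896486333794311352466587372716853682903935386526539088661048023915243372545 := by
    intro i hi j hj
    refine ⟨fun hh => by simp at hh, fun hh => ?_⟩
    have key : ∀ i < 16, ∀ j < 16, Nat.testBit
        57896486333794311352466587372716853682903935386526539088661048023915243372545
        (16 * i + j) = true → i = j := by decide +kernel
    rw [key i hi j hj hh]
    have h1 := toA_fin (a := rel a σ) ⟨j, hj⟩ ⟨j, hj⟩
    change toA (rel a σ) j j = _ at h1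
    rw [h1, hr.diag]
    rfl
  have hA := chk2_sound hgood _ _ _ chk_root hcons
  have heq : rel a σ = g0 := by
    funext i j
    have h1 := hA i i.2 j j.2
    rw [toA_fin] at h1
    unfold g0
    rw [← h1]
    rcases hr.zo i j with h2 | h2 <;> rw [h2] <;> simp
  rw [heq] at hr
  exact g0_false hr

end Pool.Agent.H54.C32
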