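import Pool.Agent.H54.C32.EMain

/-! The matrices with small nontrivial eigenvalues are simple and triangle-free. -/

open Finset Matrix Pool.Agent.H170R2 Pool.Agent.H170R2.Chk

namespace Pool.Agent.H54.C32

variable {a : Fin 16 → Fin 16 → ℕ}

lemma pow1 (v : Fin 16) : ((toR a) ^ 1) v v = (a v v : ℝ) := by
  rw [pow_one]; rfl

lemma pow2 (v : Fin 16) : ((toR a) ^ 2) v v = (bb a v v : ℝ) := by
  rw [pow_two, toR_mul]; rfl

lemma pow3 (ha : ∀ i j, a i j = a j i) (v : Fin 16) : ((toR a) ^ 3) v v = (Rows.t3 a v : ℝ) := by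
  have e : (∑ k, (∑ l, a v l * a l k) * a k v) = Rows.t3 a v := by
    unfold Rows.t3 bb
    exact sum_congr rfl fun k _ => by rw [ha k v, mul_comm]
  rw [pow_succ, pow_two, toR_mul, toR_mul, ← e]
  rfl

lemma pow4 (ha : ∀ i j, a i j = a j i) (v : Fin 16) : ((toR a) ^ 4) v v = (Rows.t4 a v : ℝ) := by
  have e : (∑ k, (∑ l, a v l * a l k) * (∑ l, a k l * a l v)) = Rows.t4 a v := by
    unfold Rows.t4
    refine sum_congr rfl fun k _ => ?_
    have h : ∑ x, a k x * a x v = bb a v k := by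
      rw [Rows.bb_symm ha v k]; rfl
    have h' : ∑ x, a v x * a x k = bb a v k := rfl
    rw [h, h', pow_two]
  rw [show 4 = 2 + 2 from rfl, pow_add, pow_two, toR_mul, toR_mul, ← e]
  rfl

lemma loc (ha : ∀ i j, a i j = a j i) (hs : ∀ i, ∑ j, a i j = 4)
    (hlow : ∀ x ∈ (toR a).charpoly.roots, -4 ≤ x) (hnt : ∀ x ∈ nt a, x < tau) (v : Fin 16) :
    (Rows.t4 a v : ℝ) + (8 - tau) * (Rows.t3 a v : ℝ) + (20 - 8 * tau) * (bb a v v : ℝ) +
      (16 - 20 * tau) * (a v v : ℝ) ≤ 72 - 2 * tau := by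
  have h := local_ineq ha hs hlow hnt v
  rwa [pow1, pow2, pow3 ha, pow4 ha] at h

lemma t4_ge (hs : ∀ i, ∑ j, a i j = 4) (v : Fin 16) :
    bb a v v ^ 2 + 16 ≤ Rows.t4 a v + bb a v v := by
  have h16 := Rows.bb_sum' hs v
  unfold Rows.t4
  rw [← add_sum_erase _ _ (mem_univ v)] at h16 ⊢
  have h1 : ∑ x ∈ univ.erase v, bb a v x ≤ ∑ x ∈ univ.erase v, bb a v x ^ 2 := by
    apply sum_le_sum
    intro j _
    rw [pow_two]; exact Nat.le_mul_self _
  omega

lemma arith1 (t4 t3 b d τ : ℝ) (b1 : τ < 25 / 16) (b2 : 39 / 25 < τ) (r6 : 6 ≤ b)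
    (r3 : d * b ≤ t3) (r4 : b ^ 2 + 16 ≤ t4 + b) (r0 : 0 ≤ d)
    (hl : t4 + (8 - τ) * t3 + (20 - 8 * τ) * b + (16 - 20 * τ) * d ≤ 72 - 2 * τ) : False := by
  have p1 : d * 6 ≤ d * b := mul_le_mul_of_nonneg_left r6 r0
  have p2 : (8 - τ) * (d * 6) ≤ (8 - τ) * t3 :=
    mul_le_mul_of_nonneg_left (by linarith) (by linarith)
  have p3 : (20 - 8 * τ) * 6 ≤ (20 - 8 * τ) * b :=
    mul_le_mul_of_nonneg_left r6 (by linarith)
  have p4 : (46 : ℝ) ≤ t4 := by nlinarith
  have p5 : 0 ≤ ((8 - τ) * 6 + (16 - 20 * τ)) * d := mul_nonneg (by linarith) r0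
  nlinarith

lemma arith2 (t4 t3 τ : ℝ) (b1 : τ < 25 / 16) (r3 : 2 ≤ t3) (r4 : 28 ≤ t4)
    (hl : t4 + (8 - τ) * t3 + (20 - 8 * τ) * 4 + (16 - 20 * τ) * 0 ≤ 72 - 2 * τ) : False := by
  have p1 : (8 - τ) * 2 ≤ (8 - τ) * t3 := mul_le_mul_of_nonneg_left r3 (by linarith)
  linarith

lemma simple_of (ha : ∀ i j, a i j = a j i) (hs : ∀ i, ∑ j, a i j = 4)
    (hlow : ∀ x ∈ (toR a).charpoly.roots, -4 ≤ x) (hnt : ∀ x ∈ nt a, x < tau) (v w : Fin 16) :
    a v w ≤ 1 := by
  by_contra hcon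
  have h : 2 ≤ a v w := by omega
  have h6 : 6 ≤ bb a v v := by
    unfold bb
    rw [← add_sum_erase _ _ (mem_univ w)]
    have h3 := hs v
    rw [← add_sum_erase _ _ (mem_univ w)] at h3
    have h4 : ∑ x ∈ univ.erase w, a v x ≤ ∑ x ∈ univ.erase w, a v x * a x v := by
      apply sum_le_sum
      intro x _
      rw [ha x v]
      exact Nat.le_mul_self _
    have h5 : a v w + 2 ≤ a v w * a w v := by
      rw [ha w v]; nlinarith
    omega
  have h3 : a v v * bb a v v ≤ Rows.t3 a v := by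
    unfold Rows.t3
    exact single_le_sum (f := fun j => a v j * bb a v j) (fun _ _ => Nat.zero_le _) (mem_univ v)
  have h4 := t4_ge hs v
  have r6 : (6 : ℝ) ≤ (bb a v v : ℝ) := by exact_mod_cast h6
  have r3 : (a v v : ℝ) * (bb a v v : ℝ) ≤ (Rows.t3 a v : ℝ) := by exact_mod_cast h3
  have r4 : (bb a v v : ℝ) ^ 2 + 16 ≤ (Rows.t4 a v : ℝ) + (bb a v v : ℝ) := by exact_mod_cast h4
  exact arith1 _ _ _ _ _ tau_lt tau_gt r6 r3 r4 (Nat.cast_nonneg _) (loc ha hs hlow hnt v)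

lemma tri_of (ha : ∀ i j, a i j = a j i) (hs : ∀ i, ∑ j, a i j = 4) (he : ∀ i, Even (a i i))
    (hlow : ∀ x ∈ (toR a).charpoly.roots, -4 ≤ x) (hnt : ∀ x ∈ nt a, x < tau) (i j k : Fin 16) :
    a i j * a j k * a i k = 0 := by
  by_contra hijk
  have hsimple := simple_of ha hs hlow hnt
  have hij : a i j = 1 := by
    have := hsimple i j
    have : a i j ≠ 0 := fun h => hijk (by rw [h]; ring)
    omega
  have hjk : a j k = 1 := by
    have := hsimple j k
    have : a j k ≠ 0 := fun h => hijk (by rw [h]; ring)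
    omega
  have hik : a i k = 1 := by
    have := hsimple i k
    have : a i k ≠ 0 := fun h => hijk (by rw [h]; ring)
    omega
  have hd := fun i => Rows.diag_zero he (hsimple i)
  have njk : j ≠ k := by rintro rfl; rw [hd] at hjk; omega
  have b1 : 1 ≤ bb a i j := by
    unfold bb
    calc 1 = a i k * a k j := by rw [hik, ha k j, hjk]
      _ ≤ _ := single_le_sum (f := fun x => a i x * a x j) (fun _ _ => Nat.zero_le _) (mem_univ k)
  have b2 : 1 ≤ bb a i k := by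
    unfold bb
    calc 1 = a i j * a j k := by rw [hij, hjk]
      _ ≤ _ := single_le_sum (f := fun x => a i x * a x k) (fun _ _ => Nat.zero_le _) (mem_univ j)
  have h2 : 2 ≤ Rows.t3 a i := by
    unfold Rows.t3
    calc 2 ≤ a i j * bb a i j + a i k * bb a i k := by rw [hij, hik]; omega
      _ = ∑ w ∈ {j, k}, a i w * bb a i w := by rw [sum_pair njk]
      _ ≤ _ := sum_le_sum_of_subset_of_nonneg (subset_univ _) fun _ _ _ => Nat.zero_le _
  have h4 := t4_ge hs i
  have hb := Rows.bb_simple ha hs (hsimple i)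
  have hl := loc ha hs hlow hnt i
  rw [hd i, hb] at hl
  rw [hb] at h4
  have r4 : (28 : ℝ) ≤ (Rows.t4 a i : ℝ) := by
    have : 28 ≤ Rows.t4 a i := by omega
    exact_mod_cast this
  have r3 : (2 : ℝ) ≤ (Rows.t3 a i : ℝ) := by exact_mod_cast h2
  exact arith2 _ _ _ tau_lt r3 r4 (by exact_mod_cast hl)

/-- Every matrix of the class has a nontrivial eigenvalue at least `tau`. -/
theorem exists_large (ha : ∀ i j, a i j = a j i) (hs : ∀ i, ∑ j, a i j = 4)
    (he : ∀ i, Even (a i i)) (hlow : ∀ x ∈ (toR a).charpoly.roots, -4 ≤ x) :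
    ∃ x ∈ nt a, tau ≤ x := by
  by_contra hcon
  push Not at hcon
  have hsimple := simple_of ha hs hlow hcon
  exact hyp2_false (a := a)
    { symm := ha
      zo := fun i j => by have := hsimple i j; omega
      diag := fun i => Rows.diag_zero he (hsimple i)
      deg := hs
      tri := tri_of ha hs he hlow hcon
      quad := quad_small ha hs hcon }

end Pool.Agent.H54.C32
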