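import Pool.Agent.H54.C32.EChk

/-! Soundness of the checker. -/

open Finset

namespace Pool.Agent.H54.C32.EChk

open Pool.Agent.H170R2.Chk

structure Good2 (A : ℕ → ℕ → Bool) : Prop where
  symm : ∀ i j, A i j = A j i
  deg : ∀ i < 16, ∑ j ∈ range 16, (if A i j = true then 1 else 0) = 4
  tri : ∀ i j k, A i j = true → A j k = true → A i k = true → False
  quad : ∀ z : ℕ → ℤ, (∃ i < 16, z i ≠ z 0) →
    256 * ∑ i ∈ range 16, ∑ j ∈ range 16, (if A i j = true then z i * z j else 0) <
      400 * ∑ i ∈ range 16, z i ^ 2 + 39 * (∑ i ∈ range 16, z i) ^ 2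
  lex : ∀ g : List ℕ, permOK g = true → ¬ Win A (symL g pairs)

lemma al_iff (f : ℕ → Bool) (n : ℕ) : al f n = true ↔ ∀ i < n, f i = true := by
  induction n with
  | zero => simp [al]
  | succ n ih =>
    unfold al
    rw [Bool.and_eq_true, ih]
    constructor
    · rintro ⟨h1, h2⟩ i hi
      rcases Nat.lt_succ_iff_lt_or_eq.1 hi with h | h
      · exact h1 i h
      · rw [h]; exact h2
    · intro h
      exact ⟨fun i hi => h i (Nat.lt_succ_of_lt hi), h n (Nat.lt_succ_self n)⟩

lemma ex_iff (f : ℕ → Bool) (n : ℕ) : ex f n = true ↔ ∃ i < n, f i = true := by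
  induction n with
  | zero => simp [ex]
  | succ n ih =>
    unfold ex
    rw [Bool.or_eq_true, ih]
    constructor
    · rintro (⟨i, h1, h2⟩ | h)
      · exact ⟨i, Nat.lt_succ_of_lt h1, h2⟩
      · exact ⟨n, Nat.lt_succ_self n, h⟩
    · rintro ⟨i, hi, h⟩
      rcases Nat.lt_succ_iff_lt_or_eq.1 hi with h' | h'
      · exact Or.inl ⟨i, h', h⟩
      · right; rw [← h']; exact h

lemma sm_eq (f : ℕ → ℕ) (n : ℕ) : sm f n = ∑ i ∈ range n, f i := by
  induction n with
  | zero => simp [sm]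
  | succ n ih =>
    unfold sm
    rw [ih, sum_range_succ]
    rfl

variable {A : ℕ → ℕ → Bool}

lemma consE {E N : ℕ} (hc : Cons A E N) {i j : ℕ} (hi : i < 16) (hj : j < 16)
    (h : tb E (Nat.add (Nat.mul 16 i) j) = true) : A i j = true := by
  rw [tb_eq] at h
  exact (hc i hi j hj).1 h

lemma consN {E N : ℕ} (hc : Cons A E N) {i j : ℕ} (hi : i < 16) (hj : j < 16)
    (h : tb N (Nat.add (Nat.mul 16 i) j) = true) : A i j = false := by
  rw [tb_eq] at h
  exact (hc i hi j hj).2 h

lemma cmp2_win {E N : ℕ} (hc : Cons A E N) (l : List (ℕ × ℕ)) (hl : ∀ x ∈ l, x.1 < 256 ∧ x.2 < 256)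
    (h : cmp2 E N l = true) : Win A l := by
  have hE : ∀ p < 256, tb E p = true → at' A p = true := by
    intro p hp h
    rw [tb_eq] at h
    apply (hc (p / 16) (by omega) (p % 16) (by omega)).1
    rwa [Nat.div_add_mod]
  have hN : ∀ p < 256, tb N p = true → at' A p = false := by
    intro p hp h
    rw [tb_eq] at h
    apply (hc (p / 16) (by omega) (p % 16) (by omega)).2
    rwa [Nat.div_add_mod]
  induction l with
  | nil => simp [cmp2] at h
  | cons x l ih =>
    obtain ⟨p, q⟩ := x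
    have hpq := hl (p, q) List.mem_cons_self
    have ih' := ih (fun x hx => hl x (List.mem_cons_of_mem _ hx))
    unfold cmp2 at h
    cases hp : tb N p with
    | true =>
      rw [hp, cond_true, Bool.or_eq_true] at h
      have h0 := hN p hpq.1 hp
      cases hq : at' A q with
      | true => exact Or.inl ⟨h0, hq⟩
      | false =>
        rcases h with h | h
        · rw [hE q hpq.2 h] at hq; exact absurd hq (by decide)
        · exact Or.inr ⟨by rw [h0, hq], ih' h⟩
    | false =>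
      rw [hp, cond_false, Bool.and_eq_true] at h
      have h1 := hE q hpq.2 h.1
      cases hp' : at' A p with
      | true => exact Or.inr ⟨by rw [hp', h1], ih' h.2⟩
      | false => exact Or.inl ⟨hp', h1⟩

lemma symL_ok (g : List ℕ) (hg : permOK g = true) : ∀ x ∈ symL g pairs, x.1 < 256 ∧ x.2 < 256 := by
  unfold permOK at hg
  rw [al_iff] at hg
  have hb : ∀ i < 16, ap g i < 16 := by
    intro i hi
    have := hg i hi
    rw [Bool.and_eq_true, ble_iff] at this
    omega
  intro x hx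
  unfold symL at hx
  rw [List.mem_filter, List.mem_map] at hx
  obtain ⟨⟨y, hy, rfl⟩, _⟩ := hx
  have h1 := pairs_ok y hy
  have h2 := hb _ h1.1
  have h3 := hb _ h1.2.1
  unfold posOf
  constructor
  · show 16 * y.1 + y.2 < 256
    omega
  · show 16 * min (ap g y.1) (ap g y.2) + max (ap g y.1) (ap g y.2) < 256
    rcases le_total (ap g y.1) (ap g y.2) with h | h
    · rw [min_eq_left h, max_eq_right h]; omega
    · rw [min_eq_right h, max_eq_left h]; omega

lemma ineq_nat (a b c d e : ℕ) (h : Nat.add (Nat.add (Nat.mul 400 c) (Nat.mul 39 (Nat.add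
      (Nat.mul d d) (Nat.mul e e)))) (Nat.mul 256 b) ≤
      Nat.add (Nat.mul 256 a) (Nat.mul 78 (Nat.mul d e))) :
    400 * (c : ℤ) + 39 * ((d : ℤ) * d + (e : ℤ) * e) + 256 * (b : ℤ) ≤
      256 * (a : ℤ) + 78 * ((d : ℤ) * e) := by
  have h' : 400 * c + 39 * (d * d + e * e) + 256 * b ≤ 256 * a + 78 * (d * e) := h
  exact_mod_cast h'

lemma sq_bound (p m : ℕ) : ((p : ℤ) - m) ^ 2 ≤ ((p * p + m * m : ℕ) : ℤ) := by
  have : (0 : ℤ) ≤ (p : ℤ) * (m : ℤ) := mul_nonneg (Int.natCast_nonneg _) (Int.natCast_nonneg _)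
  push_cast
  nlinarith

lemma prod_pos' (p m p' m' : ℕ) (ha : p * m' = 0) (hb : m * p' = 0) :
    0 ≤ ((p : ℤ) - m) * ((p' : ℤ) - m') := by
  have ha' : (p : ℤ) * (m' : ℤ) = 0 := by exact_mod_cast ha
  have hb' : (m : ℤ) * (p' : ℤ) = 0 := by exact_mod_cast hb
  have h1 : (0 : ℤ) ≤ (p : ℤ) * (p' : ℤ) := mul_nonneg (Int.natCast_nonneg _) (Int.natCast_nonneg _)
  have h2 : (0 : ℤ) ≤ (m : ℤ) * (m' : ℤ) := mul_nonneg (Int.natCast_nonneg _) (Int.natCast_nonneg _)
  have e : ((p : ℤ) - m) * ((p' : ℤ) - m') = (p : ℤ) * (p' : ℤ) + (m : ℤ) * (m' : ℤ) -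
    (p : ℤ) * (m' : ℤ) - (m : ℤ) * (p' : ℤ) := by ring
  rw [e, ha', hb']
  linarith

lemma prod_eq' (p m p' m' : ℕ) : (((p * p' + m * m' : ℕ) : ℤ)) - (((p * m' + m * p' : ℕ) : ℤ)) =
    ((p : ℤ) - m) * ((p' : ℤ) - m') := by
  push_cast
  ring

/-- The integer vector of two lists. -/
def zv (P M : List ℕ) (i : ℕ) : ℤ := (ap P i : ℤ) - (ap M i : ℤ)

lemma vec_ne {P M : List ℕ} (h2 : ex (fun i => !(Nat.beq (Nat.add (ap P i) (ap M 0))
    (Nat.add (ap P 0) (ap M i)))) 16 = true) : ∃ i < 16, zv P M i ≠ zv P M 0 := by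
  rw [ex_iff] at h2
  obtain ⟨i, hi, h⟩ := h2
  refine ⟨i, hi, fun heq => ?_⟩
  rw [Bool.not_eq_true', Bool.eq_false_iff, ne_eq, beq_iff] at h
  apply h
  unfold zv at heq
  have : (ap P i : ℤ) + (ap M 0 : ℤ) = (ap P 0 : ℤ) + (ap M i : ℤ) := by linarith
  exact_mod_cast this

lemma unk_iff {E N : ℕ} {P M : List ℕ} (h1 : unk E N P M = true) : ∀ i < 16, ∀ j < 16,
    tb E (Nat.add (Nat.mul 16 i) j) = true ∨
      tb N (Nat.add (Nat.mul 16 i) j) = true ∨ (ap P i * ap M j = 0 ∧ ap M i * ap P j = 0) := by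
  unfold unk at h1
  intro i hi j hj
  rw [al_iff] at h1
  have := h1 i hi
  rw [al_iff] at this
  have := this j hj
  rw [Bool.or_eq_true, Bool.or_eq_true, Bool.and_eq_true, beq_iff, beq_iff] at this
  exact this

lemma term_le {E N : ℕ} (hc : Cons A E N) {P M : List ℕ} (h1 : unk E N P M = true) {i j : ℕ}
    (hi : i < 16) (hj : j < 16) :
    (((bif tb E (Nat.add (Nat.mul 16 i) j) then
        Nat.add (Nat.mul (ap P i) (ap P j)) (Nat.mul (ap M i) (ap M j)) else 0 : ℕ) : ℤ) -
      ((bif tb E (Nat.add (Nat.mul 16 i) j) then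
        Nat.add (Nat.mul (ap P i) (ap M j)) (Nat.mul (ap M i) (ap P j)) else 0 : ℕ) : ℤ)) ≤
      (if A i j = true then zv P M i * zv P M j else 0) := by
  cases hE : tb E (Nat.add (Nat.mul 16 i) j) with
  | true =>
    rw [cond_true, cond_true, if_pos (consE hc hi hj hE)]
    exact le_of_eq (prod_eq' _ _ _ _)
  | false =>
    rw [cond_false, cond_false]
    by_cases hA : A i j = true
    · rw [if_pos hA]
      rcases unk_iff h1 i hi j hj with h | h | ⟨ha, hb⟩
      · rw [h] at hE; exact absurd hE (by decide)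
      · rw [consN hc hi hj h] at hA; exact absurd hA (by decide)
      · have h4 : 0 ≤ zv P M i * zv P M j := prod_pos' _ _ _ _ ha hb
        rw [Nat.cast_zero, sub_zero]
        exact h4
    · rw [if_neg hA]; simp

lemma qsum {E N : ℕ} (hc : Cons A E N) {P M : List ℕ} (h1 : unk E N P M = true) :
    ((qp E P M : ℕ) : ℤ) - ((qn E P M : ℕ) : ℤ) ≤
      ∑ i ∈ range 16, ∑ j ∈ range 16, (if A i j = true then zv P M i * zv P M j else 0) := by
  have hsum := sum_le_sum fun i (hi : i ∈ range 16) => sum_le_sum fun j (hj : j ∈ range 16) =>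
    term_le hc h1 (mem_range.1 hi) (mem_range.1 hj)
  simp only [sum_sub_distrib] at hsum
  have hqp : ((qp E P M : ℕ) : ℤ) = ∑ i ∈ range 16, ∑ j ∈ range 16,
      ((bif tb E (Nat.add (Nat.mul 16 i) j) then
        Nat.add (Nat.mul (ap P i) (ap P j)) (Nat.mul (ap M i) (ap M j)) else 0 : ℕ) : ℤ) := by
    unfold qp
    rw [sm_eq, Nat.cast_sum]
    refine sum_congr rfl fun i _ => ?_
    rw [sm_eq, Nat.cast_sum]
  have hqn : ((qn E P M : ℕ) : ℤ) = ∑ i ∈ range 16, ∑ j ∈ range 16,
      ((bif tb E (Nat.add (Nat.mul 16 i) j) then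
        Nat.add (Nat.mul (ap P i) (ap M j)) (Nat.mul (ap M i) (ap P j)) else 0 : ℕ) : ℤ) := by
    unfold qn
    rw [sm_eq, Nat.cast_sum]
    refine sum_congr rfl fun i _ => ?_
    rw [sm_eq, Nat.cast_sum]
  rw [hqp, hqn]
  exact hsum

lemma nn_le (P M : List ℕ) : ∑ i ∈ range 16, zv P M i ^ 2 ≤ ((nn P M : ℕ) : ℤ) := by
  unfold nn
  rw [sm_eq, Nat.cast_sum]
  exact sum_le_sum fun i _ => sq_bound _ _

lemma zv_sum (P M : List ℕ) :
    ∑ i ∈ range 16, zv P M i = ((sm (ap P) 16 : ℕ) : ℤ) - ((sm (ap M) 16 : ℕ) : ℤ) := by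
  rw [sm_eq, sm_eq, Nat.cast_sum, Nat.cast_sum, ← sum_sub_distrib]
  rfl

lemma final_ineq (Q z nnv a b : ℤ) (p m : ℤ) (hq : 256 * Q < 400 * z + 39 * (p - m) ^ 2)
    (h1 : a - b ≤ Q) (h2 : z ≤ nnv)
    (h3 : 400 * nnv + 39 * (p * p + m * m) + 256 * b ≤ 256 * a + 78 * (p * m)) : False := by
  nlinarith

lemma vec_false (hg : Good2 A) {E N : ℕ} (hc : Cons A E N) {P M : List ℕ}
    (h : vecOK E N P M = true) : False := by
  unfold vecOK at h
  rw [Bool.and_eq_true, Bool.and_eq_true, ble_iff] at h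
  have hq := hg.quad (zv P M) (vec_ne h.2.1)
  rw [zv_sum] at hq
  exact final_ineq _ _ _ _ _ _ _ hq (qsum hc h.1) (nn_le P M) (ineq_nat _ _ _ _ _ h.2.2)

theorem chk2_sound (hg : Good2 A) (t : T2) :
    ∀ E N : ℕ, chk2 t E N = true → Cons A E N →
      ∀ i < 16, ∀ j < 16, A i j = F0.testBit (16 * i + j) := by
  induction t with
  | br i j t1 t0 ih1 ih0 =>
    intro E N h hc
    unfold chk2 at h
    rw [Bool.and_eq_true, Bool.and_eq_true, Bool.and_eq_true] at h
    obtain ⟨⟨h1, h2⟩, h3, h4⟩ := h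
    have hij : i < j := by
      have := (ble_iff _ _).1 h1
      exact this
    have hj : j < 16 := by
      have := (ble_iff _ _).1 h2
      omega
    cases hA : A i j with
    | true =>
      apply ih1 _ _ h3
      intro i' hi' j' hj'
      refine ⟨fun h => ?_, (hc i' hi' j' hj').2⟩
      rw [set_testBit] at h
      change _ ∨ 16 * i' + j' = 16 * i + j ∨ 16 * i' + j' = 16 * j + i at h
      rcases h with h | h | h
      · exact (hc i' hi' j' hj').1 h
      · have e1 : i' = i := by omega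
        have e2 : j' = j := by omega
        rw [e1, e2]; exact hA
      · have e1 : i' = j := by omega
        have e2 : j' = i := by omega
        rw [e1, e2, hg.symm]; exact hA
    | false =>
      apply ih0 _ _ h4
      intro i' hi' j' hj'
      refine ⟨(hc i' hi' j' hj').1, fun h => ?_⟩
      rw [set_testBit] at h
      change _ ∨ 16 * i' + j' = 16 * i + j ∨ 16 * i' + j' = 16 * j + i at h
      rcases h with h | h | h
      · exact (hc i' hi' j' hj').2 h
      · have e1 : i' = i := by omega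
        have e2 : j' = j := by omega
        rw [e1, e2]; exact hA
      · have e1 : i' = j := by omega
        have e2 : j' = i := by omega
        rw [e1, e2, hg.symm]; exact hA
  | tri i j k =>
    intro E N h hc
    unfold chk2 at h
    simp only [Bool.and_eq_true, ble_iff] at h
    obtain ⟨⟨h1, h2, h3⟩, h4, h5, h6⟩ := h
    exact (hg.tri i j k (consE hc (by omega) (by omega) h4) (consE hc (by omega) (by omega) h5)
      (consE hc (by omega) (by omega) h6)).elim
  | hi i =>
    intro E N h hc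
    unfold chk2 at h
    rw [Bool.and_eq_true, ble_iff, ble_iff] at h
    have h1 := pc_le 5 (rw E i) (rw_lt E i)
    have h2 := bits_rw_E hc (i := i) (by omega)
    have h3 := hg.deg i (by omega)
    omega
  | lo i =>
    intro E N h hc
    unfold chk2 at h
    rw [Bool.and_eq_true, ble_iff, ble_iff] at h
    have h1 := pc_le 13 (rw N i) (rw_lt N i)
    have h2 := bits_rw_N hc (i := i) (by omega)
    have h3 := hg.deg i (by omega)
    omega
  | vec P M =>
    intro E N h hc
    unfold chk2 at h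
    exact (vec_false hg hc h).elim
  | sym g =>
    intro E N h hc
    unfold chk2 at h
    rw [Bool.and_eq_true] at h
    exact (hg.lex g h.1 (cmp2_win hc _ (symL_ok g h.1) h.2)).elim
  | fin =>
    intro E N h hc i hi j hj
    unfold chk2 at h
    rw [Bool.and_eq_true, beq_iff, beq_iff] at h
    obtain ⟨hEF, hEN⟩ := h
    rw [← hEF]
    cases hb : E.testBit (16 * i + j) with
    | true => exact (hc i hi j hj).1 hb
    | false =>
      apply (hc i hi j hj).2
      have h1 : (Nat.lor E N).testBit (16 * i + j) = true := by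
        rw [hEN, Nat.testBit_two_pow_sub_one]
        exact decide_eq_true (by omega)
      have h2 : (E ||| N).testBit (16 * i + j) = true := h1
      rw [Nat.testBit_or, hb, Bool.false_or] at h2
      exact h2

end Pool.Agent.H54.C32.EChk
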