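import Pool.Agent.H54.C32.ESound
import Pool.Agent.H54.C32.Base

/-! Spectral consequences of a small second eigenvalue. -/

open Finset Matrix Pool.Agent.H170R2

namespace Pool.Agent.H54.C32

/-- The second eigenvalue of the extremal graph. -/
noncomputable def tau : ℝ := (Real.sqrt 17 - 1) / 2

lemma tau_lt : tau < 25 / 16 := by
  have h : Real.sqrt 17 < 33 / 8 := by
    rw [Real.sqrt_lt' (by norm_num)]; norm_num
  unfold tau; linarith

lemma tau_gt : 39 / 25 < tau := by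
  have h : 103 / 25 < Real.sqrt 17 := by
    rw [Real.lt_sqrt (by norm_num)]; norm_num
  unfold tau; linarith

lemma tau_sq : tau ^ 2 + tau - 4 = 0 := by
  have h : Real.sqrt 17 ^ 2 = 17 := Real.sq_sqrt (by norm_num)
  unfold tau
  nlinarith

section spectral

variable {a : Fin 16 → Fin 16 → ℕ}

lemma toR_one (hs : ∀ i, ∑ j, a i j = 4) :
    toR a *ᵥ (fun _ => (1 : ℝ)) = (4 : ℝ) • fun _ => (1 : ℝ) := by
  ext i
  simp only [mulVec, dotProduct, toR, of_apply, mul_one, Pi.smul_apply, smul_eq_mul]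
  have h : ((∑ j, a i j : ℕ) : ℝ) = ((4 : ℕ) : ℝ) := by rw [hs i]
  push_cast at h
  exact h

lemma toR_symm (ha : ∀ i j, a i j = a j i) : (toR a)ᵀ = toR a := by
  ext i j
  simp only [toR, transpose_apply, of_apply, ha j i]

/-- The eigenvector data when the nontrivial eigenvalues are small. -/
lemma spec_data (ha : ∀ i j, a i j = a j i) (hs : ∀ i, ∑ j, a i j = 4)
    (hnt : ∀ x ∈ nt a, x < tau) : ∃ (e : Fin 16 → ℝ) (U : Matrix (Fin 16) (Fin 16) ℝ) (i0 : Fin 16),
      U * Uᵀ = 1 ∧ Uᵀ * U = 1 ∧ toR a = U * diagonal e * Uᵀ ∧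
      (toR a).charpoly.roots = univ.val.map e ∧ e i0 = 4 ∧ (∀ i, i ≠ i0 → e i < tau) ∧
      (∀ i, i ≠ i0 → ∑ v, U v i = 0) ∧ ∀ v, U v i0 ^ 2 = 1 / 16 := by
  obtain ⟨e, U, h0, h1, hC, hr⟩ := Spec.spec_package (toR a) (toR_herm ha)
  have h4 := four_mem ha hs
  have h4' := h4
  rw [hr, Multiset.mem_map] at h4'
  obtain ⟨i0, _, hi0⟩ := h4'
  have hlt : ∀ i, i ≠ i0 → e i < tau := by
    intro i hi
    apply hnt
    have e1 : ((univ : Finset (Fin 16)).val.map e).erase 4 =
        ((univ : Finset (Fin 16)).erase i0).val.map e := by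
      rw [Finset.erase_val]
      conv_lhs => rw [← Multiset.cons_erase (show i0 ∈ (univ : Finset (Fin 16)).val from mem_univ i0)]
      rw [Multiset.map_cons, hi0, Multiset.erase_cons_head]
    unfold nt
    rw [hr, e1]
    exact Multiset.mem_map_of_mem _ (Finset.mem_erase.2 ⟨hi, mem_univ i⟩)
  have ht4 : tau < 4 := by have := tau_lt; linarith
  have hsum : ∀ i, i ≠ i0 → ∑ v, U v i = 0 := by
    intro i hi
    have hc := Spec.col_eig h1 hC i
    have e1 : (toR a *ᵥ fun v => U v i) ⬝ᵥ (fun _ => (1 : ℝ)) = e i * ∑ v, U v i := by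
      rw [hc, smul_dotProduct, smul_eq_mul]
      simp [dotProduct]
    have e2 : (toR a *ᵥ fun v => U v i) ⬝ᵥ (fun _ => (1 : ℝ)) = 4 * ∑ v, U v i := by
      rw [dotProduct_comm, Matrix.dotProduct_mulVec, ← Matrix.mulVec_transpose, toR_symm ha,
        toR_one hs, smul_dotProduct, smul_eq_mul]
      simp [dotProduct]
    have e3 : (e i - 4) * ∑ v, U v i = 0 := by linarith
    rcases mul_eq_zero.1 e3 with h | h
    · have := hlt i hi; linarith
    · exact h
  refine ⟨e, U, i0, h0, h1, hC, hr, hi0, hlt, hsum, ?_⟩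
  -- 1 = U Uᵀ 1
  have hone : ∀ v, U v i0 * ∑ w, U w i0 = 1 := by
    intro v
    have h2 := congrFun (congrArg (fun M : Matrix (Fin 16) (Fin 16) ℝ => M *ᵥ fun _ => (1 : ℝ)) h0) v
    simp only [Matrix.one_mulVec, ← Matrix.mulVec_mulVec] at h2
    have h3 : (Uᵀ *ᵥ fun _ => (1 : ℝ)) = fun i => if i = i0 then ∑ w, U w i0 else 0 := by
      ext i
      simp only [mulVec, dotProduct, transpose_apply, mul_one]
      by_cases hi : i = i0
      · rw [if_pos hi, hi]
      · rw [if_neg hi]; exact hsum i hi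
    rw [h3] at h2
    simp only [mulVec, dotProduct, mul_ite, mul_zero, sum_ite_eq', mem_univ, if_true] at h2
    exact h2
  intro v
  have hS : (∑ w, U w i0) ^ 2 = 16 := by
    have h5 : ∑ v, U v i0 * ∑ w, U w i0 = 16 := by
      rw [sum_congr rfl fun v _ => hone v]; simp
    rw [← sum_mul] at h5
    rw [pow_two]; exact h5
  have h6 := hone v
  have h7 : (U v i0 * ∑ w, U w i0) ^ 2 = 1 := by rw [h6]; norm_num
  rw [mul_pow, hS] at h7
  linarith

/-- The quadratic form is small on the vectors with sum zero. -/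
lemma quad_small (ha : ∀ i j, a i j = a j i) (hs : ∀ i, ∑ j, a i j = 4)
    (hnt : ∀ x ∈ nt a, x < tau) (y : Fin 16 → ℝ) (hy : ∑ i, y i = 0) (hne : y ≠ 0) :
    ∑ i, ∑ j, (a i j : ℝ) * (y i * y j) < tau * ∑ i, y i ^ 2 := by
  obtain ⟨e, U, i0, h0, h1, hC, hr, hi0, hlt, hsum, hcol⟩ := spec_data ha hs hnt
  set c : Fin 16 → ℝ := Uᵀ *ᵥ y with hc
  have hUc : U *ᵥ c = y := by rw [hc, Matrix.mulVec_mulVec, h0, Matrix.one_mulVec]
  have hyy : ∑ i, y i ^ 2 = ∑ i, c i ^ 2 := by
    have e1 : y ⬝ᵥ y = c ⬝ᵥ c := by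
      conv_lhs => rw [← hUc]
      rw [Matrix.dotProduct_mulVec, ← Matrix.mulVec_transpose, Matrix.mulVec_mulVec, h1,
        Matrix.one_mulVec]
    simp only [dotProduct, ← pow_two] at e1
    exact e1
  have hq : ∑ i, ∑ j, (a i j : ℝ) * (y i * y j) = ∑ i, e i * c i ^ 2 := by
    have e1 : y ⬝ᵥ (toR a *ᵥ y) = c ⬝ᵥ (diagonal e *ᵥ c) := by
      rw [hC, ← Matrix.mulVec_mulVec, ← hc, ← Matrix.mulVec_mulVec, Matrix.dotProduct_mulVec,
        ← Matrix.mulVec_transpose, ← hc]
    have e2 : y ⬝ᵥ (toR a *ᵥ y) = ∑ i, ∑ j, (a i j : ℝ) * (y i * y j) := by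
      simp only [dotProduct, mulVec, toR, of_apply, mul_sum]
      exact sum_congr rfl fun i _ => sum_congr rfl fun j _ => by ring
    have e3 : c ⬝ᵥ (diagonal e *ᵥ c) = ∑ i, e i * c i ^ 2 := by
      simp only [dotProduct, mulVec_diagonal]
      exact sum_congr rfl fun i _ => by ring
    rw [← e2, e1, e3]
  have hc0 : c i0 = 0 := by
    have h2 : ∀ v w, U v i0 = U w i0 := by
      intro v w
      have hcv := hcol v
      have hcw := hcol w
      -- both satisfy U v i0 * S = 1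
      have hS : ∀ v, U v i0 * ∑ w, U w i0 = 1 := by
        intro v
        have h2 := congrFun (congrArg (fun M : Matrix (Fin 16) (Fin 16) ℝ =>
          M *ᵥ fun _ => (1 : ℝ)) h0) v
        simp only [Matrix.one_mulVec, ← Matrix.mulVec_mulVec] at h2
        have h3 : (Uᵀ *ᵥ fun _ => (1 : ℝ)) = fun i => if i = i0 then ∑ w, U w i0 else 0 := by
          ext i
          simp only [mulVec, dotProduct, transpose_apply, mul_one]
          by_cases hi : i = i0
          · rw [if_pos hi, hi]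
          · rw [if_neg hi]; exact hsum i hi
        rw [h3] at h2
        simp only [mulVec, dotProduct, mul_ite, mul_zero, sum_ite_eq', mem_univ, if_true] at h2
        exact h2
      have hne0 : ∑ w, U w i0 ≠ 0 := by
        intro h
        have := hS v
        rw [h, mul_zero] at this
        exact zero_ne_one this
      have h3 := hS v
      have h4 := hS w
      exact mul_right_cancel₀ hne0 (h3.trans h4.symm)
    have h3 : c i0 = U 0 i0 * ∑ v, y v := by
      simp only [hc, mulVec, dotProduct, transpose_apply]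
      rw [mul_sum]
      exact sum_congr rfl fun v _ => by rw [h2 v 0]
    rw [h3, hy, mul_zero]
  have hcne : ∃ i, c i ≠ 0 := by
    by_contra hcon
    push Not at hcon
    apply hne
    rw [← hUc]
    have : c = 0 := funext hcon
    rw [this, Matrix.mulVec_zero]
  obtain ⟨i1, hi1⟩ := hcne
  have hi10 : i1 ≠ i0 := fun h => hi1 (by rw [h]; exact hc0)
  rw [hyy, hq, mul_sum]
  apply sum_lt_sum
  · intro i _
    by_cases hi : i = i0
    · rw [hi, hc0]; simp
    · exact mul_le_mul_of_nonneg_right (hlt i hi).le (sq_nonneg _)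
  · exact ⟨i1, mem_univ _, mul_lt_mul_of_pos_right (hlt i1 hi10) (by positivity)⟩

lemma pow_diag {U : Matrix (Fin 16) (Fin 16) ℝ} {e : Fin 16 → ℝ} {C : Matrix (Fin 16) (Fin 16) ℝ}
    (h0 : U * Uᵀ = 1) (h1 : Uᵀ * U = 1) (h : C = U * diagonal e * Uᵀ) (m : ℕ) (v : Fin 16) :
    (C ^ m) v v = ∑ i, e i ^ m * U v i ^ 2 := by
  rw [Spec.pow_conj h0 h1 h, Matrix.mul_apply]
  refine sum_congr rfl fun i _ => ?_
  rw [Matrix.mul_diagonal, transpose_apply]
  ring

/-- The local inequality. -/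
lemma local_ineq (ha : ∀ i j, a i j = a j i) (hs : ∀ i, ∑ j, a i j = 4)
    (hlow : ∀ x ∈ (toR a).charpoly.roots, -4 ≤ x) (hnt : ∀ x ∈ nt a, x < tau) (v : Fin 16) :
    ((toR a) ^ 4) v v + (8 - tau) * ((toR a) ^ 3) v v + (20 - 8 * tau) * ((toR a) ^ 2) v v +
      (16 - 20 * tau) * ((toR a) ^ 1) v v ≤ 72 - 2 * tau := by
  obtain ⟨e, U, i0, h0, h1, hC, hr, hi0, hlt, hsum, hcol⟩ := spec_data ha hs hnt
  have hlow' : ∀ i, -4 ≤ e i := by
    intro i
    apply hlow
    rw [hr]
    exact Multiset.mem_map_of_mem _ (mem_univ i)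
  have m0 : ∑ i, U v i ^ 2 = 1 := by
    have := pow_diag h0 h1 hC 0 v
    simp only [pow_zero, Matrix.one_apply_eq, one_mul] at this
    exact this.symm
  have key : ∑ i, (e i - tau) * (e i + 4) * (e i + 2) ^ 2 * U v i ^ 2 ≤
      ∑ i, if i = i0 then (4 - tau) * (4 + 4) * (4 + 2) ^ 2 * (1 / 16) else 0 := by
    apply sum_le_sum
    intro i _
    by_cases hi : i = i0
    · rw [if_pos hi, hi, hi0, hcol v]
    · rw [if_neg hi]
      have f1 := hlt i hi
      have f2 := hlow' i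
      have f3 : (e i - tau) * (e i + 4) ≤ 0 := mul_nonpos_of_nonpos_of_nonneg (by linarith) (by linarith)
      have f4 : 0 ≤ (e i + 2) ^ 2 * U v i ^ 2 := by positivity
      have f5 := mul_nonpos_of_nonpos_of_nonneg f3 f4
      calc (e i - tau) * (e i + 4) * (e i + 2) ^ 2 * U v i ^ 2 =
          (e i - tau) * (e i + 4) * ((e i + 2) ^ 2 * U v i ^ 2) := by ring
        _ ≤ 0 := f5
  rw [sum_ite_eq' univ i0, if_pos (mem_univ i0)] at key
  have expand : ∑ i, (e i - tau) * (e i + 4) * (e i + 2) ^ 2 * U v i ^ 2 =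
      ∑ i, e i ^ 4 * U v i ^ 2 + (8 - tau) * ∑ i, e i ^ 3 * U v i ^ 2 +
      (20 - 8 * tau) * ∑ i, e i ^ 2 * U v i ^ 2 + (16 - 20 * tau) * ∑ i, e i ^ 1 * U v i ^ 2 -
      16 * tau * ∑ i, U v i ^ 2 := by
    simp only [mul_sum, ← sum_add_distrib, ← sum_sub_distrib]
    exact sum_congr rfl fun i _ => by ring
  rw [expand, m0, ← pow_diag h0 h1 hC 4 v, ← pow_diag h0 h1 hC 3 v, ← pow_diag h0 h1 hC 2 v,
    ← pow_diag h0 h1 hC 1 v] at key
  linarith

end spectral

end Pool.Agent.H54.C32
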