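import Pool.Agent.H54.C32.Chk

/-! A search tree for the checker in `Pool.Agent.H170R2.Chk`. -/

namespace Pool.Agent.H170R2.Chk

open T Ev

def t0 : T :=
  (br 7 10 (br 7 11 (cost [p 1 [2,10,11], n 2 [13], p 3 [5,7], n 4 [5], p 5 [0,3,7], n 6 [3], p 7 [3,5], p 10 [1,11], p 11 [1,10], n 12 [5], n 13 [2]]) (br 7 12 (br 8 10 (cost [p 1 [2,10], p 2 [1,6,10], p 3 [5,7], n 4 [5], p 5 [0,3,7,8], n 6 [3], p 7 [3,5], p 8 [5,9], p 10 [1,2,11,12], n 12 [5], n 13 [2]]) (br 8 11 (cost [p 1 [2,10], p 2 [1,6,11], p 3 [5,7], n 4 [5], p 5 [0,3,7,8], n 6 [3], p 7 [3,5], p 8 [5,9], p 10 [1,11,12], p 11 [2,10], n 12 [5], n 13 [2]]) (br 9 10 (cost [p 1 [2,10], p 2 [1,6,10], p 3 [5,7], n 4 [5], p 5 [0,3,7,9], n 6 [3], p 7 [3,5], p 9 [5,8], p 10 [1,2,11,12], n 12 [5], n 13 [2]]) (br 9 11 (cost [p 1 [2,10], p 2 [1,6,11], p 3 [5,7],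 n 4 [5], p 5 [0,3,7,9], n 6 [3], p 7 [3,5], p 9 [5,8], p 10 [1,11,12], p 11 [2,10], n 12 [5], n 13 [2]]) (br 11 13 (br 10 13 (cost [p 1 [2,10], n 2 [7,13], p 3 [5,7], n 4 [5], p 5 [0,3,7,13], n 6 [3], p 7 [3,5], p 10 [1,11,12], p 11 [10], n 12 [5], p 13 [3,5]]) (br 7 13 (cost [p 1 [2,10,13], n 2 [7,13], p 3 [5,7], n 4 [5], p 5 [0,3,7], n 6 [3,10], p 7 [3,5,6], p 10 [1,11,12], n 12 [5], n 13 [2]]) (br 12 13 (cost [p 1 [2,10], n 2 [7,13], p 3 [5,7,13], n 4 [5], p 5 [0,3,7], n 6 [3], p 7 [3,5], p 10 [1,11,12], p 11 [10,12], p 12 [10,11], n 13 [2,10]]) (lo 13)))) (cost [p 1 [2,10], n 2 [7,13], p 3 [5,7], n 4 [5], p 5 [0,3,7], n 6 [3], p 7 [3,5], p 10 [1,11,12], n 11 [6,13], n 12 [5], n 13 [2,11]])))))) (br 8 10 (cost [p 1 [2,10], p 2 [1,6,10], n 3 [6], n 4 [5], p 5 [0,3,7,8], n 6 [3], n 7 [2], p 8 [5,9], p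 10 [1,2,11], n 12 [1,5], n 13 [2]]) (br 8 11 (cost [p 1 [2,10], p 2 [1,6,11], n 3 [6], n 4 [5], p 5 [0,3,7,8], n 6 [3], n 7 [2], p 8 [5,9], p 10 [1,11], p 11 [2,10], n 12 [1,5], n 13 [2]]) (br 9 10 (cost [p 1 [2,10], p 2 [1,6,10], n 3 [6], n 4 [5], p 5 [0,3,7,9], n 6 [3], n 7 [2], p 9 [5,8], p 10 [1,2,11], n 12 [1,5], n 13 [2]]) (br 9 11 (cost [p 1 [2,10], p 2 [1,6,11], n 3 [6], n 4 [5], p 5 [0,3,7,9], n 6 [3], n 7 [2], p 9 [5,8], p 10 [1,11], p 11 [2,10], n 12 [1,5], n 13 [2]]) (br 11 13 (br 10 13 (cost [p 1 [2,10], n 2 [7,13], p 3 [5,13], n 4 [5], p 5 [0,3,7,13], n 6 [3], n 7 [2], p 10 [1,11], p 11 [10], n 12 [1,5], p 13 [3,5]]) (br 7 13 (br 12 13 (hi 13) (cost [p 1 [2,10,13], n 2 [7,13], n 3 [6], n 4 [5], p 5 [0,3,7], n 6 [3], p 7 [5,6], p 10 [1,11], n 12 [1,5,13], n 13 [2,12]])) (cost [p 1 [2,10], n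 2 [7,13], n 3 [6], n 4 [5], p 5 [0,3,7], n 6 [3,10], n 7 [2,13], n 10 [6,13], n 12 [5], n 13 [2,10]]))) (cost [p 1 [2,10], n 2 [7,13], n 3 [6], n 4 [5], p 5 [0,3,7], n 6 [3,11], n 7 [2], p 10 [1,11], n 11 [6,13], n 12 [5], n 13 [2,11]])))))))) (br 7 11 (sym 9) (br 7 12 (br 7 13 (br 12 13 (tri 7 12 13) (br 7 14 (br 7 15 (hi 7) (br 12 14 (tri 7 12 14) (br 12 15 (br 8 10 (br 8 12 (cost [p 1 [2,13], p 2 [1,6,10], p 3 [5,8], n 4 [5], p 5 [0,3,8], p 6 [2,7], p 7 [4,6], p 8 [3,5,9], p 10 [2,11,12], n 12 [5], p 13 [1,14], n 15 [1]]) (br 9 12 (br 9 15 (tri 9 12 15) (br 8 15 (br 8 14 (hi 8) (br 10 15 (tri 8 10 15) (br 11 15 (cost [p 1 [2,13], p 2 [1,6,10], p 3 [5,15], n 4 [5], p 5 [0,3,8], p 6 [2,7], n 7 [2,8], p 8 [5,9], p 10 [2,11], p 11 [10,12], n 12 [5], p 13 [1,14], n 15 [1]]) (lo 15)))) (cost [p 1 [2,13], n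 2 [7,13,15], n 3 [6], n 4 [5], p 5 [0,3,8], n 6 [3,15], p 7 [4,6], p 10 [2,11], n 12 [5,8], n 15 [2,6]]))) (lo 12))) (br 8 11 (sym 9) (br 9 10 (sym 7) (br 9 11 (sym 7) (br 10 13 (br 11 13 (hi 13) (cost [p 1 [2,13], n 2 [7,13], n 3 [6], n 4 [5], n 5 [4,12], n 6 [3,11], p 7 [4,6], n 11 [6,13], n 12 [5], n 13 [2,11], n 15 [1]])) (cost [p 1 [2,13], n 2 [7,13], n 3 [6], n 4 [5], n 5 [4,12], n 6 [3,10], p 7 [4,6], n 10 [6,13], n 12 [5], n 13 [2,10], n 15 [1]])))))) (cost [p 1 [2,13], n 2 [7,13], n 3 [6], n 4 [5,12], n 5 [4,12], p 6 [2,7], n 7 [2,15], n 12 [4,5], p 13 [1,14], n 15 [1,7]])))) (br 7 15 (sym 13) (lo 7)))) (br 7 14 (br 7 15 (br 12 14 (tri 7 12 14) (br 12 15 (tri 7 12 15) (br 12 13 (br 8 10 (br 9 10 (cost [p 2 [1,6], n 3 [6], n 4 [5], p 5 [0,3,8], p 6 [2,10], n 7 [2], p 8 [5,9], p 9 [5,8], p 10 [2,6,11],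 n 12 [5], n 13 [2]]) (br 9 11 (cost [p 2 [1,6,10,11], n 3 [6], n 4 [5], p 5 [0,3,8,9], n 6 [3], n 7 [2], p 8 [5,9], p 9 [5,8], p 10 [2,11], p 11 [2,10], n 12 [5], n 13 [2]]) (br 9 12 (br 8 12 (hi 12) (br 9 14 (cost [p 2 [1,6,10], n 3 [6], n 4 [5], p 5 [0,3,8], p 6 [2,12], p 7 [4,9], p 8 [5,9], p 9 [7,8,13], p 10 [2,11], n 12 [5,8], n 13 [2], p 14 [12,15]]) (br 9 15 (cost [p 2 [1,6,10], n 3 [6], n 4 [5], p 5 [0,3,8], p 6 [2,12], p 7 [4,9], p 8 [5,9], p 9 [7,8,13], p 10 [2,11], n 12 [5,8], n 13 [2], p 15 [12,14]]) (lo 9)))) (cost [p 2 [1,6,10], n 3 [6,9], n 4 [5], p 5 [0,3,8], n 6 [3], n 7 [2], p 8 [5,9], n 9 [3,12], p 10 [2,11], n 12 [5,9], n 13 [2]])))) (br 8 11 (sym 9) (br 9 10 (sym 7) (br 9 11 (sym 7) (br 8 12 (br 9 12 (hi 12) (br 9 14 (br 9 15 (cost [n 2 [7,13], n 3 [6,9], n 5 [4,12], p 6 [2,12], p 7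 [4,9], p 8 [9,13], p 9 [4,7,8], n 12 [5,9], n 13 [2], p 14 [15], p 15 [14]]) (lo 9)) (lo 9))) (br 8 14 (br 8 15 (cost [n 2 [7,13], n 3 [6,8], p 4 [7,8], n 5 [4,12], n 6 [3], p 7 [4,8], p 8 [4,7,9], n 12 [5,8], n 13 [2], p 14 [15], p 15 [14]]) (lo 8)) (lo 8))))))) (cost [n 2 [7,13], n 3 [6], n 4 [5,12], n 5 [4,12], n 6 [3], n 7 [2,13], n 12 [4,5,13], n 13 [2,7,12]])))) (lo 7)) (lo 7))) (br 7 13 (br 7 14 (br 7 15 (cost [p 1 [2,13], n 2 [7,13], n 3 [6], p 4 [7], n 5 [4,12], p 6 [2,7], p 7 [4,6], n 12 [1,5], p 13 [1,14,15], p 14 [13,15], p 15 [13,14]]) (lo 7)) (lo 7)) (lo 7)))))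

def t1 : T :=
  (br 6 12 (br 6 13 (hi 6) (br 6 14 (hi 6) (br 6 15 (hi 6) (br 8 12 (tri 6 8 12) (br 9 12 (tri 6 9 12) (br 7 8 (br 8 10 (sym 15) (br 8 11 (sym 15) (br 7 10 (br 9 10 (cost [p 1 [2,8,10], p 2 [1,6,10], n 4 [5,6], p 5 [0,3,7,9], p 6 [2,7], p 7 [5,6], p 8 [1,9], p 9 [5,8], p 10 [1,2,11], n 12 [5]]) (br 7 13 (br 7 14 (hi 7) (cost [p 1 [2,8,10], p 2 [1,6], n 3 [8], n 4 [5,6], p 5 [0,3,7], n 6 [4,10], p 7 [5,6], p 8 [1,9], p 10 [1,11], n 12 [2,5], n 14 [1]])) (cost [p 1 [2,8,10], p 2 [1,6], n 3 [8], n 4 [5,6], p 5 [0,3,7], n 6 [4,10], p 7 [5,6], p 8 [1,9], p 10 [1,11], n 12 [2,5], n 13 [1]]))) (br 7 11 (sym 9) (br 7 12 (br 7 13 (br 7 14 (hi 7) (cost [p 1 [2,8,12], p 2 [1,6], n 3 [8], n 4 [5,6], n 5 [4,12], p 6 [2,7], p 7 [6], p 8 [1,9,12], n 12 [2,5], n 14 [1]])) (cost [p 1 [2,8,12], p 2 [1,6],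 n 3 [8], n 4 [5,6], n 5 [4,12], p 6 [2,7], p 7 [6], p 8 [1,9,12], n 12 [2,5], n 13 [1]])) (br 9 10 (cost [p 1 [2,8], p 2 [1,6,10], n 3 [7,8], n 4 [5,6], p 5 [0,3,9], p 6 [2,7], n 7 [3], p 8 [1,9], p 9 [5,8], p 10 [2,11], n 12 [2,5]]) (br 7 13 (br 7 14 (br 7 15 (hi 7) (cost [p 1 [2,8], p 2 [1,6], n 3 [7,8], n 4 [5,6], n 5 [4,12], n 6 [4,10], p 7 [4,6], p 8 [1,9], n 10 [6], n 12 [2,5], n 15 [1]])) (cost [p 1 [2,8], p 2 [1,6], n 3 [7,8], n 4 [5,6], n 5 [4,12], n 6 [4,10], n 7 [3], p 8 [1,9], n 10 [6], n 12 [2,5], n 14 [1]])) (cost [p 1 [2,8], p 2 [1,6], n 3 [7,8], n 4 [5,6], n 5 [4,12], n 6 [4,10], n 7 [3], p 8 [1,9], n 10 [6], n 12 [2,5], n 13 [1]])))))))) (br 7 9 (sym 7) (br 7 10 (br 7 11 (cost [p 1 [2,10,11], n 2 [7,12], p 3 [5,7], n 4 [5], p 5 [0,3,7], p 7 [3,5], p 10 [1,11], p 11 [1,10], n 12 [2,5]])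 (br 7 12 (cost [p 1 [2,10,12], n 2 [7,12], p 3 [5,7], n 4 [5,6], p 5 [0,3,7], p 6 [2,7], p 7 [3,5,6], p 10 [1,11,12], n 12 [2,5]]) (br 7 13 (br 7 14 (br 7 15 (hi 7) (br 8 10 (cost [p 1 [2,10], p 2 [1,6,10], n 4 [5,6], p 5 [0,3,7,8], n 6 [4], p 7 [4,5], p 8 [5,9], p 10 [1,2,11], n 12 [2,5], n 15 [1]]) (br 8 11 (cost [p 1 [2,10], p 2 [1,6,11], n 4 [5,6], p 5 [0,3,7,8], n 6 [4], p 7 [4,5], p 8 [5,9], p 10 [1,11], p 11 [2,10], n 12 [2,5], n 15 [1]]) (br 8 13 (br 8 14 (cost [p 1 [2,10], n 2 [7,12], n 4 [5,6], p 5 [0,3], n 6 [4], p 7 [4,5], p 8 [4,7,9], p 10 [1,11], n 12 [2,5], p 13 [14], p 14 [13], n 15 [1]]) (cost [p 1 [2,10], n 2 [7,12], n 3 [8], n 4 [5,6], p 5 [0,3,7], n 6 [4], n 8 [3,14], p 10 [1,11], n 12 [2,5], n 14 [8], n 15 [1]])) (cost [p 1 [2,10], n 2 [7,12], n 3 [8], n 4 [5,6], p 5 [0,3,7], n 6 [4],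 n 8 [3,13], p 10 [1,11], n 12 [2,5], n 13 [8], n 15 [1]]))))) (br 7 15 (sym 13) (lo 7))) (br 7 14 (sym 12) (lo 7))))) (br 7 11 (sym 9) (br 7 12 (br 7 13 (br 7 14 (br 7 15 (hi 7) (br 8 10 (br 8 11 (cost [p 1 [2,12], p 2 [1,6,10,11], p 3 [5,8], n 4 [5,6], p 5 [0,3,8], p 6 [2,7], p 8 [3,5,9], p 11 [10], n 12 [2,5]]) (br 9 10 (cost [p 1 [2,12], p 2 [1,6,10], n 4 [5,6], p 5 [0,3,8,9], p 6 [2,7,10], p 8 [5,9], p 10 [2,11], n 12 [2,5]]) (br 9 11 (cost [p 1 [2,12], p 2 [1,6,10,11], n 4 [5,6], p 5 [0,3,8,9], p 6 [2,7], p 7 [4,6], p 8 [5,9], p 9 [5,8], p 11 [2,10], n 12 [2,5]]) (cost [p 1 [2,12], p 2 [1,6,10], n 3 [9], n 4 [5,6], p 5 [0,3,8], n 6 [4,11], p 8 [5,9], n 9 [3], p 10 [2,11], n 11 [6], n 12 [2,5]])))) (br 8 11 (sym 9) (br 8 13 (br 8 14 (cost [p 1 [2,12], n 2 [7,12], n 3 [8], n 4 [5,6], n 5 [4,12], p 6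 [2,7], p 7 [4,6,8], p 8 [4,7,9], n 12 [2,5], p 13 [14]]) (cost [p 1 [2,12], n 2 [7,12], n 3 [8], n 4 [5,6], n 5 [4,12], p 6 [2,7], p 7 [4,6], n 8 [3,14], n 12 [2,5], n 14 [8], n 15 [1]])) (cost [p 1 [2,12], n 2 [7,12], n 3 [8], n 4 [5,6], n 5 [4,12], p 6 [2,7], p 7 [4,6], n 8 [3,13], n 12 [2,5], n 13 [8], n 15 [1]]))))) (br 7 15 (sym 13) (lo 7))) (br 7 14 (sym 12) (lo 7))) (br 7 13 (br 7 14 (br 7 15 (br 8 10 (cost [p 2 [1,6,10], n 4 [5,6], p 5 [0,3,8], n 6 [4], n 7 [2,3], p 8 [5,9], p 10 [2,11], n 12 [2,5], p 13 [14,15], p 14 [13,15], p 15 [13,14]]) (br 8 11 (cost [p 2 [1,6], n 3 [7], n 4 [5,6], p 5 [0,3,8], n 6 [4], n 7 [2,3], p 8 [5,9], p 11 [2,10], n 12 [2,5], p 13 [14,15], p 14 [13,15], p 15 [13,14]]) (cost [n 2 [7,12], n 3 [7], n 4 [5,6], n 5 [4,12], n 6 [4], n 7 [2,3], n 8 [3], n 12 [2,5], p 13 [14,15],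 p 14 [13,15], p 15 [13,14]]))) (lo 7)) (lo 7)) (lo 7)))))))))))) (br 6 13 (br 6 14 (hi 6) (br 6 15 (hi 6) (br 8 13 (tri 6 8 13) (br 9 13 (tri 6 9 13) (br 7 8 (br 7 9 (cost [p 1 [2,8,9], p 2 [1,6,7], n 4 [5], n 5 [4,12], p 6 [2,7], p 7 [2,6], p 8 [1,9], p 9 [1,8], n 12 [5], n 13 [2]]) (br 8 10 (sym 15) (br 8 11 (sym 15) (br 8 12 (sym 15) (br 7 10 (br 7 12 (cost [p 1 [2,8,10], p 2 [1,6], n 3 [6,8], n 4 [5], p 5 [0,3,7], p 6 [2,7], p 7 [3,5,6], p 8 [1,9], p 10 [1,11,12], n 12 [5], n 13 [2]]) (br 7 14 (br 7 15 (hi 7) (cost [p 1 [2,8,10], p 2 [1,6], n 3 [6,8], n 4 [5], p 5 [0,3,7], p 6 [2,7], p 7 [5,6], p 8 [1,9], p 10 [1,11], n 12 [1,5], n 13 [2], n 15 [1]])) (cost [p 1 [2,8,10], p 2 [1,6], n 3 [6,8], n 4 [5], p 5 [0,3,7], p 6 [2,7], p 7 [5,6], p 8 [1,9], p 10 [1,11], n 12 [1,5], n 13 [2], n 14 [1]]))) (br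 7 11 (sym 9) (br 7 12 (br 7 13 (br 7 14 (hi 7) (cost [p 1 [2,8,13], p 2 [1,6], n 3 [6,8], n 4 [5], n 5 [4,12], p 6 [2,7], p 7 [6], p 8 [1,9,13], n 12 [5], p 13 [1,8], n 14 [1]])) (br 7 14 (br 7 15 (hi 7) (br 8 14 (tri 7 8 14) (br 8 15 (br 12 14 (tri 7 12 14) (br 9 14 (br 9 15 (cost [p 1 [2,8], p 2 [1,6,15], n 3 [6], n 4 [5], n 5 [4,12], p 6 [2,7,15], p 8 [1,9], p 9 [4,8], n 12 [5], n 13 [2], p 15 [2,6,14]]) (br 9 12 (br 9 10 (hi 9) (br 10 13 (br 10 14 (cost [p 1 [2,8], p 2 [1,6], n 3 [6,8], n 4 [5], n 5 [4,12], p 6 [2,7], p 7 [6,9], p 8 [1,9], p 9 [7,8], p 10 [4,11], n 12 [5], n 13 [2], p 14 [12,13], n 15 [1]]) (cost [p 1 [2,8], p 2 [1,6], n 3 [6,8], n 4 [5], n 5 [4,12], p 6 [2,7], p 7 [6,9], p 8 [1,9], p 9 [7,8], n 10 [9,14], n 12 [5], n 13 [2], n 14 [10]])) (cost [p 1 [2,8], p 2 [1,6], n 3 [6,8], n 4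 [5], n 5 [4,12], n 6 [10], p 7 [6,9], p 8 [1,9], p 9 [7,8], n 10 [6,13], n 12 [5], n 13 [10], n 15 [1]]))) (cost [p 1 [2,8], n 2 [12,13], n 3 [6,8], n 4 [5], n 5 [4,12], p 6 [2,7], p 8 [1,9], n 9 [12], n 12 [2,5,9], n 13 [2], n 15 [1]]))) (cost [p 1 [2,8], n 2 [13,14], n 3 [6,8], n 4 [5], n 5 [4,12], n 6 [3,14], p 8 [1,9], n 12 [5], n 13 [2], n 14 [2,6], n 15 [1]]))) (lo 8)))) (br 7 15 (sym 13) (lo 7)))) (br 7 13 (cost [p 1 [2,8,13], p 2 [1,6], n 3 [6,8], n 4 [5], n 5 [4,12], p 6 [2,7], p 7 [6], p 8 [1,9,13], n 12 [1,5], p 13 [1,8]]) (cost [p 1 [2,8], p 2 [1,6], n 3 [6,7,8], n 4 [5], n 5 [4,12], p 6 [2,7], n 7 [3,13], p 8 [1,9], n 12 [1,5], n 13 [2,7]]))))))))) (br 7 9 (sym 7) t0)))))) (br 6 14 (sym 12) (br 6 15 (sym 13) (lo 6)))))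

def t2 : T :=
  (br 7 13 (br 7 14 (hi 7) (br 7 15 (hi 7) (br 9 13 (tri 7 9 13) (br 12 13 (tri 7 12 13) (br 11 13 (br 8 11 (cost [p 1 [2,10,13], p 2 [1,11], n 4 [5], p 5 [0,3,6,8], p 6 [5,7,11], p 8 [5,13], p 10 [1,11], p 11 [2,6,10], n 12 [5], p 13 [1,8], n 15 [1]]) (br 8 12 (br 9 11 (cost [p 1 [2,10,13], p 2 [1,11], n 4 [5], p 5 [0,3,6,9], p 6 [5,7], p 7 [6,11], p 9 [5,13], p 10 [1,11], p 11 [2,7,10], n 12 [5], p 13 [1,9], n 14 [1]]) (br 9 10 (br 10 14 (hi 10) (br 10 15 (hi 10) (br 8 14 (br 8 15 (hi 8) (cost [p 1 [2,10,13], p 2 [1,10], n 4 [5,10], p 5 [0,3,6,9], p 6 [5,7], p 10 [1,2,11], n 12 [5], n 13 [2], n 14 [1], n 15 [1,6]])) (cost [p 1 [2,10,13], p 2 [1,10], n 4 [5,10], p 5 [0,3,6,9], p 6 [5,7], p 10 [1,2,11], n 12 [5], n 13 [2], n 14 [1,6], n 15 [1]])))) (cost [p 1 [2,10,13], n 2 [13], n 3 [9],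 n 4 [5], p 5 [0,3,6], p 6 [5,7], n 7 [10], n 9 [3,6], p 10 [1,11], n 12 [5], n 13 [2], n 14 [1], n 15 [1]]))) (cost [p 1 [2,10], n 2 [12,13], n 3 [8], n 4 [5], p 5 [0,3,6], n 7 [8], n 8 [3,7], p 10 [1,11], n 12 [2,5], n 13 [2], n 14 [1], n 15 [1]]))) (lo 13)))))) (br 7 14 (br 7 15 (hi 7) (br 9 14 (tri 7 9 14) (br 12 14 (tri 7 12 14) (br 8 11 (br 8 12 (br 8 14 (hi 8) (br 10 14 (br 9 10 (hi 10) (br 10 15 (hi 10) (cost [p 1 [2,10], p 2 [1,11], n 4 [5], p 5 [0,3,6,8], p 8 [3,5], n 9 [10], n 10 [9,15], p 11 [2,10,12], n 12 [5], n 14 [2], n 15 [1,10]]))) (lo 14))) (br 12 13 (br 9 11 (cost [p 1 [2,10], p 2 [1,11], n 4 [5], p 5 [0,3,6,8,9], p 8 [5,9], p 9 [5,8], p 10 [1,11], p 11 [2,10], n 12 [2,5], n 15 [1]]) (br 11 13 (cost [p 1 [2,10], p 2 [1,11], p 3 [5,13], n 4 [5], p 5 [0,3,6,8], p 6 [5,11], p 8 [5,13], p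 10 [1,11], p 11 [2,6,10,12], n 12 [5], p 13 [3,8], n 15 [1]]) (br 8 14 (br 8 15 (hi 8) (br 11 14 (tri 8 11 14) (cost [p 1 [2,10], p 2 [1,11], n 4 [5], p 5 [0,3,6,8], n 7 [11], n 8 [12], p 10 [1,11], n 11 [7,13], n 12 [2,5,8], n 13 [5,11]]))) (cost [p 1 [2,10], n 2 [12,14], n 4 [5], p 5 [0,3,6,8], n 7 [8], n 8 [7], p 10 [1,11], p 11 [2,10], n 12 [2,5], n 13 [5,11], n 14 [2]])))) (lo 12))) (br 8 12 (br 8 14 (br 8 15 (hi 8) (br 9 10 (br 10 14 (hi 10) (br 10 15 (hi 10) (br 9 15 (br 9 11 (hi 9) (br 9 13 (hi 9) (cost [p 1 [2,10], p 2 [1,10], n 4 [5,10], p 5 [0,3,6,9], n 6 [15], n 9 [13], p 10 [1,2,11], n 12 [5], n 13 [2,9], n 15 [1,6]]))) (lo 15)))) (br 9 11 (br 9 13 (br 9 15 (hi 9) (br 10 15 (br 10 14 (hi 10) (cost [p 1 [2,10], p 2 [1,11], n 4 [5], p 5 [0,3,6,9], n 7 [10], n 9 [10], n 10 [7,9,14], p 11 [2,10],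 n 12 [5], n 14 [10], n 15 [1,2]])) (lo 15))) (br 11 13 (br 11 14 (hi 11) (cost [p 1 [2,10], p 2 [1,11], n 4 [5], p 5 [0,3,6,9], n 6 [9], n 8 [11], n 9 [6], p 10 [1,11], n 11 [8,14], n 12 [5], n 13 [2], n 14 [11], n 15 [1]])) (lo 13))) (br 9 13 (br 9 15 (br 10 14 (br 10 15 (hi 10) (cost [p 1 [2,10], n 3 [9], n 4 [5], p 5 [0,3,6], p 6 [5,14], p 8 [7,10], n 9 [3,10], p 10 [1,8,11], n 12 [5], p 14 [6,12], n 15 [1,6,10]])) (br 11 14 (br 11 13 (br 11 15 (hi 11) (br 12 13 (hi 13) (cost [p 1 [2,10], n 3 [9], p 4 [9,11], p 5 [0,3,6], n 7 [10], n 9 [3], n 10 [7,14], p 11 [4,10], n 12 [5,13], p 13 [14,15], p 14 [12,13], n 15 [1,11]]))) (cost [p 1 [2,10], n 4 [5], n 5 [4,12,13], n 6 [11], n 7 [10], n 10 [7,14], n 11 [6,13], n 12 [5], n 13 [5,11], n 14 [10], n 15 [1]])) (lo 14))) (lo 9)) (lo 9))))) (br 10 14 (br 9 10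 (hi 10) (br 10 15 (hi 10) (br 11 14 (cost [p 1 [2,10], n 2 [14], p 3 [5,14], n 4 [5], p 5 [0,3,6,14], n 8 [14], n 9 [10], p 10 [1,11], p 11 [10], n 12 [5], n 14 [2,8], n 15 [10]]) (lo 14)))) (lo 14))) (br 8 14 (br 8 15 (br 12 13 (br 12 15 (br 10 15 (cost [p 1 [2,10], n 2 [12], p 3 [5,15], p 4 [8,12], p 5 [0,3,6], p 6 [5,15], p 8 [4,10], p 10 [1,8,11,12], n 12 [2,5], p 15 [3,6,13,14]]) (br 9 10 (br 10 14 (hi 10) (br 11 14 (br 9 11 (cost [p 1 [2,10], p 2 [1,11], n 4 [5], p 5 [0,3,6,9], p 9 [5,14], p 10 [1,2,11], p 11 [2,7,10], n 12 [5], p 14 [9,15], p 15 [13,14]]) (br 9 13 (cost [p 1 [2,10], p 2 [1,10], n 3 [8], n 4 [5], p 5 [0,3,6], p 6 [5,9], n 8 [3], p 9 [5,6], p 10 [1,2,11,13], n 12 [5], p 13 [7,10,15], n 14 [10]]) (cost [p 1 [2,10], n 2 [12,13], n 3 [8], n 4 [5,10], p 5 [0,3,6,9], n 9 [13], p 10 [1,2,11],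 n 12 [2,5], n 13 [2,9]]))) (lo 14))) (br 10 14 (cost [p 1 [2,10], n 2 [12], n 3 [8], p 4 [8,12], p 5 [0,3,6], p 6 [5,14], p 8 [4,10], n 9 [10], p 10 [1,8,11], n 12 [2,5], p 14 [6,15], n 15 [1,10]]) (lo 10)))) (lo 12)) (lo 12)) (lo 8)) (lo 8))))))) (br 7 15 (sym 13) (lo 7))))

def t3 : T :=
  (br 7 11 (br 9 11 (tri 7 9 11) (br 7 12 (br 7 13 (hi 7) (br 7 14 (hi 7) (br 7 15 (hi 7) (br 9 12 (tri 7 9 12) (br 9 10 (cost [p 1 [2,10,11], p 2 [1,10], p 3 [5,7], n 4 [5], p 5 [0,3,6,7,9], p 7 [3,5], p 10 [1,11], p 11 [1,10,12], n 12 [5], n 14 [1], n 15 [1]]) (cost [p 1 [2,10,11], p 3 [5,7], n 4 [5,7], p 5 [0,3,6,7], n 7 [4], n 9 [3], p 10 [1,11], p 11 [1,10,12], n 12 [5], n 14 [1], n 15 [1]])))))) (br 7 13 (br 7 14 (hi 7) (br 9 13 (tri 7 9 13) (cost [p 1 [2,10,11,13], n 2 [13], n 4 [5], p 5 [0,3,6,7], p 6 [5,7], p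 7 [5,6], p 10 [1,11], p 11 [1,10], n 12 [1,5], n 13 [2], n 14 [1]]))) (br 7 14 (br 7 15 (hi 7) (br 9 14 (tri 7 9 14) (br 11 14 (tri 7 11 14) (br 8 11 (br 11 13 (hi 11) (cost [p 1 [2,10,11], p 2 [1,11], n 4 [5], p 5 [0,3,6,7,8], p 10 [1,11], p 11 [1,2,10], n 12 [1,5], n 13 [5,11], n 15 [1]])) (br 8 12 (br 8 14 (br 8 15 (hi 8) (br 12 14 (tri 8 12 14) (br 10 14 (br 9 10 (hi 10) (br 10 15 (hi 10) (cost [p 1 [2,10,11], n 4 [5], p 5 [0,3,6,7], p 6 [5,14], n 8 [11], p 10 [1,8,11], p 11 [1,10], n 12 [1,5], n 15 [1,6,10]]))) (lo 14)))) (br 10 14 (br 9 10 (hi 10) (br 10 15 (hi 10) (cost [p 1 [2,10,11], n 2 [14], n 4 [5], p 5 [0,3,6,7], n 7 [8], n 8 [7], n 10 [15], p 11 [1,10], n 12 [1,5], n 14 [2], n 15 [1,10]]))) (lo 14))) (br 9 10 (cost [p 1 [2,10,11], p 2 [1,10], n 3 [8], n 4 [5], p 5 [0,3,6,7,9], n 8 [3], p 10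 [1,2,11], p 11 [1,10], n 12 [1,5], n 15 [1]]) (br 9 12 (br 9 13 (br 9 15 (hi 9) (br 12 13 (tri 9 12 13) (cost [p 1 [2,10,11], n 3 [8], n 4 [5], p 5 [0,3,6,7], n 6 [12], n 8 [3], n 9 [10], p 10 [1,11], p 11 [1,10], n 12 [1,5,6], n 15 [1]]))) (cost [p 1 [2,10,11], n 2 [13], n 3 [8], n 4 [5], p 5 [0,3,6,7], n 6 [9], n 8 [3], n 9 [6], p 10 [1,11], p 11 [1,10], n 12 [1,5], n 13 [2]])) (cost [p 1 [2,10,11], n 3 [8,9], n 4 [5], p 5 [0,3,6,7], n 8 [3], n 9 [3], p 10 [1,11], p 11 [1,10], n 12 [1,2,5], n 15 [1]])))))))) (br 7 15 (sym 13) (lo 7)))))) (br 7 12 (br 9 12 (tri 7 9 12) t2) (br 7 13 (br 9 13 (tri 7 9 13) (br 11 13 (br 12 13 (hi 13) (br 7 14 (br 7 15 (hi 7) (cost [p 1 [2,10,13], n 2 [13], n 3 [7], n 4 [5], p 5 [0,3,6], p 6 [5,7], p 7 [4,6], p 10 [1,11], n 12 [1,5,13], n 13 [2,12], n 15 [1]])) (cost [p 1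 [2,10,13], n 2 [13], n 3 [7], n 4 [5], p 5 [0,3,6], p 6 [5,7], n 7 [3], p 10 [1,11], n 12 [1,5,13], n 13 [2,12], n 14 [1]]))) (cost [p 1 [2,10,13], n 2 [13], n 3 [7], n 4 [5], n 5 [4,12,13], p 6 [5,7], n 7 [3], p 10 [1,11], n 11 [13], n 12 [5], n 13 [2,5,11]]))) (br 7 14 (br 7 15 (br 9 14 (tri 7 9 14) (br 9 15 (tri 7 9 15) (br 8 11 (br 9 11 (cost [p 1 [2,10], p 2 [1,11], n 3 [7], n 4 [5], p 5 [0,3,6,8,9], n 7 [3], p 8 [5,9], p 9 [5,8], p 10 [1,11], p 11 [2,10], n 12 [1,5]]) (br 9 13 (br 9 10 (cost [p 1 [2,10], p 2 [1,11], n 3 [7], n 4 [5], p 5 [0,3,6,8,9], p 6 [5,9], n 7 [3], p 9 [5,6], p 10 [1,2,11,13], p 11 [2,10], n 12 [5]]) (br 9 12 (br 12 13 (tri 9 12 13) (br 11 13 (cost [p 1 [2,10], p 2 [1,11], n 3 [7], n 4 [5], p 5 [0,3,6,8], p 6 [5,11], n 7 [3], p 8 [5,13], n 9 [10], p 10 [1,11], p 11 [2,6,10],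 n 12 [1,5]]) (lo 13))) (lo 9))) (cost [p 1 [2,10], p 2 [1,11], n 3 [7], n 4 [5], p 5 [0,3,6,8], n 7 [3,13], n 9 [4,11], p 10 [1,11], p 11 [2,10], n 12 [5], n 13 [2,7]]))) (br 8 12 (br 8 14 (br 8 15 (hi 8) (br 12 14 (tri 8 12 14) (br 9 13 (br 9 10 (cost [p 1 [2,10], p 2 [1,10], n 3 [7], n 4 [5], p 5 [0,3,6,9], p 6 [5,9], n 7 [3], p 9 [5,6], p 10 [1,2,11,13], n 12 [1,5], n 15 [2]]) (br 10 15 (br 10 14 (hi 10) (br 11 14 (br 9 11 (cost [p 1 [2,10], p 2 [1,11], n 3 [7], n 4 [5], p 5 [0,3,6,9], p 7 [4,11], p 9 [5,14], n 10 [9], p 11 [2,7,10], n 12 [1,5], p 14 [9,15], n 15 [2]]) (br 9 12 (br 12 13 (tri 9 12 13) (br 12 15 (br 11 13 (cost [p 1 [2,10], p 2 [1,12], p 3 [5,15], p 4 [7,11], p 5 [0,3,6], p 7 [4,12], p 9 [8,15], p 10 [1,11,12], p 11 [4,10], p 12 [2,7,10], p 14 [13,15], p 15 [3,9,14]]) (lo 13)) (lo 12)))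 (lo 9))) (lo 14))) (cost [p 1 [2,10], n 2 [15], n 3 [7], n 4 [5], p 5 [0,3,6], n 6 [15], n 7 [3], n 9 [10], n 10 [9,15], n 12 [1,5], n 15 [2,6,10]]))) (cost [p 1 [2,10], n 2 [13,15], n 3 [7], n 4 [5,9], p 5 [0,3,6], n 7 [3,13], n 9 [4], p 10 [1,11], n 12 [5], n 13 [2,7], n 15 [2]])))) (br 8 15 (sym 13) (lo 8))) (br 8 14 (br 8 15 (br 9 10 (cost [p 1 [2,10], p 2 [1,10], n 3 [7,8], p 4 [7,8], p 5 [0,3,6,9], p 7 [4,8], p 8 [4,7], p 10 [1,2,11], n 12 [1,5], p 14 [15], p 15 [14]]) (br 9 11 (cost [p 1 [2,10], p 2 [1,11], n 3 [7], p 4 [7,8], p 5 [0,3,6,9], p 7 [4,8], p 8 [4,7], n 9 [10], p 10 [1,11], p 11 [2,10], n 12 [1,5], p 14 [15], p 15 [14]]) (br 9 12 (br 9 13 (br 12 13 (tri 9 12 13) (cost [p 1 [2,10], n 3 [7,8], p 4 [7,8], p 5 [0,3,6], n 6 [12], p 7 [4,8], p 8 [4,7], n 9 [10], p 10 [1,11], n 12 [1,5,6], p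 14 [15], p 15 [14]])) (lo 9)) (lo 9)))) (lo 8)) (lo 8)))))) (lo 7)) (lo 7)))))

def t4 : T :=
  (br 7 11 (br 7 12 (br 8 11 (cost [p 1 [2,10,11], p 2 [1,11], p 3 [5,7], n 4 [5], p 5 [0,3,6,7,8], p 7 [3,5], n 9 [1], p 10 [1,11], p 11 [1,2,10,12], n 12 [5]]) (br 9 11 (cost [p 1 [2,10,11], p 2 [1,11], p 3 [5,7], n 4 [5], p 5 [0,3,6,7,9], p 7 [3,5], n 9 [1], p 10 [1,11], p 11 [1,2,10,12], n 12 [5]]) (br 11 13 (br 11 14 (hi 11) (br 11 15 (hi 11) (br 7 14 (br 7 15 (hi 7) (cost [p 1 [2,10,11], n 2 [7], p 3 [5,7], n 4 [5], p 5 [0,3,6,7], p 7 [3,5], n 9 [1], p 10 [1,11], p 11 [1,10,12], n 12 [5], n 15 [1,11]])) (cost [p 1 [2,10,11], n 2 [7], p 3 [5,7], n 4 [5], p 5 [0,3,6,7], p 7 [3,5], n 9 [1], p 10 [1,11], p 11 [1,10,12], n 12 [5], n 14 [1,11]])))) (cost [p 1 [2,10,11], n 2 [7], p 3 [5,7], n 4 [5], p 5 [0,3,6,7],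 n 6 [11], p 7 [3,5], n 9 [1], p 10 [1,11], p 11 [1,10,12], n 12 [5], n 13 [5]])))) (br 7 13 (br 11 13 (tri 7 11 13) (cost [p 1 [2,10,11,13], n 2 [7], n 4 [5], p 5 [0,3,6,7], p 6 [5,7], p 7 [5,6], n 9 [1], p 10 [1,11], p 11 [1,10], n 12 [1,5], n 13 [5]])) (br 7 14 (br 7 15 (br 11 14 (tri 7 11 14) (br 11 15 (tri 7 11 15) (br 11 13 (br 8 11 (hi 11) (br 9 11 (hi 11) (br 8 12 (br 9 10 (cost [p 1 [2,10,11], p 2 [1,10], n 4 [5], p 5 [0,3,6,7,9], p 7 [4,5], n 8 [11], n 9 [1], p 10 [1,2,11], p 11 [1,10], n 12 [1,5]]) (br 9 12 (br 10 14 (br 10 15 (hi 10) (cost [p 1 [2,10,11], p 2 [1,12], n 4 [5], p 5 [0,3,6,7], p 7 [4,5], n 8 [11], n 9 [1], p 10 [1,11], p 11 [1,10], n 12 [1,5], n 15 [5,10]])) (cost [p 1 [2,10,11], p 2 [1,12], n 4 [5], p 5 [0,3,6,7], p 7 [4,5], n 8 [11], n 9 [1], p 10 [1,11], p 11 [1,10], n 12 [1,5],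 n 14 [5,10]])) (cost [p 1 [2,10,11], n 2 [7], n 3 [9], n 4 [5], p 5 [0,3,6,7], p 7 [4,5], n 8 [11], n 9 [1,3], p 10 [1,11], p 11 [1,10], n 12 [1,5]]))) (cost [p 1 [2,10,11], n 2 [7], n 3 [8], n 4 [5], p 5 [0,3,6,7], p 7 [4,5], n 8 [3,11], n 9 [1], p 10 [1,11], p 11 [1,10], n 12 [1,5]])))) (cost [p 1 [2,10,11], n 2 [7], n 4 [5], p 5 [0,3,6,7], n 7 [2,13], n 9 [1], p 10 [1,11], p 11 [1,10], n 12 [1,5], n 13 [5,7]])))) (lo 7)) (lo 7)))) (br 7 12 (br 7 13 (br 12 13 (tri 7 12 13) (br 7 14 (br 7 15 (hi 7) (br 12 14 (tri 7 12 14) (br 11 13 (br 9 13 (hi 13) (br 8 11 (cost [p 1 [2,10,13], n 2 [7], n 4 [5], p 5 [0,3,6,8], p 6 [5,7,11], p 7 [4,6], n 9 [1], p 10 [1,11], p 11 [2,6,10], n 12 [5], p 13 [1,8]]) (br 8 12 (br 8 14 (cost [p 1 [2,10,13], n 2 [7,13], n 4 [5], p 5 [0,3,6], p 6 [5,7], p 7 [4,6,8], n 9 [1], p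 10 [1,11], n 12 [5], p 13 [1,14], p 14 [12,13], n 15 [1]]) (cost [p 1 [2,10,13], n 2 [7,13], n 4 [5], p 5 [0,3,6], p 6 [5,7], p 7 [4,6], n 8 [14], n 9 [1], p 10 [1,11], n 12 [5], p 13 [1,14], n 14 [8], n 15 [1]])) (cost [p 1 [2,10,13], n 2 [7,13], n 3 [8], n 4 [5], p 5 [0,3,6], p 6 [5,7], p 7 [4,6], n 8 [3], n 9 [1], p 10 [1,11], n 12 [5], p 13 [1,14], n 15 [1]])))) (cost [p 1 [2,10,13], n 2 [7], n 3 [13], n 4 [5], n 5 [4,12,13], p 6 [5,7], p 7 [4,6], n 9 [1], p 10 [1,11], n 12 [5], n 13 [3,5], n 15 [1]])))) (br 7 15 (sym 13) (lo 7)))) (br 7 14 (br 7 15 (br 12 14 (tri 7 12 14) (br 12 15 (tri 7 12 15) (br 8 11 (br 8 12 (br 8 14 (hi 8) (br 8 15 (hi 8) (br 9 10 (cost [p 1 [2,10], p 2 [1,10,11], n 4 [5], p 5 [0,3,6,8,9], n 7 [2], p 8 [3,5], n 9 [1], p 10 [1,2,11], p 11 [2,10,12], n 12 [5]]) (br 9 11 (cost [p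 1 [2,10], p 2 [1,11], n 4 [5], p 5 [0,3,6,8,9], n 7 [2], p 8 [3,5,9], p 9 [5,8], p 10 [1,11], p 11 [2,10], n 12 [5]]) (br 9 12 (cost [p 1 [2,10], p 2 [1,11], p 3 [5,8], n 4 [5,8], p 5 [0,3,6,8], n 7 [2], p 8 [3,5,9], n 9 [1], p 10 [1,11], p 11 [2,10,12], p 12 [2,11]]) (cost [p 1 [2,10], p 2 [1,11], p 3 [5,8], n 4 [5,8], p 5 [0,3,6,8], n 7 [2], p 8 [3,5], n 9 [1,3], p 10 [1,11], p 11 [2,10,12], n 12 [5]])))))) (br 9 12 (br 12 13 (br 9 13 (tri 9 12 13) (br 11 13 (cost [p 1 [2,10], n 2 [7,13], p 3 [5,13], n 4 [5], p 5 [0,3,6,8], p 6 [5,11], n 7 [2], p 10 [1,11], p 11 [2,6,10,12], n 12 [5], p 13 [3,8]]) (lo 13))) (lo 12)) (lo 12))) (br 8 12 (br 8 14 (br 8 15 (hi 8) (br 11 13 (br 12 13 (cost [p 1 [2,10], n 2 [7], n 4 [5], p 5 [0,3,6], p 6 [5,12], p 7 [4,8], p 8 [7,13], n 9 [1], p 10 [1,11], p 11 [10,12], p 12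 [6,11,14], p 13 [3,8], p 14 [12,15], n 15 [8]]) (cost [p 1 [2,10], n 2 [7], n 4 [5,12], p 5 [0,3,6], n 7 [2,13], n 8 [15], n 9 [1], p 10 [1,11], n 12 [4,5], n 13 [7], p 14 [12,15], n 15 [8]])) (cost [p 1 [2,10], n 2 [7], n 4 [5], n 5 [4,12,13], n 6 [11], p 7 [4,8], n 8 [15], n 9 [1], p 10 [1,11], n 11 [6], n 12 [5], n 13 [5], p 14 [12,15], n 15 [8]]))) (br 8 15 (sym 13) (lo 8))) (br 8 14 (br 8 15 (br 9 12 (br 12 13 (br 9 13 (tri 9 12 13) (cost [p 1 [2,10], n 2 [7,13], n 3 [8], p 4 [7,8], p 5 [0,3,6], n 8 [3,12], n 9 [1], p 10 [1,11], n 12 [5,8], n 13 [2], p 14 [15], p 15 [14]])) (lo 12)) (lo 12)) (lo 8)) (lo 8)))))) (lo 7)) (lo 7))) (br 7 13 (br 7 14 (br 7 15 (cost [p 1 [2,10,13], n 2 [7], p 4 [7], p 5 [0,3,6], p 6 [5,7], p 7 [4,6], n 9 [1], p 10 [1,11], n 12 [1,5], p 13 [1,14,15], p 14 [13,15]]) (lo 7))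 (lo 7)) (lo 7))))

def t5 : T :=
  (br 6 12 (br 6 13 (hi 6) (br 6 14 (hi 6) (br 6 15 (hi 6) (br 8 12 (tri 6 8 12) (br 7 9 (br 7 10 (br 10 13 (hi 10) (br 10 14 (hi 10) (br 10 15 (hi 10) (cost [p 1 [2,10], p 3 [5,6], n 4 [5,6,10], p 5 [0,3,6,7], p 6 [3,5,7], p 7 [5,6], p 10 [1,11,12], n 12 [5]])))) (br 7 11 (br 8 11 (cost [p 1 [2,10,11], p 2 [1,11], p 3 [5,6], n 4 [5,6], p 5 [0,3,6,7,8], p 6 [3,5], p 10 [1,11,12], p 11 [1,2,10], n 12 [5]]) (br 7 13 (br 7 14 (hi 7) (cost [p 1 [2,10,11], p 3 [5,6], n 4 [5,6], p 5 [0,3,6,7], n 6 [4,11], n 8 [3], p 10 [1,11,12], p 11 [1,10], n 12 [5], n 14 [1]])) (cost [p 1 [2,10,11], p 3 [5,6], n 4 [5,6], p 5 [0,3,6,7], n 6 [4,11], n 8 [3], p 10 [1,11,12], p 11 [1,10], n 12 [5], n 13 [1]]))) (br 7 12 (br 9 12 (tri 7 9 12) (br 8 11 (cost [p 1 [2,10,12], p 2 [1,11], p 3 [5,6],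 n 4 [5,6], p 5 [0,3,6,8], p 6 [3,5,7], p 10 [1,11,12], p 11 [2,10], n 12 [2,5]]) (cost [p 1 [2,10,12], n 2 [12], p 3 [5,6], n 4 [5,6], p 5 [0,3,6], p 6 [3,5,7], n 8 [3], p 10 [1,11,12], n 11 [6], n 12 [2,5]]))) (br 7 13 (br 9 13 (tri 7 9 13) (br 7 14 (br 7 15 (hi 7) (br 9 14 (tri 7 9 14) (br 8 11 (br 8 13 (br 8 14 (hi 8) (cost [p 1 [2,10], p 2 [1,11], p 3 [5,6], n 4 [5,6], p 5 [0,3,6,8], p 6 [3,5], n 7 [3], p 10 [1,11,12], p 11 [2,10], n 12 [5], n 14 [2], n 15 [1]])) (cost [p 1 [2,10], p 2 [1,11], p 3 [5,6], n 4 [5,6], p 5 [0,3,6,8], p 6 [3,5], n 7 [3], p 10 [1,11,12], p 11 [2,10], n 12 [5], n 13 [2], n 15 [1]])) (cost [p 1 [2,10], n 3 [7,8], n 4 [5,6], p 5 [0,3,6], n 6 [4,11], n 7 [3], n 8 [3], p 10 [1,11,12], n 11 [6], n 12 [5], n 15 [1]])))) (br 7 15 (sym 13) (lo 7)))) (br 7 14 (sym 12) (lo 7)))))) (br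 7 10 (cost [p 1 [2,10], p 3 [5,6], n 4 [5,6], p 5 [0,3,6,7], p 6 [3,5,7], p 7 [5,6], n 9 [1], p 10 [1,11,12], n 12 [5]]) (br 7 11 (cost [p 1 [2,10,11], n 2 [7], p 3 [5,6], n 4 [5,6], p 5 [0,3,6,7], p 6 [3,5], n 7 [2], n 9 [1], p 10 [1,11,12], p 11 [1,10], n 12 [5]]) (br 8 11 (br 7 12 (cost [p 1 [2,10,12], p 2 [1,11], p 3 [5,6], n 4 [5], p 5 [0,3,6,8], p 6 [3,5,7], n 7 [2], n 9 [1], p 10 [1,11,12], p 11 [2,10], p 12 [1,10]]) (cost [p 1 [2,10], p 2 [1,11], p 3 [5,6], n 4 [5,6], p 5 [0,3,6,8], p 6 [3,5], n 7 [2,3], n 9 [1], p 10 [1,11,12], p 11 [2,10], n 12 [5]])) (cost [p 1 [2,10], n 2 [7], p 3 [5,6], n 4 [5,6], p 5 [0,3,6], n 6 [4,11], n 7 [2], n 8 [3], n 9 [1], p 10 [1,11,12], n 11 [6], n 12 [5]]))))))))) (br 6 13 (br 6 14 (hi 6) (br 6 15 (hi 6) (br 8 13 (tri 6 8 13) (br 10 13 (tri 6 10 13) (br 7 9 (br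 7 10 (br 9 10 (tri 7 9 10) (br 10 14 (hi 10) (br 10 15 (hi 10) (br 7 11 (cost [p 1 [2,10,11], p 3 [5,7], n 4 [5], p 5 [0,3,6,7], p 6 [5,7], p 7 [3,5,6], p 10 [1,11], p 11 [1,10], n 12 [5]]) (br 7 13 (cost [p 1 [2,10,13], n 4 [5], p 5 [0,3,6,7], p 6 [5,7], p 7 [5,6], p 10 [1,11,13], n 12 [5], p 13 [1,10]]) (br 7 12 (br 7 14 (hi 7) (cost [p 1 [2,10], p 3 [5,7], n 4 [5,10], p 5 [0,3,6,7], p 6 [5,7], p 7 [3,5,6], p 10 [1,11,12], n 12 [5], n 14 [1]])) (br 8 11 (cost [p 1 [2,10], p 2 [1,11], n 4 [5,10], p 5 [0,3,6,7,8], p 6 [5,7], p 7 [5,6], p 10 [1,11], p 11 [2,10], n 12 [1,5]]) (br 9 11 (cost [p 1 [2,10], p 2 [1,11], n 4 [5,10], p 5 [0,3,6,7,9], p 6 [5,7], p 7 [5,6], p 10 [1,11], p 11 [2,10], n 12 [1,5]]) (br 9 13 (br 11 13 (br 12 13 (hi 13) (br 8 12 (br 9 12 (br 9 15 (hi 9) (br 7 14 (br 7 15 (hi 7) (cost [p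 1 [2,10], p 2 [1,12], n 4 [5], p 5 [0,3,6,7], p 6 [5,7], p 7 [5,6], p 10 [1,11], n 12 [1,5], n 15 [1,7,10]])) (cost [p 1 [2,10], p 2 [1,12], n 4 [5,10], p 5 [0,3,6,7], p 6 [5,7], p 7 [5,6], p 10 [1,11], n 12 [1,5], n 14 [1,10]]))) (cost [p 1 [2,10], n 3 [9], n 4 [5,10], p 5 [0,3,6,7], p 6 [5,7], p 7 [5,6], n 9 [3], p 10 [1,11], n 12 [5,13], n 13 [12]])) (cost [p 1 [2,10], n 3 [8], n 4 [5,10], p 5 [0,3,6,7], p 6 [5,7], p 7 [5,6], n 8 [3], p 10 [1,11], n 12 [1,5,6]]))) (cost [p 1 [2,10], n 4 [5,10], p 5 [0,3,6,7], p 6 [5,7], p 7 [5,6], p 10 [1,11], n 11 [13], n 12 [1,5], n 13 [5,11]])) (cost [p 1 [2,10], n 4 [5,10], p 5 [0,3,6,7], p 6 [5,7], p 7 [5,6], n 9 [6], p 10 [1,11], n 12 [1,5], n 13 [2,7]])))))))))) t3) (br 7 10 (br 9 10 (hi 10) (br 10 14 (hi 10) (br 10 15 (hi 10) (br 7 12 (cost [p 1 [2,10], p 3 [5,7],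 n 4 [5,10], p 5 [0,3,6,7], p 6 [5,7], p 7 [3,5], n 9 [1,10], p 10 [1,11,12], n 12 [5]]) (cost [p 1 [2,10], n 2 [7], n 4 [5,10], p 5 [0,3,6,7], p 6 [5,7], p 7 [5,6], n 9 [1,10], p 10 [1,11], n 12 [1,5]]))))) t4)))))) (br 6 14 (sym 12) (br 6 15 (sym 13) (lo 6)))))

def t6 : T :=
  (br 7 10 (br 9 10 (tri 7 9 10) (br 7 11 (br 7 14 (hi 7) (cost [p 1 [2,10,11], p 3 [5,7], n 4 [5], p 5 [0,3,7], p 7 [3,5], n 8 [3], p 10 [1,11], p 11 [1,10], n 12 [5], n 14 [1]])) (br 7 12 (br 7 13 (hi 7) (br 7 14 (hi 7) (br 7 15 (hi 7) (cost [p 1 [2,10,12], p 3 [5,7], n 4 [5,7], p 5 [0,3,7], p 7 [3,5,6], n 8 [3,7], p 10 [1,11,12], p 12 [1,10], n 14 [1], n 15 [1]])))) (br 7 13 (br 7 14 (hi 7) (br 7 15 (hi 7) (br 9 13 (tri 7 9 13) (br 10 13 (tri 7 10 13) (cost [p 1 [2,10,13], n 2 [13], n 3 [8], n 4 [5], p 5 [0,3,7], n 6 [10], p 7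 [5,6], n 8 [3,7], p 10 [1,11], n 12 [5], n 13 [2], n 14 [1], n 15 [1]]))))) (br 7 14 (br 7 15 (hi 7) (br 9 14 (tri 7 9 14) (br 10 14 (tri 7 10 14) (br 9 11 (br 11 14 (cost [p 1 [2,10], p 2 [1,11], n 3 [8], n 4 [5], p 5 [0,3,7,9], p 7 [5,11], n 8 [3], p 9 [5,14], p 10 [1,11], p 11 [2,7,10], n 12 [5], p 14 [9,15], n 15 [1]]) (br 12 14 (br 9 12 (cost [p 1 [2,10], p 2 [1,11], p 3 [5,9], n 4 [5], p 5 [0,3,7,9], p 7 [5,12], p 8 [4,12], p 9 [3,14], p 10 [1,11], p 11 [2,10,12], p 12 [7,8], p 14 [6,9,15]]) (br 12 15 (cost [p 1 [2,10], p 2 [1,11], n 3 [8], p 5 [0,3,7,9], p 8 [4,12], p 10 [1,11], p 11 [2,10], p 12 [4,8], p 14 [6,15], p 15 [6,14]]) (lo 12))) (lo 14))) (br 9 12 (br 9 13 (br 9 15 (hi 9) (br 10 13 (br 10 15 (hi 10) (cost [p 1 [2,10], n 3 [8], n 4 [5], p 5 [0,3,7], p 7 [5,13], n 8 [3,10], p 9 [6,10], p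 10 [1,9,11], n 12 [5], p 13 [7,12], n 15 [1,7,10]])) (br 11 13 (br 11 14 (br 11 15 (hi 11) (br 12 14 (hi 14) (cost [p 1 [2,10], n 3 [8], p 4 [8,11], p 5 [0,3,7], n 6 [10], n 8 [3], n 10 [6,13], p 11 [4,10], n 12 [5,14], p 13 [12,14], p 14 [13,15], n 15 [1,11]]))) (cost [n 3 [8], n 4 [5], n 5 [4,12,14], n 6 [10], n 7 [11], n 8 [3], n 10 [6,13], n 11 [7], n 12 [5], n 13 [10], n 14 [5,11], n 15 [1]])) (lo 13)))) (br 9 15 (br 10 13 (br 10 15 (hi 10) (cost [p 1 [2,10], p 2 [1,15], n 3 [8], n 4 [5], p 5 [0,3,7], n 8 [3,10], n 9 [13], n 10 [8,15], n 12 [5], n 13 [2,9], n 15 [1,10]])) (lo 13)) (lo 9))) (br 9 13 (br 9 15 (br 12 14 (cost [p 1 [2,10], p 2 [1,15], n 3 [8,9], p 4 [8,9], p 5 [0,3,7], p 8 [4,9,12], p 9 [4,8], p 10 [1,11], n 12 [2,5], p 14 [6,15], p 15 [2,13,14]]) (lo 12)) (lo 9)) (lo 9))))))) (br 7 15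 (sym 13) (lo 7))))))) (br 7 11 (sym 9) (br 7 12 (br 9 12 (tri 7 9 12) (br 7 13 (br 7 14 (hi 7) (br 7 15 (hi 7) (cost [p 1 [2,12,13], n 2 [12], n 3 [8], n 4 [5], n 5 [4,12], p 6 [7], p 7 [6], n 8 [3,7], n 12 [2,5], p 13 [1,12], n 14 [1], n 15 [1]]))) (br 7 14 (br 9 14 (tri 7 9 14) (br 12 14 (tri 7 12 14) (br 12 15 (br 9 13 (br 9 15 (cost [p 1 [2,12], n 3 [8], n 5 [4,12], p 6 [7,15], p 7 [6,15], p 8 [4,9,12], p 9 [4,8,12], p 12 [1,8,9], p 15 [2,6,7,13,14]]) (br 9 10 (br 10 13 (tri 9 10 13) (br 11 13 (br 10 14 (cost [p 1 [2,12], p 2 [1,10], n 3 [8], n 4 [5], p 5 [0,3,9], p 6 [7,15], p 7 [6,10], p 8 [4,12], p 9 [5,14], p 10 [2,7,11], n 12 [2,5], p 14 [9,15], p 15 [6,14]]) (br 10 15 (br 11 14 (cost [p 1 [2,12], p 2 [1,10], p 3 [5,15], p 4 [8,11], p 5 [0,3,9], p 6 [7,15], p 8 [4,12], p 10 [2,11,12], p 11 [4,10],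 p 12 [1,8,10], p 14 [13,15], p 15 [3,6,14]]) (lo 14)) (lo 10))) (lo 13))) (br 9 11 (sym 9) (lo 9)))) (cost [p 1 [2,12], n 2 [12,13], n 3 [8], n 4 [5], n 5 [4,12], p 6 [7,15], n 7 [13], p 8 [4,12], n 9 [6], n 12 [2,5], n 13 [2,7], p 15 [6,14]])) (lo 12)))) (br 7 15 (sym 13) (lo 7))))) (br 7 13 (br 9 13 (tri 7 9 13) (br 7 14 (br 7 15 (hi 7) (br 9 14 (tri 7 9 14) (br 9 12 (br 9 10 (cost [p 1 [2,13], p 2 [1,10], n 3 [7,8], p 4 [7,8], p 5 [0,3,9], p 7 [4,6], n 8 [3], p 9 [3,5], p 10 [2,11,12], n 12 [5], p 13 [1,14], p 14 [13,15], n 15 [1]]) (br 9 11 (cost [p 1 [2,13], p 2 [1,11], n 3 [7,8], p 4 [7,8], p 5 [0,3,9], p 7 [4,6], n 8 [3], p 9 [3,5], p 11 [2,10,12], n 12 [5], p 13 [1,14], p 14 [13,15], n 15 [1]]) (br 9 15 (br 12 15 (tri 9 12 15) (br 12 14 (cost [p 1 [2,13], p 2 [1,15], n 3 [8], p 4 [7,8], n 5 [4,12],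 p 6 [7,14], p 7 [4,6,12], p 8 [4,9,12], p 9 [8,14], p 12 [7,8], p 13 [1,14], p 14 [13,15], p 15 [2,14]]) (lo 12))) (lo 9)))) (cost [p 1 [2,13], n 2 [12,13], n 3 [7,8], p 4 [7,8], n 5 [4,12], n 6 [9], p 7 [4,6], n 8 [3], n 9 [6], n 12 [2,5], p 13 [1,14], p 14 [13,15]])))) (br 7 15 (sym 13) (lo 7)))) (br 7 14 (br 7 15 (br 9 14 (tri 7 9 14) (br 9 15 (tri 7 9 15) (br 9 13 (br 9 10 (br 9 12 (hi 9) (br 12 14 (cost [p 2 [1,10], n 3 [7,8], p 4 [7,8], p 5 [0,3,9], p 7 [4,8], p 8 [4,7], n 9 [12], p 10 [2,11], n 12 [2,5,9], p 14 [6,15], p 15 [14]]) (lo 12))) (br 9 11 (sym 9) (br 10 13 (br 11 13 (hi 13) (cost [n 3 [7,8], p 4 [7,8], n 5 [4,12], n 6 [11], p 7 [4,8], p 8 [4,7], n 9 [11], n 11 [6,9,13], n 12 [5], n 13 [11], p 14 [15], p 15 [14]])) (cost [n 3 [7,8], p 4 [7,8], n 5 [4,12], n 6 [10], p 7 [4,8], p 8 [4,7],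 n 9 [10], n 10 [6,9,13], n 12 [5], n 13 [10], p 14 [15], p 15 [14]])))) (cost [n 2 [13], n 3 [7,8], n 4 [5,9], n 5 [4,12], n 7 [3,13], p 8 [4,7], n 9 [4], n 12 [5], n 13 [2,7], p 14 [15], p 15 [14]])))) (lo 7)) (lo 7))))))

def t7 : T :=
  (br 6 10 (br 8 10 (tri 6 8 10) (br 6 11 (br 6 12 (hi 6) (br 6 13 (hi 6) (br 6 14 (hi 6) (br 6 15 (hi 6) (br 7 9 (br 7 12 (br 7 13 (br 7 14 (hi 7) (cost [p 1 [2,10,11], p 3 [5,6], n 4 [5,6], p 5 [0,3,6], p 6 [3,5], p 10 [1,11], p 11 [1,10], n 12 [5], n 14 [1]])) (cost [p 1 [2,10,11], p 3 [5,6], n 4 [5,6], p 5 [0,3,6], p 6 [3,5], p 10 [1,11], p 11 [1,10], n 12 [5], n 13 [1]])) (cost [p 1 [2,10,11], p 3 [5,6], n 4 [5,6], p 5 [0,3,6], p 6 [3,5], p 10 [1,11], p 11 [1,10], n 12 [1,5]])) (cost [p 1 [2,10,11], n 2 [7], p 3 [5,6], n 4 [5], p 5 [0,3,6], p 6 [3,5], n 7 [2], n 9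 [1], p 10 [1,11], p 11 [1,10], n 12 [5]])))))) t5)) (br 6 11 (sym 9) (br 8 10 (sym 15) (br 8 11 (sym 15) (br 6 12 (br 8 12 (tri 6 8 12) (br 6 13 (br 6 14 (hi 6) (br 6 15 (hi 6) (br 8 13 (tri 6 8 13) (br 8 14 (br 8 15 (br 12 13 (tri 6 12 13) (br 7 9 t6 (br 7 10 (br 7 11 (cost [p 1 [2,10,11], p 3 [5,7], n 4 [5], p 5 [0,3,7], p 7 [3,5], n 8 [3], n 9 [1], p 10 [1,11], p 11 [1,10], n 12 [5]]) (br 7 12 (br 9 10 (cost [p 1 [2,10,12], p 2 [1,10], p 3 [5,7], n 4 [5], p 5 [0,3,7,9], p 7 [3,5,6], n 8 [3], n 9 [1], p 10 [1,2,11,12], p 12 [1,10]]) (br 9 11 (cost [p 1 [2,10,12], p 2 [1,11], p 3 [5,7], n 4 [5], p 5 [0,3,7,9], p 7 [3,5,6], n 8 [3], n 9 [1], p 10 [1,11,12], p 11 [2,10], p 12 [1,10]]) (br 9 12 (br 12 14 (hi 12) (br 12 15 (hi 12) (cost [p 1 [2,10,12], n 2 [7], p 3 [5,7], n 4 [5,12], p 5 [0,3,7], p 7 [3,5,6],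 n 8 [3], n 9 [1], p 10 [1,11,12], n 12 [4,5]]))) (cost [p 1 [2,10], n 2 [7,12], n 3 [8,9], n 4 [5], p 5 [0,3,7], p 7 [3,5,6], n 8 [3], n 9 [3], p 10 [1,11,12], n 12 [2,5]])))) (br 7 13 (br 10 13 (tri 7 10 13) (br 7 14 (cost [p 1 [2,10,13], n 2 [7], n 3 [8], p 4 [7,8], p 5 [0,3,7], n 6 [10], p 7 [4,5,6], n 8 [3], n 9 [1], p 10 [1,11], n 12 [5], p 13 [1,14], p 14 [13,15]]) (br 7 15 (cost [p 1 [2,10,13], n 2 [7], n 3 [8], p 4 [7,8], p 5 [0,3,7], p 7 [4,5,6], n 8 [3], n 9 [1], p 10 [1,11], n 12 [5], p 13 [1,15], n 14 [1], p 15 [13,14]]) (lo 7)))) (br 7 14 (br 7 15 (br 10 14 (tri 7 10 14) (br 10 15 (tri 7 10 15) (br 9 10 (cost [p 1 [2,10], p 2 [1,10], n 3 [8], p 4 [7,8], p 5 [0,3,7,9], p 7 [4,5,8], n 8 [3], n 9 [1], p 10 [1,2,11], n 12 [5], p 14 [15], p 15 [14]]) (br 10 13 (br 9 11 (cost [p 1 [2,10], p 2 [1,11],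 n 3 [8], p 4 [7,8], p 5 [0,3,7,9], p 7 [4,5,8], n 8 [3], n 9 [1], p 10 [1,11], p 11 [2,10], n 12 [5], p 14 [15], p 15 [14]]) (br 9 13 (br 11 13 (hi 13) (cost [p 1 [2,10], n 2 [7], p 4 [7,8], p 5 [0,3,7], n 6 [11], p 7 [4,5,8], n 8 [3], n 9 [1], n 11 [6,13], n 12 [5], n 13 [11], p 14 [15], p 15 [14]])) (cost [p 1 [2,10], n 2 [13], n 3 [8], p 5 [0,3,7], n 8 [3,10], n 9 [10,13], n 10 [8,9], n 12 [5], n 13 [2,9], p 14 [15], p 15 [14]]))) (lo 10))))) (lo 7)) (lo 7))))) (br 7 11 (sym 9) (br 7 12 (br 7 13 (br 7 14 (cost [p 1 [2,12,13], n 2 [7], n 3 [8], p 4 [7,8], n 5 [4,12], p 6 [7], p 7 [4,6], n 8 [3], n 9 [1], p 12 [1,13], p 13 [1,12,14], p 14 [13,15]]) (br 7 15 (cost [p 1 [2,12,13], n 2 [7], n 3 [8], p 4 [7,8], n 5 [4,12], p 6 [7], p 7 [4,6], n 8 [3], n 9 [1], p 12 [1,13], p 13 [1,12,15], p 15 [13,14]]) (lo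 7))) (br 7 14 (br 7 15 (br 12 14 (tri 7 12 14) (br 12 15 (tri 7 12 15) (cost [p 1 [2,12], n 2 [7], n 3 [8], n 4 [5,12], n 5 [4,12], p 7 [4,6,8], p 8 [4,7], n 9 [1], n 12 [4,5], n 13 [7], p 14 [15], p 15 [14]]))) (lo 7)) (lo 7))) (br 7 13 (br 7 14 (br 7 15 (cost [p 1 [2,13], n 2 [7], n 3 [8], p 4 [7,8], n 5 [4,12], p 7 [4,6,8], p 8 [4,7], n 9 [1], n 12 [5], p 13 [1,14], p 15 [13,14]]) (lo 7)) (lo 7)) (lo 7))))))) (lo 8)) (lo 8))))) (br 6 14 (sym 12) (br 6 15 (sym 13) (lo 6))))) (br 8 12 (sym 15) (br 6 13 (br 8 13 (tri 6 8 13) (br 8 14 (br 8 15 (br 6 14 (tri 6 8 14) (br 6 15 (tri 6 8 15) (lo 6))) (lo 8)) (lo 8))) (br 6 14 (sym 12) (lo 6)))))))))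

def t8 : T :=
  (br 6 9 (br 6 10 (br 6 11 (hi 6) (br 6 12 (hi 6) (br 6 13 (hi 6) (br 6 14 (hi 6) (br 6 15 (hi 6) (br 8 10 (tri 6 8 10) (br 9 10 (tri 6 9 10) (br 7 8 (br 7 10 (cost [p 1 [2,8,10], p 2 [1,6], n 4 [5], p 5 [0,3,6,7], p 6 [2,5], p 7 [5,6], p 8 [1,9,10], p 10 [1,8,11], n 12 [5]]) (br 7 11 (cost [p 1 [2,8,10,11], p 2 [1,6], n 4 [5,6], p 5 [0,3,6,7], p 6 [2,5,7], p 7 [5,6], p 8 [1,9], p 10 [1,11], p 11 [1,10], n 12 [5]]) (br 8 11 (cost [p 1 [2,8,10], p 2 [1,6,11], n 4 [5,6], p 5 [0,3,6,8], p 6 [2,5,7], p 8 [1,5,9], p 10 [1,11], p 11 [2,10], n 12 [5]]) (br 9 11 (cost [p 1 [2,8,10], p 2 [1,6,11], n 4 [5,6], p 5 [0,3,6,9], p 6 [2,5,7], p 8 [1,9], p 9 [5,8], p 10 [1,11], p 11 [2,10], n 12 [5]]) (br 7 12 (br 8 12 (tri 7 8 12) (br 11 13 (br 10 13 (cost [p 1 [2,8,10], p 2 [1,6], n 4 [5,6], p 5 [0,3,6,13],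 p 6 [2,5,7], p 8 [1,9], p 10 [1,11], p 11 [10], n 12 [5], p 13 [3,5]]) (br 7 13 (br 7 14 (hi 7) (cost [p 1 [2,8,10], p 2 [1,6], n 3 [8], n 4 [5,6], p 5 [0,3,6], p 6 [2,5,7], p 8 [1,9], p 10 [1,11], n 11 [6], n 12 [5], n 13 [10], n 14 [1]])) (cost [p 1 [2,8,10], p 2 [1,6], n 3 [8], n 4 [5,6], p 5 [0,3,6], p 6 [2,5,7], p 8 [1,9], p 10 [1,11], n 11 [6], n 12 [5], n 13 [1,10]]))) (cost [p 1 [2,8,10], p 2 [1,6], n 3 [8], n 4 [5,6], p 5 [0,3,6], p 6 [2,5,7], p 8 [1,9], p 10 [1,11], n 11 [6,13], n 12 [5], n 13 [11]]))) (cost [p 1 [2,8,10], p 2 [1,6], n 3 [7], n 4 [5,6], p 5 [0,3,6], p 6 [2,5,7], n 7 [3], p 8 [1,9], p 10 [1,11], n 11 [6], n 12 [1,5]])))))) (br 7 9 (sym 7) (br 7 10 (br 10 13 (hi 10) (br 10 14 (hi 10) (br 10 15 (hi 10) (br 7 12 (cost [p 1 [2,10], p 2 [1,6], n 4 [5,6], p 5 [0,3,6,7], p 6 [2,5,7],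 p 7 [3,5,6], p 10 [1,11,12], n 12 [5]]) (cost [p 1 [2,10], p 2 [1,6], n 4 [5,6,10], p 5 [0,3,6,7], p 6 [2,5,7], p 7 [5,6], p 10 [1,11], n 12 [1,5]]))))) (br 7 11 (br 8 11 (cost [p 1 [2,10,11], p 2 [1,6], n 4 [5,6], p 5 [0,3,6,7,8], p 6 [2,5], n 7 [2], p 8 [5,9], p 10 [1,11], p 11 [1,2,10], n 12 [5]]) (br 9 11 (cost [p 1 [2,10,11], p 2 [1,6], n 4 [5,6], p 5 [0,3,6,7,9], p 6 [2,5], n 7 [2], p 9 [5,8], p 10 [1,11], p 11 [1,2,10], n 12 [5]]) (br 7 12 (cost [p 1 [2,10,11], p 2 [1,6], p 3 [5,7], n 4 [5,6], p 5 [0,3,6,7], n 6 [4,11], p 7 [3,5], p 10 [1,11], p 11 [1,10,12], n 12 [5]]) (br 7 13 (br 7 14 (br 7 15 (hi 7) (cost [p 1 [2,10,11], p 2 [1,6], n 4 [5,6], p 5 [0,3,6,7], n 6 [4,11], p 7 [4,5], p 10 [1,11], p 11 [1,10], n 12 [1,5], n 15 [1]])) (cost [p 1 [2,10,11], p 2 [1,6], n 4 [5,6], p 5 [0,3,6,7], n 6 [4,11],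 n 7 [2], p 10 [1,11], p 11 [1,10], n 12 [1,5], n 14 [1]])) (cost [p 1 [2,10,11], p 2 [1,6], n 4 [5,6], p 5 [0,3,6,7], n 6 [4,11], n 7 [2], p 10 [1,11], p 11 [1,10], n 12 [1,5], n 13 [1]]))))) (br 7 12 (br 7 13 (br 12 13 (tri 7 12 13) (br 7 14 (br 7 15 (hi 7) (br 12 14 (tri 7 12 14) (br 8 11 (br 8 12 (cost [p 1 [2,10], p 2 [1,6], p 3 [5,8], n 4 [5,6], p 5 [0,3,6,8], p 6 [2,5], n 7 [2], p 8 [3,5,9], p 10 [1,11], p 11 [2,10,12], n 12 [5]]) (br 9 12 (br 12 15 (br 9 15 (tri 9 12 15) (br 8 15 (br 8 13 (hi 8) (br 8 14 (hi 8) (cost [p 1 [2,10], p 2 [1,6,11], n 4 [5,6], p 5 [0,3,6,8], p 6 [2,5], n 7 [2,8], p 8 [5,9], p 10 [1,11], p 11 [2,10], n 12 [5], n 15 [1]]))) (cost [p 1 [2,10], p 2 [1,6,11], n 4 [5,6], p 5 [0,3,6,8], p 6 [2,5], n 7 [2], p 8 [5,9], p 10 [1,11], p 11 [2,10], n 12 [5], n 15 [1,2]]))) (lo 12))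 (lo 12))) (br 9 11 (sym 7) (br 12 15 (br 8 12 (br 9 12 (hi 12) (br 8 13 (cost [p 1 [2,10], p 2 [1,6], n 3 [9], n 4 [5,6], p 5 [0,3,6], n 6 [4,11], p 8 [7,9], n 9 [3], p 10 [1,11], n 11 [6], n 12 [5], p 13 [12,14], n 15 [1]]) (cost [p 1 [2,10], p 2 [1,6], n 3 [9], n 4 [5,6], p 5 [0,3,6], n 6 [4,11], n 7 [2], n 8 [13], n 9 [3], p 10 [1,11], n 11 [6], n 12 [5], n 13 [8]]))) (br 9 12 (sym 7) (lo 12))) (cost [p 1 [2,10], p 2 [1,6], n 4 [5,6,12], p 5 [0,3,6], n 6 [4,11], n 7 [2,15], p 10 [1,11], n 11 [6], n 12 [4,5], n 15 [7]])))))) (br 7 15 (sym 13) (lo 7)))) (br 7 14 (sym 12) (lo 7))) (br 7 13 (br 7 14 (br 7 15 (cost [p 1 [2,10], p 2 [1,6], n 3 [7], n 4 [5,6], p 5 [0,3,6], p 6 [2,5], n 7 [2,3], p 10 [1,11], n 12 [1,5], p 13 [14,15], p 14 [13,15], p 15 [13,14]]) (lo 7)) (lo 7)) (lo 7)))))))))))))) (br 6 11 (sym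 9) t1)) (br 7 8 (sym 15) t7))

def t9 : T :=
  (br 7 12 (br 7 13 (br 7 14 (hi 7) (br 7 15 (hi 7) (br 11 13 (tri 7 11 13) (br 12 13 (tri 7 12 13) (cost [p 1 [2,10,13], p 2 [1,6], n 3 [13], n 4 [6], p 5 [0,6,7], p 6 [2,5], n 7 [2,10], n 10 [7], n 11 [5], n 12 [5], n 13 [3], n 14 [1], n 15 [1]]))))) (br 7 14 (br 7 15 (hi 7) (br 11 14 (tri 7 11 14) (br 12 14 (tri 7 12 14) (br 8 11 (br 8 12 (br 8 13 (hi 8) (br 8 14 (hi 8) (br 8 15 (hi 8) (br 9 14 (br 10 14 (cost [p 1 [2,10], p 2 [1,6], p 3 [7,8], n 4 [6,8], p 5 [0,6], p 6 [2,5,14], p 7 [3,8], p 8 [3,7,9], p 9 [8,10], p 10 [1,9], p 11 [12], p 12 [11], n 14 [8]]) (lo 14)) (lo 14))))) (br 8 13 (br 8 14 (hi 8) (br 9 14 (br 10 14 (br 10 15 (hi 10) (cost [p 1 [2,10], p 2 [1,6,13], n 4 [6], p 5 [0,6,8], p 6 [2,5,14], n 7 [2], p 8 [5,9], p 9 [8,10], p 10 [1,9], n 14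 [8], n 15 [1,5,10]])) (lo 14)) (lo 14))) (br 8 14 (br 8 15 (hi 8) (br 9 11 (cost [p 1 [2,10], p 2 [1,6,11], n 4 [6], p 5 [0,6], p 6 [2,5,11], p 7 [3,8], p 8 [7,9], p 9 [8], p 11 [2,6,12,14], n 12 [8], n 15 [1]]) (br 9 12 (br 9 14 (cost [p 1 [2,10], p 2 [1,6,14], n 4 [6], p 5 [0,6], p 6 [2,5,14], p 7 [3,8,9], p 8 [7,9], p 9 [7,8], p 11 [12,14], p 14 [6,11,12]]) (br 10 14 (br 10 15 (hi 10) (cost [p 1 [2,10], p 2 [1,6], n 4 [6], p 5 [0,6], p 6 [2,5,14], p 7 [3,8], p 8 [7,9,10], n 9 [14], p 10 [1,8], p 11 [12,14], p 14 [6,11], n 15 [1,5,10]])) (lo 14))) (cost [p 1 [2,10], n 2 [7,12], n 3 [9], n 4 [6], p 5 [0,6], n 6 [4,12], p 7 [3,8], p 8 [7,9], n 9 [3], p 11 [12,14], n 12 [2,6,8], n 15 [1]])))) (br 8 15 (br 9 14 (br 10 14 (br 10 15 (hi 10) (br 11 15 (tri 8 11 15) (br 9 15 (cost [p 1 [2,10], p 2 [1,6,15], n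 4 [6], p 5 [0,6], p 6 [2,5,14,15], n 7 [2], p 8 [9], p 9 [4,8,10], p 10 [1,9], p 14 [6,15], n 15 [5]]) (lo 15)))) (lo 14)) (lo 14)) (lo 8))))) (br 8 12 (sym 10) (br 9 11 (sym 7) (br 11 13 (br 11 15 (br 8 14 (br 8 13 (cost [p 1 [2,10], p 2 [1,6,13], p 4 [8,11], p 5 [0,6,8], n 6 [4,11], n 7 [2], p 8 [4,5,9], n 11 [2,6], p 13 [2,14,15], n 15 [1]]) (br 9 12 (sym 10) (cost [p 1 [2,10], n 2 [7,11,12], n 3 [8,9], p 5 [0,6], n 6 [4,11], n 7 [2], n 8 [3], n 9 [3], n 11 [2,6], n 12 [2], n 13 [8]]))) (cost [p 1 [2,10], n 2 [7,11], n 3 [8], n 4 [6], p 5 [0,6], n 6 [4,11], n 7 [2,8], n 8 [3,7,14], n 11 [2,6], n 14 [8]])) (lo 11)) (lo 11)))))))) (br 7 15 (sym 13) (lo 7)))) (br 7 13 (br 11 13 (tri 7 11 13) (br 7 14 (br 7 15 (hi 7) (br 8 13 (cost [p 1 [2,10,13], p 2 [1,6,13], n 4 [6], p 5 [0,6,7,8], p 6 [2,5], p 7 [4,5],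 p 8 [5,9], n 11 [5], n 12 [1], p 13 [1,2,14], n 15 [1]]) (br 9 13 (cost [p 1 [2,10,13], p 2 [1,6,13], n 4 [6], p 5 [0,6,7,9], p 6 [2,5], p 7 [4,5], p 9 [5,8], n 11 [5], n 12 [1], p 13 [1,2,14], n 15 [1]]) (br 10 14 (br 10 15 (hi 10) (cost [p 1 [2,10,13], p 2 [1,6], n 4 [6], p 5 [0,6,7], n 6 [4,13], p 7 [4,5], n 10 [15], n 11 [5], n 12 [1], p 13 [1,14], n 15 [1,5,10]])) (cost [p 1 [2,10,13], p 2 [1,6], n 4 [6], p 5 [0,6,7], n 6 [4], n 7 [2,10], n 10 [7], n 11 [5], n 12 [1], p 13 [1,14], n 14 [5,10], n 15 [1]]))))) (br 7 15 (sym 13) (lo 7)))) (br 7 14 (br 7 15 (br 11 14 (tri 7 11 14) (br 11 15 (tri 7 11 15) (br 8 11 (br 8 12 (br 8 13 (hi 8) (br 8 14 (hi 8) (br 8 15 (hi 8) (br 9 11 (br 11 13 (hi 11) (cost [p 1 [2,10], p 2 [1,6,11], n 4 [6,11], p 5 [0,6], p 6 [2,5,11], n 7 [2], p 8 [3,9], p 9 [8], p 11 [2,6,12],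 n 12 [1], n 13 [7]])) (br 11 13 (br 9 12 (br 9 13 (cost [p 1 [2,10], p 2 [1,6,12], n 4 [6,8], p 5 [0,6,9], p 6 [2,5,12], n 7 [2], p 8 [3,9], p 9 [5,8], p 12 [2,6,11]]) (cost [p 1 [2,10], p 2 [1,6,12], n 4 [6,8], p 5 [0,6], p 6 [2,5,12], n 7 [2], p 8 [3,9], p 9 [8], n 11 [9], p 12 [2,6,11], n 13 [6]])) (br 9 13 (br 12 13 (hi 13) (cost [p 1 [2,10], p 2 [1,6,13], n 3 [9], n 4 [6,8], p 5 [0,6,9], p 6 [2,5], n 7 [2], p 8 [3,9], p 9 [5,8], n 12 [1,5,13], n 13 [12]])) (cost [p 1 [2,10], p 2 [1,6], n 3 [9], n 4 [6,8], p 5 [0,6], n 6 [4,13], n 7 [2], n 9 [3,11,13], n 11 [9], n 12 [1], n 13 [6,9]]))) (lo 11)))))) (br 8 13 (br 8 14 (hi 8) (br 8 15 (hi 8) (br 11 13 (tri 8 11 13) (cost [p 1 [2,10], p 2 [1,6,13], n 4 [6], p 5 [0,6,8], p 6 [2,5], n 7 [2,13], n 8 [14,15], n 11 [5], n 12 [1], n 13 [7], n 14 [8], n 15 [8]]))))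 (br 8 14 (br 8 15 (hi 8) (br 9 11 (cost [p 1 [2,10], p 2 [1,6,11], n 4 [6], p 5 [0,6], p 6 [2,5,11], p 7 [4,8], p 8 [7,9], p 9 [8], p 11 [2,6,14], n 12 [1], p 14 [11,15], n 15 [8]]) (br 11 13 (br 9 12 (br 9 14 (cost [p 1 [2,10], p 2 [1,6,14], n 4 [6], p 5 [0,6], p 6 [2,5,14], p 7 [4,8], p 8 [7,9], p 9 [8], n 12 [1], p 14 [2,6,11,15], n 15 [8]]) (br 9 13 (br 9 15 (hi 9) (br 12 13 (tri 9 12 13) (cost [p 1 [2,10], p 2 [1,6,13], n 4 [6], p 5 [0,6,9], p 6 [2,5], n 7 [2,9], p 8 [7,9], p 9 [5,8], n 12 [1,5], p 14 [11,15], n 15 [2,8]]))) (br 9 15 (br 12 13 (br 12 15 (tri 9 12 15) (br 12 14 (br 10 14 (hi 14) (cost [p 1 [2,10], p 2 [1,6], p 4 [7,12], p 5 [0,6], n 6 [4,13], p 7 [4,8], p 8 [7,9], n 9 [11], n 10 [14], p 11 [12,14], p 12 [4,11], p 13 [3,14], p 14 [11,13,15], n 15 [8]])) (lo 12))) (lo 13)) (lo 9)))) (cost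 [p 1 [2,10], n 2 [7,12], n 3 [9], n 4 [6], p 5 [0,6], n 6 [4,12], p 7 [4,8], p 8 [7,9], n 9 [3], n 12 [1,2,6], p 14 [11,15], n 15 [8]])) (lo 11)))) (br 8 15 (sym 13) (lo 8))))) (br 9 11 (sym 7) (lo 11))))) (lo 7)) (lo 7))))

def t10 : T :=
  (br 6 14 (hi 6) (br 6 15 (hi 6) (br 8 10 (tri 6 8 10) (br 9 10 (tri 6 9 10) (br 7 8 (br 7 9 (cost [p 1 [2,8,9,10], p 2 [1,6,7], n 4 [6], p 5 [0,6], p 6 [2,5,7], p 7 [2,6], p 8 [1,9], p 9 [1,8]]) (br 7 10 (cost [p 1 [2,8,10], p 2 [1,6], n 4 [6], p 5 [0,6,7], p 6 [2,5,7], p 7 [5,6], p 8 [1,9,10], p 10 [1,8]]) (br 7 11 (br 8 11 (tri 7 8 11) (br 7 12 (br 7 13 (hi 7) (br 7 14 (hi 7) (br 7 15 (hi 7) (br 8 12 (tri 7 8 12) (br 8 13 (cost [p 1 [2,8,10], p 2 [1,6,13], n 4 [6,7], p 5 [0,6,8], p 6 [2,5,7], n 7 [4,10], p 8 [1,5,9], n 10 [7], n 14 [1]]) (cost [p 1 [2,8,10], p 2 [1,6],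 n 3 [8], n 4 [6,7], p 5 [0,6], p 6 [2,5,7], n 7 [4,10], n 8 [3,13], n 10 [7], n 13 [8], n 15 [1]])))))) (br 7 13 (br 7 14 (hi 7) (br 7 15 (hi 7) (br 11 13 (tri 7 11 13) (cost [p 1 [2,8,10,13], p 2 [1,6], n 4 [6], p 5 [0,6,7], p 6 [2,5,7], p 7 [5,6], p 8 [1,9], n 10 [7], n 11 [5], n 12 [1], n 14 [1], n 15 [1]])))) (br 7 14 (br 7 15 (hi 7) (br 8 14 (tri 7 8 14) (br 8 12 (br 8 13 (hi 8) (br 8 15 (hi 8) (br 10 14 (br 10 15 (hi 10) (br 9 15 (br 11 15 (br 9 11 (tri 9 11 15) (cost [p 1 [2,8,10], p 2 [1,6], n 4 [6,8], p 5 [0,6], p 6 [2,5,7], p 8 [1,9], n 10 [15], n 11 [2,6], n 12 [1], n 15 [1,5,10]])) (lo 15)) (lo 15))) (cost [p 1 [2,8,10], p 2 [1,6], n 4 [6,8], p 5 [0,6], p 6 [2,5,7], n 7 [10], p 8 [1,9], n 10 [7,14], n 12 [1], n 14 [5,10], n 15 [1]])))) (br 10 14 (br 10 15 (hi 10) (br 8 13 (cost [p 1 [2,8,10],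 p 2 [1,6,13], n 3 [8], n 4 [6], p 5 [0,6,8], p 6 [2,5,7], p 8 [1,5,9], n 10 [15], n 12 [1], n 15 [1,10]]) (cost [p 1 [2,8,10], p 2 [1,6], n 3 [8], n 4 [6], p 5 [0,6], p 6 [2,5,7], n 8 [3,13], n 10 [15], n 12 [1], n 13 [8], n 15 [1,5,10]]))) (cost [p 1 [2,8,10], p 2 [1,6], n 3 [8], n 4 [6], p 5 [0,6], p 6 [2,5,7], n 7 [10], p 8 [1,9], n 10 [7,14], n 12 [1], n 14 [5,10], n 15 [1]]))))) (br 7 15 (sym 13) (lo 7)))))) (br 7 12 (sym 10) (br 7 13 (br 7 14 (cost [p 1 [2,8,10,13], p 2 [1,6], n 3 [7], n 4 [6], p 5 [0,6,7], p 6 [2,5,7], p 7 [4,5,6], p 8 [1,9], n 11 [1], n 12 [1], p 13 [1,14]]) (br 7 15 (cost [p 1 [2,8,10,13], p 2 [1,6], n 3 [7], p 5 [0,6,7], p 6 [2,5,7], p 7 [4,5,6], p 8 [1,9], n 11 [1], n 12 [1], p 13 [1,15], n 14 [1]]) (lo 7))) (br 7 14 (br 7 15 (br 8 14 (tri 7 8 14) (br 8 15 (tri 7 8 15) (br 8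 11 (br 8 12 (hi 8) (br 8 13 (hi 8) (cost [p 1 [2,8,10], p 2 [1,6], n 3 [7], n 4 [6,8], p 5 [0,6], p 6 [2,5,7], n 7 [3,13], n 8 [4,12], n 11 [1], n 12 [8], n 13 [7]]))) (br 8 12 (sym 10) (br 8 13 (cost [p 1 [2,8,10], p 2 [1,6,13], n 3 [7,8], n 4 [6], p 5 [0,6,8], p 6 [2,5,7], p 7 [4,6], p 8 [1,5,9], n 11 [1], n 12 [1]]) (lo 8)))))) (lo 7)) (lo 7))))))) (br 7 9 (sym 7) (br 7 10 (br 10 14 (hi 10) (br 10 15 (hi 10) (br 7 14 (br 7 15 (br 7 11 (hi 7) (br 7 12 (hi 7) (cost [p 1 [2,10], p 2 [1,6], n 4 [6,10], p 5 [0,6,7], p 6 [2,5,7], p 7 [4,5,6], p 10 [1], n 11 [1], n 12 [1], n 14 [5], n 15 [5]]))) (cost [p 1 [2,10], p 2 [1,6], n 4 [6,10], p 5 [0,6,7], p 6 [2,5,7], p 7 [5,6], n 10 [4,15], n 14 [5], n 15 [1,5,10]])) (cost [p 1 [2,10], p 2 [1,6], n 4 [6,10], p 5 [0,6,7], p 6 [2,5,7], p 7 [5,6], n 10 [4,14], n 14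 [1,5,10], n 15 [5]])))) (br 7 11 t9 (br 7 12 (sym 10) (br 7 13 (br 7 14 (br 7 15 (cost [p 1 [2,10,13], p 2 [1,6], n 3 [7], p 4 [7], p 5 [0,6,7], p 6 [2,5], p 7 [4,5], n 11 [1], n 12 [1], p 13 [1,14,15], p 14 [13,15], p 15 [13,14]]) (lo 7)) (lo 7)) (lo 7)))))))))))

def t11 : T :=
  (br 7 11 (br 7 12 (br 7 13 (hi 7) (br 7 14 (hi 7) (br 7 15 (hi 7) (cost [p 1 [2,8,11], p 2 [1,6], n 4 [6,7], p 6 [2,7], p 7 [3,6], p 8 [1,9,11], n 10 [7], p 11 [1,8,12], n 14 [1], n 15 [1]])))) (br 7 13 (br 7 14 (hi 7) (br 7 15 (hi 7) (cost [p 1 [2,8,11,13], p 2 [1,6], n 4 [6], p 5 [0,7], p 6 [2,7], p 7 [5,6], p 8 [1,9,11], p 11 [1,8], n 12 [1], n 14 [1], n 15 [1]]))) (br 7 14 (br 7 15 (hi 7) (br 8 14 (tri 7 8 14) (br 11 14 (tri 7 11 14) (br 9 14 (br 9 13 (cost [p 1 [2,8,11], p 2 [1,6], n 4 [6], p 5 [0,9], p 6 [2,7], p 7 [6],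 p 8 [1,9,11], p 9 [4,5,8], p 11 [1,8], n 12 [1], p 13 [2,14], n 15 [1]]) (br 11 13 (br 11 15 (hi 11) (br 8 13 (cost [p 1 [2,8,11], p 2 [1,6,13], n 4 [6], p 6 [2,7,13], p 7 [6], p 8 [1,5,9,11], p 11 [1,8], p 13 [2,6]]) (br 12 13 (br 8 12 (br 8 15 (hi 8) (cost [p 1 [2,8,11], p 2 [1,6], n 4 [6,8], p 6 [2,7], p 7 [6], p 8 [1,9,11], n 10 [8], p 11 [1,8], n 12 [1], n 15 [1,7,11]])) (cost [p 1 [2,8,11], p 2 [1,6], n 3 [8], n 4 [6], p 6 [2,7], p 7 [6], p 8 [1,9,11], p 11 [1,8,12], n 12 [1], n 13 [8], n 15 [1,11]])) (lo 13)))) (cost [p 1 [2,8,11], p 2 [1,6], n 4 [6], n 5 [11], p 6 [2,7], p 7 [6], p 8 [1,9,11], n 11 [2,5,13], n 12 [1], n 13 [11], n 15 [1]]))) (cost [p 1 [2,8,11], n 2 [11,14], n 4 [6], p 6 [2,7], p 7 [6], p 8 [1,9,11], n 9 [7], p 11 [1,8], n 12 [1], n 14 [2,6], n 15 [1]]))))) (br 7 15 (sym 13) (lo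 7))))) (br 7 12 (br 8 12 (tri 7 8 12) (br 7 13 (br 7 14 (hi 7) (br 7 15 (hi 7) (br 12 13 (tri 7 12 13) (br 8 14 (br 8 15 (hi 8) (cost [p 1 [2,8,13], p 2 [1,6], n 3 [8], n 4 [6], p 5 [0,7], p 6 [2,7], p 7 [5,6], n 8 [3,15], n 10 [7], n 11 [2], n 12 [5], n 14 [1], n 15 [1,8]])) (cost [p 1 [2,8,13], p 2 [1,6], n 3 [8], n 4 [6], p 5 [0,7], p 6 [2,7], p 7 [5,6], n 8 [3,14], n 10 [7], n 11 [2], n 12 [5], n 14 [1,8], n 15 [1]]))))) (br 7 14 (br 7 15 (hi 7) (br 8 14 (tri 7 8 14) (br 12 14 (tri 7 12 14) (br 8 13 (br 8 15 (hi 8) (br 9 10 (cost [p 1 [2,8], p 2 [1,6,13], n 3 [8], n 4 [6], p 5 [0,8,9], p 6 [2,7], n 8 [3,10,15], p 9 [5,8], n 10 [8], n 11 [2], n 15 [1,8]]) (cost [p 1 [2,8], p 2 [1,6,13], n 3 [8], n 4 [6], p 5 [0,8], n 6 [4,10], n 8 [3,10,15], n 10 [6,8], n 11 [2], n 15 [1,8]]))) (br 9 10 (br 9 12 (br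 9 14 (hi 9) (cost [p 1 [2,8], p 2 [1,6,10], n 3 [8], n 4 [6], p 5 [0,9], p 6 [2,7], n 8 [3,13], p 9 [3,5,8], p 10 [2,12], n 11 [2], n 13 [8], n 14 [2], n 15 [1]])) (cost [p 1 [2,8], p 2 [1,6,10], n 3 [8], n 4 [6], p 5 [0,9], n 6 [4,12], n 8 [3,13], p 9 [5,8], n 11 [2], n 12 [2,6], n 13 [8], n 15 [1]])) (br 10 14 (br 10 15 (br 9 12 (br 9 14 (br 9 13 (hi 9) (br 11 13 (br 12 13 (cost [p 1 [2,8], p 2 [1,6], n 3 [8], n 4 [6], n 6 [4,10], p 7 [6,9], n 8 [3,13], p 9 [7,8], n 10 [6], n 11 [2], p 12 [11,14], n 13 [8], p 14 [12,15], n 15 [1]]) (lo 13)) (lo 13))) (cost [p 1 [2,8], n 2 [11,14], n 3 [8], n 4 [6], n 6 [4,10], n 8 [3,13], n 9 [14], n 10 [6], n 11 [2], n 13 [8], n 14 [2,9], n 15 [1]])) (cost [p 1 [2,8], n 2 [11,12], n 3 [8,9], n 4 [6], n 6 [4,10,12], n 8 [3,13], n 9 [3], n 10 [6], n 11 [2], n 12 [6], n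 13 [8]])) (lo 10)) (lo 10))))))) (br 7 15 (sym 13) (lo 7))))) (br 7 13 (br 8 13 (tri 7 8 13) (br 7 14 (br 7 15 (hi 7) (br 8 14 (tri 7 8 14) (br 8 15 (br 8 12 (hi 8) (br 9 10 (cost [p 1 [2,8,13], p 2 [1,6,10], n 3 [7,8], n 4 [6], p 5 [0,9], p 6 [2,7], p 7 [4,5,6], p 8 [1,9], p 9 [5,8], n 12 [1], p 13 [1,14], n 15 [1]]) (cost [p 1 [2,8,13], p 2 [1,6], n 3 [7,8], n 4 [6], p 5 [0,7], n 6 [4,10], p 7 [4,5,6], p 8 [1,9], n 10 [6], n 11 [2], n 12 [1], p 13 [1,14]]))) (cost [p 1 [2,8,13], p 2 [1,6], n 4 [6,8], p 5 [0,7], p 6 [2,7], p 7 [4,5,6], n 8 [4,10], n 10 [8], n 11 [2], n 12 [1], p 13 [1,14], n 15 [1]])))) (br 7 15 (sym 13) (lo 7)))) (br 7 14 (br 7 15 (br 8 14 (tri 7 8 14) (br 8 15 (tri 7 8 15) (br 8 12 (br 8 13 (hi 8) (br 9 10 (cost [p 1 [2,8], p 2 [1,6,10], n 3 [7], n 4 [6,8], p 5 [0,9], p 6 [2,7], n 7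 [3], n 8 [4,10], p 9 [5,8], n 10 [8], n 11 [2], n 12 [1], n 13 [7]]) (cost [p 1 [2,8], p 2 [1,6], n 3 [7], n 4 [6,8], n 6 [4,10], n 7 [3,13], n 8 [4,10], n 10 [6,8], n 11 [2], n 12 [1], n 13 [7]]))) (br 8 13 (br 9 10 (cost [p 1 [2,8], p 2 [1,6,10,13], n 3 [7,8], n 4 [6], p 5 [0,8,9], p 6 [2,7], p 7 [4,6], p 8 [1,5,9], p 9 [5,8], n 11 [2], n 12 [1]]) (cost [p 1 [2,8], p 2 [1,6,13], n 3 [7,8], n 4 [6], p 5 [0,8], n 6 [4,10], p 7 [4,6], p 8 [1,5,9], n 10 [6,8], n 11 [2], n 12 [1]])) (lo 8))))) (lo 7)) (lo 7)))))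

def t12 : T :=
  (br 7 12 (br 7 13 (br 7 14 (hi 7) (br 7 15 (hi 7) (br 11 13 (tri 7 11 13) (br 12 13 (tri 7 12 13) (cost [p 1 [2,11,13], n 2 [7,11], n 3 [13], n 4 [6], n 5 [11], p 6 [2,7], p 7 [3,5,6], n 11 [2,5], n 12 [5], n 13 [3], n 14 [1], n 15 [1]]))))) (br 7 14 (br 7 15 (hi 7) (br 11 14 (tri 7 11 14) (br 12 14 (tri 7 12 14) (br 8 10 (br 9 10 (cost [p 1 [2,11], p 2 [1,6,10], n 4 [6], p 5 [0,8,9], p 6 [2,7,10], p 7 [3,6], p 8 [5,9], p 9 [5,8], p 10 [2], p 11 [1,12]]) (br 8 12 (br 8 14 (hi 8) (br 8 15 (hi 8) (br 10 14 (br 10 15 (hi 10) (cost [p 1 [2,11], p 2 [1,6,10], p 3 [7,8], n 4 [6], p 5 [0,8], p 6 [2,7], p 7 [3,6], p 8 [3,5,9], p 10 [2,12], p 11 [1,12], p 12 [10,11], n 15 [1,5,10]])) (lo 14)))) (br 9 12 (br 8 13 (br 8 14 (hi 8) (cost [p 1 [2,11], p 2 [1,6,10,13], n 4 [6], p 5 [0,8], p 6 [2,7],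 n 7 [2,8], p 8 [5,9], p 10 [2,13], p 11 [1,12], p 13 [2,10], n 15 [1]])) (br 10 14 (br 10 15 (hi 10) (br 8 14 (tri 8 10 14) (br 9 14 (cost [p 1 [2,11], p 2 [1,6,10], n 4 [6], p 5 [0,8], p 6 [2,7], p 7 [3,6,9], n 8 [7,13], p 9 [7,8], p 11 [1,12], p 12 [11,14], n 13 [8], n 15 [1,5]]) (lo 14)))) (cost [p 1 [2,11], p 2 [1,6,10], n 3 [14], n 4 [6], p 5 [0,8], p 6 [2,7], n 7 [2,10], p 8 [5,9], n 10 [7], p 11 [1,12], n 13 [8], n 14 [3,5], n 15 [1]]))) (cost [p 1 [2,11], n 2 [7,11,12], n 3 [9], n 4 [6], p 5 [0,8], n 6 [4,12], p 7 [3,6], p 8 [5,9], n 9 [3], p 11 [1,12], n 12 [2,6], n 15 [1]])))) (br 9 10 (sym 7) (br 10 14 (br 10 15 (br 8 12 (br 8 13 (br 8 14 (hi 8) (br 8 15 (hi 8) (br 12 13 (tri 8 12 13) (cost [p 1 [2,11], p 2 [1,6,13], n 4 [6], p 5 [0,8], n 6 [4,10], p 7 [3,6], n 8 [10,14], n 10 [6,8], p 11 [1,12],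 n 12 [5], n 14 [8], n 15 [1]])))) (br 8 14 (br 9 14 (hi 14) (br 9 12 (cost [p 1 [2,11], p 2 [1,6,12], n 4 [6], p 6 [2,7,12], p 7 [3,6,8], p 8 [7,9], p 9 [8], n 10 [6], p 11 [1,12], p 12 [2,6,11,14], p 14 [12,15]]) (cost [p 1 [2,11], n 2 [7,11], n 3 [9], n 4 [6], n 6 [4,10], p 7 [3,6,8], n 9 [3,7,14], n 10 [6], p 11 [1,12], p 12 [11,14], n 15 [1]]))) (br 8 15 (br 9 14 (br 12 15 (tri 8 12 15) (br 9 12 (cost [p 1 [2,11], p 2 [1,6,12], n 4 [6], p 6 [2,7,12], p 7 [3,6,9], p 8 [9], p 9 [7,8], n 10 [6], p 11 [1,12], p 12 [6,11,14], p 14 [12,15]]) (br 9 13 (cost [p 1 [2,11], p 2 [1,6,13], p 4 [9,10], p 5 [0,9], n 6 [4,10], p 7 [3,6], n 8 [14], p 9 [4,5,8], n 10 [6], p 11 [1,12], p 13 [2,14], p 14 [13,15], n 15 [1]]) (cost [p 1 [2,11], n 2 [7,11], n 4 [6], n 6 [4,10], p 7 [3,6], n 8 [14], n 9 [3,12,13], n 10 [6],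 p 11 [1,12], n 12 [9], n 13 [9], n 14 [8]])))) (lo 14)) (lo 8)))) (br 8 14 (br 9 14 (hi 14) (br 8 13 (cost [p 1 [2,11], p 2 [1,6,13], n 3 [8], p 4 [8,10], p 5 [0,8], n 6 [4,10], p 7 [3,6], p 8 [4,5,9], n 10 [6], p 11 [1,12], p 13 [2,14], p 14 [13,15], n 15 [1]]) (cost [p 1 [2,11], n 2 [7,11], n 3 [8], n 4 [6], n 6 [4,10], p 7 [3,6], n 8 [3,13], n 9 [14], n 10 [6], p 11 [1,12], n 13 [8], n 14 [9], n 15 [1]]))) (cost [p 1 [2,11], n 2 [7,11], n 3 [8], n 4 [6], n 6 [4,10], n 7 [2,8], n 8 [3,7,14], n 10 [6], p 11 [1,12], n 14 [8], n 15 [1]]))) (lo 10)) (lo 10))))))) (br 7 15 (sym 13) (lo 7)))) (br 7 13 (br 11 13 (tri 7 11 13) (br 7 14 (br 7 15 (hi 7) (br 8 10 (cost [p 1 [2,11,13], p 2 [1,6,10], n 4 [6], p 5 [0,7,8], p 6 [2,7], p 7 [4,5,6], p 8 [5,9], n 11 [2,5], n 12 [1], p 13 [1,14], n 15 [1]]) (br 9 10 (cost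 [p 1 [2,11,13], p 2 [1,6,10], n 4 [6], p 5 [0,7,9], p 6 [2,7], p 7 [4,5,6], p 9 [5,8], n 11 [2,5], n 12 [1], p 13 [1,14], n 15 [1]]) (cost [p 1 [2,11,13], n 2 [7,11], n 4 [6], p 5 [0,7], n 6 [4,10], p 7 [4,5,6], n 10 [6], n 11 [2,5], n 12 [1], p 13 [1,14], n 15 [1]])))) (br 7 15 (sym 13) (lo 7)))) (br 7 14 (br 7 15 (br 11 14 (tri 7 11 14) (br 11 15 (tri 7 11 15) (br 11 13 (br 8 10 (br 8 13 (cost [p 1 [2,11], p 2 [1,6,10,13], n 4 [6], p 5 [0,8], p 6 [2,7,13], p 7 [4,6], p 8 [5,9,11], p 10 [2,13], p 11 [1,8], p 13 [2,10]]) (br 9 10 (cost [p 1 [2,11], p 2 [1,6,10], n 4 [6], p 5 [0,8], p 6 [2,7,10], p 8 [5,9], p 9 [5,8], p 10 [2,6], n 11 [2], n 12 [1]]) (br 9 13 (cost [p 1 [2,11], p 2 [1,6,10,13], n 4 [6], p 5 [0,8,9], p 6 [2,7,13], p 7 [4,6], p 8 [5,9], p 9 [5,8,11], p 11 [1,9], n 12 [1], p 13 [2,6]]) (br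 12 13 (br 8 12 (br 8 14 (hi 8) (br 8 15 (hi 8) (br 9 12 (cost [p 1 [2,11], p 2 [1,6,10,12], p 3 [8,13], n 4 [6,8], p 5 [0,8], p 6 [2,7,12], n 7 [2], p 8 [5,9], p 10 [2,12], p 11 [1,12], p 12 [2,6,11]]) (cost [p 1 [2,11], p 2 [1,6,10], p 3 [8,13], n 4 [6], p 5 [0,8], p 6 [2,7], n 7 [2], p 8 [3,5,9], n 9 [3,13], p 10 [2,12], p 11 [1,12], p 12 [10,11], n 13 [9]])))) (br 9 12 (br 8 14 (br 8 15 (hi 8) (br 10 14 (tri 8 10 14) (br 10 15 (br 9 14 (cost [p 1 [2,11], p 2 [1,6,10,14], n 4 [6], p 5 [0,8], p 6 [2,7,14], p 7 [4,6], p 8 [5,9], p 9 [8], p 11 [1,12], n 12 [1], p 14 [2,6,15]]) (br 9 15 (br 12 14 (br 12 15 (tri 9 12 15) fin) (lo 14)) (lo 9))) (lo 10)))) (br 8 15 (sym 13) (lo 8))) (cost [p 1 [2,11], n 2 [7,11], n 3 [9], n 4 [6], p 5 [0,8], n 6 [4,12], p 8 [5,9], n 9 [3,13], n 12 [1,2,6], n 13 [8,9]]))) (lo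 13))))) (br 9 10 (sym 7) (br 10 14 (br 10 15 (br 8 13 (cost [p 1 [2,11], p 2 [1,6,13], p 4 [7,10], p 5 [0,8], p 6 [2,7,13], p 7 [4,6,10], p 8 [5,9,11], p 10 [4,7], p 11 [1,8], p 13 [2,6], p 14 [15], p 15 [14]]) (br 8 12 (br 9 13 (cost [p 1 [2,11], p 2 [1,6], p 4 [7,10], p 5 [0,9], p 6 [2,7,13], p 7 [4,6,10], p 9 [5,8,11], p 10 [4,7], p 11 [1,9], n 12 [1], p 13 [2,6], p 14 [15], p 15 [14]]) (br 12 13 (br 9 12 (cost [p 1 [2,11], p 2 [1,6,12], p 4 [7,10], p 6 [2,7,12], p 7 [4,6,10], p 8 [9], p 9 [8], p 10 [4,7], p 11 [1,12], p 12 [2,6,11], p 14 [15], p 15 [14]]) (cost [p 1 [2,11], n 2 [7,11], n 3 [9], p 4 [7,10], n 6 [4,10], p 7 [4,6,10], n 9 [3,13], p 10 [4,7], n 12 [1], n 13 [9], p 14 [15], p 15 [14]])) (lo 13))) (cost [p 1 [2,11], n 2 [7,11], n 3 [8], p 4 [7,10], n 6 [4,10], p 7 [4,6,10], n 8 [3,13], p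 10 [4,7], n 11 [2], n 13 [8], p 14 [15], p 15 [14]]))) (lo 10)) (lo 10)))) (lo 11)))) (lo 7)) (lo 7))))

def t13 : T :=
  (br 7 10 (br 7 11 (br 7 12 (cost [p 1 [2,10,11], n 2 [7,11], p 3 [7], n 4 [6], p 5 [0,7], p 6 [2,7], p 7 [3,5,6], p 10 [1,11,12], p 11 [1,10,12], p 12 [10,11]]) (br 7 13 (cost [p 1 [2,10,11,13], n 2 [7,11], n 4 [6], p 5 [0,7], p 6 [2,7], p 7 [3,5,6], p 10 [1,11,13], p 11 [1,10], p 13 [1,10]]) (br 11 13 (br 11 14 (hi 11) (br 11 15 (hi 11) (br 8 13 (cost [p 1 [2,10,11], p 2 [1,6,13], n 4 [6], p 5 [0,7,8], p 6 [2,7], p 7 [3,5,6], p 8 [5,9,11], p 10 [1,11], p 11 [1,8,10], p 13 [2,6]]) (br 9 13 (cost [p 1 [2,10,11], p 2 [1,6], n 4 [6], p 5 [0,7], p 6 [2,7,13], p 7 [3,5,6], p 9 [5,8,11], p 10 [1,11], p 11 [1,9,10], n 12 [1], p 13 [2,6]]) (br 12 13 (br 7 14 (br 7 15 (hi 7) (cost [p 1 [2,10,11],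 n 2 [7,11], p 3 [7,13], n 4 [6], p 5 [0,7], p 6 [2,7], p 7 [3,5,6], p 10 [1,11], p 11 [1,10,12], n 12 [1], n 15 [1,11]])) (cost [p 1 [2,10,11], n 2 [7,11], p 3 [7,13], n 4 [6], p 5 [0,7], p 6 [2,7], p 7 [3,5,6], p 10 [1,11], p 11 [1,10,12], n 12 [1], n 14 [1,11]])) (lo 13)))))) (cost [p 1 [2,10,11], n 2 [7,11], n 4 [6], p 5 [0,7], p 6 [2,7], p 7 [3,5,6], p 10 [1,11], n 11 [2,5,13], n 12 [1], n 13 [7,11]])))) (br 7 12 (br 7 13 (br 7 14 (hi 7) (br 7 15 (hi 7) (cost [p 1 [2,10,13], n 2 [7,11], n 4 [6], p 5 [0,7], n 6 [4], p 7 [3,5], p 10 [1,12,13], n 11 [2], p 13 [1,10], n 14 [1], n 15 [1]]))) (br 7 14 (br 7 15 (hi 7) (br 10 14 (tri 7 10 14) (br 12 14 (tri 7 12 14) (br 11 14 (br 8 10 (br 9 10 (hi 10) (br 10 15 (hi 10) (cost [p 1 [2,10], p 2 [1,6,10], n 4 [6,10], p 5 [0,7,8], n 6 [4], p 7 [3,5], p 8 [5,9],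 n 9 [10], p 10 [1,2,12], n 11 [2], n 14 [5], n 15 [5]]))) (br 9 10 (sym 7) (br 11 13 (br 11 15 (hi 11) (br 8 12 (br 8 14 (cost [p 1 [2,10], n 2 [11], n 4 [6], n 6 [4,10], p 7 [3,5,8], p 8 [7,9,11], p 10 [1,12], n 11 [2,15], p 12 [10,14], p 14 [6,12], n 15 [1,11]]) (cost [p 1 [2,10], n 2 [7,11], n 4 [6], p 5 [0,7], n 6 [4,10], p 7 [3,5], n 8 [14], p 10 [1,12], n 11 [2,15], n 14 [5,8], n 15 [1,11]])) (cost [p 1 [2,10], n 2 [7,11], n 3 [8], n 4 [6], p 5 [0,7], n 6 [4,10], p 7 [3,5], n 8 [3], p 10 [1,12], n 11 [2,15], n 14 [5], n 15 [1,11]]))) (cost [p 1 [2,10], n 2 [7,11], n 4 [6], n 5 [11,14], n 6 [4,10], p 7 [3,5], p 10 [1,12], n 11 [2,5,13], n 13 [11], n 14 [5], n 15 [1]])))) (cost [p 1 [2,10], n 2 [7,11], n 3 [14], n 4 [6], p 5 [0,7], n 6 [4], n 7 [2,11], p 10 [1,12], n 11 [2,7,14], n 14 [3,5,11]])))))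 (br 7 15 (sym 13) (lo 7)))) (br 7 13 (br 8 10 (cost [p 1 [2,10,13], p 2 [1,6,10], n 4 [6], p 5 [0,7,8], n 6 [4], p 7 [5], p 8 [5,9], p 10 [1,2,13], n 11 [2], n 12 [1], p 13 [1,10]]) (br 9 10 (cost [p 1 [2,10,13], p 2 [1,6,10], n 4 [6], p 5 [0,7,9], n 6 [4], p 7 [5], p 9 [5,8], p 10 [1,2,13], n 11 [2], n 12 [1], p 13 [1,10]]) (br 7 14 (cost [p 1 [2,10,13], n 2 [7,11], n 4 [6], p 5 [0,7], n 6 [4,10], p 7 [4,5], p 10 [1,13], n 11 [2], n 12 [1], p 13 [1,10,14]]) (br 7 15 (cost [p 1 [2,10,13], n 2 [7,11], n 4 [6], p 5 [0,7], n 6 [4,10], p 7 [4,5], p 10 [1,13], n 11 [2], p 13 [1,10,15], n 14 [1]]) (lo 7))))) (br 7 14 (br 7 15 (br 10 14 (tri 7 10 14) (br 10 15 (tri 7 10 15) (cost [p 1 [2,10], n 2 [7,11], n 4 [6,10], n 5 [14,15], n 6 [4], n 7 [2,13], n 10 [4], n 11 [2], n 12 [1], n 13 [7], n 14 [5], n 15 [5]])))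 (lo 7)) (lo 7))))) (br 7 11 t12 (br 7 12 (br 7 13 (br 12 13 (tri 7 12 13) (br 7 14 (br 7 15 (hi 7) (br 11 13 (br 8 13 (hi 13) (br 9 13 (hi 13) (br 10 14 (br 10 15 (br 8 10 (hi 10) (br 9 10 (hi 10) (cost [p 1 [2,13], n 2 [7,11], p 4 [7,10], p 5 [0,7], n 6 [4,10], p 7 [4,5], n 8 [13], n 9 [13], n 10 [6], n 11 [2], n 12 [5], n 13 [8,9], p 14 [13,15]]))) (cost [p 1 [2,13], n 2 [7,11], n 4 [6], n 5 [12,15], n 6 [4], p 7 [4,5], n 8 [13], n 9 [13], n 11 [2], n 12 [5], n 13 [8,9], n 15 [1,5]])) (cost [n 2 [7,11], n 4 [6], n 5 [12], n 6 [4], n 7 [2,10], n 8 [13], n 9 [13], n 10 [7], n 11 [2], n 12 [5], n 13 [8,9], n 14 [5], n 15 [1]])))) (cost [p 1 [2,13], n 2 [7,11], n 3 [13], n 4 [6], n 5 [11,12], n 6 [4], p 7 [4,5], n 11 [2,5,13], n 12 [5], n 13 [3,11], n 15 [1]]))) (br 7 15 (sym 13) (lo 7)))) (br 7 14 (br 7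 15 (br 12 14 (tri 7 12 14) (br 12 15 (tri 7 12 15) (br 8 10 (br 8 12 (br 8 13 (hi 8) (br 8 14 (hi 8) (br 8 15 (hi 8) (br 9 10 (cost [p 2 [1,6,10], n 4 [6], p 5 [0,8,9], p 6 [2,10], n 7 [2], p 8 [3,5,9], p 9 [5,8], p 10 [2,6,12], n 11 [2]]) (br 9 12 (cost [p 2 [1,6,10,12], n 4 [6,8], p 5 [0,8], p 6 [2,12], n 7 [2], p 8 [3,5,9], p 9 [8], p 10 [2,12], n 11 [2], p 12 [2,6,10]]) (br 12 13 (br 9 13 (br 11 13 (hi 13) (cost [p 2 [1,6,10,13], n 3 [9], n 4 [6], p 5 [0,8,9], n 6 [4], n 7 [2], p 8 [5,9], p 9 [5,8], p 10 [2,12], n 11 [2,5,13], n 13 [11]])) (cost [p 2 [1,6,10], n 3 [9], n 4 [6], p 5 [0,8], n 6 [4], n 7 [2], p 8 [3,5,9], n 9 [3,12,13], p 10 [2,12], n 11 [2], n 12 [9], n 13 [9]])) (lo 12))))))) (br 9 12 (br 12 13 (br 9 13 (tri 9 12 13) (br 9 10 (cost [p 2 [1,6,10], n 4 [6], p 5 [0,8,9], p 6 [2,10], n 7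 [2], p 8 [5,9], p 9 [3,5,8], p 10 [2,6,12], n 11 [2]]) (br 8 13 (br 8 14 (hi 8) (br 8 15 (hi 8) (br 11 13 (hi 13) (cost [p 2 [1,6,10,13], n 4 [6], p 5 [0,8], n 6 [4], n 7 [2,8], p 8 [5,9], p 10 [2,13], n 11 [2,5,13], p 13 [2,10]])))) (br 11 13 (br 8 14 (br 10 14 (tri 8 10 14) (br 9 14 (cost [p 2 [1,6,10,14], n 4 [6], p 5 [0,8], p 6 [2,14], p 7 [4,9], p 8 [5,9], p 9 [7,8], n 11 [2], n 13 [8], p 14 [2,6,12,15]]) (br 9 15 (br 11 14 (cost [p 2 [1,6,10], p 4 [7,11], p 5 [0,8], p 6 [2,14], p 7 [4,9], p 8 [5,9,11], p 9 [7,8], p 11 [4,8,12], p 12 [11,15], p 13 [3,14], p 14 [6,13,15], p 15 [12,14]]) (lo 14)) (lo 9)))) (br 8 15 (sym 13) (lo 8))) (lo 13))))) (lo 12)) (lo 12))) (br 9 10 (sym 7) (br 10 14 (br 10 15 (br 12 13 (br 8 12 (br 9 12 (hi 12) (br 9 13 (br 11 13 (hi 13) (cost [p 2 [1,6,13], n 3 [9], p 4 [7,10],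 p 5 [0,9], n 6 [4,10], p 7 [4,10], p 9 [5,8], p 10 [4,7], n 11 [2,5,13], n 13 [11], p 14 [15], p 15 [14]])) (cost [n 2 [7,11], n 3 [9], p 4 [7,10], n 6 [4,10], p 7 [4,10], n 9 [3,12,13], p 10 [4,7], n 11 [2], n 12 [9], n 13 [9], p 14 [15], p 15 [14]]))) (br 9 12 (sym 7) (lo 12))) (cost [n 2 [7,11], n 4 [6,12], n 5 [12], n 6 [4,10], n 7 [2,13], p 10 [4,7], n 11 [2], n 12 [4,5], n 13 [7], p 14 [15], p 15 [14]])) (lo 10)) (lo 10)))))) (lo 7)) (lo 7))) (br 7 13 (br 7 14 (br 7 15 (br 8 10 (cost [p 1 [2,13], p 2 [1,6,10], p 4 [7], p 5 [0,7,8], n 6 [4], p 7 [4,5], p 8 [5,9], n 11 [2], n 12 [1], p 13 [1,14,15], p 14 [13,15], p 15 [13,14]]) (br 9 10 (cost [p 1 [2,13], p 2 [1,6,10], n 3 [7], p 4 [7], p 5 [0,7,9], n 6 [4], p 7 [4,5], p 9 [5,8], n 11 [2], p 13 [1,14,15], p 14 [13,15], p 15 [13,14]]) (cost [p 1 [2,13],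 n 2 [7,11], n 3 [7], p 4 [7], p 5 [0,7], n 6 [4,10], p 7 [4,5], n 10 [6], n 11 [2], p 13 [1,14,15], p 14 [13,15], p 15 [13,14]]))) (lo 7)) (lo 7)) (lo 7)))))

def t14 : T :=
  (br 7 13 (br 7 14 (hi 7) (br 7 15 (hi 7) (br 9 13 (tri 7 9 13) (br 12 13 (tri 7 12 13) (br 8 12 (br 8 13 (cost [p 1 [2,10,13], p 2 [1,13], n 4 [6], p 5 [0,6,7,8], p 6 [3,5], p 7 [5,8], p 8 [5,7], p 10 [1,11], n 12 [5], p 13 [1,2,12], n 14 [1], n 15 [1]]) (br 11 13 (br 8 14 (br 12 14 (tri 8 12 14) (br 9 10 (br 10 14 (hi 10) (cost [p 1 [2,10,13], p 2 [1,10], n 4 [6], p 5 [0,6,7,9], p 6 [3,5], n 8 [13], p 10 [1,2,11], n 12 [5], n 13 [8], n 14 [1,5], n 15 [1]])) (br 9 11 (br 11 14 (hi 11) (br 9 14 (cost [p 1 [2,10,13], p 2 [1,14], n 4 [6], p 5 [0,6,7], p 6 [3,5], p 7 [5,11], n 8 [13], p 9 [8,13], p 10 [1,11], p 11 [7,10], n 12 [5], p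 13 [1,9], n 14 [1], n 15 [1]]) (lo 14))) (cost [p 1 [2,13], n 2 [11], n 3 [9], n 4 [6], p 5 [0,6,7], n 6 [4,9], n 7 [10], n 8 [13], n 9 [3,6], n 11 [2], n 12 [5], n 13 [8], n 14 [1]])))) (br 8 15 (sym 13) (lo 8))) (lo 13))) (cost [p 1 [2,10,13], n 2 [12], n 3 [8], n 4 [6], p 5 [0,6,7], n 6 [4,12], n 8 [3], p 10 [1,11], n 12 [2,5,6], n 14 [1], n 15 [1]])))))) (br 7 14 (br 7 15 (hi 7) (br 9 14 (tri 7 9 14) (br 12 14 (tri 7 12 14) (br 8 12 (br 8 13 (br 8 14 (hi 8) (br 10 14 (br 9 10 (hi 10) (br 10 15 (hi 10) (br 11 14 (cost [p 1 [2,10], p 2 [1,13], p 3 [6,14], n 4 [6], p 5 [0,6,8], p 6 [3,5,14], n 8 [14], p 10 [1,11], p 11 [10], n 14 [2,8], n 15 [1,5,10]]) (lo 14)))) (lo 14))) (br 8 14 (br 8 15 (hi 8) (br 9 10 (br 10 14 (hi 10) (br 10 15 (hi 10) (br 11 14 (cost [p 1 [2,10], p 2 [1,10], n 4 [6,10], p 5 [0,6,9],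 p 6 [3,5,14], p 8 [7,11], p 10 [1,2,11], p 11 [8,10], n 14 [5,10], n 15 [1,5]]) (lo 14)))) (br 9 11 (br 9 13 (br 9 15 (hi 9) (br 10 15 (br 10 14 (hi 10) (br 11 14 (cost [p 1 [2,10], p 2 [1,13], n 4 [6], p 5 [0,6,9], p 6 [3,5,14], p 8 [7,11], n 10 [7,9], p 11 [7,8,10], p 14 [6,9,12], n 15 [1,2]]) (lo 14))) (lo 15))) (br 9 15 (br 11 15 (tri 9 11 15) (br 12 13 (br 12 15 (hi 12) (lo 15)) (lo 13))) (lo 9))) (br 9 13 (br 9 15 (br 10 14 (cost [p 1 [2,10], p 2 [1,13], n 3 [9], n 4 [6], p 5 [0,6,9], p 6 [3,5,14], p 8 [7,10], n 9 [3,6], p 10 [1,8,11], p 13 [2,15], p 14 [6,12], n 15 [1]]) (cost [p 1 [2,10], p 2 [1,13], n 3 [9], n 4 [6], p 5 [0,6,9], n 6 [4,9], n 7 [10], n 9 [3,6], n 10 [7,14], n 14 [5,10], n 15 [1]])) (lo 9)) (lo 9))))) (br 10 14 (br 9 10 (hi 10) (br 10 15 (hi 10) (br 11 14 (cost [p 1 [2,10], n 2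 [14], p 3 [6,14], n 4 [6], p 5 [0,6], p 6 [3,5,14], n 8 [14], p 10 [1,11], p 11 [10], n 14 [2,8], n 15 [1,5,10]]) (lo 14)))) (lo 14)))) (br 12 13 (br 12 15 (br 8 14 (br 9 13 (cost [p 1 [2,10], p 2 [1,13], n 3 [8], n 4 [6], p 5 [0,6,9], n 6 [4,12], n 8 [3], p 9 [5,12], p 10 [1,11], n 12 [2,6], p 13 [2,7,15], n 15 [1]]) (br 9 11 (br 9 10 (cost [p 1 [2,10], p 2 [1,10], p 3 [6,9], n 4 [6], p 5 [0,6], p 6 [3,5,9], p 9 [3,5,6], p 10 [1,2,11], p 11 [10], n 12 [2,6], n 15 [1]]) (br 9 15 (br 10 14 (br 10 15 (hi 10) (cost [p 1 [2,10], n 2 [12], n 3 [8], n 4 [6], p 5 [0,6], p 6 [3,5,14], n 8 [3], n 9 [10], p 10 [1,8,11], n 12 [2,6], n 15 [1,5,10]])) (cost [p 1 [2,10], n 2 [12], n 3 [8], n 4 [6], p 5 [0,6], n 6 [4,12], n 7 [10], n 8 [3], n 10 [7,14], n 12 [2,6], n 14 [5,10], p 15 [7,13]])) (lo 9))) (cost [p 1 [2,10],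 n 2 [11,12], n 3 [8], n 4 [6], p 5 [0,6], n 6 [4,12], n 8 [3], n 9 [13], p 10 [1,11], n 11 [2], n 12 [2,6], n 13 [9], n 15 [1]]))) (cost [p 1 [2,10], n 2 [12,14], n 3 [8], p 5 [0,6], n 6 [4,12], n 7 [8], n 8 [3,7,14], n 12 [2,6], n 14 [2,8], n 15 [1]])) (lo 12)) (lo 12)))))) (br 7 15 (sym 13) (lo 7))))

def t15 : T :=
  (br 7 11 (br 9 11 (tri 7 9 11) (br 7 12 (br 7 13 (hi 7) (br 7 14 (hi 7) (br 7 15 (hi 7) (br 9 10 (cost [p 1 [2,10,11], p 2 [1,10], p 3 [6,7], n 4 [6], p 5 [0,6,9], p 6 [3,5,7], p 7 [3,6], p 10 [1,2,11], p 11 [1,10,12], n 14 [1], n 15 [1]]) (cost [p 1 [2,10,11], n 2 [11], p 3 [6,7], n 4 [6,7], p 5 [0,6], p 6 [3,5,7], n 7 [4], n 9 [6], p 10 [1,11], p 11 [1,10,12], n 14 [1], n 15 [1]]))))) (br 7 13 (br 7 14 (hi 7) (br 7 15 (hi 7) (br 11 13 (tri 7 11 13) (cost [p 1 [2,10,11,13], n 2 [11], n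 4 [6], p 5 [0,6,7], p 6 [3,5,7], p 7 [5,6], p 10 [1,11], n 11 [2,5], n 12 [1], n 14 [1], n 15 [1]])))) (br 7 14 (br 7 15 (hi 7) (br 9 14 (tri 7 9 14) (br 11 14 (tri 7 11 14) (br 8 12 (br 8 14 (br 12 14 (tri 8 12 14) (br 10 14 (br 9 10 (hi 10) (br 10 15 (hi 10) (cost [p 1 [2,10,11], n 2 [11], n 4 [6], p 5 [0,6], p 6 [3,5,7,14], n 9 [6], p 10 [1,8,11], p 11 [1,10], n 12 [1], n 15 [1,5,10]]))) (lo 14))) (br 10 14 (br 9 10 (hi 10) (cost [p 1 [2,10,11], n 2 [11,14], n 4 [6], p 5 [0,6], p 6 [3,5,7], n 7 [8], n 8 [7], n 9 [6], p 10 [1,11], p 11 [1,10], n 12 [1], n 14 [2], n 15 [1]])) (lo 14))) (br 8 13 (br 8 14 (cost [p 1 [2,10,11], p 2 [1,13], n 3 [8], n 4 [6], p 5 [0,6,8], p 6 [3,5,7], p 8 [4,5], p 10 [1,11], p 11 [1,10], n 12 [1,6], p 13 [2,14], n 15 [1]]) (cost [p 1 [2,10,11], n 2 [11,14], n 3 [8], n 4 [6],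 p 5 [0,6], p 6 [3,5,7], n 8 [3,14], p 10 [1,11], p 11 [1,10], n 12 [1], n 14 [2,8]])) (cost [p 1 [2,10,11], n 2 [11], n 3 [8], n 4 [6], p 5 [0,6], p 6 [3,5,7], n 8 [3,13], p 10 [1,11], p 11 [1,10], n 12 [1,6], n 13 [8], n 15 [1]])))))) (br 7 15 (sym 13) (lo 7)))))) (br 7 12 (br 9 12 (tri 7 9 12) t14) (br 7 13 (br 9 13 (tri 7 9 13) (br 7 14 (br 7 15 (hi 7) (br 9 14 (tri 7 9 14) (br 8 12 (br 8 13 (br 8 14 (hi 8) (cost [p 1 [2,10,13], p 2 [1,13], n 3 [7], n 4 [6], p 5 [0,6,7,8], p 6 [3,5], p 7 [4,5], p 10 [1,11], n 12 [1], p 13 [1,2,14], n 14 [2], n 15 [1]])) (br 11 13 (br 12 13 (hi 13) (cost [p 1 [2,10,13], n 3 [7], n 4 [6], p 5 [0,6,7], p 6 [3,5], p 7 [4,5], n 8 [13], p 10 [1,11], n 12 [1,5,13], n 13 [8,12], n 15 [1]])) (cost [p 1 [2,10,13], n 3 [7], n 4 [6], p 5 [0,6,7], n 6 [4,13], p 7 [4,5], p 10 [1,11],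 n 11 [5,13], n 12 [1], n 13 [6,11], n 15 [1]]))) (cost [p 1 [2,10,13], n 3 [7,8], n 4 [6], p 5 [0,6,7], n 6 [4,12], p 7 [4,5], n 8 [3], p 10 [1,11], n 12 [1,6], p 13 [1,14], n 15 [1]])))) (br 7 15 (sym 13) (lo 7)))) (br 7 14 (br 7 15 (br 9 14 (tri 7 9 14) (br 9 15 (tri 7 9 15) (br 8 12 (br 8 13 (br 8 14 (hi 8) (br 8 15 (hi 8) (br 12 13 (tri 8 12 13) (cost [p 1 [2,10], n 2 [14,15], n 3 [7], n 4 [6], p 5 [0,6,8], p 6 [3,5], n 7 [3,8], n 8 [7], p 10 [1,11], n 12 [1,5], n 14 [2], n 15 [2]])))) (br 8 14 (br 8 15 (hi 8) (br 12 14 (tri 8 12 14) (br 9 10 (br 10 14 (hi 10) (br 10 15 (hi 10) (cost [p 1 [2,10], p 2 [1,10], n 3 [7], n 4 [6,10], p 5 [0,6,9], p 6 [3,5], n 7 [3], n 10 [4,14,15], n 12 [1], n 14 [5], n 15 [5,10]]))) (br 9 11 (br 11 14 (cost [p 1 [2,10], n 2 [15], n 3 [7], n 4 [6], p 5 [0,6], p 6 [3,5,14],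 p 7 [4,11], n 9 [10], p 10 [1,11], p 11 [7,8,10], n 12 [1], p 14 [6,9,15], n 15 [2]]) (br 10 14 (br 10 15 (hi 10) (cost [p 1 [2,10], n 2 [15], n 3 [7], n 4 [6], p 5 [0,6], p 6 [3,5,14], n 7 [3], p 10 [1,8,11], n 11 [14], n 12 [1], p 14 [6,15], n 15 [2,5,10]])) (lo 14))) (br 9 12 (br 9 13 (cost [p 1 [2,10], p 2 [1,12,13], n 3 [7], n 4 [6], p 5 [0,6,9], n 6 [4,9], n 7 [3], n 9 [6,10], p 10 [1,11], n 11 [2], n 12 [1], n 15 [2]]) (lo 9)) (lo 9)))))) (br 8 15 (sym 13) (lo 8)))) (br 8 14 (br 8 13 (cost [p 1 [2,10], p 2 [1,13], n 3 [7,8], p 4 [7,8], p 5 [0,6,8], n 6 [4,12], n 7 [3], p 8 [4,5], p 10 [1,11], n 12 [1,6], p 13 [2,14], p 14 [13,15]]) (br 8 15 (cost [p 1 [2,10], n 3 [7,8], p 4 [7,8], p 5 [0,6], n 6 [4,12], p 7 [4,8], n 8 [3,13], p 10 [1,11], n 12 [1,6], n 13 [8], p 14 [15], p 15 [14]]) (lo 8))) (cost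 [p 1 [2,10], n 2 [14], n 3 [7,8], n 4 [6], p 5 [0,6], n 6 [4,12], n 7 [3], n 8 [3,14], p 10 [1,11], n 12 [1,6], n 14 [2,8]]))))) (lo 7)) (lo 7)))))

def t16 : T :=
  (br 7 11 (br 7 12 (br 7 13 (cost [p 1 [2,10,11,13], n 2 [7], p 3 [6,7], n 4 [6], p 5 [0,6,7], p 6 [3,5,7], p 7 [3,5,6], n 9 [1], p 10 [1,11], p 11 [1,10,12]]) (br 7 14 (br 7 15 (hi 7) (br 12 14 (tri 7 12 14) (br 8 12 (br 8 14 (cost [p 1 [2,10,11], n 2 [7], p 3 [6,7], n 4 [6], p 5 [0,6], p 6 [3,5,7], p 7 [3,6,8], n 9 [1], p 10 [1,11], p 11 [1,10,12], p 12 [11,14], n 15 [1]]) (cost [p 1 [2,10,11], n 2 [7], p 3 [6,7], n 4 [6], p 5 [0,6], p 6 [3,5,7], p 7 [3,6], n 8 [14], n 9 [1], p 10 [1,11], p 11 [1,10,12], n 14 [8], n 15 [1]])) (cost [p 1 [2,10,11], n 2 [7], p 3 [6,7], n 4 [6], p 5 [0,6], p 6 [3,5,7], p 7 [3,6], n 8 [3], n 9 [1], p 10 [1,11],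 p 11 [1,10,12], n 12 [6], n 15 [1]])))) (br 7 15 (sym 13) (lo 7)))) (br 7 13 (br 7 14 (cost [p 1 [2,10,11,13], n 2 [7], n 4 [6], p 5 [0,6,7], p 6 [3,5,7], p 7 [4,5,6], n 9 [1], p 10 [1,11], p 11 [1,10], n 12 [1], p 13 [1,14]]) (br 7 15 (cost [p 1 [2,10,11,13], n 2 [7], n 4 [6], p 5 [0,6,7], p 6 [3,5,7], p 7 [4,5,6], n 9 [1], p 10 [1,11], p 11 [1,10], p 13 [1,15], n 14 [1]]) (lo 7))) (br 7 14 (br 7 15 (br 11 14 (tri 7 11 14) (br 11 15 (tri 7 11 15) (br 11 13 (br 9 11 (hi 11) (br 8 13 (cost [p 1 [2,10,11], n 2 [7,11], n 4 [6], p 5 [0,6,8], p 6 [3,5,7,13], p 7 [4,6], p 8 [5,11], n 9 [1], p 10 [1,11], p 11 [1,8,10]]) (br 12 13 (br 9 13 (hi 13) (cost [p 1 [2,10,11], n 2 [7,11], p 3 [6,13], n 4 [6], p 5 [0,6], p 6 [3,5,7], p 7 [4,6], n 9 [1,11], p 10 [1,11], p 11 [1,10,12], n 12 [1]])) (cost [p 1 [2,10,11], n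 2 [7,11], n 4 [6], p 5 [0,6], p 6 [3,5,7], p 7 [4,6], n 8 [13], n 9 [1], p 10 [1,11], p 11 [1,10], n 12 [1,5], n 13 [8]])))) (cost [p 1 [2,10,11], n 2 [7], n 4 [6,11], p 5 [0,6], p 6 [3,5,7], n 7 [2,13], n 9 [1], p 10 [1,11], n 11 [4,5], n 12 [1], n 13 [7]])))) (lo 7)) (lo 7)))) (br 7 12 (br 7 13 (br 12 13 (tri 7 12 13) (br 7 14 (br 7 15 (hi 7) (br 12 14 (tri 7 12 14) (br 8 12 (br 8 13 (cost [p 1 [2,10,13], p 2 [1,13], n 4 [6], p 5 [0,6,7,8], p 6 [3,5], p 7 [4,5,8], p 10 [1,11], n 12 [5], p 13 [1,2,12,14], n 15 [1]]) (br 8 14 (cost [p 1 [2,10,13], n 2 [7], n 4 [6], p 5 [0,6,7], p 6 [3,5], p 7 [4,5,8], n 8 [13], n 9 [1], p 10 [1,11], n 12 [5], p 13 [1,14], p 14 [12,13], n 15 [1]]) (cost [p 1 [2,10,13], n 2 [7], n 4 [6], p 5 [0,6,7], p 6 [3,5], p 7 [4,5], n 8 [13,14], n 9 [1], p 10 [1,11], n 12 [5], p 13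 [1,14], n 14 [8], n 15 [1]]))) (cost [p 1 [2,10,13], n 2 [7], n 3 [8], n 4 [6], p 5 [0,6,7], n 6 [4,12], p 7 [4,5], n 8 [3], n 9 [1], p 10 [1,11], n 12 [5,6], p 13 [1,14]])))) (br 7 15 (sym 13) (lo 7)))) (br 7 14 (br 7 15 (br 12 14 (tri 7 12 14) (br 12 15 (tri 7 12 15) (br 8 12 (br 8 13 (br 8 14 (hi 8) (br 8 15 (hi 8) (br 12 13 (tri 8 12 13) (cost [p 1 [2,10], p 2 [1,13], n 4 [6,12], p 5 [0,6,8], p 6 [3,5], n 7 [2,13], n 8 [14,15], n 9 [1], p 10 [1,11], n 12 [4], n 13 [7], n 15 [8]])))) (br 8 14 (br 8 15 (hi 8) (br 12 13 (br 9 12 (hi 12) (br 9 10 (br 10 14 (hi 10) (br 10 15 (hi 10) (cost [p 1 [2,10], p 2 [1,10], n 4 [6,10], p 5 [0,6,9], p 6 [3,5], n 7 [2,10], n 8 [15], n 9 [1], p 10 [1,2,11], p 14 [12,15], n 15 [5,8]]))) (br 9 11 (br 9 13 (br 11 13 (tri 9 11 13) (br 9 14 (cost [p 1 [2,10], p 2 [1,13,14],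 p 4 [7,9], p 5 [0,6,9], n 6 [4,13], p 7 [4,8], p 8 [7,9], p 9 [4,8], p 10 [1,11], n 11 [5], p 13 [2,14], p 14 [12,13,15]]) (br 9 15 (br 11 15 (tri 9 11 15) (br 11 14 (cost [p 1 [2,10], p 2 [1,13], p 4 [7,9], p 5 [0,6,9], p 6 [3,5,14], p 7 [4,8], p 8 [7,11], p 9 [4,5], p 10 [1,11], p 11 [8,10], p 13 [2,15], p 14 [6,12,15], p 15 [13,14]]) (lo 11))) (lo 9)))) (br 9 14 (br 9 15 (cost [p 1 [2,10], p 2 [1,14], p 4 [7,9], p 5 [0,6], p 6 [3,5], p 7 [4,8,9], p 8 [7,9], p 9 [4,7,8], p 10 [1,11], n 12 [9], p 14 [2,12,15], p 15 [14]]) (lo 9)) (lo 9))) (cost [p 1 [2,10], n 2 [7,11], n 3 [9], n 4 [6], p 5 [0,6], n 6 [4,9], p 7 [4,8], n 9 [1,3,6], p 10 [1,11], n 11 [2], p 14 [12,15], n 15 [8]])))) (cost [p 1 [2,10], n 2 [7], n 4 [6,12], p 5 [0,6], p 6 [3,5], n 7 [2,13], n 8 [13], n 9 [1], p 10 [1,11], n 12 [4,5], n 13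 [7,8], n 15 [8]]))) (br 8 15 (sym 13) (lo 8)))) (br 9 12 (br 12 13 (br 9 13 (tri 9 12 13) (br 8 13 (br 11 13 (hi 13) (cost [p 1 [2,10], p 2 [1,13], n 3 [8], n 4 [6], p 5 [0,6,8], n 6 [4,12], n 7 [2], n 8 [3], n 9 [1], p 10 [1,11], n 11 [5,13], n 12 [6], n 13 [11]])) (cost [p 1 [2,10], n 2 [7], n 3 [8], n 4 [6], p 5 [0,6], n 6 [4,12], n 7 [2], n 8 [3,12,13], n 9 [1], p 10 [1,11], n 12 [6,8], n 13 [8]]))) (lo 12)) (lo 12))))) (lo 7)) (lo 7))) (br 7 13 (br 7 14 (br 7 15 (cost [p 1 [2,10,13], n 3 [7], p 4 [7], p 5 [0,6,7], p 6 [3,5], p 7 [4,5], n 9 [1], p 10 [1,11], n 12 [1], p 13 [1,14,15], p 14 [13,15], p 15 [13,14]]) (lo 7)) (lo 7)) (lo 7))))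

def t17 : T :=
  (br 7 9 (br 7 10 (br 10 14 (hi 10) (br 10 15 (hi 10) (br 7 11 (cost [p 1 [2,10,13], p 5 [0,6,7], p 6 [5,7], p 7 [3,5,6], p 10 [1,11,13], p 13 [1,10], n 14 [5], n 15 [5]]) (cost [p 1 [2,10,13], n 4 [10], p 5 [0,6,7], p 6 [5,7], p 7 [5,6], p 10 [1,13], n 11 [1], p 13 [1,10], n 14 [5], n 15 [5]])))) (br 7 13 (sym 14) (br 7 11 (br 9 11 (tri 7 9 11) (br 7 12 (br 7 14 (hi 7) (br 7 15 (hi 7) (br 9 12 (tri 7 9 12) (br 8 11 (br 8 12 (br 8 14 (hi 8) (br 8 15 (hi 8) (cost [p 1 [2,10,13], p 3 [7,8], n 4 [7,8], p 5 [0,6], p 6 [5], p 7 [3,8], p 8 [3,7], p 10 [1,13], p 11 [12], p 12 [11], p 13 [1,10], n 14 [1], n 15 [1]]))) (br 9 10 (br 10 14 (hi 10) (cost [p 1 [2,10,13], p 2 [1,10], n 4 [7], p 5 [0,6,9], p 6 [5], n 7 [4], p 10 [1,2,13], n 12 [2], p 13 [1,10], n 14 [1,5], n 15 [1]])) (cost [p 1 [2,10,13],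 n 2 [12], n 3 [9], n 4 [7], p 5 [0,6], p 6 [5], n 7 [4,10], n 9 [3], p 10 [1,13], n 12 [2], p 13 [1,10], n 14 [1], n 15 [1]]))) (br 8 12 (sym 10) (cost [p 1 [2,10,13], n 2 [11,12], n 3 [8], n 4 [7], p 5 [0,6], p 6 [5], n 7 [4,8], n 8 [7], p 10 [1,13], n 11 [2], n 12 [2], p 13 [1,10]])))))) (br 7 14 (br 7 15 (hi 7) (br 9 14 (tri 7 9 14) (br 11 14 (tri 7 11 14) (br 8 11 (br 8 12 (br 8 14 (hi 8) (br 8 15 (hi 8) (br 10 14 (br 9 10 (hi 10) (br 10 15 (hi 10) (cost [p 1 [2,10,13], n 4 [8], p 5 [0,6], p 6 [5], n 8 [4], n 9 [10], n 10 [9,15], n 12 [1], p 13 [1,10], n 15 [1,5,6,10]]))) (lo 14)))) (br 8 14 (br 8 15 (hi 8) (br 9 10 (br 10 14 (hi 10) (br 10 15 (hi 10) (cost [p 1 [2,10,13], p 2 [1,10], n 4 [10], p 5 [0,6,9], p 6 [5], p 10 [1,2,13], n 12 [1], p 13 [1,10], n 14 [5], n 15 [1,5,6]]))) (br 9 13 (sym 14) (br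 9 12 (br 9 15 (br 12 15 (tri 9 12 15) (br 12 13 (br 12 14 (br 11 13 (hi 13) (cost [p 1 [2,10,13], p 5 [0,6], p 6 [5], p 7 [8,12], n 9 [6], p 10 [1,13], n 11 [5,13], p 12 [4,7], p 13 [1,10,14], p 14 [9,11,13], n 15 [1]])) (lo 12)) (lo 12))) (lo 9)) (lo 9))))) (br 10 14 (br 9 10 (hi 10) (br 10 15 (hi 10) (cost [p 1 [2,10,13], n 2 [14], p 5 [0,6], p 6 [5], n 8 [14], n 9 [10], n 10 [9,15], p 13 [1,10], n 14 [2,8], n 15 [1,5,10]]))) (lo 14)))) (br 11 13 (br 9 13 (hi 13) (br 12 13 (hi 13) (br 8 14 (sym 14) (cost [p 1 [2,10,13], n 2 [11,14], p 5 [0,6], p 6 [5], n 7 [8], n 9 [13], p 10 [1,13], n 11 [2], n 12 [1,5,13], p 13 [1,10], n 14 [2]])))) (lo 11)))))) (br 7 15 (sym 13) (lo 7))))) (br 7 12 (sym 10) (br 7 14 (sym 14) (lo 7)))))) (br 7 10 (br 10 14 (hi 10) (br 10 15 (hi 10) (cost [p 1 [2,10,13], n 2 [7], p 5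 [0,6,7], p 6 [5,7], p 7 [5,6], n 9 [1], p 10 [1,13], p 13 [1,10], n 14 [5], n 15 [5]]))) (br 7 13 (sym 14) (br 7 11 (br 7 12 (br 7 14 (br 7 15 (hi 7) (br 11 14 (tri 7 11 14) (br 12 14 (tri 7 12 14) (br 8 11 (br 8 12 (br 8 14 (hi 8) (cost [p 1 [2,10,13], n 2 [7], p 3 [7,8], p 5 [0,6], p 6 [5], p 7 [3,8], p 8 [3,7], n 9 [1], p 10 [1,13], p 11 [12], p 12 [11], p 13 [1,10], n 14 [8], n 15 [1]])) (br 8 14 (br 8 15 (hi 8) (br 9 10 (cost [p 1 [2,10,13], p 2 [1,10], p 5 [0,6,9], p 6 [5], p 7 [3,8], n 8 [12], n 9 [1], p 10 [1,2,13], p 11 [12,14], n 12 [8], p 13 [1,10], n 15 [1]]) (br 9 12 (br 9 11 (cost [p 1 [2,10,13], p 3 [7,9], p 5 [0,6], p 6 [5], p 7 [3,8,9], p 8 [7,9], p 9 [3,7], p 10 [1,13], p 11 [2,12,14], p 12 [11], p 13 [1,10]]) (br 9 13 (cost [p 1 [2,10,13], p 2 [1,13], p 5 [0,6,9], p 6 [5], p 7 [3,8],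 n 8 [12], n 9 [1], p 10 [1,13], p 11 [12,14], n 12 [8], p 13 [1,2,10], n 15 [1]]) (br 9 14 (cost [p 1 [2,10,13], p 2 [1,14], p 5 [0,6], p 6 [5], p 7 [3,8,9], p 8 [7,9], n 9 [1], p 10 [1,13], p 11 [12,14], p 12 [11,14], p 13 [1,10], p 14 [2,11,12]]) (lo 9)))) (cost [p 1 [2,10,13], n 2 [7,12], p 5 [0,6], p 6 [5], p 7 [3,8], n 8 [12], n 9 [1], p 10 [1,13], p 11 [12,14], n 12 [2,8], p 13 [1,10], n 15 [1]])))) (br 8 15 (br 9 14 (br 10 14 (br 9 10 (tri 9 10 14) (br 10 15 (hi 10) (br 11 15 (tri 8 11 15) (br 9 15 (br 12 15 (br 9 12 (tri 9 12 15) (cost [p 1 [2,10,13], n 2 [7,12], p 5 [0,6], p 6 [5], n 7 [2], n 8 [14], p 10 [1,13], n 12 [2], p 13 [1,10], n 14 [8], n 15 [1,5,10]])) (lo 15)) (lo 15))))) (lo 14)) (lo 14)) (lo 8)))) (br 8 12 (sym 10) (br 8 14 (br 8 15 (br 10 14 (cost [p 1 [2,10,13], n 2 [7], n 3 [8],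 p 5 [0,6], p 6 [5,14], n 7 [2], p 8 [4,10], n 9 [1], p 10 [1,8,13], p 13 [1,10], p 14 [6,15], n 15 [1]]) (cost [p 1 [2,10,13], n 2 [7], n 3 [8,14], p 5 [0,6], p 6 [5], n 7 [2,10], n 8 [3], n 9 [1], p 10 [1,13], p 13 [1,10], n 14 [3], n 15 [1]])) (lo 8)) (lo 8))))))) (br 7 15 (sym 13) (lo 7))) (br 7 14 (br 7 15 (sym 14) (lo 7)) (lo 7))) (br 7 12 (sym 10) (lo 7))))))

def t18 : T :=
  (br 8 11 (br 8 12 (br 8 13 (hi 8) (br 8 15 (hi 8) (br 10 15 (br 9 10 (hi 10) (br 12 15 (br 11 13 (br 11 14 (hi 11) (br 12 14 (cost [p 1 [2,10], n 2 [15], p 3 [8,15], n 4 [8], p 5 [0,6], p 6 [5,12], p 8 [3,14], p 10 [1,12], n 11 [14], p 12 [4,6,10,11], n 13 [6], n 14 [5,11], p 15 [3,14]]) (lo 14))) (cost [p 1 [2,10], n 2 [15], p 3 [8,15], n 4 [8], n 5 [11,14], n 6 [13], n 8 [4], n 9 [10], p 10 [1,12], n 11 [5,13], p 12 [10,11],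 n 13 [6], n 14 [5], n 15 [2]])) (lo 15))) (lo 15)))) (br 8 13 (br 8 15 (hi 8) (br 10 15 (br 9 10 (hi 10) (br 12 15 (br 11 13 (tri 8 11 13) (br 11 14 (br 9 12 (br 9 13 (cost [p 1 [2,10], p 2 [1,13], p 5 [0,6,8,9], p 6 [5,11], p 8 [5,9,14], p 9 [5,8,15], p 10 [1,12], p 12 [7,10], p 13 [2], n 14 [5], n 15 [2,8]]) (br 9 14 (br 12 13 (cost [p 1 [2,10], p 2 [1,13], p 5 [0,6,8], p 6 [5,11], p 7 [12,14], p 8 [5,14], p 9 [11,15], p 10 [1,12], p 11 [6,9], p 12 [4,7,10], p 13 [2,15], p 14 [7,8], p 15 [3,9,13]]) (lo 13)) (lo 9))) (cost [p 1 [2,10], n 2 [12,15], n 3 [9], p 5 [0,6,8], p 6 [5,11], p 8 [5,14], n 9 [3,10], p 10 [1,12], n 11 [5], n 12 [1,2], n 14 [5], n 15 [2]])) (lo 11))) (lo 15))) (lo 15))) (br 8 15 (br 9 10 (br 10 15 (hi 10) (br 12 15 (br 9 12 (cost [p 1 [2,10], p 2 [1,10], n 4 [10], p 5 [0,6,9], n 6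 [13], p 7 [8,12], p 9 [3,5,15], p 10 [1,2,12], p 12 [7,10], n 13 [6], n 14 [5], n 15 [5,10]]) (br 12 13 (br 12 14 (br 9 13 (cost [p 1 [2,10], p 2 [1,10,13], p 4 [12], p 5 [0,6,9], p 10 [1,2,13], n 12 [1,2], p 13 [2,10,14,15], p 15 [11,13,14]]) (cost [p 1 [2,10], p 2 [1,10], p 4 [12], p 5 [0,6,9], n 6 [13], n 9 [13], n 10 [4,15], n 12 [1,2], n 13 [6,9], p 14 [13,15], p 15 [11,13,14]])) (lo 12)) (lo 12))) (lo 15))) (br 10 15 (br 12 15 (hi 15) (br 9 12 (br 12 13 (br 12 14 (br 9 13 (tri 9 12 13) (br 9 14 (tri 9 12 14) (lo 9))) (lo 12)) (lo 12)) (lo 12))) (lo 10))) (lo 8)))) (br 11 13 (br 11 14 (br 8 12 (br 8 13 (br 8 15 (hi 8) (br 9 13 (hi 13) (br 12 13 (tri 8 12 13) (br 10 15 (br 9 10 (hi 10) (cost [p 1 [2,10], n 2 [11,15], p 5 [0,6,8], n 7 [8], n 8 [7], n 9 [10,13], n 10 [9], n 11 [2], n 12 [1,5], p 13 [2,14],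 n 14 [5], n 15 [2]])) (lo 15))))) (br 8 15 (br 12 15 (tri 8 12 15) (br 10 15 (br 9 10 (hi 10) (br 9 12 (br 9 13 (cost [p 1 [2,10], p 2 [1,12,13], p 5 [0,6,9], p 6 [5,15], p 8 [9,10], p 9 [5,8,11], p 10 [1,8], n 11 [2,8], n 12 [1], p 13 [2,7,14], n 14 [5]]) (br 9 14 (br 12 13 (br 12 14 (tri 9 12 14) fin) (lo 13)) (lo 9))) (cost [p 1 [2,10], n 2 [11], n 3 [9], p 5 [0,6], p 6 [5,15], n 7 [12], n 8 [11], n 9 [3,10], p 10 [1,8], n 11 [2,8], n 12 [1,7], n 13 [6], n 14 [5]]))) (lo 15))) (lo 8))) (br 8 13 (br 8 15 (br 9 13 (hi 13) (br 12 13 (hi 13) (br 12 14 (br 12 15 (cost [p 1 [2,10], p 2 [1,13], n 3 [8], p 4 [8,11,12], p 5 [0,6,8], p 11 [4,12], n 12 [1,5,13], p 13 [2,14,15], p 14 [3,13,15], p 15 [13,14]]) (lo 12)) (lo 12)))) (lo 8)) (lo 8))) (lo 11)) (lo 11)))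

def t19 : T :=
  (br 7 13 (br 7 15 (hi 7) (br 9 13 (tri 7 9 13) (br 11 13 (tri 7 11 13) (br 8 11 (br 8 12 (br 8 13 (hi 8) (br 8 15 (hi 8) (br 12 13 (br 9 12 (cost [p 1 [2,10,13], p 2 [1,12], n 4 [8], p 5 [0,6,7], n 6 [13], p 7 [5,12], p 8 [3,9], p 9 [8,13], n 11 [5], p 12 [2,7,11], p 13 [1,9], n 14 [5], n 15 [1]]) (br 9 10 (br 10 15 (hi 10) (cost [p 1 [2,10,13], p 2 [1,10], n 4 [10], p 5 [0,6,7,9], n 6 [13,15], n 8 [4], p 10 [1,2], n 12 [1], n 13 [6], n 14 [5], n 15 [5,6]])) (cost [p 1 [2,10,13], n 3 [9], n 4 [8], p 5 [0,6,7], n 6 [13], n 7 [10], n 8 [4], n 9 [3], n 10 [7], n 11 [5], n 12 [1], n 13 [6], n 14 [5], n 15 [1]]))) (lo 13)))) (br 8 13 (br 12 13 (hi 13) (cost [p 1 [2,10,13], p 2 [1,13], n 3 [13], p 5 [0,6,7,8], p 8 [5,7], n 11 [5], n 12 [1,5,13], p 13 [1,2,11], n 14 [5], n 15 [1]])) (br 8 15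 (br 12 13 (br 11 15 (tri 8 11 15) (br 11 14 (br 10 15 (br 9 10 (hi 10) (br 9 12 (br 9 14 (cost [p 1 [2,10,13], p 5 [0,6,7], p 6 [5,11,15], p 7 [5,12,14], p 8 [10,14], p 9 [11,13], p 10 [1,8], p 11 [6,9], n 12 [1], n 13 [6], p 14 [7,8], n 15 [1]]) (cost [p 1 [2,10,13], n 2 [14], p 5 [0,6,7], p 6 [5,11,15], p 8 [10,14], n 9 [6], p 10 [1,8], n 11 [5], n 13 [6,8], n 14 [2,5], n 15 [1]])) (cost [p 1 [2,10,13], n 2 [12], n 3 [9], p 5 [0,6,7], p 6 [5,15], n 7 [10], p 10 [1,8], n 11 [5], n 12 [1,2], n 13 [6,8], n 14 [5], n 15 [1]]))) (cost [p 1 [2,10,13], n 4 [10], n 5 [11,14,15], p 6 [5,11], n 8 [13], n 10 [4], n 11 [5], n 12 [1], n 13 [6,8], n 14 [5], n 15 [1,5]])) (lo 11))) (lo 13)) (lo 8)))) (br 11 14 (br 11 15 (br 8 12 (br 8 13 (br 8 15 (hi 8) (br 12 13 (tri 8 12 13) (cost [p 1 [2,10,13], p 2 [1,13], n 3 [13],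 p 5 [0,6,7,8], n 8 [11], n 11 [2,5,8], n 12 [1,5], p 13 [1,2], n 14 [5], n 15 [1]]))) (br 9 10 (cost [p 1 [2,10,13], p 2 [1,10], p 5 [0,6,7,9], n 6 [13], n 7 [8], n 8 [7], p 10 [1,2], n 11 [2,5], n 12 [1], n 13 [6], n 14 [5], n 15 [1]]) (cost [p 1 [2,10,13], n 2 [11], p 5 [0,6,7], n 6 [13], n 7 [8,10], n 8 [7], n 10 [7], n 11 [2,5], n 12 [1], n 13 [6], n 14 [5], n 15 [1]]))) (br 8 13 (br 8 15 (cost [p 1 [2,10,13], p 2 [1,13], n 3 [8], p 4 [8,11], p 5 [0,6,7,8], p 8 [4,5], n 11 [2,5], n 12 [1], p 13 [1,2,15], n 14 [5], p 15 [13,14]]) (lo 8)) (lo 8))) (lo 11)) (lo 11)))))) (br 7 14 (br 7 15 (hi 7) (br 9 14 (tri 7 9 14) (br 11 14 (tri 7 11 14) (br 12 14 (br 8 11 (br 8 12 (br 8 13 (hi 8) (br 8 15 (hi 8) (br 9 10 (br 10 15 (hi 10) (cost [p 1 [2,10,14], p 2 [1,10], n 4 [8,10], p 5 [0,6,9], p 6 [5,7,12], p 8 [3,14],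 p 10 [1,2], n 13 [6], n 14 [5], n 15 [1,5,6]])) (cost [p 1 [2,10,14], n 2 [14], n 4 [8], p 5 [0,6], p 6 [5,7,12], n 7 [10], p 8 [3,14], n 9 [6], n 10 [7], p 12 [6,11], n 13 [6], n 14 [2,5], n 15 [1]])))) (br 8 13 (br 11 13 (tri 8 11 13) (br 9 13 (cost [p 1 [2,10,14], p 2 [1,13], p 5 [0,6,8,9], p 6 [5,7], p 8 [5,9], p 9 [5,8], n 11 [5], n 12 [1], p 13 [2], n 14 [2,5], n 15 [1]]) (br 12 13 (br 9 10 (cost [p 1 [2,10,14], p 2 [1,10,13], p 5 [0,6,8,9], p 6 [5,7], n 7 [13], p 10 [1,2], n 11 [5], n 12 [1], p 13 [2,14], n 14 [2,5], n 15 [1]]) (cost [p 1 [2,10,14], p 2 [1,13], p 5 [0,6,8], p 6 [5,7], n 7 [10,13], n 9 [6], n 10 [7], n 11 [5], n 12 [1], p 13 [2,14], n 14 [2,5], n 15 [1]])) (lo 13)))) (br 8 15 (br 11 15 (tri 8 11 15) (br 11 13 (br 9 10 (br 10 15 (hi 10) (br 9 15 (cost [p 1 [2,10,14], p 2 [1,10,15],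 n 4 [10], p 5 [0,6,9], p 6 [5,7], p 9 [5,8], p 10 [1,2], n 12 [1], n 13 [6], n 14 [2,5], n 15 [1,5]]) (lo 15))) (br 10 15 (br 9 12 (br 9 13 (cost [p 1 [2,10,14], p 2 [1,13], p 5 [0,6,9], p 6 [5,7,15], p 7 [6,12,13], p 9 [5,11,14], p 10 [1,8], n 12 [1], p 13 [2,7], n 14 [2,5]]) (br 9 15 (br 12 13 (cost [p 1 [2,10,14], p 2 [1,15], p 5 [0,6], p 6 [5,7,15], p 7 [6,12], p 8 [9,10], p 9 [8,14], p 10 [1,8], p 12 [4,7,11], p 13 [3,14], p 14 [1,9,13], p 15 [2,6]]) (lo 13)) (lo 9))) (cost [p 1 [2,10,14], n 2 [14], n 3 [9], p 5 [0,6], p 6 [5,7,15], n 7 [10], n 9 [3,6], p 10 [1,8], n 12 [1,2], n 14 [2,5], n 15 [1]])) (lo 10))) (lo 11))) (lo 8)))) (br 11 13 (br 11 15 (br 8 12 (br 8 13 (cost [p 1 [2,10,14], n 2 [11,14], p 5 [0,6,8], p 6 [5,7,12], n 7 [8], p 8 [5,14], n 11 [2], n 12 [1], p 13 [2,15], n 14 [2,5], n 15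 [1]]) (cost [p 1 [2,10,14], n 2 [11,14], p 5 [0,6], p 6 [5,7,12], n 7 [8], n 8 [7], n 11 [2,6], n 12 [1], n 13 [6], n 14 [2,5], n 15 [1]])) (cost [p 1 [2,10,14], n 2 [11,14], n 3 [8], p 5 [0,6], p 6 [5,7], n 7 [8], n 8 [3,7], n 11 [2,6], n 12 [1], n 14 [2,5], n 15 [1]])) (lo 11)) (lo 11))) (lo 14))))) (br 7 15 (br 9 15 (tri 7 9 15) (br 11 15 (tri 7 11 15) t18)) (lo 7))))

def t20 : T :=
  (br 7 10 (br 9 10 (tri 7 9 10) (br 10 15 (hi 10) (br 7 11 (br 7 12 (hi 7) (br 7 13 (hi 7) (br 7 14 (hi 7) (br 7 15 (hi 7) (cost [p 1 [2,10], n 4 [7,10], p 5 [0,6,7], p 6 [5,7], p 7 [3,5,6], p 10 [1,11], n 12 [1], n 14 [5], n 15 [1,5,10]]))))) (br 7 12 (sym 10) (br 7 13 (cost [p 1 [2,10,13], p 5 [0,6,7], p 6 [5,7], p 7 [5,6], p 10 [1,13], n 11 [1], n 12 [1], p 13 [1,10], n 14 [5], n 15 [5]]) (br 7 14 (cost [p 1 [2,10,14],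 n 4 [10], p 5 [0,6,7], p 6 [5,7], p 7 [5,6], p 10 [1,14], n 11 [1], n 12 [1], p 14 [1,10], n 15 [5]]) (br 7 15 (br 9 15 (tri 7 9 15) (br 8 15 (br 8 13 (cost [p 1 [2,10], p 2 [1,13], n 4 [10], p 5 [0,6,7,8], p 6 [5,7], p 7 [5,6], p 8 [4,5], p 10 [1], n 11 [1], n 12 [1], p 13 [2,15], n 14 [5], n 15 [5]]) (br 9 14 (br 9 13 (cost [p 1 [2,10], p 2 [1,13], n 4 [10], p 5 [0,6,7,9], p 6 [5,7], p 7 [5,6], p 9 [4,5], p 10 [1], n 11 [1], n 12 [1], p 13 [2,14], n 14 [5], n 15 [5]]) (br 11 13 (br 12 13 (br 8 11 (br 8 12 (hi 8) (br 11 15 (tri 8 11 15) (br 12 15 (br 9 11 (br 9 12 (hi 9) (cost [p 1 [2,10], p 2 [1,11], n 4 [10], p 5 [0,6,7], p 6 [5,7], p 7 [5,6], p 10 [1], p 11 [2,12], n 12 [1,2], n 13 [6,7], n 14 [5], n 15 [5]])) (cost [p 1 [2,10], n 4 [10], p 5 [0,6,7], p 6 [5,7], n 7 [11,13], p 10 [1], n 11 [1,7], p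 12 [4,11], n 13 [6,7], n 14 [5], n 15 [5]])) (lo 15)))) (br 8 12 (sym 10) (lo 8))) (lo 13)) (lo 13))) (cost [p 1 [2,10], n 2 [14], p 5 [0,6,7], n 6 [9,13], p 7 [5,6], n 9 [6], p 10 [1], n 11 [1], n 12 [1], n 13 [6], n 14 [2,5,7]]))) (cost [p 1 [2,10], n 2 [15], n 4 [10], p 5 [0,6,7], p 6 [5,7], p 7 [5,6], n 8 [7], p 10 [1], n 11 [1], n 12 [1], n 14 [5], n 15 [2,5,6]]))) (lo 7)))))))) (br 7 11 (br 9 11 (tri 7 9 11) (br 7 12 (br 7 13 (hi 7) (br 7 14 (hi 7) (br 7 15 (hi 7) (br 9 12 (tri 7 9 12) (br 8 11 (br 8 12 (br 8 13 (hi 8) (br 8 15 (hi 8) (br 9 10 (cost [p 1 [2,10], p 2 [1,10], p 3 [7,8], n 4 [7,8], p 5 [0,6,9], n 6 [13], p 7 [3,8], p 8 [3,7], p 10 [1,2], p 11 [12], p 12 [11], n 13 [6], n 14 [5], n 15 [1]]) (cost [p 1 [2,10], p 3 [7,8], n 4 [7,8], p 5 [0,6], n 6 [13], n 7 [4,10], p 8 [3,7], n 9 [3], n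 10 [7], p 11 [12], p 12 [11], n 13 [6], n 14 [5], n 15 [1]])))) (br 8 13 (br 8 15 (hi 8) (br 11 13 (tri 8 11 13) (br 10 15 (br 9 10 (hi 10) (br 9 13 (cost [p 1 [2,10], p 2 [1,13], n 3 [9], n 4 [7], p 5 [0,6,8,9], n 7 [4,10], p 8 [5,9], p 9 [5,8], n 10 [7], p 13 [2], n 14 [5], n 15 [1]]) (cost [p 1 [2,10], p 2 [1,13], n 3 [9], n 4 [7], p 5 [0,6,8], n 7 [4,10], n 9 [3,13], n 10 [7], n 11 [5], n 12 [2], n 13 [9], n 14 [5], n 15 [1]]))) (cost [p 1 [2,10], p 2 [1,13], n 4 [7,10], n 5 [11,14,15], n 6 [15], n 7 [4], n 10 [4], n 11 [5], n 12 [2], n 14 [5], n 15 [1,5,6]])))) (br 11 13 (br 11 14 (hi 11) (br 9 14 (br 12 14 (br 9 10 (cost [p 1 [2,10], p 2 [1,10], n 4 [7], p 5 [0,6,9], p 6 [5,9], p 7 [3,14], p 9 [5,6,12], p 10 [1,2,14], n 11 [14], p 12 [9,11], n 14 [5,11], n 15 [1]]) (cost [p 1 [2,10], n 2 [12], n 3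 [9], n 4 [7], p 5 [0,6], n 6 [13], n 7 [4,10], n 9 [3], n 10 [7], n 11 [14], p 12 [9,11], n 13 [6], n 14 [5,11], n 15 [1]])) (lo 14)) (lo 14))) (cost [p 1 [2,10], n 2 [12], n 4 [7], n 5 [11,14], n 6 [13], n 7 [4], n 8 [13], n 11 [5,13], n 12 [2], n 13 [6,8,11], n 14 [5], n 15 [1]])))) (br 8 12 (sym 10) (br 8 13 (br 8 15 (cost [p 1 [2,10], n 2 [11,12], n 3 [8], n 4 [7], p 5 [0,6,8], n 7 [4,8], n 8 [3,7], n 11 [2], n 12 [2], p 13 [2,15], n 14 [5], n 15 [1]]) (lo 8)) (lo 8)))))))) t19)) (br 7 12 (sym 10) (br 7 13 (br 9 13 (tri 7 9 13) (br 7 14 (br 7 15 (hi 7) (br 9 14 (tri 7 9 14) (cost [p 1 [2,10,13,14], n 2 [14], n 3 [7], p 5 [0,6,7], p 6 [5,7], p 7 [4,5,6], n 11 [1], n 12 [1], p 13 [1,14], n 14 [2,5], n 15 [1]]))) (br 7 15 (br 9 15 (tri 7 9 15) (br 9 14 (br 9 10 (cost [p 1 [2,10,13], p 2 [1,10], n 3 [7],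 p 5 [0,6,7,9], p 6 [5,9], p 7 [4,5], p 9 [5,6], p 10 [1,2,14], n 11 [1], n 12 [1], p 13 [1,15], n 14 [5]]) (br 10 15 (br 8 11 (br 8 12 (br 8 13 (hi 8) (br 8 15 (hi 8) (cost [p 1 [2,10,13], n 2 [15], n 3 [7], n 4 [8], p 5 [0,6,7], n 6 [13], n 7 [3,8], n 8 [4], n 10 [9], n 11 [1], n 12 [1], n 14 [5], n 15 [2]]))) (br 8 13 (br 8 15 (hi 8) (cost [p 1 [2,10,13], p 2 [1,13], n 3 [7], p 5 [0,6,7,8], p 7 [4,5], n 9 [10], n 10 [9], n 11 [1], n 12 [1], p 13 [1,2,15], n 14 [5], n 15 [2]])) (br 8 15 (br 12 15 (hi 15) (cost [p 1 [2,10,13], n 3 [7], p 5 [0,6,7], p 6 [5,15], p 7 [4,5], n 8 [12], n 9 [10], p 10 [1,8], n 12 [1,8,15], p 13 [1,15], n 14 [5], p 15 [6,13]])) (lo 8)))) (br 8 12 (sym 10) (br 8 13 (cost [p 1 [2,10,13], p 2 [1,13], n 3 [7,8], p 5 [0,6,7,8], p 7 [4,5], n 8 [3], n 9 [10], n 10 [9], n 11 [1], p 13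 [1,2,15], n 14 [5]]) (lo 8)))) (lo 10))) (cost [p 1 [2,10,13], n 2 [14], n 3 [7], n 4 [9], p 5 [0,6,7], n 7 [3,14], n 9 [4], n 11 [1], n 12 [1], p 13 [1,15], n 14 [2,5,7]]))) (lo 7)))) (br 7 14 (br 7 15 (br 9 14 (tri 7 9 14) (br 9 15 (tri 7 9 15) (br 10 15 (br 9 10 (hi 10) (br 8 13 (br 8 15 (cost [p 1 [2,10,14], n 3 [7], p 4 [7,8], p 5 [0,6], p 6 [5,7,15], p 7 [4,6], p 8 [4,5,10], n 9 [10], p 10 [1,8], p 13 [2,15], n 14 [5], p 15 [6,13,14]]) (cost [p 1 [2,10,14], n 2 [14,15], n 3 [7], p 5 [0,6,8], p 6 [5,7], n 7 [3], n 8 [7], n 9 [10], n 10 [9], n 11 [1], n 14 [2,5], n 15 [2]])) (cost [p 1 [2,10,14], n 2 [14], n 3 [7], p 5 [0,6], n 6 [9,13], p 7 [4,6], n 9 [6,10], n 10 [9], n 11 [1], n 12 [1], n 13 [6], n 14 [2,5]]))) (cost [p 1 [2,10,14], n 2 [14], n 3 [7], n 4 [10], n 5 [14,15], p 6 [5,7], n 10 [4,15],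 n 11 [1], n 12 [1], n 14 [2,5], n 15 [5,10]])))) (lo 7)) (lo 7))))))

def t21 : T :=
  (br 7 12 (br 7 13 (br 7 15 (hi 7) (br 11 13 (tri 7 11 13) (br 12 13 (tri 7 12 13) (cost [p 1 [2,10,13], n 2 [7], n 3 [13], n 5 [11,12,14], n 7 [2,10], n 9 [1], n 10 [7], n 11 [5], n 12 [5], n 13 [3], n 14 [5], n 15 [1]])))) (br 7 14 (br 7 15 (hi 7) (br 11 14 (tri 7 11 14) (br 12 14 (tri 7 12 14) (br 8 11 (br 8 12 (cost [p 1 [2,10,14], n 2 [7], p 3 [7,8], p 5 [0,6], p 6 [5,7], p 7 [3,6,8], p 8 [3,7], n 9 [1], n 10 [7], p 11 [12], p 12 [11], n 14 [3,5], n 15 [1]]) (br 8 13 (br 11 13 (tri 8 11 13) (cost [p 1 [2,10,14], p 2 [1,13], n 3 [14], p 5 [0,6,8], p 6 [5,7], n 7 [2,10], n 9 [1], n 10 [7], n 11 [5], n 12 [6], n 14 [3,5], n 15 [1]])) (cost [p 1 [2,10,14], n 2 [7], n 3 [14], p 5 [0,6], n 6 [12,13], n 7 [2,10], n 9 [1],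 n 10 [7], n 12 [6], n 13 [6], n 14 [3,5], n 15 [1]]))) (br 8 12 (sym 10) (cost [p 1 [2,10], n 2 [7], n 3 [8,14], p 5 [0,6], n 6 [11], n 7 [2,8,10], n 8 [3,7], n 9 [1], n 10 [7], n 11 [6], n 14 [3,5]])))))) (br 7 15 (br 11 15 (tri 7 11 15) (br 12 15 (tri 7 12 15) (br 8 11 (br 8 12 (br 8 13 (hi 8) (br 8 15 (hi 8) (br 9 15 (br 10 15 (br 9 10 (tri 9 10 15) (br 9 11 (cost [p 1 [2,10], p 2 [1,11], p 3 [7,8], n 4 [8], p 5 [0,6], n 6 [13], p 7 [3,8,9], p 8 [3,7,9], p 9 [7,8], p 11 [2,12], p 12 [11], n 13 [6], n 14 [5]]) (br 9 12 (cost [p 1 [2,10], p 2 [1,12], p 3 [7,8], n 4 [8], p 5 [0,6], n 6 [13], p 7 [3,8,9], p 8 [3,7,9], p 9 [7,8], p 11 [12], p 12 [2,11,15], n 14 [5]]) (cost [p 1 [2,10], n 2 [7], p 3 [7,8], n 4 [8], p 5 [0,6], n 6 [13], p 7 [3,8], n 8 [4,15], n 9 [1,3], p 11 [12], p 12 [11], n 13 [6], n 14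 [5], n 15 [8]])))) (lo 15)) (lo 15)))) (br 8 13 (br 8 15 (hi 8) (br 9 15 (br 10 15 (br 9 10 (tri 9 10 15) (br 11 13 (tri 8 11 13) (br 12 13 (br 9 13 (hi 13) (br 9 11 (br 11 14 (hi 11) (br 9 14 (br 9 12 (hi 9) (cost [p 1 [2,10], p 2 [1,11,13], n 4 [11], p 5 [0,6,8], p 7 [3,9], p 8 [5,9], p 9 [4,7,8], p 11 [2,12,15], n 12 [2], n 13 [9], n 14 [5], p 15 [11,14]])) (lo 14))) (br 9 12 (br 9 14 (br 11 14 (br 12 14 (tri 9 12 14) fin) (lo 11)) (lo 9)) (lo 9)))) (cost [p 1 [2,10], n 5 [11,12,14], n 7 [2,13], n 8 [12,15], n 9 [1], n 11 [5], n 12 [5,8], n 13 [3,7], n 14 [5], n 15 [8]])))) (lo 15)) (lo 15))) (br 8 15 (br 10 15 (br 9 10 (hi 10) (br 9 15 (hi 15) (br 9 11 (cost [p 1 [2,10], p 5 [0,6], p 6 [5,15], p 7 [3,8], p 8 [7,9,10], n 9 [1,10,15], p 10 [1,8], p 11 [2,12,15], n 12 [8], n 13 [6], n 14 [5], p 15 [6,11]])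 (br 9 13 (cost [p 1 [2,10], p 2 [1,13], p 5 [0,6,9], p 6 [5,15], p 7 [3,8], p 8 [7,10], n 9 [1,10,15], p 10 [1,8], p 11 [12,15], n 12 [8], n 13 [6], n 14 [5], p 15 [6,11]]) (lo 9))))) (cost [p 1 [2,10], n 2 [7], n 4 [10], n 5 [14,15], n 6 [13], n 7 [2,10], n 8 [12], n 9 [1], n 10 [4,7], n 13 [6], n 14 [5], n 15 [3,5]])) (lo 8)))) (br 8 12 (sym 10) (br 8 13 (br 8 15 (br 10 15 (br 9 10 (hi 10) (br 9 15 (hi 15) (cost [p 1 [2,10], p 2 [1,13], n 3 [8], p 5 [0,6,8], p 6 [5,15], n 7 [2], p 8 [4,5,10], n 9 [1,10,15], p 10 [1,8], p 13 [2,15], n 14 [5], p 15 [6,13]]))) (cost [p 1 [2,10], p 2 [1,13], n 3 [15], n 4 [10], p 5 [0,6,8], n 7 [2,10], p 8 [4,5], n 9 [1], n 10 [4,7], p 13 [2,15], n 14 [5], n 15 [3,5]])) (lo 8)) (lo 8)))))) (lo 7)))) (br 7 13 (br 11 13 (tri 7 11 13) (br 10 15 (br 9 10 (hi 10) (br 7 14 (br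 7 15 (hi 7) (cost [p 1 [2,10,13,14], n 2 [7], p 5 [0,6,7], p 6 [5,7], p 7 [4,5,6], n 9 [1], n 10 [7], n 11 [5], n 12 [1], p 13 [1,14], p 14 [1,13], n 15 [1]])) (br 7 15 (br 11 15 (tri 7 11 15) (br 8 11 (br 8 13 (cost [p 1 [2,10,13], p 2 [1,13], p 5 [0,6,7,8], p 7 [4,5,8], p 8 [5,7], n 9 [1], n 11 [5], n 12 [1], p 13 [1,2,11,15], n 14 [5]]) (br 8 15 (cost [p 1 [2,10,13], n 2 [7], p 5 [0,6,7], p 7 [4,5,8], p 8 [7,10], n 9 [1], p 10 [1,8], n 11 [5], n 12 [1], p 13 [1,15], n 14 [5], p 15 [6,11,13]]) (br 8 12 (br 9 13 (cost [p 1 [2,10,13], p 2 [1,13], n 4 [8], p 5 [0,6,7,9], n 6 [13], p 7 [4,5], n 8 [4], n 9 [1], n 11 [5], n 12 [1], p 13 [1,2,15], n 14 [5]]) (br 12 13 (br 9 12 (br 12 15 (hi 12) (cost [p 1 [2,10,13], p 2 [1,12], n 4 [8], p 5 [0,6,7], n 6 [13], p 7 [4,5], n 8 [4,15], n 9 [1], n 11 [5], p 12 [2,11],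 p 13 [1,15], n 14 [5], n 15 [8]])) (cost [p 1 [2,10,13], n 2 [7], n 4 [8], p 5 [0,6,7], n 6 [13], p 7 [4,5], n 8 [4], n 9 [1,13], n 11 [5], n 12 [1], n 13 [6,9], n 14 [5]])) (lo 13))) (lo 8)))) (br 9 11 (br 11 14 (br 9 14 (tri 9 11 14) (cost [p 1 [2,10,13], n 2 [7,14], p 5 [0,6,7], n 6 [9], p 7 [4,5], n 8 [11], n 9 [1,6], n 11 [5,8], p 13 [1,15], n 14 [2,5]])) (lo 11)) (lo 11)))) (lo 7)))) (cost [p 1 [2,10,13], n 2 [7], n 4 [10], n 5 [11,14,15], n 7 [2,10], n 9 [1], n 10 [4,7], n 11 [5], n 12 [1], n 14 [5], n 15 [5]]))) (br 7 14 (br 7 15 (br 11 14 (tri 7 11 14) (br 11 15 (tri 7 11 15) (br 8 11 (br 8 12 (br 8 13 (hi 8) (br 8 15 (hi 8) (br 10 15 (br 9 10 (hi 10) (br 9 14 (br 12 14 (hi 14) (br 9 11 (cost [p 1 [2,10,14], p 2 [1,11], n 4 [8], p 5 [0,6], p 6 [5,7], p 7 [4,6,9], p 8 [3,9], p 9 [7,8], p 11 [2,12,14],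 n 12 [1], n 13 [6], p 14 [1,11,15]]) (br 9 12 (br 9 13 (cost [p 1 [2,10,14], p 2 [1,12], n 3 [14], p 4 [7,9], p 5 [0,6,9], p 6 [5,7], p 7 [4,6], p 8 [3,9], p 9 [4,5,8], p 12 [2,11], p 13 [2,14], p 14 [1,13,15]]) (cost [p 1 [2,10,14], p 2 [1,12], n 3 [14], n 4 [8], p 5 [0,6], p 6 [5,7], p 7 [4,6], p 8 [3,9], n 9 [1,11], n 11 [9], p 12 [2,11], n 13 [6], n 14 [3,5]])) (cost [p 1 [2,10,14], n 2 [7], n 3 [9,14], p 5 [0,6], p 6 [5,7], p 7 [4,6], n 8 [4], n 9 [1,3], n 12 [1,14], n 14 [3,5,12]])))) (cost [p 1 [2,10,14], n 2 [7,14], n 4 [8], p 5 [0,6], n 6 [9,13], p 7 [4,6], n 8 [4], n 9 [1,6], n 12 [1], n 13 [6], n 14 [2,5]]))) (cost [p 1 [2,10], n 2 [7], n 4 [8,10], n 5 [14,15], n 6 [15], n 7 [2,10], n 8 [4], n 9 [1], n 10 [4,7], n 13 [6], n 15 [5,6]])))) (br 8 13 (br 8 15 (hi 8) (br 11 13 (tri 8 11 13) (cost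 [p 1 [2,10,14], p 2 [1,13], n 4 [11], p 5 [0,6,8], p 6 [5,7], n 7 [2,13], n 8 [15], n 9 [1], n 11 [4,5], n 12 [1], n 13 [7], n 15 [8]]))) (br 8 15 (br 10 15 (cost [p 1 [2,10,14], n 2 [7], p 5 [0,6], p 6 [5,7,15], p 7 [4,6,8], p 8 [7,10], n 9 [1], p 10 [1,8], n 12 [1], n 13 [6], p 14 [1,15], p 15 [6,11,14]]) (cost [p 1 [2,10,14], n 2 [7], n 4 [10], n 5 [14,15], p 6 [5,7], p 7 [4,6,8], n 9 [1], n 10 [4,7], n 12 [1], n 13 [6], p 14 [1,15], p 15 [11,14]])) (lo 8)))) (br 9 11 (br 10 15 (br 9 10 (hi 10) (br 8 12 (br 8 13 (br 8 15 (hi 8) (br 12 13 (tri 8 12 13) (br 9 14 (br 12 14 (hi 14) (cost [p 1 [2,10,14], p 2 [1,13], n 3 [14], p 5 [0,6,8], p 6 [5,7], p 7 [4,6,9], n 8 [7], n 9 [1], n 11 [6], n 12 [1,5], p 14 [1,11,15]])) (cost [p 1 [2,10,14], n 2 [7,14], p 5 [0,6,8], n 6 [9,11], n 7 [2,8], n 8 [7], n 9 [1],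 n 11 [6], n 12 [1], n 14 [2,5]])))) (br 8 15 (cost [p 1 [2,10,14], n 2 [7], p 5 [0,6], p 6 [5,7,15], p 7 [4,6], n 8 [11], n 9 [1], p 10 [1,8], n 11 [6,8], n 12 [1], n 13 [6], p 14 [1,15], p 15 [6,14]]) (lo 8))) (br 8 13 (br 8 15 (cost [p 1 [2,10], p 2 [1,13], n 3 [8], p 4 [7,8], p 5 [0,6,8], p 6 [5,7], p 7 [4,6], p 8 [4,5,10], n 9 [1], p 10 [1,8], n 12 [1], p 13 [2,15], p 14 [1,15], p 15 [6,14]]) (lo 8)) (lo 8)))) (cost [p 1 [2,10,14], n 2 [7], n 4 [10], n 5 [14,15], p 6 [5,7], n 7 [2,10], n 9 [1], n 10 [4,7], n 11 [6], n 12 [1], p 14 [1,15], n 15 [5]])) (lo 11))))) (lo 7)) (lo 7))))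

def t22 : T :=
  (br 7 10 (br 9 10 (tri 7 9 10) (br 7 11 (br 7 13 (hi 7) (br 7 14 (hi 7) (br 7 15 (hi 7) (cost [p 1 [2,10,11], p 3 [6,7], n 4 [6,7], p 5 [0,7], n 6 [4,10], p 7 [3,5,6], n 8 [3,7], p 10 [1,11], p 11 [1,10,12], n 14 [1]])))) (br 7 12 (sym 10) (br 7 13 (br 7 14 (hi 7) (br 7 15 (hi 7) (br 8 13 (cost [p 1 [2,10,13], n 3 [8], n 4 [6], p 5 [0,7,8], n 6 [4,10], p 7 [5], n 8 [3], p 10 [1,13], p 13 [1,2,10], n 14 [1], n 15 [1]]) (cost [p 1 [2,10,13], n 3 [8], n 4 [6], p 5 [0,7], n 6 [4,10], p 7 [5], n 8 [3,7,13], p 10 [1,13], p 13 [1,10], n 14 [1], n 15 [1]])))) (br 7 14 (br 7 15 (hi 7) (br 9 14 (tri 7 9 14) (br 10 14 (tri 7 10 14) (br 10 15 (br 8 14 (br 8 13 (br 8 15 (hi 8) (cost [p 1 [2,10], p 2 [1,13], n 3 [8], n 4 [6], p 5 [0,7,8], n 6 [4,10], n 8 [3,10,15], n 10 [6,8], p 13 [2,14], n 14 [5],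 n 15 [8]])) (br 8 15 (br 9 15 (cost [p 1 [2,10], p 2 [1,15], n 3 [8], n 4 [6], p 5 [0,7], n 6 [4,10], p 7 [5,15], n 8 [3,13], p 9 [8,10], p 10 [1,9], n 13 [8], n 14 [5], p 15 [2,7,14]]) (br 9 13 (br 11 14 (br 12 14 (hi 14) (cost [p 1 [2,10], p 2 [1,13], n 3 [8], n 4 [6], p 5 [0,7,9], n 6 [4,10], n 8 [3,13], n 10 [6], n 12 [14], n 13 [8], n 14 [5,12], n 15 [1]])) (cost [p 1 [2,10], p 2 [1,13], n 3 [8], n 4 [6], p 5 [0,7,9], n 6 [4,10], n 8 [3,13], n 10 [6], n 11 [14], n 13 [8], n 14 [5,11], n 15 [1]])) (cost [p 1 [2,10], n 3 [8], n 4 [6,9], p 5 [0,7], n 6 [4,10], n 7 [13], n 8 [3,13], n 9 [4], n 10 [6], n 13 [7,8], n 14 [5], n 15 [1]]))) (lo 8))) (cost [p 1 [2,10], n 2 [14], n 3 [8], n 4 [6], p 5 [0,7], n 6 [4,10], n 7 [8], n 8 [3,7,14], n 10 [6], n 14 [2,5,8], n 15 [1]])) (lo 10))))) (br 7 15 (sym 13) (lo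 7))))))) (br 7 11 (br 9 11 (tri 7 9 11) (br 7 12 (br 7 14 (hi 7) (cost [p 1 [2,11,12], n 2 [11], p 3 [6,7], n 4 [6], p 6 [3,7], p 7 [3,6], n 8 [3], n 10 [6], p 11 [1,12], p 12 [1,11], n 14 [1]])) (br 7 13 (br 7 14 (hi 7) (br 7 15 (hi 7) (br 11 13 (tri 7 11 13) (br 8 13 (cost [p 1 [2,11,13], p 2 [1,13], n 3 [8], n 4 [6], p 5 [0,7,8], n 6 [4,10], p 7 [5,6], n 8 [3], n 10 [6], n 11 [2], p 13 [1,2], n 14 [1], n 15 [1]]) (cost [p 1 [2,11,13], n 2 [11], n 3 [8], n 4 [6], p 5 [0,7], n 6 [4,10], p 7 [5,6], n 8 [3,13], n 10 [6], n 11 [2,5], n 13 [8], n 14 [1]]))))) (br 7 14 (br 7 15 (hi 7) (br 9 14 (tri 7 9 14) (br 8 14 (br 8 13 (br 8 15 (hi 8) (br 9 10 (cost [p 1 [2,11], p 2 [1,10,13], n 3 [8], n 4 [6], p 5 [0,8,9], n 6 [4,10], n 8 [3,15], n 10 [6], p 11 [1,12], p 13 [2,14], n 15 [1,8]]) (br 10 14 (br 10 15 (br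 12 14 (hi 14) (cost [p 1 [2,11], p 2 [1,13], n 3 [8], p 4 [8,10], p 5 [0,8], n 6 [4,10], n 8 [3,15], n 10 [6], p 11 [1,12], n 12 [14], p 13 [2,14], p 14 [13,15], n 15 [1,8]])) (lo 10)) (lo 10)))) (br 8 15 (br 9 12 (br 10 14 (br 12 14 (hi 14) (br 9 10 (cost [p 1 [2,11], p 2 [1,10], p 3 [6,9], n 4 [6], n 6 [4,10], p 7 [6,10], n 8 [3,13], p 9 [3,5,14], p 10 [2,7,12], p 11 [1,12], p 12 [10,11], n 13 [8]]) (br 10 15 (br 9 15 (br 9 13 (hi 9) (br 11 13 (br 11 15 (hi 11) (cost [p 1 [2,11], p 2 [1,15], n 3 [8], p 4 [8,10], n 6 [4,10], p 8 [4,9,10], p 10 [4,8], n 11 [2,15], n 12 [14], n 13 [8], p 14 [15], p 15 [2,14]])) (lo 13))) (cost [p 1 [2,11], n 2 [11], n 3 [8], p 4 [8,10], n 6 [4,10], n 8 [3,13], n 9 [10], n 10 [6,9], p 11 [1,12], n 12 [14], n 13 [8], p 14 [15], p 15 [14]])) (lo 10)))) (cost [p 1 [2,11], n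 2 [11], n 3 [8], n 4 [6], n 5 [14], n 6 [4,10], n 8 [3,13], n 10 [6,14], p 11 [1,12], n 13 [8], n 14 [5,10], n 15 [1]])) (cost [p 1 [2,11], n 2 [11,12], n 3 [8], n 4 [6], n 6 [4,9,10], n 8 [3,13], n 9 [6], n 10 [6], p 11 [1,12], n 12 [2], n 13 [8], n 15 [1]])) (lo 8))) (cost [p 1 [2,11], n 2 [11,14], n 3 [8], n 4 [6], n 6 [4,10], n 7 [8], n 8 [3,7,14], n 10 [6], p 11 [1,12], n 14 [2,8], n 15 [1]])))) (br 7 15 (sym 13) (lo 7)))))) (br 7 12 (sym 10) (br 7 13 (br 7 14 (br 7 15 (hi 7) (br 9 14 (tri 7 9 14) (br 8 14 (br 8 13 (cost [p 1 [2,13], p 2 [1,13], n 3 [8], p 5 [0,7,8], n 6 [4,10], p 7 [4,5,8], p 8 [4,5], n 10 [6], p 13 [1,2,14], p 14 [13], n 15 [1]]) (br 8 15 (br 9 10 (cost [p 1 [2,13], p 2 [1,10], n 3 [7,8], p 4 [7,8], p 5 [0,7,9], n 6 [4,10], p 7 [4,5], n 8 [3,13], n 10 [6], p 13 [1,14], p 14 [13,15],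 n 15 [1]]) (br 10 14 (br 10 15 (cost [p 1 [2,13], n 3 [7,8], p 4 [7,8,10], p 5 [0,7], n 6 [4,10], p 7 [4,5], n 8 [3,13], p 10 [4,8], p 13 [1,14], p 14 [13,15], p 15 [14]]) (lo 10)) (lo 10))) (lo 8))) (cost [p 1 [2,13], n 2 [14], n 3 [7,8], n 4 [6], p 5 [0,7], n 6 [4,10], p 7 [4,5], n 8 [3,14], n 10 [6], p 13 [1,14], n 14 [2,8], n 15 [1]])))) (br 7 15 (sym 13) (lo 7))) (br 7 14 (br 7 15 (br 9 14 (tri 7 9 14) (br 9 15 (tri 7 9 15) (br 8 13 (br 8 14 (br 8 15 (hi 8) (br 9 10 (cost [p 2 [1,10,13], n 3 [7,8], p 4 [7,8], p 5 [0,8,9], n 6 [4,10], n 7 [3], n 8 [3,15], n 10 [6], p 13 [2,14], p 14 [13,15], n 15 [8]]) (cost [p 2 [1,13], n 3 [7,8], p 4 [7,8], p 5 [0,8], n 6 [10], n 7 [3], n 8 [3,15], n 9 [10], n 10 [6,9], p 13 [2,14], p 14 [13,15], n 15 [2,8]]))) (br 8 15 (sym 13) (lo 8))) (br 8 14 (br 8 15 (br 9 13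 (br 9 10 (cost [p 2 [1,10,13], n 3 [7,8], p 4 [7,8], p 5 [0,9], n 6 [4,10], p 7 [4,8], n 8 [3], p 9 [5], p 10 [2,13], p 13 [2,10], p 14 [15], p 15 [14]]) (cost [p 2 [1,13], n 3 [7,8], p 4 [7,8], p 5 [0,9], n 6 [4,10], p 7 [4,8], n 8 [3,13], n 9 [10], n 10 [6,9], n 13 [8], p 14 [15], p 15 [14]])) (cost [n 3 [7,8], n 4 [6,9], n 6 [4,10], n 7 [3,13], n 8 [3,13], n 9 [4], n 10 [6], n 13 [7,8], p 14 [15], p 15 [14]])) (lo 8)) (lo 8))))) (lo 7)) (lo 7))))))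

def t23 : T :=
  (br 7 14 (br 7 15 (hi 7) (br 9 14 (tri 7 9 14) (br 10 14 (tri 7 10 14) (br 12 14 (br 9 11 (br 8 12 (br 9 12 (cost [p 1 [2,10,14], p 2 [1,12], p 5 [0,7], p 6 [7,12], p 7 [5,6,12], p 8 [9,14], p 9 [3,8,14], p 12 [2,6,7,11], p 14 [1,8,9], n 15 [1]]) (br 8 13 (br 8 15 (hi 8) (br 12 13 (tri 8 12 13) (cost [p 1 [2,10,14], p 2 [1,13], p 5 [0,7,8], p 6 [7,12], p 7 [5,6], n 8 [7,10], n 10 [6,8], n 12 [1,5], n 14 [2,5], n 15 [1]]))) (br 8 15 (br 12 15 (tri 8 12 15) (br 12 13 (br 9 13 (br 11 13 (tri 9 11 13) (cost [p 1 [2,10,14], p 2 [1,13], p 5 [0,7,9], n 6 [10,13], p 7 [5,6], n 8 [7], n 10 [6], n 11 [5], p 12 [4,6], p 13 [2,14], p 14 [1,8,13], n 15 [1]])) (cost [p 1 [2,10,14], n 2 [14], p 5 [0,7], p 6 [7,12], n 7 [8,13], n 8 [7], n 9 [12], n 10 [6], n 12 [1,9], n 13 [7], p 14 [1,8,13], n 15 [1]]))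 (lo 12))) (lo 8)))) (br 8 13 (br 8 15 (cost [p 1 [2,10,14], p 2 [1,13], n 3 [8], p 5 [0,7,8], n 6 [10], p 7 [5,6], n 8 [3,7], n 10 [6], n 12 [1], p 13 [2,15], n 14 [2,5], n 15 [1]]) (lo 8)) (lo 8))) (cost [p 1 [2,10], n 2 [11,14], p 5 [0,7], n 6 [9,10], n 7 [8,11], n 8 [7], n 9 [6], n 10 [6], n 11 [2,7], n 12 [1], n 14 [2], n 15 [1]])) (lo 14))))) (br 7 15 (br 9 15 (tri 7 9 15) (br 10 15 (tri 7 10 15) (br 10 14 (br 8 12 (br 8 13 (br 8 15 (hi 8) (br 11 15 (br 12 15 (br 12 13 (tri 8 12 13) (br 9 13 (cost [p 1 [2,10], p 2 [1,13], p 5 [0,7,8,9], n 7 [8], n 8 [7,10], p 9 [5,8], n 10 [8], n 12 [1,5], p 13 [2], n 15 [2,5]]) (br 11 13 (cost [p 1 [2,10], p 2 [1,13], p 5 [0,7,8], n 7 [8], n 8 [7,10], n 10 [8], p 11 [4,8,12], n 12 [1,5], p 13 [2,6,15], n 15 [2,5]]) (lo 13)))) (lo 15)) (lo 15))) (br 8 15 (br 12 15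 (tri 8 12 15) (br 11 15 (br 9 11 (br 11 13 (hi 11) (br 9 13 (br 9 12 (hi 9) (br 9 14 (hi 9) (cost [p 1 [2,10], p 2 [1,13], p 5 [0,7,9], n 6 [13], p 7 [5,11], n 8 [10], p 9 [5,15], n 10 [8], p 11 [7,8], n 12 [1,7], n 13 [6], n 14 [2,9], p 15 [6,9]]))) (lo 13))) (br 11 13 (br 9 12 (br 9 13 (br 9 14 (hi 9) (br 12 13 (tri 9 12 13) (cost [p 1 [2,10], p 2 [1,12,13], p 5 [0,7,9], n 6 [9], n 8 [10,13], p 9 [5,8], n 10 [8], p 11 [4,8], n 12 [1,5], p 13 [2,15], n 14 [2], p 15 [6,13]]))) (br 9 14 (br 12 13 (br 12 14 (tri 9 12 14) fin) (lo 13)) (lo 9))) (br 9 13 (br 9 14 (cost [p 1 [2,10], p 2 [1,13], n 3 [9], p 4 [9,11], p 5 [0,7,9], p 7 [5,14], p 9 [4,5,10], p 10 [1,9], p 11 [4,8], n 12 [1,7], p 13 [2,14,15], p 14 [7,13]]) (lo 9)) (lo 9))) (lo 11))) (lo 15))) (lo 8))) (br 8 13 (br 8 15 (br 9 11 (br 9 12 (br 9 13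 (hi 9) (br 9 14 (hi 9) (br 12 14 (br 11 13 (cost [p 1 [2,10], p 2 [1,13], p 3 [9,14], n 4 [9], p 5 [0,7,8], n 7 [13], p 8 [4,5], n 9 [4], p 10 [1,12], p 11 [8,12], p 12 [10,11], p 13 [2,6,15], n 14 [2], n 15 [5]]) (cost [p 1 [2,10], p 2 [1,13], p 3 [9,14], n 4 [9], p 5 [0,7], n 7 [13], n 8 [10], n 9 [4], p 10 [1,12], n 11 [5,13], p 12 [10,11], n 13 [7,11], n 14 [2], n 15 [5]])) (lo 14)))) (br 12 13 (br 12 14 (br 12 15 (cost [p 1 [2,10], p 2 [1,13], p 4 [8,12], p 5 [0,7,8], p 8 [5,12], p 10 [1,12], p 12 [4,8,10], p 13 [14,15], p 14 [3,13,15], p 15 [13]]) (lo 12)) (lo 12)) (lo 12))) (br 11 13 (br 11 15 (cost [p 1 [2,10], p 2 [1,13], n 3 [8], p 4 [8,11], p 5 [0,7,8], p 6 [13,15], p 8 [4,11], p 11 [4,8], n 12 [1], p 13 [2,15], p 15 [6,13]]) (lo 11)) (lo 11))) (lo 8)) (lo 8))) (lo 10)))) (lo 7)))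

def t24 : T :=
  (br 7 12 (br 7 13 (hi 7) (br 7 14 (hi 7) (br 7 15 (hi 7) (br 9 12 (tri 7 9 12) (br 8 12 (br 8 13 (br 8 15 (hi 8) (br 12 13 (tri 8 12 13) (br 9 11 (br 9 13 (br 9 14 (hi 9) (cost [p 1 [2,10], p 2 [1,13], n 4 [7], p 5 [0,7,8,9], p 7 [3,5], p 8 [5,9], p 9 [5,8], p 10 [1,12], n 12 [5], p 13 [2], n 14 [2,9], n 15 [1]])) (br 11 13 (br 11 15 (hi 11) (br 9 15 (br 9 14 (hi 9) (cost [p 1 [2,10], p 2 [1,13], n 4 [7], p 5 [0,7,8], n 6 [15], n 7 [4,13], p 8 [5,11], n 9 [14], p 10 [1,12], n 12 [5], p 13 [2,6], n 14 [9], n 15 [1,6]])) (lo 15))) (lo 13))) (br 11 13 (cost [p 1 [2,10], p 2 [1,13], n 3 [9], n 4 [7], p 5 [0,7,8], n 7 [4,11], p 8 [5,11], n 9 [3], p 10 [1,12], n 11 [2,7], n 12 [5], p 13 [2,6], n 15 [1]]) (lo 11))))) (br 8 15 (br 12 15 (tri 8 12 15) (br 9 11 (br 9 13 (br 9 14 (hi 9) (br 9 15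 (hi 9) (br 10 14 (br 10 15 (hi 10) (lo 15)) (lo 14)))) (br 11 13 (br 11 15 (hi 11) (br 12 13 (br 12 14 (hi 12) (br 9 14 (br 9 15 (hi 9) (lo 15)) (lo 14))) (lo 13))) (lo 13))) (br 11 13 (br 11 15 (br 9 14 (br 10 14 (br 10 15 (hi 10) (cost [p 1 [2,10], n 2 [11], n 3 [9], n 4 [7], p 5 [0,7], p 7 [3,5,14], n 8 [10], n 9 [3], p 10 [1,9,12], n 11 [2,7], n 15 [1,5,10]])) (cost [p 1 [2,10], n 2 [11], n 3 [9], n 4 [7], p 5 [0,7], n 6 [10], n 7 [4,11], n 9 [3], n 10 [6,14], n 11 [2,7], n 14 [5,10], p 15 [6,13]])) (cost [p 1 [2,10], n 2 [11,14], n 3 [9], n 4 [7], p 5 [0,7], n 6 [9], n 7 [4,11], n 9 [3,14], p 10 [1,12], n 11 [2,7], n 14 [2,9]])) (lo 11)) (lo 11)))) (lo 8))) (br 8 13 (br 8 15 (br 9 11 (br 9 14 (br 10 14 (cost [p 1 [2,10], p 2 [1,13], n 3 [8], n 4 [7], p 5 [0,7,8], p 7 [3,5,14], n 8 [3,7], p 9 [6,10],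 p 10 [1,9,12], p 13 [2,15], p 14 [7,11], n 15 [1]]) (cost [p 1 [2,10], p 2 [1,13], n 3 [8], n 4 [7], p 5 [0,7,8], n 6 [10], n 7 [4,8], n 8 [3,7], n 10 [6,14], n 12 [2], n 14 [10], n 15 [1]])) (cost [p 1 [2,10], n 2 [12,14], n 3 [8], n 4 [7], p 5 [0,7,8], n 7 [4,8], n 8 [3,7], n 9 [14], p 10 [1,12], n 12 [2], n 14 [2,9]])) (cost [p 1 [2,10], n 2 [11,12], n 3 [8,9], n 4 [7], p 5 [0,7,8], n 7 [4,8,11], n 8 [3,7], n 9 [3], n 11 [7], n 12 [2]])) (lo 8)) (lo 8))))))) (br 7 13 (br 7 14 (hi 7) (br 7 15 (hi 7) (br 9 13 (tri 7 9 13) (br 8 13 (sym 14) (br 8 12 (br 8 15 (br 12 15 (tri 8 12 15) (br 9 11 (br 9 12 (br 9 14 (hi 9) (br 9 15 (hi 9) (br 10 14 (br 10 15 (hi 10) (lo 15)) (lo 14)))) (br 12 13 (br 12 14 (br 11 13 (hi 13) (br 11 15 (br 9 15 (tri 9 11 15) (br 9 14 (cost [p 1 [2,10,13], p 5 [0,7], p 6 [9,12,15],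 p 7 [5], p 8 [11,14], p 10 [1,13], n 11 [5], p 12 [4,6], p 13 [1,10,14], p 14 [8,11,13], n 15 [1]]) (lo 9))) (lo 11))) (lo 12)) (lo 12))) (br 11 13 (br 11 15 (br 12 13 (hi 13) (cost [p 1 [2,10,13], n 2 [11], p 5 [0,7], p 7 [5], n 8 [7,13], p 10 [1,13], p 11 [4,8], n 12 [1,5,13], p 13 [1,10,15], p 15 [6,13]])) (lo 11)) (lo 11)))) (lo 8)) (lo 8)))))) t23))

def t25 : T :=
  (br 7 12 (br 7 14 (hi 7) (br 7 15 (hi 7) (br 9 12 (tri 7 9 12) (br 8 12 (br 8 13 (br 8 15 (hi 8) (br 12 13 (tri 8 12 13) (br 11 13 (br 11 15 (hi 11) (br 9 13 (hi 13) (cost [p 1 [2,11], p 2 [1,13], n 4 [7], p 5 [0,8], p 6 [7,13], p 7 [3,6], p 8 [5,11], n 9 [13], n 10 [8], p 11 [1,8,12], n 12 [5], p 13 [2,6], n 15 [1,6,11]]))) (cost [p 1 [2,11], p 2 [1,13], n 3 [13], n 4 [7], n 5 [11,12], p 7 [3,6], n 8 [10], n 10 [8], n 11 [2,5,13], n 12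 [5], n 13 [3,11], n 15 [1]])))) (br 8 15 (br 12 15 (tri 8 12 15) (br 9 10 (br 9 13 (br 9 14 (hi 9) (br 9 15 (hi 9) (br 10 14 (br 10 15 (hi 10) (lo 15)) (lo 14)))) (br 11 13 (br 11 15 (hi 11) (br 12 13 (br 12 14 (hi 12) (br 9 14 (br 9 15 (hi 9) (lo 15)) (lo 14))) (lo 13))) (lo 13))) (br 10 14 (br 10 15 (br 9 14 (br 12 14 (hi 14) (br 12 13 (br 9 13 (cost [p 1 [2,11], p 2 [1,13], n 3 [9], p 4 [9,10], p 5 [0,9], p 7 [3,6,13], p 9 [4,5,12], n 10 [7], p 11 [1,12], p 12 [9,11], p 13 [2,7,14], p 14 [13,15], n 15 [1]]) (br 9 15 (br 11 13 (cost [p 1 [2,11], p 2 [1,15], p 3 [7,13], p 4 [9,10], p 7 [3,6,13], p 9 [4,8,10], p 10 [4,9], p 11 [1,12], p 12 [11], p 13 [3,7], p 14 [15], p 15 [2,14]]) (lo 13)) (lo 9))) (lo 12))) (cost [p 1 [2,11], n 2 [11,14], n 3 [9], n 4 [7], n 6 [9], n 7 [4,10], n 9 [3,6,14], n 10 [7],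 p 11 [1,12], n 14 [2,9], n 15 [1]])) (lo 10)) (lo 10)))) (lo 8))) (br 8 13 (br 8 15 (br 9 10 (br 9 13 (cost [p 1 [2,11], p 2 [1,10,13], n 4 [7], p 5 [0,8,9], n 7 [4], p 8 [4,5,9], p 9 [5,8], p 10 [2,13], p 13 [2,15], n 15 [1]]) (cost [p 1 [2,11], p 2 [1,10,13], n 3 [8], n 4 [7], p 5 [0,8,9], n 7 [4,8], n 8 [3,7], n 9 [13], p 11 [1,12], n 12 [2], p 13 [2,15], n 15 [1]])) (cost [p 1 [2,11], n 2 [11,12], n 3 [8,9], n 4 [7], p 5 [0,8], n 7 [4,8,10], n 8 [7], n 9 [3], n 10 [7], p 11 [1,12], n 12 [2], p 13 [2,15]])) (lo 8)) (lo 8)))))) (br 7 14 (br 7 15 (hi 7) (br 9 14 (tri 7 9 14) (br 8 13 (sym 14) (br 8 12 (br 8 15 (br 12 15 (tri 8 12 15) (br 10 14 (br 12 14 (hi 14) (br 9 12 (br 12 13 (br 9 13 (tri 9 12 13) (br 11 13 (br 11 15 (hi 11) (cost [p 1 [2,11,14], n 2 [11,14], p 6 [7], p 7 [6], n 8 [7], n 9 [6], p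 11 [1,12,14], n 12 [1,14], n 14 [2,12], n 15 [1,11]])) (lo 13))) (lo 12)) (lo 12))) (cost [p 1 [2,11,14], n 2 [11,14], n 6 [9,10], p 7 [6], n 9 [6], n 10 [6,14], p 11 [1,14], n 12 [1], n 14 [2,5,10], n 15 [1]]))) (lo 8)) (lo 8))))) (br 7 15 (br 9 15 (tri 7 9 15) (br 11 15 (tri 7 11 15) (br 11 13 (br 8 12 (br 8 13 (br 8 15 (hi 8) (br 9 13 (hi 13) (br 12 13 (tri 8 12 13) (cost [p 1 [2,11], n 2 [11,15], p 5 [0,8], p 6 [7,13], n 7 [8], n 8 [7,10], n 9 [13], n 10 [8], p 11 [1,8], n 12 [1,5], p 13 [2,6], n 15 [2,6]])))) (br 8 15 (br 12 15 (tri 8 12 15) (br 10 15 (br 9 10 (br 10 14 (hi 10) (br 9 14 (br 9 12 (hi 9) (br 9 13 (hi 9) (br 12 13 (br 12 14 fin (lo 14)) (lo 13)))) (lo 14))) (br 10 14 (br 9 12 (br 9 13 (br 9 14 (hi 9) (br 12 13 (tri 9 12 13) (cost [p 1 [2,11], p 2 [1,12,13], p 5 [0,9], n 6 [9], p 7 [6,13],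 n 8 [13], p 9 [5,8,11], n 10 [9], p 11 [1,9], n 12 [1,5], p 13 [2,7], n 14 [2,7]]))) (br 9 14 (br 12 13 (br 12 14 (tri 9 12 14) fin) (lo 13)) (lo 9))) (br 9 13 (br 12 13 (hi 13) (lo 12)) (lo 9))) (lo 10))) (lo 15))) (lo 8))) (br 8 13 (br 8 15 (br 12 13 (hi 13) (br 9 12 (br 12 14 (br 12 15 (cost [p 1 [2,11], p 2 [1,13], n 3 [8], p 4 [8,12], p 5 [0,8], p 6 [7,13], p 7 [6,12], p 8 [4,5,11], p 11 [1,8], n 12 [1,5], p 13 [2,6,15], p 15 [9,13,14]]) (lo 12)) (lo 12)) (lo 12))) (lo 8)) (lo 8))) (lo 11)))) (lo 7))))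

def t26 : T :=
  (br 7 12 (br 7 13 (br 7 15 (hi 7) (br 12 13 (tri 7 12 13) (br 11 13 (br 8 13 (hi 13) (br 8 12 (br 8 15 (br 9 13 (hi 13) (br 12 15 (tri 8 12 15) (br 9 11 (br 11 15 (hi 11) (br 9 15 (br 10 15 (br 10 14 (hi 10) (cost [p 1 [2,10,13], p 2 [1,15], p 5 [0,7], n 6 [10], p 7 [3,5], n 8 [13], n 9 [1], p 10 [1,12,13], n 12 [5], p 13 [1,10], n 14 [5], n 15 [1]])) (lo 15)) (lo 15))) (cost [p 1 [2,10,13], n 2 [7,11], p 5 [0,7], p 7 [3,5], n 8 [13], n 9 [1,13], p 10 [1,12,13], n 11 [2], n 13 [8,9]])))) (lo 8)) (lo 8))) (cost [p 1 [2,10,13], n 2 [7], n 3 [13], p 5 [0,7], p 7 [3,5], n 9 [1], p 10 [1,12,13], n 11 [5,7], n 12 [5], p 13 [1,10], n 15 [1]])))) (br 7 14 (br 7 15 (hi 7) (br 10 14 (tri 7 10 14) (br 12 14 (tri 7 12 14) (br 9 14 (br 8 12 (br 8 15 (br 12 15 (tri 8 12 15) (br 9 11 (br 9 12 (cost [p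 1 [2,10,14], p 5 [0,7], p 6 [7,9], p 7 [3,5,6], p 9 [6,7,8], p 10 [1,12], p 11 [12,14], p 12 [2,10,11,14], p 14 [1,11,12], n 15 [1]]) (br 9 13 (cost [p 1 [2,10,14], n 3 [14], p 5 [0,7,9], p 6 [7,9], p 7 [3,5,6], p 9 [4,5,6], p 10 [1,12], n 11 [7], p 13 [2,14], p 14 [1,11,13], n 15 [1]]) (cost [p 1 [2,10,14], n 2 [7], n 3 [14], p 5 [0,7], p 6 [7,9], p 7 [3,5,6], n 9 [1,12], p 10 [1,12], n 11 [7], n 12 [9], n 14 [3,5], n 15 [1]]))) (cost [p 1 [2,10,14], n 2 [7,11], n 3 [14], p 5 [0,7], n 6 [10], p 7 [3,5,6], n 9 [1], p 10 [1,12], n 11 [2,7], n 14 [3,5], n 15 [1]]))) (cost [p 1 [2,10,14], n 2 [7], n 3 [14], p 5 [0,7], n 6 [10], p 7 [3,5,6], n 8 [10], n 9 [1], n 10 [6,8], n 11 [7], n 14 [3,5], n 15 [1]])) (cost [p 1 [2,10], n 2 [7], n 3 [14], p 5 [0,7], n 6 [10,12], n 7 [2,8,11], n 8 [3,7], n 9 [1], n 11 [7],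 n 12 [6], n 14 [5], n 15 [1]])) (lo 14))))) (br 7 15 (br 10 15 (tri 7 10 15) (br 12 15 (tri 7 12 15) (br 8 12 (br 8 13 (br 8 15 (hi 8) (br 9 15 (br 11 15 (br 9 11 (tri 9 11 15) (br 11 13 (br 12 13 (tri 8 12 13) (cost [p 1 [2,10], n 2 [7,11], p 5 [0,7,8], n 7 [2], n 8 [10,15], n 9 [1], p 10 [1,12], p 11 [4,8], n 12 [5], p 13 [2,6,15], n 15 [5,8]])) (lo 11))) (lo 15)) (lo 15))) (br 8 15 (br 10 14 (br 9 10 (hi 10) (br 12 14 (cost [p 1 [2,10], n 2 [7], p 3 [7,14], p 5 [0,7], p 7 [3,5,8,14], p 8 [7,14], p 10 [1,12], p 12 [6,10,15], p 14 [3,7,8], n 15 [5]]) (br 9 14 (br 12 13 (br 9 12 (hi 12) (br 9 11 (br 9 13 (br 11 13 (tri 9 11 13) (cost [p 1 [2,10], p 2 [1,13], p 5 [0,7,9], n 6 [13], p 7 [3,5,8], n 8 [10], p 9 [4,5,6], p 10 [1,12], n 11 [5], p 12 [10,15], p 13 [2,14], p 14 [11,13], n 15 [5]])) (br 9 15 (br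 11 13 (cost [p 1 [2,10], p 2 [1,15], p 3 [7,13], p 5 [0,7], p 7 [3,5,8], p 8 [7,9], p 9 [4,6,8], p 10 [1,12], p 11 [12,14], p 12 [10,11,15], p 14 [11,15], p 15 [2,12,14]]) (lo 13)) (lo 9))) (br 9 13 (cost [p 1 [2,10], n 2 [7,11], n 3 [9], p 5 [0,7,9], p 7 [3,5,8], n 8 [10], n 9 [1,3], p 10 [1,12], n 11 [2], p 12 [10,15], p 13 [2,14], n 15 [5]]) (lo 9)))) (cost [p 1 [2,10], n 2 [7], n 4 [12], n 5 [12,15], p 7 [3,5,8], n 8 [10,13], n 9 [1], p 10 [1,12], n 12 [4,5], n 13 [7,8], n 15 [5]])) (lo 14)))) (cost [p 1 [2,10], n 2 [7], n 4 [10], n 5 [14,15], n 6 [10], p 7 [3,5,8], n 8 [10], n 9 [1], n 10 [4,6,8], p 12 [10,15], n 14 [5], n 15 [5]])) (lo 8))) (br 8 13 (br 8 15 (br 10 14 (br 9 10 (hi 10) (br 9 14 (br 12 14 (hi 14) (br 9 12 (br 12 13 (br 9 13 (tri 9 12 13) (br 11 13 (hi 13) (cost [p 1 [2,10], p 2 [1,13],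 n 3 [8], p 5 [0,7,8], n 6 [12], p 7 [3,5], n 8 [3,10], n 9 [1], p 10 [1,12], n 11 [5,13], n 12 [6], p 13 [2,15], n 15 [5]]))) (lo 12)) (lo 12))) (cost [p 1 [2,10], n 2 [7,14], n 3 [8], p 5 [0,7,8], p 7 [3,5], n 8 [3,10], n 9 [1,10], n 10 [8,9], p 13 [2,15], n 14 [2], n 15 [5]]))) (cost [p 1 [2,10], p 2 [1,13], n 3 [8], n 4 [10], p 5 [0,7,8], n 6 [10], p 7 [3,5], n 8 [3,10], n 9 [1], n 10 [4,6,8], n 14 [5], n 15 [5]])) (lo 8)) (lo 8))))) (lo 7)))) (br 7 13 (br 7 14 (sym 14) (br 7 15 (sym 14) (lo 7))) (br 7 14 (br 7 15 (br 10 14 (tri 7 10 14) (br 10 15 (tri 7 10 15) (cost [p 1 [2,10,14], n 2 [7], n 4 [10], n 5 [14,15], n 6 [10], p 7 [4,5,6], n 8 [10], n 9 [1], n 10 [4,8], n 12 [1], p 14 [1,15], n 15 [5]]))) (lo 7)) (lo 7))))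

def t27 : T :=
  (br 7 14 (br 7 15 (hi 7) (br 12 14 (tri 7 12 14) (br 10 14 (br 9 14 (hi 14) (br 8 12 (br 10 15 (br 9 10 (hi 10) (br 8 15 (br 8 13 (hi 8) (br 9 11 (br 11 13 (hi 11) (cost [p 1 [2,11,14], n 2 [7,14], n 5 [11], p 6 [7], p 7 [3,6], n 9 [1,14], p 11 [1,12,14], n 13 [6], p 14 [1,11,15], n 15 [1]])) (cost [p 1 [2,11,14], n 2 [7,11,14], p 6 [7], p 7 [3,6], n 9 [1,6,14], p 11 [1,12,14], p 14 [1,11,15], n 15 [1]]))) (cost [p 1 [2,11,14], n 2 [7,14], p 6 [7], p 7 [3,6], n 8 [10], n 9 [1,14], n 10 [8], p 11 [1,12,14], p 14 [1,11,15], n 15 [1]]))) (cost [p 1 [2,11,14], n 2 [7,14], n 5 [15], p 6 [7], p 7 [3,6], n 8 [10], n 9 [1], n 10 [8], p 11 [1,12,14], p 14 [1,11], n 15 [1,5]])) (cost [p 1 [2,11,14], n 2 [7,14], n 3 [8], p 6 [7], p 7 [3,6], n 8 [3,7], n 9 [1], p 11 [1,12,14], n 12 [6], p 14 [1,11],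 n 15 [1]]))) (cost [p 1 [2,11,14], n 2 [7], n 3 [14], n 5 [14], p 6 [7], p 7 [3,6], n 9 [1], n 10 [6,7], p 11 [1,12,14], n 14 [3,5], n 15 [1]])))) (br 7 15 (br 11 15 (tri 7 11 15) (br 12 15 (tri 7 12 15) (br 8 12 (br 8 13 (br 8 15 (hi 8) (br 9 15 (br 10 15 (br 9 10 (tri 9 10 15) (br 10 14 (br 12 13 (tri 8 12 13) (br 9 12 (cost [p 1 [2,11], p 2 [1,12,13], p 5 [0,8], n 6 [15], p 7 [3,6,9], n 8 [10,15], p 9 [7,8], n 10 [8], p 11 [1,12], p 12 [2,11,15], n 15 [6,8]]) (br 12 14 (cost [p 1 [2,11], p 2 [1,13], p 3 [7,14], p 5 [0,8], p 6 [7,12], p 7 [3,6], n 8 [15], n 9 [1], p 10 [4,12], p 11 [1,12], p 12 [6,10,11], p 14 [3,8,15], n 15 [6,8]]) (lo 12)))) (lo 10))) (lo 15)) (lo 15))) (br 8 15 (br 9 10 (br 9 11 (br 11 13 (hi 11) (br 9 13 (cost [p 1 [2,11], p 2 [1,10,13], n 4 [11], p 5 [0,9], p 7 [3,6,8], p 9 [3,5],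 p 10 [2,11,13], p 11 [1,10,12], p 12 [11,15], p 13 [2,10]]) (lo 13))) (br 11 13 (br 9 12 (br 12 13 (hi 12) (cost [p 1 [2,11], p 2 [1,10,12], p 3 [7,9], p 5 [0,9], p 7 [3,6,8], p 8 [7,9], p 9 [3,5,8], p 10 [2,12], p 11 [1,12], p 12 [2,10,11,15], n 13 [8]])) (br 9 13 (br 12 13 (hi 13) (br 12 14 (cost [p 1 [2,11], p 2 [1,10,13], p 5 [0,9], p 6 [7,12], p 7 [3,6,8], p 8 [7,14], p 9 [5], p 10 [2,13], p 11 [1,12], p 12 [6,11,15], n 13 [8,12]]) (lo 12))) (br 9 14 (br 9 15 (cost [p 1 [2,11], p 2 [1,10,15], p 5 [0,9], p 7 [3,6,8], p 8 [7,9], n 9 [1,11,13], n 11 [2,9], p 12 [11,15], n 13 [9], p 15 [2,12,14]]) (lo 9)) (lo 9)))) (lo 11))) (br 10 14 (br 10 15 (br 9 15 (hi 15) (br 12 14 (cost [p 1 [2,11], n 2 [7], p 6 [7,12], p 7 [3,6,8], p 8 [7,14], n 9 [1,15], p 10 [4,12], p 11 [1,12], p 12 [6,10,11,15], p 14 [3,8,15],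 p 15 [12,14]]) (br 9 14 (br 9 11 (br 11 13 (hi 11) (br 9 13 (cost [p 1 [2,11], p 2 [1,13], p 4 [9,10], p 5 [0,9], p 6 [7,9], p 7 [3,6,8], p 9 [4,5,6], p 11 [1,12,14], p 12 [11,15], p 13 [2,14], p 14 [11,13,15], p 15 [12,14]]) (lo 13))) (br 9 12 (br 9 13 (cost [p 1 [2,11], p 2 [1,12,13], p 4 [9,10], p 5 [0,9], p 7 [3,6,8], p 8 [7,9], p 9 [4,5,8], p 11 [1,12], p 12 [2,11,15], p 13 [2,14], p 14 [13,15], p 15 [12,14]]) (lo 9)) (lo 9))) (lo 14)))) (lo 10)) (lo 10))) (lo 8))) (br 8 13 (br 8 15 (br 10 15 (br 9 15 (hi 15) (br 9 10 (br 10 14 (hi 10) (br 9 14 (br 12 14 (br 9 12 (tri 9 12 14) (br 12 13 (cost [p 1 [2,11], p 2 [1,10,13], n 3 [8], p 4 [8,12], p 5 [0,8,9], n 6 [10], p 7 [3,6], p 8 [4,5], n 9 [1], n 10 [6], p 11 [1,12], p 12 [4,11], p 13 [2,14,15]]) (lo 12))) (lo 14)) (lo 14))) (br 10 14 (br 9 13 (cost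 [p 1 [2,11], p 2 [1,13], n 3 [8], p 4 [8,10], p 5 [0,8,9], p 7 [3,6], p 8 [4,5,9], n 9 [1,15], p 11 [1,12], p 13 [2,15], p 15 [13,14]]) (br 9 11 (br 9 12 (br 9 14 (cost [p 1 [2,11], p 2 [1,13], p 3 [7,9], p 4 [8,10], p 5 [0,8], p 7 [3,6,9], p 8 [4,5], p 9 [3,7], p 11 [1,12,14], p 12 [11], p 13 [2,15], p 14 [11,15], p 15 [13,14]]) (lo 9)) (lo 9)) (lo 9))) (lo 10)))) (cost [p 1 [2,11], p 2 [1,13], n 3 [8,15], p 5 [0,8], n 7 [2,10], n 8 [3,10], n 9 [1], n 10 [7,8], p 11 [1,12], p 13 [2,15], n 15 [3,5]])) (lo 8)) (lo 8))))) (lo 7)))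

def t28 : T :=
  (br 7 9 (br 7 10 (br 9 10 (tri 7 9 10) (br 7 11 (br 7 12 (hi 7) (br 7 13 (hi 7) (br 7 14 (hi 7) (br 7 15 (hi 7) (br 9 11 (tri 7 9 11) (br 9 12 (br 9 14 (br 12 14 (tri 9 12 14) (br 10 14 (br 10 15 (hi 10) (cost [p 1 [2,10,11], n 2 [11], n 4 [7], p 5 [0,7], p 7 [3,5,6,14], n 8 [7], p 10 [1,9,11], p 11 [1,10], n 12 [1], n 15 [1,5,10]])) (lo 14))) (cost [p 1 [2,10,11], n 2 [11,14], n 4 [7], p 5 [0,7], n 6 [9], p 7 [3,5,6], n 8 [7], n 9 [6], p 10 [1,11], p 11 [1,10], n 12 [1], n 14 [2], n 15 [1]])) (cost [p 1 [2,10,11], n 2 [11], n 3 [9], n 4 [7], p 5 [0,7], n 7 [4,8,12], n 8 [7], n 9 [3], p 10 [1,11], p 11 [1,10], n 12 [1,7], n 15 [1]]))))))) t24)) (br 7 13 (sym 14) (br 7 11 (br 9 11 (tri 7 9 11) t25) (br 7 14 (sym 14) (br 7 12 (br 7 15 (br 9 12 (tri 7 9 12) (br 9 15 (tri 7 9 15) (br 12 15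 (tri 7 12 15) (br 8 13 (sym 14) (br 8 12 (br 8 15 (br 9 10 (br 9 11 (br 9 13 (hi 9) (br 9 14 (hi 9) (br 12 13 (br 12 14 (hi 12) (lo 14)) (lo 13)))) (br 11 13 (br 11 15 (br 10 15 (hi 15) (br 10 14 (br 9 14 (tri 9 10 14) (br 9 13 (br 12 13 (hi 13) (cost [p 2 [1,10,13], p 5 [0,9], n 8 [13], p 9 [5], n 10 [8,15], p 11 [4,8], n 12 [5,13], p 13 [2,10,15], n 14 [2], p 15 [6,12,13]])) (lo 9))) (lo 10))) (lo 11)) (lo 11))) (br 10 14 (br 10 15 (br 11 15 (hi 15) (br 9 11 (br 11 13 (br 9 13 (tri 9 11 13) (br 9 14 (br 12 13 (br 12 14 (hi 14) fin) (lo 13)) (lo 9))) (lo 11)) (lo 11))) (lo 10)) (lo 10))) (lo 8)) (lo 8)))))) (lo 7)) (lo 7)))))) (br 7 10 (br 7 11 (br 7 12 (br 7 13 (hi 7) (br 7 14 (hi 7) (br 7 15 (hi 7) (cost [p 1 [2,10,11], n 2 [7], p 3 [7], n 4 [7], p 5 [0,7], p 7 [3,5,6], n 9 [1], p 10 [1,11,12], p 11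 [1,10,12], p 12 [10,11], n 15 [1]])))) (br 7 13 (br 7 15 (hi 7) (cost [p 1 [2,10,11,13], n 2 [7], p 5 [0,7], p 7 [3,5,6], n 9 [1], p 10 [1,11,13], p 11 [1,10], n 12 [1], p 13 [1,10], n 15 [1]])) (br 7 14 (br 7 15 (hi 7) (cost [p 1 [2,10,11,14], n 2 [7], p 5 [0,7], p 6 [7], p 7 [3,5,6], n 9 [1], p 10 [1,11], p 11 [1,10,14], n 12 [1], p 14 [1,11], n 15 [1]])) (br 7 15 (br 10 15 (tri 7 10 15) (br 11 15 (tri 7 11 15) (br 10 14 (br 9 10 (hi 10) (br 9 14 (br 12 14 (hi 14) (br 8 12 (br 11 13 (br 9 11 (hi 11) (br 8 13 (cost [p 1 [2,10,11], n 2 [11], p 5 [0,7,8], p 6 [7,13], p 7 [3,5,6], p 8 [5,11], n 9 [1], p 10 [1,11], p 11 [1,8,10], n 12 [1], p 13 [2,6], n 15 [5]]) (br 8 15 (br 12 15 (tri 8 12 15) (cost [p 1 [2,10,11], n 2 [7,11], n 3 [15], p 5 [0,7], p 7 [3,5,6], n 8 [10], n 9 [1], p 10 [1,11], p 11 [1,10],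 n 12 [1,7], n 15 [3,5]])) (lo 8)))) (cost [p 1 [2,10,11], n 2 [7], n 4 [11], n 5 [11,15], p 7 [3,5,6], n 8 [10], n 9 [1], p 10 [1,11], n 11 [4,5], n 12 [1], n 13 [7], n 15 [5]])) (cost [p 1 [2,10,11], n 2 [7], n 3 [8], p 5 [0,7], n 6 [12], p 7 [3,5,6], n 8 [3,10], n 9 [1], p 10 [1,11], p 11 [1,10], n 12 [1,6], n 15 [5]]))) (cost [p 1 [2,10,11], n 2 [7,14], p 5 [0,7], p 7 [3,5,6], n 8 [10], n 9 [1,10], n 10 [8,9], p 11 [1,10], n 12 [1], n 14 [2], n 15 [5]]))) (cost [p 1 [2,10,11], n 4 [10], n 5 [14,15], n 6 [10], p 7 [3,5,6], n 8 [10], n 9 [1], n 10 [4,6], p 11 [1,10], n 14 [5,7], n 15 [5]])))) (lo 7))))) t26) (br 7 13 (sym 14) (br 7 11 (br 7 12 t27 (br 7 14 (br 7 15 (sym 14) (lo 7)) (lo 7))) (br 7 14 (sym 14) (lo 7))))))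

def t29 : T :=
  (br 6 10 (br 8 10 (tri 6 8 10) (br 6 11 (br 6 12 (hi 6) (br 6 13 (hi 6) (br 6 14 (hi 6) (br 6 15 (hi 6) (br 8 11 (tri 6 8 11) (br 7 9 (br 7 10 (br 9 10 (tri 7 9 10) (br 10 14 (hi 10) (br 10 15 (hi 10) (br 7 12 (cost [p 1 [2,10], p 3 [6,7], n 4 [6,10], p 5 [0,6,7], p 6 [3,5,7], p 7 [3,5,6], p 10 [1,11,12], n 14 [5], n 15 [5]]) (br 7 14 (br 7 15 (hi 7) (cost [p 1 [2,10], n 4 [6,10], p 5 [0,6,7], p 6 [3,5,7], p 7 [5,6], p 10 [1,11], n 12 [1], n 14 [5], n 15 [1,5,10]])) (cost [p 1 [2,10], n 4 [6,10], p 5 [0,6,7], p 6 [3,5,7], p 7 [5,6], p 10 [1,11], n 12 [1], n 14 [1,5,10], n 15 [5]])))))) t15) (br 7 10 (br 9 10 (hi 10) (br 10 14 (hi 10) (br 10 15 (hi 10) (cost [p 1 [2,10], n 2 [7], n 4 [6,10], p 5 [0,6,7], p 6 [3,5,7], p 7 [5,6], n 9 [1,10], p 10 [1,11], n 14 [5], n 15 [5]])))) t16)))))))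 (br 6 12 (sym 10) (br 6 13 (br 6 14 (hi 6) (br 6 15 (hi 6) (br 8 13 (tri 6 8 13) t17))) (br 6 14 (br 6 15 (hi 6) (br 8 14 (tri 6 8 14) (br 10 14 (tri 6 10 14) (br 7 9 t20 (br 7 10 (br 9 10 (hi 10) (br 10 15 (hi 10) (br 11 13 (br 12 13 (br 8 13 (hi 13) (br 7 11 (cost [p 1 [2,10], n 2 [7], p 3 [7,13], n 4 [10], p 5 [0,6,7], p 6 [5,7], p 7 [3,5,6], n 9 [1,10], p 10 [1,11], p 11 [10,12], n 14 [5]]) (cost [p 1 [2,10], n 2 [7], n 4 [10], p 5 [0,6,7], p 6 [5,7], p 7 [5,6], n 9 [1,10], n 10 [4,9], n 11 [1], n 13 [6], n 14 [5], n 15 [5]]))) (cost [p 1 [2,10], n 2 [7], n 4 [10], n 5 [12,14,15], p 6 [5,7], p 7 [5,6], n 9 [1,10], n 10 [4,9], n 12 [5], n 14 [5], n 15 [5]])) (cost [p 1 [2,10], n 2 [7], n 4 [10], n 5 [11,14,15], p 6 [5,7], p 7 [5,6], n 9 [1,10], n 10 [4,9], n 11 [5], n 14 [5], n 15 [5]])))) (br 7 11 t21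 (br 7 12 (sym 10) (br 7 13 (br 7 14 (br 7 15 (cost [p 1 [2,10,13], n 2 [7], p 4 [7], p 5 [0,6,7], p 6 [5,7], p 7 [4,5,6], n 9 [1], n 12 [1], p 13 [1,14,15], p 14 [1,13], p 15 [13,14]]) (lo 7)) (lo 7)) (lo 7))))))))) (br 6 15 (sym 13) (lo 6))))))) (br 6 13 (sym 14) (br 8 10 (sym 15) (br 6 11 (br 8 11 (tri 6 8 11) (br 6 12 (br 6 14 (hi 6) (br 6 15 (hi 6) (br 8 12 (tri 6 8 12) (br 7 9 t22 (br 7 10 (br 7 11 (br 7 14 (br 7 15 (hi 7) (cost [p 1 [2,10,11], n 2 [7], p 3 [6,7], n 4 [6], p 5 [0,7], n 6 [4,10], p 7 [3,5,6], n 8 [3], n 9 [1], p 10 [1,11], p 11 [1,10,12], n 15 [1]])) (cost [p 1 [2,10,11], n 2 [7], p 3 [6,7], n 4 [6], p 5 [0,7], n 6 [4,10], p 7 [3,5,6], n 8 [3], n 9 [1], p 10 [1,11], p 11 [1,10,12], n 14 [1]])) (br 7 12 (sym 10) (br 7 13 (br 7 14 (cost [p 1 [2,10,13], n 2 [7], n 3 [8], n 4 [6], p 5 [0,7],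 n 6 [4,10], p 7 [4,5], n 8 [3], n 9 [1], p 10 [1,13], p 13 [1,10,14]]) (br 7 15 (cost [p 1 [2,10,13], n 2 [7], n 3 [8], n 4 [6], p 5 [0,7], n 6 [4,10], p 7 [4,5], n 8 [3], n 9 [1], p 10 [1,13], p 13 [1,10,15]]) (lo 7))) (br 7 14 (br 7 15 (br 10 14 (tri 7 10 14) (br 10 15 (tri 7 10 15) (cost [p 1 [2,10], n 2 [7], n 3 [8], n 4 [6,10], n 5 [14], n 6 [4,10], n 7 [2], n 8 [3], n 9 [1], n 10 [4,6,8], n 14 [5], n 15 [5]]))) (lo 7)) (lo 7))))) (br 7 11 (br 7 12 (cost [p 1 [2,11,12], n 2 [7], p 3 [6,7], n 4 [6], p 6 [3,7], p 7 [3,6], n 8 [3], n 9 [1], n 10 [6], p 11 [1,12], p 12 [1,11]]) (br 7 13 (br 11 13 (tri 7 11 13) (br 12 13 (br 8 13 (hi 13) (br 8 14 (br 8 15 (br 7 14 (cost [p 1 [2,11,13], n 3 [8], p 4 [7,8], p 5 [0,7], n 6 [4,10], p 7 [4,5,6], n 8 [3,13], n 9 [1], n 10 [6], p 11 [1,12], p 13 [1,14], p 14 [13,15]])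 (cost [p 1 [2,11,13], n 2 [7], n 3 [8], n 4 [6], p 5 [0,7], n 6 [4,10], p 7 [5,6], n 8 [3,13], n 9 [1], n 10 [6], p 11 [1,12], n 13 [8], n 14 [1]])) (lo 8)) (lo 8))) (cost [p 1 [2,11,13], n 3 [8,13], n 4 [6], n 5 [11,12], n 6 [4,10], p 7 [5,6], n 8 [3], n 9 [1], n 10 [6], p 11 [1,12], n 12 [5], n 13 [3]]))) (br 7 14 (br 7 15 (br 11 14 (tri 7 11 14) (br 11 15 (tri 7 11 15) (br 11 13 (br 9 11 (hi 11) (br 8 13 (br 9 13 (hi 13) (cost [p 1 [2,11], n 2 [7,11], n 3 [8], n 4 [6], p 5 [0,8], p 6 [3,7,13], p 7 [4,6], p 8 [5,11], n 9 [1,11], n 10 [6], p 11 [1,8,12], p 13 [2,6]])) (br 8 14 (br 8 15 (cost [p 1 [2,11], n 2 [7,11], n 3 [8], p 4 [7,8], n 6 [4,10], p 7 [4,6,8], n 8 [3,13], n 9 [1], n 10 [6], n 13 [8], p 14 [15], p 15 [14]]) (lo 8)) (lo 8)))) (cost [p 1 [2,11], n 2 [7], n 3 [8], n 4 [6,11], n 5 [11], n 6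 [4,10], n 7 [2,13], n 8 [3], n 9 [1], n 10 [6], n 11 [4,5], n 13 [7]])))) (lo 7)) (lo 7)))) (br 7 12 (sym 10) (br 7 13 (br 7 14 (br 7 15 (cost [p 1 [2,13], n 2 [7], n 3 [7,8], p 5 [0,7], n 6 [4,10], p 7 [4,5], n 8 [3], n 9 [1], n 10 [6], p 13 [1,14,15], p 14 [13,15], p 15 [13,14]]) (lo 7)) (lo 7)) (lo 7))))))))) (br 6 14 (br 6 15 (hi 6) (br 8 14 (tri 6 8 14) (br 11 14 (tri 6 11 14) t28))) (br 6 15 (sym 13) (lo 6))))) (br 6 12 (sym 10) (br 6 14 (sym 14) (lo 6)))))))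

def t30 : T :=
  (br 6 10 (br 6 11 (br 6 12 (br 6 13 (hi 6) (br 6 14 (hi 6) (br 6 15 (hi 6) (cost [n 1 [8,9], n 2 [6,7], p 3 [6], n 4 [6], p 5 [0,6], p 6 [3,5], n 7 [2], n 8 [1], n 9 [1], p 10 [1,11,12], p 11 [10,12], p 12 [10,11]])))) (br 6 13 (br 6 14 (hi 6) (br 6 15 (hi 6) (br 11 13 (tri 6 11 13) (br 7 10 (cost [p 1 [2,10,13], n 2 [6,7], p 5 [0,6,7], p 6 [3,5,7], n 8 [1], p 10 [1,11,13], p 13 [1,10]]) (br 7 11 (cost [p 1 [2,10,11,13], n 2 [6,7], p 5 [0,6], p 6 [3,5,7], n 7 [2], n 8 [1], p 10 [1,11,13], p 11 [1,10], p 13 [1,10]]) (br 7 12 (br 7 13 (cost [p 1 [2,13], n 2 [6,7], p 5 [0,6,7], p 6 [3,5,7], p 7 [5,6], n 8 [1], n 9 [1], p 10 [1,13], p 13 [1,10]]) (br 7 14 (br 7 15 (br 12 14 (tri 7 12 14) (br 12 15 (tri 7 12 15) (br 8 10 (cost [p 1 [2,10,13], n 2 [6,7], p 5 [0,6,8], p 6 [3,5], n 7 [2], n 8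 [1], p 10 [1,2,11,13], n 11 [5], p 13 [1,10]]) (br 8 13 (cost [p 1 [2,10,13], n 2 [7], p 5 [0,6,8], p 6 [3,5], n 7 [2], n 8 [1], n 9 [1], p 10 [1,11,13], n 11 [5], p 13 [1,2,10]]) (br 8 11 (br 8 12 (cost [p 1 [2,10,13], n 2 [6,7], p 3 [6,8], p 5 [0,6], p 6 [3,5], n 7 [2], n 8 [1], n 9 [1], p 10 [1,11,13], p 11 [10,12], p 13 [1,10]]) (cost [p 1 [2,10,13], n 2 [6,7], p 5 [0,6], p 6 [5], n 7 [2], n 8 [1,12,13], n 9 [1], p 10 [1,13], n 11 [5], n 12 [8], p 13 [1,10]])) (cost [p 1 [2,10,13], n 2 [6,7], p 5 [0,6], p 6 [3,5], n 7 [2], n 8 [1,6], n 9 [1], p 10 [1,11,13], n 11 [5], p 13 [1,10]])))))) (lo 7)) (lo 7))) (cost [n 1 [8,9,12], n 2 [6,7], n 3 [7], p 5 [0,6], p 6 [3,5], n 7 [2,3], n 8 [1], n 9 [1], p 10 [1,11,13], p 13 [1,10]]))))))) (br 6 14 (br 10 14 (tri 6 10 14) (br 11 14 (tri 6 11 14) (br 7 10 (br 8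 10 (hi 10) (br 9 10 (hi 10) (br 10 15 (hi 10) (cost [p 1 [2,10], n 2 [6,7], n 4 [10], p 5 [0,6,7], n 8 [1,10], n 9 [1,10], n 10 [4,8,9], n 14 [5], n 15 [5]])))) (br 10 15 (br 11 15 (cost [n 1 [8,9], n 2 [6,7], p 3 [6,15], p 5 [0,6], p 6 [3,5,15], n 7 [2], n 8 [1], n 9 [1], p 10 [1,11], p 11 [10], n 14 [5], p 15 [3,6]]) (br 11 13 (br 7 11 (br 8 11 (hi 11) (br 9 11 (hi 11) (br 7 12 (cost [p 1 [2,10,11], n 2 [6,7,11], p 3 [6,7], p 5 [0,6], p 6 [3,5,7], p 7 [3,6], n 8 [1], n 9 [1], p 10 [1,11], p 11 [1,10,12], n 14 [5]]) (cost [n 1 [8,9,12], n 2 [6,7,11], p 5 [0,6], p 6 [3,5,7], n 7 [2], n 8 [1], n 9 [1], p 10 [1,11], p 11 [1,10], n 12 [1], n 14 [5]])))) (br 7 12 (br 7 13 (br 8 13 (hi 13) (br 9 13 (hi 13) (br 12 13 (tri 7 12 13) (br 7 14 (cost [p 1 [2,10,13,14], n 2 [6,7], p 5 [0,6,7], p 6 [3,5,7], p 7 [4,5,6],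 n 8 [1], n 9 [1], p 10 [1,11], p 13 [1,14], p 14 [1,13]]) (br 7 15 (br 8 11 (br 9 11 (hi 11) (cost [p 1 [2,10,13], n 2 [6,7], p 5 [0,6,7], p 6 [3,5], p 7 [4,5], n 8 [1], n 9 [1,11,13], p 10 [1,11], n 11 [9], p 13 [1,15], n 14 [5]])) (cost [p 1 [2,10,13], n 2 [6,7], p 5 [0,6,7], p 6 [3,5], p 7 [4,5], n 8 [1,11,13], n 9 [1], p 10 [1,11], n 11 [8], n 12 [5], p 13 [1,15]])) (lo 7)))))) (br 7 14 (br 12 14 (tri 7 12 14) (cost [p 1 [2,10,14], n 2 [6,7], n 3 [14], p 5 [0,6], p 6 [3,5,7], n 7 [2,11], n 8 [1], n 9 [1], p 10 [1,11], n 11 [7], n 14 [3,5]])) (lo 7))) (br 7 13 (cost [n 1 [8,9,12], n 2 [6,7], n 3 [7], p 5 [0,6,7], p 6 [3,5], n 7 [2,3], n 8 [1], n 9 [1], p 10 [1,11], n 12 [1], n 14 [5]]) (lo 7)))) (cost [n 1 [8,9], n 2 [6,7], n 4 [11], n 5 [11,14], n 6 [2,13], n 7 [2], n 9 [1], p 10 [1,11], n 11 [4,5],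 n 13 [6], n 14 [5]]))) (cost [n 1 [8,9], n 2 [6,7], n 4 [10], n 5 [14,15], p 6 [3,5], n 7 [2,10], n 8 [1], n 9 [1], n 10 [4,7], n 14 [5], n 15 [5]]))))) (br 6 15 (sym 13) (lo 6))))) (br 6 12 (sym 10) (br 6 13 (br 6 14 (sym 14) (br 6 15 (sym 13) (lo 6))) (br 6 14 (br 6 15 (br 10 14 (tri 6 10 14) (br 10 15 (tri 6 10 15) (cost [n 1 [8,9], n 2 [6,7], n 4 [10], n 5 [14,15], n 6 [2,13], n 7 [2], n 8 [1], n 9 [1], n 10 [4], n 13 [6], n 14 [5], n 15 [5]]))) (lo 6)) (lo 6))))) (br 6 13 (sym 14) (br 7 10 (sym 5) (br 8 10 (sym 15) (br 9 10 (sym 7) (br 10 14 (br 10 15 (br 6 11 (br 6 12 (br 6 14 (br 11 14 (tri 6 11 14) (br 12 14 (tri 6 12 14) (br 7 11 (br 7 12 (br 7 14 (cost [p 1 [2,12,14], n 2 [6,7], p 6 [3,7], p 7 [3,6], n 8 [1], n 9 [1], p 11 [12,14], p 12 [1,11,14], p 14 [1,11]]) (cost [p 1 [2,11,12], n 2 [6,7],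 p 3 [6,7], p 6 [3,7], p 7 [3,6], n 8 [1], n 9 [1], p 11 [1,12], p 12 [1,11], n 14 [7]])) (br 7 13 (br 11 13 (tri 7 11 13) (br 7 14 (cost [p 1 [2,13,14], n 2 [6], p 4 [7,10], p 6 [7], p 7 [4,5,6], n 8 [1], n 9 [1], p 11 [1,12,14], p 13 [1,14], p 14 [1,11,13,15]]) (br 7 15 (br 11 15 (tri 7 11 15) (cost [p 1 [2,11,13], n 2 [6,7], p 4 [7,10], p 5 [0,7], p 6 [3,7], p 7 [4,5,6], n 8 [1], n 9 [1], n 11 [4,5], p 13 [1,15], n 14 [7], p 15 [13,14]])) (lo 7)))) (br 7 14 (br 7 15 (cost [p 1 [2,11], n 2 [7], p 4 [7,10], p 6 [3,7], p 7 [4,6,10], n 8 [1], n 9 [1], p 11 [1,12,14], p 14 [1,11,15], p 15 [14]]) (lo 7)) (lo 7)))) (br 7 12 (sym 10) (br 7 13 (br 7 14 (br 7 15 (cost [p 1 [2,13,14], n 2 [6,7], p 4 [7], p 5 [0,7], p 7 [4,5,10], n 8 [1], n 9 [1], p 10 [4,7], p 14 [1,13,15], p 15 [13,14]]) (lo 7)) (lo 7)) (lo 7))))))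 (br 6 15 (sym 13) (lo 6))) (br 6 14 (br 6 15 (sym 14) (lo 6)) (lo 6))) (br 6 12 (sym 10) (lo 6))) (lo 10)) (lo 10)))))))

def t31 : T :=
  (br 5 11 (br 5 12 (hi 5) (br 5 13 (hi 5) (br 5 14 (hi 5) (br 5 15 (hi 5) (br 6 8 t8 (br 6 9 (sym 7) (br 7 8 (sym 5) (br 7 9 (sym 5) (br 6 10 (br 6 11 (cost [p 1 [2,10,11], n 2 [6,7], p 3 [5,6], n 4 [5], p 5 [0,3,6], p 6 [3,5], n 7 [2], n 8 [1], p 10 [1,11], p 11 [1,10], n 12 [5]]) (br 6 12 (br 7 10 (cost [p 1 [2,10], n 2 [6], p 3 [5,6], n 4 [5], p 5 [0,3,6,7], p 6 [3,5,7], p 7 [5,6], n 9 [1], p 10 [1,11,12], n 12 [5]]) (br 7 11 (cost [p 1 [2,10,11], n 2 [7], p 3 [5,6], n 4 [5], p 5 [0,3,6,7], p 6 [3,5], n 7 [2], n 8 [1], n 9 [1], p 10 [1,11,12], p 11 [1,10], n 12 [5]]) (br 7 12 (cost [p 1 [2,10,12], n 2 [6,7], p 3 [5,6], n 4 [5], p 5 [0,3,6], p 6 [3,5,7], n 7 [2], n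 8 [1], n 9 [1], p 10 [1,11,12], p 12 [1,10]]) (cost [n 1 [8,9], n 2 [6,7], p 3 [5,6], n 4 [5], p 5 [0,3,6], p 6 [3,5], n 7 [2,3], n 8 [1], n 9 [1], p 10 [1,11,12], n 12 [5]])))) (br 6 13 (br 10 13 (tri 6 10 13) (br 6 14 (br 6 15 (hi 6) (br 10 14 (tri 6 10 14) (br 7 10 (cost [p 1 [2,10], n 2 [6,7], n 4 [5], p 5 [0,3,6,7], p 6 [4,5,7], p 7 [5,6], n 8 [1], n 9 [1], p 10 [1,11], n 12 [5]]) (br 7 15 (br 7 13 (cost [p 1 [2,10,13], n 2 [6,7], p 4 [6,7], p 5 [0,3,6], p 6 [4,5,7], p 7 [4,6], n 8 [1], n 9 [1], p 10 [1,11], n 12 [5], p 13 [1,14,15]]) (br 7 14 (cost [p 1 [2,10,14], n 2 [6,7], p 4 [6,7], p 5 [0,3,6], p 6 [4,5,7], p 7 [4,6], n 8 [1], n 9 [1], p 10 [1,11], n 12 [5], p 14 [1,13,15]]) (br 7 11 (br 7 12 (cost [p 1 [2,10,11], n 2 [6,7], p 3 [5,7], n 4 [5], p 5 [0,3,6,7], p 7 [3,5], n 8 [1], n 9 [1], p 10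 [1,11], p 11 [1,10,12], n 12 [5]]) (lo 7)) (lo 7)))) (cost [n 1 [8,9,15], n 2 [6,7], n 4 [5], p 5 [0,3,6], p 6 [4,5], n 7 [2,10], n 8 [1], n 9 [1], p 10 [1,11], n 12 [5], n 15 [1]]))))) (br 6 15 (sym 13) (lo 6)))) (br 6 14 (sym 12) (lo 6))))) (br 6 11 (sym 9) (br 7 10 (sym 5) (br 7 11 (sym 9) (br 8 10 (sym 15) (br 8 11 (sym 9) (br 6 12 (br 6 13 (br 12 13 (tri 6 12 13) (br 6 14 (br 6 15 (hi 6) (br 12 14 (tri 6 12 14) (br 12 15 (br 7 12 (br 8 12 (hi 12) (br 8 13 (br 8 14 (cost [n 1 [8,9], n 2 [6,7], n 3 [8], n 5 [4,12], p 6 [4,7,8], n 7 [2], n 8 [1,3], n 9 [1], n 12 [5], p 13 [14], p 14 [13]]) (lo 8)) (lo 8))) (br 7 13 (br 7 14 (cost [p 1 [2,13,14], n 2 [6,7], p 4 [6,7], n 5 [4,12], p 6 [4,7], n 8 [1], n 9 [1], n 12 [5], p 13 [1,14], p 14 [1,13]]) (lo 7)) (lo 7))) (cost [n 1 [8,9], n 2 [6,7], n 4 [5,12],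 n 5 [4,12], n 6 [2,15], n 7 [2], n 8 [1], n 9 [1], n 12 [4,5], n 15 [6]])))) (br 6 15 (sym 13) (lo 6)))) (br 6 14 (sym 12) (lo 6))) (br 6 13 (br 6 14 (br 6 15 (cost [n 1 [8,9], n 2 [6,7], n 3 [6], n 5 [4,12], n 6 [2,3], n 7 [2], n 8 [1], n 9 [1], n 12 [5], p 13 [14,15], p 14 [13,15], p 15 [13,14]]) (lo 6)) (lo 6)) (lo 6))))))))))))))))) (br 5 12 (sym 10) (br 5 13 (br 5 14 (hi 5) (br 5 15 (hi 5) (br 10 13 (tri 5 10 13) (br 6 8 (br 6 9 (br 6 10 (br 6 11 (hi 6) (br 6 12 (hi 6) (br 6 13 (hi 6) t10))) (br 6 13 (sym 14) (br 6 11 (br 6 12 (hi 6) (br 6 14 (hi 6) (br 6 15 (hi 6) (br 8 11 (tri 6 8 11) (br 9 11 (tri 6 9 11) (br 7 8 (br 8 10 (sym 15) (br 7 9 (br 7 10 (cost [p 1 [2,8,9,10], p 2 [1,6,7], n 4 [6], p 5 [0,7], p 6 [2,7], p 7 [2,5,6], p 8 [1,9], p 9 [1,8]]) (br 7 11 (cost [p 1 [2,8,9], p 2 [1,6,7], n 4 [6],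 p 7 [2,6], p 8 [1,9,11], p 9 [1,8,11], p 11 [1,8,9]]) (br 7 12 (br 7 14 (hi 7) (br 7 15 (hi 7) (cost [p 1 [2,8,9], p 2 [1,6,7], n 4 [6], p 6 [2,7], p 7 [2,6], p 8 [1,9], p 9 [1,8], n 11 [2], n 14 [1], n 15 [1]]))) (cost [p 1 [2,8,9], p 2 [1,6,7], n 3 [7], n 4 [6], p 6 [2,7], p 7 [2,6], p 8 [1,9], p 9 [1,8], n 11 [2], n 12 [1]])))) (br 7 10 (br 7 11 (cost [p 1 [2,8,10,11], p 2 [1,6], n 4 [6], p 5 [0,7], p 6 [2,7], p 7 [3,5,6], p 8 [1,9,11], p 10 [1,11], p 11 [1,8,10]]) (br 7 12 (br 7 13 (hi 7) (br 7 14 (hi 7) (br 7 15 (hi 7) (br 8 12 (tri 7 8 12) (cost [p 1 [2,8,10], p 2 [1,6], n 3 [8], n 4 [6,7], p 5 [0,7], p 6 [2,7], p 7 [3,5,6], p 8 [1,9], p 10 [1,12], n 11 [2,7], n 14 [1], n 15 [1]]))))) (br 7 13 (br 7 14 (hi 7) (cost [p 1 [2,8,10,13], p 2 [1,6], n 4 [6], p 5 [0,7], p 6 [2,7], p 7 [5,6], p 8 [1,9], p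 10 [1,13], n 11 [2], n 12 [1], p 13 [1,10], n 14 [1]])) (br 7 14 (br 7 15 (hi 7) (br 8 14 (tri 7 8 14) (br 10 14 (tri 7 10 14) (br 9 10 (cost [p 1 [2,8,10], p 2 [1,6,10], n 4 [6], p 5 [0,7,9], p 6 [2,7], p 7 [5,6], p 8 [1,9], p 9 [5,8], p 10 [1,2], n 11 [2], n 12 [1], n 14 [5], n 15 [1]]) (br 8 13 (cost [p 1 [2,8,10], p 2 [1,6,13], n 4 [6], p 5 [0,7,8], n 6 [4,10], p 7 [5,6], p 8 [1,5,9], n 10 [6], n 11 [2], n 12 [1], n 15 [1]]) (br 8 12 (br 8 15 (hi 8) (cost [p 1 [2,8,10], p 2 [1,6], n 4 [6,8], p 5 [0,7], n 6 [4,10], p 7 [5,6], p 8 [1,9], n 10 [6], n 11 [2], n 12 [1], n 13 [7], n 14 [5], n 15 [1]])) (cost [p 1 [2,8,10], p 2 [1,6], n 3 [8], n 4 [6], p 5 [0,7], n 6 [4,10], p 7 [5,6], n 8 [3], n 10 [6], n 11 [2], n 12 [1], n 13 [8], n 14 [5], n 15 [1]]))))))) (br 7 15 (sym 13) (lo 7)))))) t11))) (br 7 9 (sym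 7) t13))))))) (br 6 12 (sym 10) (br 6 14 (sym 14) (br 6 15 (sym 13) (lo 6))))))) (br 7 8 (sym 15) t29)) (br 6 9 (sym 7) (br 7 8 (sym 5) (br 7 9 (sym 5) t30))))))) (br 5 14 (sym 12) (br 5 15 (sym 13) (lo 5))))))

def t32 : T :=
  (br 4 7 (rt [p 0 [5,7]]) (br 2 8 (br 5 8 (tri 2 5 8) (br 3 8 (rt [p 0 [5,8]]) (br 4 8 (rt [p 0 [5,8]]) (br 2 9 (br 2 10 (hi 2) (br 2 11 (hi 2) (br 2 12 (hi 2) (br 2 13 (hi 2) (br 2 14 (hi 2) (br 2 15 (hi 2) (br 5 9 (tri 2 5 9) (br 8 9 (tri 2 8 9) (br 3 9 (rt [p 0 [5,9]]) (br 4 9 (rt [p 0 [5,9]]) (br 3 10 (br 4 10 (rt [p 0 [5,10]]) (br 3 11 (br 10 11 (tri 3 10 11) (br 4 11 (rt [p 0 [5,11]]) (br 3 12 (br 3 13 (hi 3) (br 3 14 (hi 3) (br 3 15 (hi 3) (br 10 12 (tri 3 10 12) (br 11 12 (tri 3 11 12) (br 4 12 (rt [p 0 [5,12]]) (br 4 13 (br 4 14 (br 4 15 (br 13 14 (tri 4 13 14) (br 13 15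 (tri 4 13 15) (br 14 15 (tri 4 14 15) (br 5 10 t31 (br 5 11 (sym 9) (br 5 12 (sym 10) (br 5 13 (sym 14) (br 5 14 (sym 12) (lo 5))))))))) (lo 4)) (lo 4)) (lo 4)))))))) (br 3 13 (sym 11) (br 3 14 (sym 12) (br 3 15 (sym 13) (lo 3))))))) (br 3 12 (sym 10) (br 3 13 (sym 11) (br 3 14 (sym 12) (lo 3)))))) (br 3 11 (sym 9) (br 3 12 (sym 10) (br 3 13 (sym 11) (lo 3))))))))))))))) (br 2 10 (sym 8) (br 2 11 (sym 9) (br 2 12 (sym 10) (br 2 13 (sym 11) (br 2 14 (sym 12) (br 2 15 (sym 13) (lo 2))))))))))) (br 2 9 (sym 7) (br 2 10 (sym 8) (br 2 11 (sym 9) (br 2 12 (sym 10) (br 2 13 (sym 11) (br 2 14 (sym 12) (lo 2)))))))))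

def t33 : T :=
  (br 6 7 (tri 1 6 7) (br 2 5 (br 2 6 (rt [p 0 [5,6]]) (br 2 7 (rt [p 0 [5,7]]) (br 3 5 (rt [p 0 [5]]) (br 3 6 (rt [p 0 [5,6]]) (br 3 7 (rt [p 0 [5,7]]) (br 4 5 (rt [p 0 [5]]) (br 4 6 (rt [p 0 [5,6]]) t32))))))) (br 2 6 (sym 4) (br 2 7 (sym 5) (br 3 5 (sym 1) (br 3 6 (sym 1) (br 3 7 (sym 5) (br 4 5 (sym 2) (br 4 6 (sym 2) (br 4 7 (sym 5) (br 2 8 (br 2 9 (br 2 10 (br 2 11 (hi 2) (br 2 12 (hi 2) (br 2 13 (hi 2) (br 2 14 (hi 2) (br 2 15 (hi 2) (br 3 8 (sym 16) (br 3 9 (sym 7) (br 3 10 (sym 8) (br 4 8 (sym 2) (br 4 9 (sym 7) (br 4 10 (sym 8) (br 3 11 (br 3 12 (br 3 13 (br 3 14 (hi 3) (br 3 15 (hi 3) (br 4 11 (sym 18) (br 4 12 (sym 10) (br 4 13 (sym 11) (lo 4)))))) (br 3 14 (sym 12) (br 3 15 (sym 13) (lo 3)))) (br 3 13 (sym 11) (br 3 14 (sym 12) (lo 3)))) (br 3 12 (sym 10) (br 3 13 (sym 11) (lo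 3))))))))))))))) (br 2 11 (sym 9) (br 2 12 (sym 10) (br 2 13 (sym 11) (br 2 14 (sym 12) (br 2 15 (sym 13) (lo 2))))))) (br 2 10 (sym 8) (br 2 11 (sym 9) (br 2 12 (sym 10) (br 2 13 (sym 11) (br 2 14 (sym 12) (lo 2))))))) (br 2 9 (sym 7) (br 2 10 (sym 8) (br 2 11 (sym 9) (br 2 12 (sym 10) (br 2 13 (sym 11) (lo 2)))))))))))))))))

def t34 : T :=
  (br 0 4 (br 0 5 (hi 0) (br 0 6 (hi 0) (br 0 7 (hi 0) (br 0 8 (hi 0) (br 0 9 (hi 0) (br 0 10 (hi 0) (br 0 11 (hi 0) (br 0 12 (hi 0) (br 0 13 (hi 0) (br 0 14 (hi 0) (br 0 15 (hi 0) (br 1 4 (tri 0 1 4) (br 2 4 (tri 0 2 4) (br 3 4 (tri 0 3 4) (br 1 5 (br 1 6 (br 5 6 (tri 1 5 6) (br 1 7 (br 1 8 (hi 1) (br 1 9 (hi 1) (br 1 10 (hi 1) (br 1 11 (hi 1) (br 1 12 (hi 1) (br 1 13 (hi 1) (br 1 14 (hi 1) (br 1 15 (hi 1) (br 5 7 (tri 1 5 7) t33))))))))) (br 1 8 (sym 6) (br 1 9 (sym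 7) (br 1 10 (sym 8) (br 1 11 (sym 9) (br 1 12 (sym 10) (br 1 13 (sym 11) (br 1 14 (sym 12) (br 1 15 (sym 13) (lo 1))))))))))) (br 1 7 (sym 5) (br 1 8 (sym 6) (br 1 9 (sym 7) (br 1 10 (sym 8) (br 1 11 (sym 9) (br 1 12 (sym 10) (br 1 13 (sym 11) (br 1 14 (sym 12) (lo 1)))))))))) (br 1 6 (sym 4) (br 1 7 (sym 5) (br 1 8 (sym 6) (br 1 9 (sym 7) (br 1 10 (sym 8) (br 1 11 (sym 9) (br 1 12 (sym 10) (br 1 13 (sym 11) (lo 1)))))))))))))))))))))))) (br 0 5 (sym 3) (br 0 6 (sym 4) (br 0 7 (sym 5) (br 0 8 (sym 6) (br 0 9 (sym 7) (br 0 10 (sym 8) (br 0 11 (sym 9) (br 0 12 (sym 10) (br 0 13 (sym 11) (br 0 14 (sym 12) (br 0 15 (sym 13) (lo 0)))))))))))))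

def t35 : T :=
  (br 0 1 (br 0 2 (br 1 2 (tri 0 1 2) (br 0 3 (br 1 3 (tri 0 1 3) (br 2 3 (tri 0 2 3) t34)) (br 0 4 (sym 2) (br 0 5 (sym 3) (br 0 6 (sym 4) (br 0 7 (sym 5) (br 0 8 (sym 6) (br 0 9 (sym 7) (br 0 10 (sym 8) (br 0 11 (sym 9) (br 0 12 (sym 10) (br 0 13 (sym 11) (br 0 14 (sym 12) (lo 0)))))))))))))) (br 0 3 (sym 1) (br 0 4 (sym 2) (br 0 5 (sym 3) (br 0 6 (sym 4) (br 0 7 (sym 5) (br 0 8 (sym 6) (br 0 9 (sym 7) (br 0 10 (sym 8) (br 0 11 (sym 9) (br 0 12 (sym 10) (br 0 13 (sym 11) (lo 0))))))))))))) (br 0 2 (sym 0) (br 0 3 (sym 17) (br 0 4 (sym 2) (br 0 5 (sym 3) (br 0 6 (sym 4) (br 0 7 (sym 5) (br 0 8 (sym 6) (br 0 9 (sym 7) (br 0 10 (sym 8) (br 0 11 (sym 9) (br 0 12 (sym 10) (lo 0)))))))))))))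

def fins : List ℕ :=
  [2968424283295299768658677076642188348315499014248259929113033422263375953950,
   2516061397050917913164250868795591283020769130199896276391132605079359651870,
   2968374244896997455628534805063620848181037513734997863444376072832872939550,
   4325285184398596305965519370509376130310874888867985596628736292462163722270,
   2516116611021791866270149607240592100343221285549360393745973268902077071390,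
   2516033790065530749345979529795656779729070523336800571899360530963296747550,
   2516033790065528338975693034245352873230575448016918384962566207824445112350]

def gens : List (List ℕ) :=
  [[0,2,1,3,4,5,6,7,8,9,10,11,12,13,14,15],
   [0,1,3,2,4,5,6,7,8,9,10,11,12,13,14,15],
   [0,1,2,4,3,5,6,7,8,9,10,11,12,13,14,15],
   [0,1,2,3,5,4,6,7,8,9,10,11,12,13,14,15],
   [0,1,2,3,4,6,5,7,8,9,10,11,12,13,14,15],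
   [0,1,2,3,4,5,7,6,8,9,10,11,12,13,14,15],
   [0,1,2,3,4,5,6,8,7,9,10,11,12,13,14,15],
   [0,1,2,3,4,5,6,7,9,8,10,11,12,13,14,15],
   [0,1,2,3,4,5,6,7,8,10,9,11,12,13,14,15],
   [0,1,2,3,4,5,6,7,8,9,11,10,12,13,14,15],
   [0,1,2,3,4,5,6,7,8,9,10,12,11,13,14,15],
   [0,1,2,3,4,5,6,7,8,9,10,11,13,12,14,15],
   [0,1,2,3,4,5,6,7,8,9,10,11,12,14,13,15],
   [0,1,2,3,4,5,6,7,8,9,10,11,12,13,15,14],
   [0,1,2,4,3,5,6,7,8,9,13,14,15,10,11,12],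
   [0,2,1,3,4,5,8,9,6,7,10,11,12,13,14,15],
   [0,2,1,3,4,8,9,10,5,6,7,11,12,13,14,15],
   [0,3,2,1,4,10,11,12,8,9,5,6,7,13,14,15],
   [0,3,2,1,4,11,12,13,8,9,10,5,6,7,14,15],
   [0,1,2,4,3,13,6,7,8,9,10,14,15,5,11,12]]

def tab : List (List (ℕ × ℕ)) :=
  [[(1, 2), (2, 1), (19, 35), (20, 36), (21, 37), (22, 38), (23, 39), (24, 40), (25, 41), (26, 42), (27, 43), (28, 44), (29, 45), (30, 46), (31, 47), (35, 19), (36, 20), (37, 21), (38, 22), (39, 23), (40, 24), (41, 25), (42, 26), (43, 27), (44, 28), (45, 29), (46, 30), (47, 31)],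
   [(2, 3), (3, 2), (18, 19), (19, 18), (36, 52), (37, 53), (38, 54), (39, 55), (40, 56), (41, 57), (42, 58), (43, 59), (44, 60), (45, 61), (46, 62), (47, 63), (52, 36), (53, 37), (54, 38), (55, 39), (56, 40), (57, 41), (58, 42), (59, 43), (60, 44), (61, 45), (62, 46), (63, 47)],
   [(3, 4), (4, 3), (19, 20), (20, 19), (35, 36), (36, 35), (53, 69), (54, 70), (55, 71), (56, 72), (57, 73), (58, 74), (59, 75), (60, 76), (61, 77), (62, 78), (63, 79), (69, 53), (70, 54), (71, 55), (72, 56), (73, 57), (74, 58), (75, 59), (76, 60), (77, 61), (78, 62), (79, 63)],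
   [(4, 5), (5, 4), (20, 21), (21, 20), (36, 37), (37, 36), (52, 53), (53, 52), (70, 86), (71, 87), (72, 88), (73, 89), (74, 90), (75, 91), (76, 92), (77, 93), (78, 94), (79, 95), (86, 70), (87, 71), (88, 72), (89, 73), (90, 74), (91, 75), (92, 76), (93, 77), (94, 78), (95, 79)],
   [(5, 6), (6, 5), (21, 22), (22, 21), (37, 38), (38, 37), (53, 54), (54, 53), (69, 70), (70, 69), (87, 103), (88, 104), (89, 105), (90, 106), (91, 107), (92, 108), (93, 109), (94, 110), (95, 111), (103, 87), (104, 88), (105, 89), (106, 90), (107, 91), (108, 92), (109, 93), (110, 94), (111, 95)],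
   [(6, 7), (7, 6), (22, 23), (23, 22), (38, 39), (39, 38), (54, 55), (55, 54), (70, 71), (71, 70), (86, 87), (87, 86), (104, 120), (105, 121), (106, 122), (107, 123), (108, 124), (109, 125), (110, 126), (111, 127), (120, 104), (121, 105), (122, 106), (123, 107), (124, 108), (125, 109), (126, 110), (127, 111)],
   [(7, 8), (8, 7), (23, 24), (24, 23), (39, 40), (40, 39), (55, 56), (56, 55), (71, 72), (72, 71), (87, 88), (88, 87), (103, 104), (104, 103), (121, 137), (122, 138), (123, 139), (124, 140), (125, 141), (126, 142), (127, 143), (137, 121), (138, 122), (139, 123), (140, 124), (141, 125), (142, 126), (143, 127)],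
   [(8, 9), (9, 8), (24, 25), (25, 24), (40, 41), (41, 40), (56, 57), (57, 56), (72, 73), (73, 72), (88, 89), (89, 88), (104, 105), (105, 104), (120, 121), (121, 120), (138, 154), (139, 155), (140, 156), (141, 157), (142, 158), (143, 159), (154, 138), (155, 139), (156, 140), (157, 141), (158, 142), (159, 143)],
   [(9, 10), (10, 9), (25, 26), (26, 25), (41, 42), (42, 41), (57, 58), (58, 57), (73, 74), (74, 73), (89, 90), (90, 89), (105, 106), (106, 105), (121, 122), (122, 121), (137, 138), (138, 137), (155, 171), (156, 172), (157, 173), (158, 174), (159, 175), (171, 155), (172, 156), (173, 157), (174, 158), (175, 159)],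
   [(10, 11), (11, 10), (26, 27), (27, 26), (42, 43), (43, 42), (58, 59), (59, 58), (74, 75), (75, 74), (90, 91), (91, 90), (106, 107), (107, 106), (122, 123), (123, 122), (138, 139), (139, 138), (154, 155), (155, 154), (172, 188), (173, 189), (174, 190), (175, 191), (188, 172), (189, 173), (190, 174), (191, 175)],
   [(11, 12), (12, 11), (27, 28), (28, 27), (43, 44), (44, 43), (59, 60), (60, 59), (75, 76), (76, 75), (91, 92), (92, 91), (107, 108), (108, 107), (123, 124), (124, 123), (139, 140), (140, 139), (155, 156), (156, 155), (171, 172), (172, 171), (189, 205), (190, 206), (191, 207), (205, 189), (206, 190), (207, 191)],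
   [(12, 13), (13, 12), (28, 29), (29, 28), (44, 45), (45, 44), (60, 61), (61, 60), (76, 77), (77, 76), (92, 93), (93, 92), (108, 109), (109, 108), (124, 125), (125, 124), (140, 141), (141, 140), (156, 157), (157, 156), (172, 173), (173, 172), (188, 189), (189, 188), (206, 222), (207, 223), (222, 206), (223, 207)],
   [(13, 14), (14, 13), (29, 30), (30, 29), (45, 46), (46, 45), (61, 62), (62, 61), (77, 78), (78, 77), (93, 94), (94, 93), (109, 110), (110, 109), (125, 126), (126, 125), (141, 142), (142, 141), (157, 158), (158, 157), (173, 174), (174, 173), (189, 190), (190, 189), (205, 206), (206, 205), (223, 239), (239, 223)],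
   [(14, 15), (15, 14), (30, 31), (31, 30), (46, 47), (47, 46), (62, 63), (63, 62), (78, 79), (79, 78), (94, 95), (95, 94), (110, 111), (111, 110), (126, 127), (127, 126), (142, 143), (143, 142), (158, 159), (159, 158), (174, 175), (175, 174), (190, 191), (191, 190), (206, 207), (207, 206), (222, 223), (223, 222)],
   [(3, 4), (4, 3), (10, 13), (11, 14), (12, 15), (13, 10), (14, 11), (15, 12), (19, 20), (20, 19), (26, 29), (27, 30), (28, 31), (29, 26), (30, 27), (31, 28), (35, 36), (36, 35), (42, 45), (43, 46), (44, 47), (45, 42), (46, 43), (47, 44), (53, 69), (54, 70), (55, 71), (56, 72), (57, 73), (58, 77), (59, 78), (60, 79), (61, 74), (62, 75), (63, 76), (69, 53), (70, 54), (71, 55), (72, 56), (73, 57), (74, 61), (75, 62), (76, 63), (77, 58), (78, 59), (79, 60), (90, 93), (91, 94), (92, 95), (93, 90),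 (94, 91), (95, 92), (106, 109), (107, 110), (108, 111), (109, 106), (110, 107), (111, 108), (122, 125), (123, 126), (124, 127), (125, 122), (126, 123), (127, 124), (138, 141), (139, 142), (140, 143), (141, 138), (142, 139), (143, 140), (154, 157), (155, 158), (156, 159), (157, 154), (158, 155), (159, 156), (171, 222), (172, 223), (174, 189), (175, 205), (188, 239), (189, 174), (191, 206), (205, 175), (206, 191), (222, 171), (223, 172), (239, 188)],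
   [(1, 2), (2, 1), (6, 8), (7, 9), (8, 6), (9, 7), (19, 35), (20, 36), (21, 37), (22, 40), (23, 41), (24, 38), (25, 39), (26, 42), (27, 43), (28, 44), (29, 45), (30, 46), (31, 47), (35, 19), (36, 20), (37, 21), (38, 24), (39, 25), (40, 22), (41, 23), (42, 26), (43, 27), (44, 28), (45, 29), (46, 30), (47, 31), (54, 56), (55, 57), (56, 54), (57, 55), (70, 72), (71, 73), (72, 70), (73, 71), (86, 88), (87, 89), (88, 86), (89, 87), (103, 137), (105, 120), (106, 138), (107, 139), (108, 140), (109, 141), (110, 142), (111, 143), (120, 105), (122, 154), (123, 155), (124, 156), (125, 157), (126, 158), (127, 159), (137, 103), (138, 106), (139, 107), (140, 108), (141, 109), (142, 110), (143, 111), (154, 122), (155, 123), (156, 124), (157, 125), (158, 126), (159, 127)],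
   [(1, 2), (2, 1), (5, 8), (6, 9), (7, 10), (8, 5), (9, 6), (10, 7), (19, 35), (20, 36), (21, 40), (22, 41), (23, 42), (24, 37), (25, 38), (26, 39), (27, 43), (28, 44), (29, 45), (30, 46), (31, 47), (35, 19), (36, 20), (37, 24), (38, 25), (39, 26), (40, 21), (41, 22), (42, 23), (43, 27), (44, 28), (45, 29), (46, 30), (47, 31), (53, 56), (54, 57), (55, 58), (56, 53), (57, 54), (58, 55), (69, 72), (70, 73), (71, 74), (72, 69), (73, 70), (74, 71), (86, 137), (87, 138), (89, 104), (90, 120), (91, 139), (92, 140), (93, 141), (94, 142), (95, 143), (103, 154), (104, 89), (106, 121), (107, 155), (108, 156), (109, 157), (110, 158), (111, 159), (120, 90), (121, 106), (123, 171), (124, 172), (125, 173), (126, 174), (127, 175), (137, 86), (138, 87), (139, 91), (140, 92), (141, 93), (142, 94), (143, 95), (154, 103),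 (155, 107), (156, 108), (157, 109), (158, 110), (159, 111), (171, 123), (172, 124), (173, 125), (174, 126), (175, 127)],
   [(1, 3), (3, 1), (5, 10), (6, 11), (7, 12), (10, 5), (11, 6), (12, 7), (18, 35), (20, 52), (21, 58), (22, 59), (23, 60), (24, 56), (25, 57), (26, 53), (27, 54), (28, 55), (29, 61), (30, 62), (31, 63), (35, 18), (37, 42), (38, 43), (39, 44), (42, 37), (43, 38), (44, 39), (52, 20), (53, 26), (54, 27), (55, 28), (56, 24), (57, 25), (58, 21), (59, 22), (60, 23), (61, 29), (62, 30), (63, 31), (69, 74), (70, 75), (71, 76), (74, 69), (75, 70), (76, 71), (86, 171), (87, 172), (88, 138), (89, 154), (91, 106), (92, 122), (93, 173), (94, 174), (95, 175), (103, 188), (104, 139), (105, 155), (106, 91), (108, 123), (109, 189), (110, 190), (111, 191), (120, 140), (121, 156), (122, 92), (123, 108),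 (125, 205), (126, 206), (127, 207), (138, 88), (139, 104), (140, 120), (154, 89), (155, 105), (156, 121), (171, 86), (172, 87), (173, 93), (174, 94), (175, 95), (188, 103), (189, 109), (190, 110), (191, 111), (205, 125), (206, 126), (207, 127)],
   [(1, 3), (3, 1), (5, 11), (6, 12), (7, 13), (11, 5), (12, 6), (13, 7), (18, 35), (20, 52), (21, 59), (22, 60), (23, 61), (24, 56), (25, 57), (26, 58), (27, 53), (28, 54), (29, 55), (30, 62), (31, 63), (35, 18), (37, 43), (38, 44), (39, 45), (43, 37), (44, 38), (45, 39), (52, 20), (53, 27), (54, 28), (55, 29), (56, 24), (57, 25), (58, 26), (59, 21), (60, 22), (61, 23), (62, 30), (63, 31), (69, 75), (70, 76), (71, 77), (75, 69), (76, 70), (77, 71), (86, 188), (87, 189), (88, 139), (89, 155), (90, 171), (92, 107), (93, 123), (94, 190), (95, 191), (103, 205), (104,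 140), (105, 156), (106, 172), (107, 92), (109, 124), (110, 206), (111, 207), (120, 141), (121, 157), (122, 173), (123, 93), (124, 109), (126, 222), (127, 223), (139, 88), (140, 104), (141, 120), (155, 89), (156, 105), (157, 121), (171, 90), (172, 106), (173, 122), (188, 86), (189, 87), (190, 94), (191, 95), (205, 103), (206, 110), (207, 111), (222, 126), (223, 127)],
   [(3, 4), (4, 3), (5, 13), (11, 14), (12, 15), (13, 5), (14, 11), (15, 12), (19, 20), (20, 19), (21, 29), (27, 30), (28, 31), (29, 21), (30, 27), (31, 28), (35, 36), (36, 35), (37, 45), (43, 46), (44, 47), (45, 37), (46, 43), (47, 44), (53, 77), (54, 70), (55, 71), (56, 72), (57, 73), (58, 74), (59, 78), (60, 79), (61, 69), (62, 75), (63, 76), (69, 61), (70, 54), (71, 55), (72, 56), (73, 57), (74, 58), (75, 62), (76, 63), (77, 53), (78, 59),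 (79, 60), (86, 109), (87, 125), (88, 141), (89, 157), (90, 173), (91, 222), (92, 223), (94, 189), (95, 205), (107, 110), (108, 111), (109, 86), (110, 107), (111, 108), (123, 126), (124, 127), (125, 87), (126, 123), (127, 124), (139, 142), (140, 143), (141, 88), (142, 139), (143, 140), (155, 158), (156, 159), (157, 89), (158, 155), (159, 156), (171, 174), (172, 175), (173, 90), (174, 171), (175, 172), (188, 239), (189, 94), (191, 206), (205, 95), (206, 191), (222, 91), (223, 92), (239, 188)]]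

theorem chk_tree : chk fins tab t35 0 57896486333794311352466587372716853682903935386526539088661048023915243372545 = true := by decide +kernel

end Pool.Agent.H170R2.Chk
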